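import Pool.Agent.SFT.Defs

/-!
# SFT-BasA: spans modulo a subspace (general field)
-/

namespace Pool.Agent.SFT

open Finset Module

variable {k V : Type} [Field k] [AddCommGroup V] [Module k V]

theorem le_hat (K : Submodule k V) (X : Set V) : K ≤ hat K X :=
  le_sup_left

theorem subset_hat (K : Submodule k V) (X : Set V) : X ⊆ hat K X :=
  fun _ hx => Submodule.mem_sup_right (Submodule.subset_span hx)

theorem hat_le {K L : Submodule k V} {X : Set V} (h1 : K ≤ L) (h2 : X ⊆ L) : hat K X ≤ L :=
  sup_le h1 (Submodule.span_le.2 h2)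

theorem hat_mono {K L : Submodule k V} {X Y : Set V} (h1 : K ≤ L) (h2 : X ⊆ Y) :
    hat K X ≤ hat L Y :=
  sup_le_sup h1 (Submodule.span_mono h2)

theorem hat_empty (K : Submodule k V) : hat K (∅ : Set V) = K := by
  unfold hat
  rw [Submodule.span_empty, sup_bot_eq]

theorem hat_union (K : Submodule k V) (X Y : Set V) : hat K (X ∪ Y) = hat K X ⊔ hat K Y := by
  unfold hat
  rw [Submodule.span_union, sup_sup_distrib_left]

theorem hat_hat (K : Submodule k V) (X Y : Set V) : hat (hat K X) Y = hat K (X ∪ Y) := by
  unfold hat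
  rw [Submodule.span_union, sup_assoc]

theorem hat_insert (K : Submodule k V) (x : V) (X : Set V) :
    hat K (insert x X) = hat K X ⊔ hat K {x} := by
  rw [Set.insert_eq, hat_union, sup_comm]

/-- adding vectors which are already in the span changes nothing -/
theorem hat_union_of_subset (K : Submodule k V) (X Y : Set V) (h : Y ⊆ hat K X) :
    hat K (X ∪ Y) = hat K X :=
  le_antisymm (hat_le (le_hat K X) (Set.union_subset (subset_hat K X) h))
    (hat_mono le_rfl Set.subset_union_left)

theorem hat_insert_of_mem (K : Submodule k V) (T : Set V) (x : V) (h : x ∈ hat K T) :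
    hat K (insert x T) = hat K T := by
  refine le_antisymm (hat_le (le_hat K T) ?_) (hat_mono le_rfl (Set.subset_insert x T))
  intro y hy
  rcases Set.mem_insert_iff.1 hy with rfl | hy
  · exact h
  · exact subset_hat K T hy

theorem mem_hat_singleton (K : Submodule k V) (x v : V) :
    v ∈ hat K {x} ↔ ∃ c : k, v - c • x ∈ K := by
  constructor
  · intro h
    obtain ⟨y, hy, z, hz, rfl⟩ := Submodule.mem_sup.1 h
    obtain ⟨a, rfl⟩ := Submodule.mem_span_singleton.1 hz
    exact ⟨a, by rwa [add_sub_cancel_right]⟩
  · rintro ⟨c, h⟩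
    have h1 : v = (v - c • x) + c • x := (sub_add_cancel v _).symm
    rw [h1]
    exact Submodule.add_mem _ (le_hat K _ h)
      (Submodule.smul_mem _ c (subset_hat K _ (Set.mem_singleton x)))

/-- the span modulo `K` consists of the linear combinations modulo `K` -/
theorem mem_hat_iff (K : Submodule k V) (X : Finset V) (v : V) :
    v ∈ hat K (X : Set V) ↔ ∃ r : V → k, v - ∑ x ∈ X, r x • x ∈ K := by
  constructor
  · intro h
    obtain ⟨y, hy, z, hz, rfl⟩ := Submodule.mem_sup.1 h
    obtain ⟨f, _, rfl⟩ := Submodule.mem_span_finset.1 hz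
    exact ⟨f, by rwa [add_sub_cancel_right]⟩
  · rintro ⟨r, h⟩
    have h1 : v = (v - ∑ x ∈ X, r x • x) + ∑ x ∈ X, r x • x := (sub_add_cancel v _).symm
    rw [h1]
    refine Submodule.add_mem _ (le_hat K _ h) (Submodule.sum_mem _ fun x hx => ?_)
    exact Submodule.smul_mem _ _ (subset_hat K _ (Finset.mem_coe.2 hx))

/-- a minimal subset spanning `w` -/
theorem exists_min_span [DecidableEq V] (K : Submodule k V) (X : Finset V) (w : V)
    (hw : w ∈ hat K (X : Set V)) :
    ∃ D ⊆ X, w ∈ hat K (D : Set V) ∧ ∀ E ⊂ D, w ∉ hat K (E : Set V) := by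
  classical
  obtain ⟨D, hD, hmin⟩ := Finset.exists_min_image
    (X.powerset.filter (fun T : Finset V => w ∈ hat K (T : Set V))) Finset.card
    ⟨X, Finset.mem_filter.2 ⟨Finset.mem_powerset.2 subset_rfl, hw⟩⟩
  rw [Finset.mem_filter, Finset.mem_powerset] at hD
  refine ⟨D, hD.1, hD.2, fun E hE hwE => ?_⟩
  have h1 := hmin E (Finset.mem_filter.2 ⟨Finset.mem_powerset.2 (hE.1.trans hD.1), hwE⟩)
  have h3 := Finset.card_lt_card hE
  omega

/-- the modular law in the form used everywhere -/
theorem sup_inf_of_le {A B C : Submodule k V} (h : A ≤ C) : (A ⊔ B) ⊓ C = A ⊔ B ⊓ C :=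
  sup_inf_assoc_of_le B h

theorem finrank_sup_add_inf [FiniteDimensional k V] (A B : Submodule k V) :
    finrank k ↥(A ⊔ B) + finrank k ↥(A ⊓ B) = finrank k A + finrank k B :=
  Submodule.finrank_sup_add_finrank_inf_eq A B

/-- a space which does not contain `x` meets `hat K {x}` in `K` -/
theorem inf_hat_singleton {K A : Submodule k V} {x : V} (hKA : K ≤ A) (hx : x ∉ A) :
    A ⊓ hat K {x} = K := by
  apply le_antisymm
  · rintro v ⟨h1, h2⟩
    obtain ⟨c, hc⟩ := (mem_hat_singleton K x v).1 h2
    by_cases h0 : c = 0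
    · rwa [h0, zero_smul, sub_zero] at hc
    · exfalso
      apply hx
      have h3 : c • x ∈ A := by
        have h4 : c • x = v - (v - c • x) := (sub_sub_cancel v _).symm
        rw [h4]
        exact A.sub_mem h1 (hKA hc)
      exact (A.smul_mem_iff h0).1 h3
  · exact le_inf hKA (le_hat K _)

/-- adding one vector raises the dimension by one or nothing -/
theorem finrank_hat_singleton [FiniteDimensional k V] (K : Submodule k V) (x : V) (hx : x ∉ K) :
    finrank k (hat K {x}) = finrank k K + 1 := by
  have hx0 : x ≠ 0 := by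
    rintro rfl
    exact hx K.zero_mem
  have h1 : K ⊓ Submodule.span k {x} = ⊥ := by
    rw [eq_bot_iff]
    rintro v ⟨hv, hv'⟩
    obtain ⟨a, rfl⟩ := Submodule.mem_span_singleton.1 hv'
    by_cases ha : a = 0
    · rw [ha, zero_smul]
      exact Submodule.zero_mem _
    · exact absurd ((K.smul_mem_iff ha).1 hv) hx
  have h2 := Submodule.finrank_sup_add_finrank_inf_eq K (Submodule.span k {x})
  rw [h1, finrank_bot, add_zero, finrank_span_singleton hx0] at h2
  exact h2

theorem finrank_hat_le [FiniteDimensional k V] (K : Submodule k V) (X : Finset V) :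
    finrank k (hat K (X : Set V)) ≤ finrank k K + X.card := by
  refine (Submodule.finrank_add_le_finrank_add_finrank K _).trans ?_
  have := finrank_span_finset_le_card (R := k) X
  unfold Set.finrank at this
  omega

/-- if `A` and `C` meet in `K`, the dimension of the intersection with `A` does not change when
everything is taken modulo `C`: for `K ≤ B ≤ A` one has `dim (C + B) - dim C = dim B - dim K` -/
theorem finrank_sup_of_inf_eq [FiniteDimensional k V] {K A B C : Submodule k V}
    (h : A ⊓ C = K) (hKB : K ≤ B) (hBA : B ≤ A) (hKC : K ≤ C) :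
    finrank k ↥(C ⊔ B) + finrank k K = finrank k C + finrank k B := by
  have h1 : C ⊓ B = K := by
    apply le_antisymm
    · rw [← h, inf_comm C B]
      exact inf_le_inf_right C hBA
    · exact le_inf hKC hKB
  have h2 := Submodule.finrank_sup_add_finrank_inf_eq C B
  rw [h1] at h2
  exact h2

/-- if `dim G ≤ dim K + 1` and `w ∈ G \ K` then `G = hat K {w}` -/
theorem eq_hat_singleton [FiniteDimensional k V] {K G : Submodule k V} {w : V} (hKG : K ≤ G)
    (hG : finrank k G ≤ finrank k K + 1) (hw : w ∈ G) (hwK : w ∉ K) : G = hat K {w} := by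
  have h1 : hat K {w} ≤ G := hat_le hKG (Set.singleton_subset_iff.2 hw)
  have h2 := finrank_hat_singleton K w hwK
  exact (Submodule.eq_of_le_of_finrank_le h1 (by omega)).symm

/-- an independent subset with the same span -/
theorem exists_indep_subset [DecidableEq V] [FiniteDimensional k V] (K : Submodule k V)
    (Y : Finset V) : ∃ C ⊆ Y, hat K (C : Set V) = hat K (Y : Set V) ∧
      ∀ r : V → k, ∑ x ∈ C, r x • x ∈ K → ∀ x ∈ C, r x = 0 := by
  classical
  obtain ⟨D, hD, hmin⟩ := Finset.exists_min_image
    (Y.powerset.filter (fun T : Finset V => hat K (T : Set V) = hat K (Y : Set V))) Finset.card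
    ⟨Y, Finset.mem_filter.2 ⟨Finset.mem_powerset.2 subset_rfl, rfl⟩⟩
  rw [Finset.mem_filter, Finset.mem_powerset] at hD
  refine ⟨D, hD.1, hD.2, fun r hs x hx => ?_⟩
  by_contra hne
  have h1 : x ∈ hat K ((D.erase x : Finset V) : Set V) := by
    rw [← Finset.add_sum_erase D (fun y => r y • y) hx] at hs
    have h2 : r x • x ∈ hat K ((D.erase x : Finset V) : Set V) := by
      have h3 : r x • x = (r x • x + ∑ y ∈ D.erase x, r y • y) - ∑ y ∈ D.erase x, r y • y :=
        (add_sub_cancel_right _ _).symm
      rw [h3]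
      refine Submodule.sub_mem _ (le_hat K _ hs) (Submodule.sum_mem _ fun y hy => ?_)
      exact Submodule.smul_mem _ _ (subset_hat K _ (Finset.mem_coe.2 hy))
    exact (Submodule.smul_mem_iff _ hne).1 h2
  have h2 : hat K ((D.erase x : Finset V) : Set V) = hat K (D : Set V) := by
    have h3 := hat_insert_of_mem K _ x h1
    rw [← Finset.coe_insert, Finset.insert_erase hx] at h3
    exact h3.symm
  have h3 := hmin (D.erase x) (Finset.mem_filter.2
    ⟨Finset.mem_powerset.2 ((Finset.erase_subset x D).trans hD.1), h2.trans hD.2⟩)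
  have h4 := Finset.card_erase_lt_of_mem hx
  omega

/-- the dimension of the span of an independent set -/
theorem finrank_hat_of_indep [DecidableEq V] [FiniteDimensional k V] (K : Submodule k V)
    (C : Finset V) (hC : ∀ r : V → k, ∑ x ∈ C, r x • x ∈ K → ∀ x ∈ C, r x = 0) :
    finrank k (hat K (C : Set V)) = finrank k K + C.card := by
  classical
  induction C using Finset.induction_on with
  | empty => rw [Finset.coe_empty, hat_empty, Finset.card_empty, add_zero]
  | insert x C hx ih =>
    have h1 : ∀ r : V → k, ∑ y ∈ C, r y • y ∈ K → ∀ y ∈ C, r y = 0 := by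
      intro r hr y hy
      have h2 := hC (fun z => if z = x then 0 else r z) (by
        rw [Finset.sum_insert hx, if_pos rfl, zero_smul, zero_add]
        have h3 : ∑ z ∈ C, (if z = x then (0 : k) else r z) • z = ∑ z ∈ C, r z • z := by
          refine Finset.sum_congr rfl fun z hz => ?_
          rw [if_neg]
          rintro rfl
          exact hx hz
        rw [h3]
        exact hr) y (Finset.mem_insert_of_mem hy)
      rwa [if_neg] at h2
      rintro rfl
      exact hx hy
    have h2 : x ∉ hat K (C : Set V) := by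
      intro h
      obtain ⟨r, hr⟩ := (mem_hat_iff K C x).1 h
      have h3 := hC (fun z => if z = x then 1 else - r z) (by
        rw [Finset.sum_insert hx, if_pos rfl, one_smul]
        have h3 : ∑ z ∈ C, (if z = x then (1 : k) else - r z) • z = - ∑ z ∈ C, r z • z := by
          rw [← Finset.sum_neg_distrib]
          refine Finset.sum_congr rfl fun z hz => ?_
          rw [if_neg, neg_smul]
          rintro rfl
          exact hx hz
        rw [h3, ← sub_eq_add_neg]
        exact hr) x (Finset.mem_insert_self x C)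
      rw [if_pos rfl] at h3
      exact one_ne_zero h3
    have h3 : hat K ((insert x C : Finset V) : Set V) = hat (hat K (C : Set V)) {x} := by
      rw [hat_hat, Finset.coe_insert, Set.union_singleton]
    rw [h3, finrank_hat_singleton _ _ h2, ih h1, Finset.card_insert_of_notMem hx, add_assoc]

/-- a basis of `D` modulo `K` -/
theorem exists_basis_mod [DecidableEq V] [FiniteDimensional k V] {K D : Submodule k V}
    (h : K ≤ D) : ∃ X : Finset V, (∀ x ∈ X, x ∈ D) ∧ hat K (X : Set V) = D ∧
      finrank k K + X.card = finrank k D ∧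
      ∀ r : V → k, ∑ x ∈ X, r x • x ∈ K → ∀ x ∈ X, r x = 0 := by
  obtain ⟨Y, hY⟩ := IsNoetherian.noetherian D
  obtain ⟨C, hCY, hC, hind⟩ := exists_indep_subset K Y
  have h1 : hat K (Y : Set V) = D := by
    unfold hat
    rw [hY, sup_eq_right.2 h]
  rw [h1] at hC
  refine ⟨C, fun x hx => ?_, hC, ?_, hind⟩
  · rw [← hC]
    exact subset_hat K _ (Finset.mem_coe.2 hx)
  · rw [← hC, finrank_hat_of_indep K C hind]

end Pool.Agent.SFT
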