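import Pool.Agent.SFT.BasA

/-!
# SFT-Fm1: forms, the basic lemmas

`mem_span_iff`: the right hand side is an `F`-subspace: for `c : F`, `c * α j = ∑ i, m i j • α i` with
`m i j : E`, so `c • ∑ α j • a j = ∑ i, α i • ∑ j, m i j • a j` (`IsScalarTower`); it contains `A`
(`1 = ∑ j, m j • α j`, `a = ∑ j, α j • (m j • a)`). Or: `Submodule.span_induction`.
`isForm_of_basis`: let `β : Fin r → F` be independent over `E`, `∑ j, β j • l j ∈ K`. `β j = ∑ i, m i j • α i`
(`Basis.sum_repr`), so `∑ i, α i • (∑ j, m i j • l j) ∈ K` and by `h` all `∑ j, m i j • l j ∈ K`. There is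
an `E`-linear `γ : F → (Fin r → E)` with `γ (β j) = Pi.single j 1` (left inverse of the injective map
`Fintype.linearCombination E β`, `LinearMap.exists_leftInverse_of_injective`), and
`l t = ∑ j, γ (β j) t • l j = ∑ i, γ (α i) t • ∑ j, m i j • l j ∈ K`.
`IsForm.basis`: `inj` reindexed by `Fintype.equivFin ι` (`α.linearIndependent`).
`IsForm.mem_of_mem_span`: `v = ∑ j, α j • a j` (`mem_span_iff`, `α` a basis, `Module.finBasis E F`),
`1 = ∑ j, m j • α j`, so `∑ j, α j • (m j • v - a j) = 0 ∈ K`, so `m j • v - a j ∈ K`, so `m j • v ∈ A` for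
all `j`, and some `m j ≠ 0`.
`IsForm.coef`: write `γ i = ∑ j, m i j • α j`. Let `w = ∑ i, γ i • y i ∈ L`, `1 = ∑ j, n j • α j`. Then
`∑ j, α j • (n j • w - ∑ i, m i j • y i) = 0`, so `n j • w - ∑ i, m i j • y i ∈ K` for all `j`. Substituting
`w = ∑ i, γ i • y i`: `∑ i, (n j • γ i - m i j) • y i ∈ K`, so by `ind` `algebraMap (n j) * γ i = algebraMap (m i j)`
for all `j`; take `j` with `n j ≠ 0` (exists since `1 ≠ 0`): `γ i = algebraMap (m i j / n j)`.
`IsForm.smul`: `L' := L.comap` of the `E`-linear map `v ↦ c⁻¹ • v`; `∑ α j • l j ∈ K` gives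
`∑ α j • (c⁻¹ • l j) ∈ K`.
-/

namespace Pool.Agent.SFT

open Finset Module

variable {E F V : Type} [Field E] [Field F] [Algebra E F] [AddCommGroup V] [Module F V]
  [Module E V] [IsScalarTower E F V]
  {K : Submodule F V} {L : Submodule E V}

private theorem fm_comm (m : E) (a : F) (v : V) : m • a • v = a • m • v := by
  rw [← algebraMap_smul F m (a • v), ← algebraMap_smul F m v, smul_comm]

private theorem fm_key {ι : Type} [Fintype ι] (α : Basis ι E F) (x : F) (v : V) :
    x • v = ∑ i, α i • (α.repr x i • v) := by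
  conv_lhs => rw [← α.sum_repr x, Finset.sum_smul]
  refine Finset.sum_congr rfl fun i _ => ?_
  rw [smul_assoc, fm_comm]

private theorem fm_key2 {ι κ : Type} [Fintype ι] [Fintype κ] (α : Basis ι E F) (x : κ → F) (a : κ → V) :
    ∑ j, x j • a j = ∑ i, α i • ∑ j, α.repr (x j) i • a j := by
  have h1 : ∀ j, x j • a j = ∑ i, α i • (α.repr (x j) i • a j) := fun j => fm_key α (x j) (a j)
  rw [Finset.sum_congr rfl fun j _ => h1 j, Finset.sum_comm]
  refine Finset.sum_congr rfl fun i _ => ?_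
  rw [Finset.smul_sum]

private theorem fm_smulK (m : E) {v : V} (hv : v ∈ K) : m • v ∈ K := by
  rw [← algebraMap_smul F m v]
  exact K.smul_mem _ hv

/-- the `F`-span of an `E`-subspace -/
theorem mem_span_iff {ι : Type} [Fintype ι] (α : Basis ι E F) (A : Submodule E V) (v : V) :
    v ∈ Submodule.span F (A : Set V) ↔ ∃ a : ι → V, (∀ j, a j ∈ A) ∧ v = ∑ j, α j • a j := by
  constructor
  · intro h
    induction h using Submodule.span_induction with
    | mem x hx =>
      refine ⟨fun j => α.repr 1 j • x, fun j => A.smul_mem _ hx, ?_⟩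
      rw [← fm_key α 1 x, one_smul]
    | zero => exact ⟨fun _ => 0, fun _ => A.zero_mem, by simp⟩
    | add x y hx hy h1 h2 =>
      obtain ⟨a, ha, rfl⟩ := h1
      obtain ⟨b, hb, rfl⟩ := h2
      refine ⟨fun j => a j + b j, fun j => A.add_mem (ha j) (hb j), ?_⟩
      rw [← Finset.sum_add_distrib]
      exact Finset.sum_congr rfl fun j _ => (smul_add _ _ _).symm
    | smul c x hx h1 =>
      obtain ⟨a, ha, rfl⟩ := h1
      refine ⟨fun i => ∑ j, α.repr (c * α j) i • a j,
        fun i => A.sum_mem fun j _ => A.smul_mem _ (ha j), ?_⟩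
      rw [← fm_key2 α (fun j => c * α j) a, Finset.smul_sum]
      exact Finset.sum_congr rfl fun j _ => by rw [mul_smul]
  · rintro ⟨a, ha, rfl⟩
    exact Submodule.sum_mem _ fun j _ => Submodule.smul_mem _ _ (Submodule.subset_span (ha j))

theorem isForm_of_basis {ι : Type} [Fintype ι] (α : Basis ι E F) (hK : ∀ v ∈ K, v ∈ L)
    (h : ∀ l : ι → V, (∀ j, l j ∈ L) → ∑ j, α j • l j ∈ K → ∀ j, l j ∈ K) : IsForm K L := by
  classical
  refine ⟨hK, fun r β hβ l hl hs t => ?_⟩
  rw [fm_key2 α β l] at hs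
  have h1 := h (fun i => ∑ j, α.repr (β j) i • l j)
    (fun i => L.sum_mem fun j _ => L.smul_mem _ (hl j)) hs
  have hinj : LinearMap.ker (Fintype.linearCombination E β) = ⊥ := by
    rw [LinearMap.ker_eq_bot]
    exact hβ.fintypeLinearCombination_injective
  obtain ⟨γ, hγ⟩ := (Fintype.linearCombination E β).exists_leftInverse_of_injective hinj
  have hγj : ∀ j, γ (β j) = Pi.single j 1 := by
    intro j
    have h2 := LinearMap.congr_fun hγ (Pi.single j 1)
    rw [LinearMap.comp_apply, Fintype.linearCombination_apply_single, one_smul] at h2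
    exact h2
  have h3 : l t = ∑ i, γ (α i) t • ∑ j, α.repr (β j) i • l j := by
    have h4 : ∀ j, γ (β j) t • l j = ∑ i, γ (α i) t • (α.repr (β j) i • l j) := by
      intro j
      conv_lhs => rw [← α.sum_repr (β j), map_sum, Finset.sum_apply, Finset.sum_smul]
      refine Finset.sum_congr rfl fun i _ => ?_
      rw [map_smul, Pi.smul_apply, smul_eq_mul, mul_comm, mul_smul]
    have h5 : ∑ j, γ (β j) t • l j = l t := by
      rw [Finset.sum_eq_single t]
      · rw [hγj, Pi.single_eq_same, one_smul]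
      · intro j _ hj
        rw [hγj, Pi.single_eq_of_ne (Ne.symm hj), zero_smul]
      · intro h6
        exact absurd (Finset.mem_univ _) h6
    rw [← h5, Finset.sum_congr rfl fun j _ => h4 j, Finset.sum_comm]
    refine Finset.sum_congr rfl fun i _ => ?_
    rw [Finset.smul_sum]
  rw [h3]
  exact Submodule.sum_mem _ fun i _ => fm_smulK _ (h1 i)

theorem IsForm.basis {ι : Type} [Fintype ι] (h : IsForm K L) (α : Basis ι E F) (l : ι → V)
    (hl : ∀ j, l j ∈ L) (hs : ∑ j, α j • l j ∈ K) : ∀ j, l j ∈ K := by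
  intro j
  have h1 := h.inj (Fintype.card ι) (fun i => α ((Fintype.equivFin ι).symm i))
    (α.linearIndependent.comp _ (Fintype.equivFin ι).symm.injective)
    (fun i => l ((Fintype.equivFin ι).symm i)) (fun i => hl _) (by
      rw [Equiv.sum_comp (Fintype.equivFin ι).symm fun i => α i • l i]
      exact hs) (Fintype.equivFin ι j)
  rwa [Equiv.symm_apply_apply] at h1

theorem IsForm.mono (h : IsForm K L) {L' : Submodule E V} (hL : L' ≤ L)
    (hK : ∀ v ∈ K, v ∈ L') : IsForm K L' :=
  ⟨hK, fun r α hα l hl hs j => h.inj r α hα l (fun i => hL (hl i)) hs j⟩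

private theorem fm_one {ι : Type} [Fintype ι] (α : Basis ι E F) : ∃ j, α.repr 1 j ≠ 0 := by
  by_contra hc
  push Not at hc
  have h1 := α.sum_repr (1 : F)
  rw [Finset.sum_congr rfl fun j _ => by rw [hc j, zero_smul], Finset.sum_const_zero] at h1
  exact zero_ne_one h1

/-- purity: vectors of the form which are in the `F`-span of a subspace of it -/
theorem IsForm.mem_of_mem_span [FiniteDimensional E F] (h : IsForm K L) {A : Submodule E V}
    (hA : A ≤ L) (hKA : ∀ v ∈ K, v ∈ A) {v : V} (hv : v ∈ L)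
    (hs : v ∈ Submodule.span F (A : Set V)) : v ∈ A := by
  set α := Module.finBasis E F
  obtain ⟨a, ha, hva⟩ := (mem_span_iff α A v).1 hs
  obtain ⟨j, hj⟩ := fm_one α
  have h1 : ∑ i, α i • (α.repr 1 i • v - a i) ∈ K := by
    have h2 : ∑ i, α i • (α.repr 1 i • v - a i) = 0 := by
      rw [Finset.sum_congr rfl fun i _ => smul_sub (α i) (α.repr 1 i • v) (a i),
        Finset.sum_sub_distrib, ← fm_key α 1 v, one_smul, ← hva, sub_self]
    rw [h2]
    exact K.zero_mem
  have h2 := h.basis α (fun i => α.repr 1 i • v - a i)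
    (fun i => L.sub_mem (L.smul_mem _ hv) (hA (ha i))) h1 j
  have h3 : α.repr 1 j • v ∈ A := by
    have h4 : α.repr 1 j • v = (α.repr 1 j • v - a j) + a j := (sub_add_cancel _ _).symm
    rw [h4]
    exact A.add_mem (hKA _ h2) (ha j)
  exact (A.smul_mem_iff hj).1 h3

/-- uniqueness: the coefficients of a vector of the form in an independent family of the form are
in the small field -/
theorem IsForm.coef [FiniteDimensional E F] {κ : Type} [Fintype κ] (h : IsForm K L) (y : κ → V)
    (hy : ∀ i, y i ∈ L) (ind : ∀ r : κ → F, ∑ i, r i • y i ∈ K → r = 0) (γ : κ → F)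
    (hγ : ∑ i, γ i • y i ∈ L) : ∀ i, ∃ a : E, algebraMap E F a = γ i := by
  set α := Module.finBasis E F
  obtain ⟨j, hj⟩ := fm_one α
  set w := ∑ i, γ i • y i with hw
  have h1 : ∑ t, α t • (α.repr 1 t • w - ∑ i, α.repr (γ i) t • y i) ∈ K := by
    have h2 : ∑ t, α t • (α.repr 1 t • w - ∑ i, α.repr (γ i) t • y i) = 0 := by
      rw [Finset.sum_congr rfl fun t _ => smul_sub (α t) (α.repr 1 t • w) _,
        Finset.sum_sub_distrib, ← fm_key α 1 w, one_smul, ← fm_key2 α γ y, sub_self]
    rw [h2]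
    exact K.zero_mem
  have h2 := h.basis α (fun t => α.repr 1 t • w - ∑ i, α.repr (γ i) t • y i)
    (fun t => L.sub_mem (L.smul_mem _ hγ) (L.sum_mem fun i _ => L.smul_mem _ (hy i))) h1 j
  have h3 : ∑ i, (algebraMap E F (α.repr 1 j) * γ i - algebraMap E F (α.repr (γ i) j)) • y i ∈ K := by
    have h4 : ∑ i, (algebraMap E F (α.repr 1 j) * γ i - algebraMap E F (α.repr (γ i) j)) • y i =
        α.repr 1 j • w - ∑ i, α.repr (γ i) j • y i := by
      rw [Finset.sum_congr rfl fun i _ => sub_smul _ _ _, Finset.sum_sub_distrib, hw,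
        Finset.smul_sum]
      congr 1
      · refine Finset.sum_congr rfl fun i _ => ?_
        rw [mul_smul, algebraMap_smul]
      · refine Finset.sum_congr rfl fun i _ => ?_
        rw [algebraMap_smul]
    rw [h4]
    exact h2
  have h5 := ind _ h3
  intro i
  have h6 := congrFun h5 i
  refine ⟨α.repr (γ i) j / α.repr 1 j, ?_⟩
  have h7 : algebraMap E F (α.repr 1 j) ≠ 0 := by
    rw [Ne, FaithfulSMul.algebraMap_eq_zero_iff]
    exact hj
  have h8 : algebraMap E F (α.repr 1 j) * γ i = algebraMap E F (α.repr (γ i) j) := sub_eq_zero.1 h6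
  rw [map_div₀, ← h8, mul_div_cancel_left₀ _ h7]

theorem IsForm.smul (h : IsForm K L) {c : F} (hc : c ≠ 0) :
    ∃ L' : Submodule E V, IsForm K L' ∧ ∀ v, v ∈ L' ↔ c⁻¹ • v ∈ L := by
  have hc' : c⁻¹ ≠ 0 := inv_ne_zero hc
  refine ⟨{ carrier := {v | c⁻¹ • v ∈ L}
            add_mem' := ?_
            zero_mem' := ?_
            smul_mem' := ?_ }, ⟨?_, ?_⟩, fun v => Iff.rfl⟩
  · intro a b ha hb
    show c⁻¹ • (a + b) ∈ L
    rw [smul_add]
    exact L.add_mem ha hb
  · show c⁻¹ • (0 : V) ∈ L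
    rw [smul_zero]
    exact L.zero_mem
  · intro m a ha
    show c⁻¹ • (m • a) ∈ L
    rw [← fm_comm]
    exact L.smul_mem _ ha
  · intro v hv
    exact h.le _ (K.smul_mem _ hv)
  · intro r β hβ l hl hs j
    have h1 : ∑ j, β j • (c⁻¹ • l j) ∈ K := by
      have h2 : ∑ j, β j • (c⁻¹ • l j) = c⁻¹ • ∑ j, β j • l j := by
        rw [Finset.smul_sum]
        exact Finset.sum_congr rfl fun j _ => smul_comm _ _ _
      rw [h2]
      exact K.smul_mem _ hs
    exact (K.smul_mem_iff hc').1 (h.inj r β hβ (fun j => c⁻¹ • l j) hl h1 j)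

end Pool.Agent.SFT
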