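import Pool.Agent.SFT.BcM
import Pool.Agent.SFT.Fm1

/-!
# SFT-BcE: a bipartite clique in a form is a bipartite clique over the small field ((F4))
-/

namespace Pool.Agent.SFT

open Finset Module

variable {E F V : Type} [Field E] [Field F] [Algebra E F] [AddCommGroup V] [Module F V]
  [Module E V] [IsScalarTower E F V]
  [FiniteDimensional E F] [DecidableEq V] {K K' : Submodule F V} {L : Submodule E V} {n n' : ℕ}
  {g : Fin n ⊕ Fin n' → V} {B : Finset V} {σ : V → V}

/-- the difference of two unit vectors -/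
private def dd (F : Type) [Field F] {n n' : ℕ} (a b : Fin n ⊕ Fin n') : Fin n ⊕ Fin n' → F :=
  Pi.single a 1 - Pi.single b 1

omit [Field E] [Algebra E F] [Module E V] [IsScalarTower E F V] [FiniteDimensional E F]
  [DecidableEq V] in
private theorem dd_sum (a b : Fin n ⊕ Fin n') : ∑ v, dd F a b v = 0 := by
  unfold dd
  simp only [Pi.sub_apply, Finset.sum_sub_distrib, Finset.sum_pi_single', Finset.mem_univ, if_true,
    sub_self]

omit [Field E] [Algebra E F] [Module E V] [IsScalarTower E F V] [FiniteDimensional E F]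
  [DecidableEq V] in
private theorem dd_smul (g : Fin n ⊕ Fin n' → V) (a b : Fin n ⊕ Fin n') :
    ∑ v, dd F a b v • g v = g a - g b := by
  unfold dd
  simp only [Pi.sub_apply, sub_smul, Finset.sum_sub_distrib, Pi.single_apply, ite_smul, one_smul,
    zero_smul, Finset.sum_ite_eq', Finset.mem_univ, if_true]

omit [Field E] [Algebra E F] [Module E V] [IsScalarTower E F V] [FiniteDimensional E F]
  [DecidableEq V] in
/-- independence of three edges of a four cycle -/
private theorem ind3 (h : IsBC K g B) {i j : Fin n} {l l' : Fin n'} (hij : i ≠ j) (hll : l ≠ l')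
    (s0 s1 s2 : F) (hs : s0 • (g (Sum.inl j) - g (Sum.inr l)) +
      s1 • (g (Sum.inl j) - g (Sum.inr l')) + s2 • (g (Sum.inl i) - g (Sum.inr l')) ∈ K) :
    s0 = 0 ∧ s1 = 0 ∧ s2 = 0 := by
  have h1 := h.ind (s0 • dd F (Sum.inl j) (Sum.inr l) + s1 • dd F (Sum.inl j) (Sum.inr l') +
    s2 • dd F (Sum.inl i) (Sum.inr l')) (by
      simp only [Pi.add_apply, Pi.smul_apply, smul_eq_mul, Finset.sum_add_distrib,
        ← Finset.mul_sum, dd_sum, mul_zero, add_zero]) (by
      simp only [Pi.add_apply, Pi.smul_apply, add_smul, Finset.sum_add_distrib, smul_assoc,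
        ← Finset.smul_sum, dd_smul]
      exact hs)
  have e1 := congrFun h1 (Sum.inl i)
  have e2 := congrFun h1 (Sum.inr l)
  have e3 := congrFun h1 (Sum.inl j)
  simp only [dd, Pi.add_apply, Pi.smul_apply, Pi.sub_apply, smul_eq_mul, Pi.zero_apply,
    Pi.single_apply, Sum.inl.injEq, Sum.inr.injEq, reduceCtorEq, if_false, if_true, hij, hij.symm,
    hll] at e1 e2 e3
  have f2 : s2 = 0 := by linear_combination e1
  have f0 : s0 = 0 := by linear_combination -e2
  refine ⟨f0, ?_, f2⟩
  rw [f0] at e3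
  linear_combination e3

/-- the ratios on a four cycle are in the small field -/
private theorem cyc (h : IsBC K g B) (hL : IsForm K' L)
    (hKK : K ≤ K') (hK : hat K (B : Set V) ⊓ K' = K) {y : Fin n → Fin n' → V}
    {γ : Fin n → Fin n' → F} (hγ : ∀ i l, γ i l ≠ 0)
    (hy : ∀ i l, y i l - γ i l • (g (Sum.inl i) - g (Sum.inr l)) ∈ K) (hyL : ∀ i l, y i l ∈ L)
    {i j : Fin n} {l l' : Fin n'} (hij : i ≠ j) (hll : l ≠ l') :
    (∃ a : E, algebraMap E F a = γ i l / γ j l) ∧ (∃ a : E, algebraMap E F a = γ i l / γ j l') ∧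
      ∃ a : E, algebraMap E F a = γ i l / γ i l' := by
  set x : Fin n → Fin n' → V := fun i l => g (Sum.inl i) - g (Sum.inr l) with hx
  have h0 : ∀ i l, y i l - γ i l • x i l ∈ K := hy
  have key := hL.coef ![y j l, y j l', y i l'] (by
      intro t
      fin_cases t
      · exact hyL _ _
      · exact hyL _ _
      · exact hyL _ _) (by
      intro r hr
      rw [Fin.sum_univ_three] at hr
      have hr1 : r 0 • y j l + r 1 • y j l' + r 2 • y i l' ∈ K' := hr
      have e1 : (r 0 * γ j l) • x j l + (r 1 * γ j l') • x j l' + (r 2 * γ i l') • x i l' =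
          (r 0 • y j l + r 1 • y j l' + r 2 • y i l') - (r 0 • (y j l - γ j l • x j l) +
            r 1 • (y j l' - γ j l' • x j l') + r 2 • (y i l' - γ i l' • x i l')) := by
        simp only [smul_sub, mul_smul]
        abel
      have e2 : r 0 • (y j l - γ j l • x j l) + r 1 • (y j l' - γ j l' • x j l') +
          r 2 • (y i l' - γ i l' • x i l') ∈ K :=
        K.add_mem (K.add_mem (K.smul_mem _ (h0 _ _)) (K.smul_mem _ (h0 _ _)))
          (K.smul_mem _ (h0 _ _))
      have e3 : (r 0 * γ j l) • x j l + (r 1 * γ j l') • x j l' + (r 2 * γ i l') • x i l' ∈ K := by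
        rw [← hK]
        refine ⟨?_, ?_⟩
        · exact Submodule.add_mem _ (Submodule.add_mem _
            (Submodule.smul_mem _ _ (h.diff_mem j l)) (Submodule.smul_mem _ _ (h.diff_mem j l')))
            (Submodule.smul_mem _ _ (h.diff_mem i l'))
        · rw [e1]
          exact K'.sub_mem hr1 (hKK e2)
      obtain ⟨f0, f1, f2⟩ := ind3 h hij hll _ _ _ e3
      funext t
      fin_cases t
      · exact (mul_eq_zero.1 f0).resolve_right (hγ _ _)
      · exact (mul_eq_zero.1 f1).resolve_right (hγ _ _)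
      · exact (mul_eq_zero.1 f2).resolve_right (hγ _ _))
    ![γ i l / γ j l, -(γ i l / γ j l'), γ i l / γ i l'] (by
      rw [Fin.sum_univ_three]
      show (γ i l / γ j l) • y j l + (-(γ i l / γ j l')) • y j l' + (γ i l / γ i l') • y i l' ∈ L
      have e1 : (γ i l / γ j l) • y j l + (-(γ i l / γ j l')) • y j l' +
          (γ i l / γ i l') • y i l' = y i l + ((γ i l / γ j l) • (y j l - γ j l • x j l) +
            (-(γ i l / γ j l')) • (y j l' - γ j l' • x j l') +
            (γ i l / γ i l') • (y i l' - γ i l' • x i l') - (y i l - γ i l • x i l)) := by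
        have e2 : (γ i l / γ j l) • γ j l • x j l = γ i l • x j l := by
          rw [smul_smul, div_mul_cancel₀ _ (hγ _ _)]
        have e3 : (-(γ i l / γ j l')) • γ j l' • x j l' = -(γ i l • x j l') := by
          rw [smul_smul, neg_mul, div_mul_cancel₀ _ (hγ _ _), neg_smul]
        have e4 : (γ i l / γ i l') • γ i l' • x i l' = γ i l • x i l' := by
          rw [smul_smul, div_mul_cancel₀ _ (hγ _ _)]
        have e5 : γ i l • x i l = γ i l • x j l - γ i l • x j l' + γ i l • x i l' := by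
          rw [← smul_sub, ← smul_add]
          congr 1
          simp only [hx]
          abel
        rw [smul_sub _ (y j l), smul_sub _ (y j l'), smul_sub _ (y i l'), e2, e3, e4, e5]
        abel
      rw [e1]
      refine L.add_mem (hyL _ _) (hL.le _ (hKK ?_))
      exact K.sub_mem (K.add_mem (K.add_mem (K.smul_mem _ (h0 _ _)) (K.smul_mem _ (h0 _ _)))
          (K.smul_mem _ (h0 _ _))) (h0 _ _))
  refine ⟨key 0, ?_, key 2⟩
  obtain ⟨a, ha⟩ := key 1
  refine ⟨-a, ?_⟩
  rw [map_neg, ha]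
  exact neg_neg _

private theorem ratio (h : IsBC K g B) (hn : 2 ≤ n) (hn' : 2 ≤ n') (hL : IsForm K' L)
    (hKK : K ≤ K') (hK : hat K (B : Set V) ⊓ K' = K) {y : Fin n → Fin n' → V}
    {γ : Fin n → Fin n' → F} (hγ : ∀ i l, γ i l ≠ 0)
    (hy : ∀ i l, y i l - γ i l • (g (Sum.inl i) - g (Sum.inr l)) ∈ K) (hyL : ∀ i l, y i l ∈ L)
    (i j : Fin n) (l l' : Fin n') : ∃ a : E, algebraMap E F a = γ i l / γ j l' := by
  have aux : ∀ i : Fin n, ∃ j, i ≠ j := by
    intro i
    by_cases hi : i = ⟨0, by omega⟩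
    · refine ⟨⟨1, by omega⟩, ?_⟩
      rw [hi]
      intro h
      exact absurd (congrArg Fin.val h) (by norm_num)
    · exact ⟨_, hi⟩
  have aux' : ∀ i : Fin n', ∃ j, i ≠ j := by
    intro i
    by_cases hi : i = ⟨0, by omega⟩
    · refine ⟨⟨1, by omega⟩, ?_⟩
      rw [hi]
      intro h
      exact absurd (congrArg Fin.val h) (by norm_num)
    · exact ⟨_, hi⟩
  by_cases hij : i = j
  · subst hij
    by_cases hll : l = l'
    · subst hll
      exact ⟨1, by rw [map_one, div_self (hγ _ _)]⟩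
    · obtain ⟨j, hj⟩ := aux i
      exact (cyc h hL hKK hK hγ hy hyL hj hll).2.2
  · by_cases hll : l = l'
    · subst hll
      obtain ⟨l'', hl⟩ := aux' l
      exact (cyc h hL hKK hK hγ hy hyL hij hl).1
    · exact (cyc h hL hKK hK hγ hy hyL hij hll).2.1

theorem IsBC.lift (h : IsBC K g B) (hn : 2 ≤ n) (hn' : 2 ≤ n') (hL : IsForm K' L)
    (hKK : K ≤ K') (hK : hat K (B : Set V) ⊓ K' = K)
    (hσ : ∀ x ∈ B, ∃ c : F, c ≠ 0 ∧ σ x = c • x) (hσL : ∀ x ∈ B, σ x ∈ L) :
    ∃ g' : Fin n ⊕ Fin n' → V, IsBC (rs E K) g' (B.image σ) := by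
  choose b hbB c hc hbc using h.mem
  choose s hs hσs using hσ
  set γ : Fin n → Fin n' → F := fun i l => s (b i l) (hbB i l) * c i l with hγd
  have hγ : ∀ i l, γ i l ≠ 0 := fun i l => mul_ne_zero (hs _ _) (hc _ _)
  have hy : ∀ i l, σ (b i l) - γ i l • (g (Sum.inl i) - g (Sum.inr l)) ∈ K := by
    intro i l
    have e1 : σ (b i l) - γ i l • (g (Sum.inl i) - g (Sum.inr l)) =
        s (b i l) (hbB i l) • (b i l - c i l • (g (Sum.inl i) - g (Sum.inr l))) := by
      rw [hσs _ (hbB i l), smul_sub _ (b i l), smul_smul]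
    rw [e1]
    exact K.smul_mem _ (hbc i l)
  have hr := ratio h hn hn' hL hKK hK hγ hy (fun i l => hσL _ (hbB i l))
  have h0 : 0 < n := by omega
  have h0' : 0 < n' := by omega
  set γ0 : F := γ ⟨0, h0⟩ ⟨0, h0'⟩ with hγ0
  have hγ00 : γ0 ≠ 0 := hγ _ _
  have hmem : ∀ i l, ∃ a : E, a ≠ 0 ∧
      σ (b i l) - a • (γ0 • g (Sum.inl i) - γ0 • g (Sum.inr l)) ∈ rs E K := by
    intro i l
    obtain ⟨a, ha⟩ := hr i ⟨0, h0⟩ l ⟨0, h0'⟩
    refine ⟨a, ?_, ?_⟩
    · rintro rfl
      rw [map_zero] at ha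
      exact (div_ne_zero (hγ i l) (hγ ⟨0, h0⟩ ⟨0, h0'⟩)) ha.symm
    · have e1 : a • (γ0 • g (Sum.inl i) - γ0 • g (Sum.inr l)) =
          γ i l • (g (Sum.inl i) - g (Sum.inr l)) := by
        rw [← smul_sub, ← algebraMap_smul F a, smul_smul, ha, div_mul_cancel₀ _ hγ00]
      rw [e1]
      exact hy i l
  refine ⟨fun v => γ0 • g v, ?_, ?_, ?_, ?_⟩
  · intro r hr0 hrK
    have e1 : ∑ v, (algebraMap E F (r v) * γ0) • g v ∈ K := by
      have e2 : ∑ v, (algebraMap E F (r v) * γ0) • g v = ∑ v, r v • γ0 • g v := by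
        refine Finset.sum_congr rfl fun v _ => ?_
        rw [mul_smul, algebraMap_smul]
      rw [e2]
      exact hrK
    have e3 := h.ind (fun v => algebraMap E F (r v) * γ0) (by
      rw [← Finset.sum_mul, ← map_sum, hr0, map_zero, zero_mul]) e1
    funext v
    have e4 : algebraMap E F (r v) * γ0 = 0 := congrFun e3 v
    have e5 := (mul_eq_zero.1 e4).resolve_right hγ00
    exact (map_eq_zero (algebraMap E F)).1 e5
  · intro i l
    obtain ⟨a, ha, ha'⟩ := hmem i l
    exact ⟨σ (b i l), Finset.mem_image_of_mem σ (hbB i l), a, ha, ha'⟩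
  · intro z hz
    obtain ⟨x, hx, rfl⟩ := Finset.mem_image.1 hz
    obtain ⟨i, l, c', hc', hxc⟩ := h.sub x hx
    have e1 : x = b i l := by
      apply h.uniq x hx (b i l) (hbB i l) (c' / c i l)
      have e2 : x - (c' / c i l) • b i l = (x - c' • (g (Sum.inl i) - g (Sum.inr l))) -
          (c' / c i l) • (b i l - c i l • (g (Sum.inl i) - g (Sum.inr l))) := by
        rw [smul_sub (c' / c i l), smul_smul (c' / c i l), div_mul_cancel₀ _ (hc i l)]
        abel
      rw [e2]
      exact K.sub_mem hxc (K.smul_mem _ (hbc i l))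
    obtain ⟨a, ha, ha'⟩ := hmem i l
    refine ⟨i, l, a, ha, ?_⟩
    rw [e1]
    exact ha'
  · intro z hz z' hz' a ha
    obtain ⟨x, hx, rfl⟩ := Finset.mem_image.1 hz
    obtain ⟨x', hx', rfl⟩ := Finset.mem_image.1 hz'
    have e1 : σ x - a • σ x' ∈ K := ha
    have e2 : x = x' := by
      apply h.uniq x hx x' hx' ((s x hx)⁻¹ * (algebraMap E F a * s x' hx'))
      have e3 : x - ((s x hx)⁻¹ * (algebraMap E F a * s x' hx')) • x' =
          (s x hx)⁻¹ • (σ x - a • σ x') := by
        rw [smul_sub, hσs x hx, hσs x' hx', ← algebraMap_smul F a, smul_smul, smul_smul, smul_smul,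
          inv_mul_cancel₀ (hs x hx), one_smul, mul_assoc]
      rw [e3]
      exact K.smul_mem _ e1
    rw [e2]

end Pool.Agent.SFT
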