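import Pool.Agent.SFT.Fm2
import Pool.Agent.SFT.BasB

/-!
# SFT-Cf1: confined sets
-/

namespace Pool.Agent.SFT

open Finset Module

variable {E F V : Type} [Field E] [Field F] [Algebra E F] [AddCommGroup V] [Module F V]
  [Module E V] [IsScalarTower E F V]
  {K K' M : Submodule F V} {T T' : Set V}

theorem Conf.mono (h : Conf E K T) (hT : T' ⊆ T) : Conf E K T' := by
  obtain ⟨L, hL, hc⟩ := h
  exact ⟨L, hL, fun x hx => hc x (hT hx)⟩

theorem Conf.of_par (h : Conf E K T)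
    (hT : ∀ x ∈ T', x ∈ K ∨ ∃ y ∈ T, ∃ c : F, c ≠ 0 ∧ x - c • y ∈ K) : Conf E K T' := by
  obtain ⟨L, hL, hc⟩ := h
  refine ⟨L, hL, fun x hx => ?_⟩
  rcases hT x hx with h1 | ⟨y, hy, c, hc0, h1⟩
  · exact ⟨1, one_ne_zero, by rw [one_smul]; exact hL.le x h1⟩
  · obtain ⟨c', hc0', h2⟩ := hc y hy
    refine ⟨c' * c⁻¹, mul_ne_zero hc0' (inv_ne_zero hc0), ?_⟩
    have h3 : (c' * c⁻¹) • x = (c' * c⁻¹) • (x - c • y) + c' • y := by
      rw [smul_sub, smul_smul, mul_assoc, inv_mul_cancel₀ hc0, mul_one, sub_add_cancel]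
    rw [h3]
    exact L.add_mem (hL.le _ (K.smul_mem _ h1)) h2

theorem Conf.contract [FiniteDimensional E F] (h : Conf E K T) {A : Set V} (hA : A ⊆ T) :
    Conf E (hat K A) T := by
  obtain ⟨L, hL, hc⟩ := h
  refine ⟨L ⊔ rs E (hat K A), hL.contract fun x hx => hc x (hA hx), fun x hx => ?_⟩
  obtain ⟨c, hc0, h1⟩ := hc x hx
  exact ⟨c, hc0, Submodule.mem_sup_left h1⟩

theorem Conf.up (h : Conf E K T) (hT : T ⊆ (M : Set V)) (hKM : K ≤ M) (hKK : K ≤ K')
    (hM : M ⊓ K' = K) : Conf E K' T := by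
  obtain ⟨L, hL, hc⟩ := h
  have h1 : IsForm K (L ⊓ rs E M) := hL.inf hKM le_rfl (inf_eq_right.2 hKM)
  have h2 : IsForm K' ((L ⊓ rs E M) ⊔ rs E K') := h1.sup (fun v hv => hv.2) hKK hM
  refine ⟨_, h2, fun x hx => ?_⟩
  obtain ⟨c, hc0, h3⟩ := hc x hx
  exact ⟨c, hc0, Submodule.mem_sup_left ⟨h3, M.smul_mem c (hT hx)⟩⟩

theorem Conf.down (h : Conf E K' T) (hT : T ⊆ (M : Set V)) (hKM : K ≤ M) (hKK : K ≤ K')
    (hM : M ⊓ K' = K) : Conf E K T := by
  obtain ⟨L, hL, hc⟩ := h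
  refine ⟨L ⊓ rs E M, hL.inf hKM hKK hM, fun x hx => ?_⟩
  obtain ⟨c, hc0, h3⟩ := hc x hx
  exact ⟨c, hc0, ⟨h3, M.smul_mem c (hT hx)⟩⟩

theorem conf_of_rank_le_one [FiniteDimensional F V]
    (h : finrank F (hat K T) ≤ finrank F K + 1) : Conf E K T := by
  by_cases hT : T ⊆ (K : Set V)
  · refine ⟨_, isForm_hat_singleton (E := E) K 0, fun x hx => ⟨1, one_ne_zero, ?_⟩⟩
    rw [one_smul]
    exact le_hat (rs E K) {0} (hT hx)
  · obtain ⟨t, ht, htK⟩ := Set.not_subset.1 hT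
    have h1 : hat K T = hat K {t} := eq_hat_singleton (le_hat K T) h (subset_hat K T ht) htK
    refine ⟨_, isForm_hat_singleton (E := E) K t, fun x hx => ?_⟩
    have h2 : x ∈ hat K {t} := by
      rw [← h1]
      exact subset_hat K T hx
    obtain ⟨c, h3⟩ := (mem_hat_singleton K t x).1 h2
    by_cases hc : c = 0
    · rw [hc, zero_smul, sub_zero] at h3
      exact ⟨1, one_ne_zero, by rw [one_smul]; exact le_hat (rs E K) {t} h3⟩
    · refine ⟨c⁻¹, inv_ne_zero hc, (mem_hat_singleton (rs E K) t _).2 ⟨1, ?_⟩⟩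
      have h4 : c⁻¹ • x - (1 : E) • t = c⁻¹ • (x - c • t) := by
        rw [smul_sub, smul_smul, inv_mul_cancel₀ hc, one_smul, one_smul]
      rw [h4]
      exact K.smul_mem _ h3

theorem cl_of_card_le_one [FiniteDimensional F V] [DecidableEq V] (K : Submodule F V)
    (S X : Finset V) (h : X.card ≤ 1) : CL E K S X := by
  unfold CL
  apply conf_of_rank_le_one
  rw [hat_union_of_subset K (X : Set V) (guts K S X : Set V) (fun v hv => hv.1)]
  have := finrank_hat_le K X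
  omega

end Pool.Agent.SFT
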