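import Pool.Agent.SFT.Fm3

/-!
# SFT-Rat: rational vectors

Coordinates with respect to a basis of the big field over the small field.
-/

namespace Pool.Agent.SFT

open Finset Module

variable {E F : Type} [Field E] [Field F] [Algebra E F] {J : Type}

/-- rational vectors -/
def ratv (E F : Type) [Field E] [Field F] [Algebra E F] (J : Type) : (J → E) →ₗ[E] (J → F) :=
  (Algebra.linearMap E F).compLeft J

theorem ratv_apply (r : J → E) (v : J) : ratv E F J r v = algebraMap E F (r v) := rfl

theorem ratv_injective : Function.Injective (ratv E F J) := by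
  intro r s h
  funext v
  exact (algebraMap E F).injective (congrFun h v)

theorem exists_rat {ι : Type} [Fintype ι] (α : Basis ι E F) (x : J → F) :
    ∃ r : ι → J → E, x = ∑ j, α j • ratv E F J (r j) := by
  refine ⟨fun j v => α.repr (x v) j, ?_⟩
  funext v
  rw [Finset.sum_apply]
  conv_lhs => rw [← α.sum_repr (x v)]
  refine Finset.sum_congr rfl fun j _ => ?_
  show α.repr (x v) j • α j = α j * algebraMap E F (α.repr (x v) j)
  rw [Algebra.smul_def, mul_comm]

theorem sum_rat [Fintype J] {ι : Type} [Fintype ι] (α : Basis ι E F) (r : ι → J → E)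
    (h : ∑ v, (∑ j, α j • ratv E F J (r j)) v = 0) : ∀ j, ∑ v, r j v = 0 := by
  have h1 : ∑ j, (∑ v, r j v) • α j = 0 := by
    rw [← h]
    have h2 : ∀ v, (∑ j, α j • ratv E F J (r j)) v = ∑ j, r j v • α j := by
      intro v
      rw [Finset.sum_apply]
      refine Finset.sum_congr rfl fun j _ => ?_
      show α j * algebraMap E F (r j v) = r j v • α j
      rw [Algebra.smul_def, mul_comm]
    rw [Finset.sum_congr rfl fun v _ => h2 v, Finset.sum_comm]
    exact Finset.sum_congr rfl fun j _ => Finset.sum_smul
  exact Fintype.linearIndependent_iff.1 α.linearIndependent _ h1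

theorem isForm_rat [Finite J] : IsForm (⊥ : Submodule F (J → F)) (LinearMap.range (ratv E F J)) := by
  refine ⟨fun v hv => ?_, fun r α hα l hl hs j => ?_⟩
  · rw [Submodule.mem_bot] at hv
    rw [hv]
    exact Submodule.zero_mem _
  · choose c hc using hl
    rw [Submodule.mem_bot] at hs ⊢
    rw [← hc j]
    have h1 : c j = 0 := by
      funext v
      have h2 : ∑ i, c i v • α i = 0 := by
        have h3 := congrFun hs v
        rw [Finset.sum_apply, Pi.zero_apply] at h3
        rw [← h3]
        refine Finset.sum_congr rfl fun i _ => ?_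
        rw [← hc i]
        show c i v • α i = α i * algebraMap E F (c i v)
        rw [Algebra.smul_def, mul_comm]
      exact Fintype.linearIndependent_iff.1 hα (fun i => c i v) h2 j
    rw [h1, map_zero]

theorem finrank_span_ratv [Finite J] [FiniteDimensional E F] (R : Submodule E (J → E)) :
    finrank F (Submodule.span F (ratv E F J '' (R : Set (J → E)))) = finrank E R := by
  have h1 := (isForm_rat (E := E) (F := F) (J := J)).finrank_span (A := R.map (ratv E F J))
    (fun v hv => by
      obtain ⟨r, -, rfl⟩ := hv
      exact ⟨r, rfl⟩)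
    (fun v hv => by
      rw [Submodule.mem_bot] at hv
      rw [hv]
      exact Submodule.zero_mem _)
  have h2 : finrank E (rs E (⊥ : Submodule F (J → F))) = 0 := by
    rw [rs, Submodule.restrictScalars_bot, finrank_bot]
  have h3 : finrank E (R.map (ratv E F J)) = finrank E R :=
    (Submodule.equivMapOfInjective (ratv E F J) ratv_injective R).finrank_eq.symm
  rw [h2, h3, finrank_bot, add_zero, zero_add, Submodule.map_coe] at h1
  exact h1

end Pool.Agent.SFT
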