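import Pool.Agent.SFT.BcM
import Pool.Agent.SFT.Cf1
import Pool.Agent.SFT.Rat

/-!
# SFT-BcF: the form of a bipartite clique

`bcForm K g`: `K` plus the vectors `∑ r v • g v` with `r` rational of sum zero.  It is a form (`isForm_of_basis`,
independence of the combinations with coefficient sum zero).  The clique elements are multiples of vectors of the
form.
-/

namespace Pool.Agent.SFT

open Finset Module

variable {E F V : Type} [Field E] [Field F] [Algebra E F] [AddCommGroup V] [Module F V]
  [Module E V] [IsScalarTower E F V]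
  [FiniteDimensional E F] {K : Submodule F V} {n n' : ℕ} {g : Fin n ⊕ Fin n' → V} {B : Finset V}

/-- the form of a bipartite clique -/
def bcForm (E : Type) {F V : Type} [Field E] [Field F] [Algebra E F] [AddCommGroup V]
    [Module F V] [Module E V] [IsScalarTower E F V] (K : Submodule F V) {n n' : ℕ}
    (g : Fin n ⊕ Fin n' → V) : Submodule E V :=
  hat (rs E K) {v | ∃ r : Fin n ⊕ Fin n' → E, ∑ u, r u = 0 ∧ v = ∑ u, algebraMap E F (r u) • g u}

omit [FiniteDimensional E F] in
private theorem rs_smul {K : Submodule F V} (e : E) {v : V} (hv : v ∈ K) : e • v ∈ K :=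
  (rs E K).smul_mem e hv

omit [FiniteDimensional E F] in
private theorem smul_comb (g : Fin n ⊕ Fin n' → V) (e : E) (r : Fin n ⊕ Fin n' → E) :
    e • ∑ u, algebraMap E F (r u) • g u = ∑ u, algebraMap E F (e * r u) • g u := by
  rw [Finset.smul_sum]
  refine Finset.sum_congr rfl fun u _ => ?_
  rw [map_mul, mul_smul, algebraMap_smul F e]

/-- the vectors which are rational combinations modulo `K` -/
private def combS (E : Type) {F V : Type} [Field E] [Field F] [Algebra E F] [AddCommGroup V]
    [Module F V] [Module E V] [IsScalarTower E F V] (K : Submodule F V) {n n' : ℕ}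
    (g : Fin n ⊕ Fin n' → V) : Submodule E V where
  carrier := {v | ∃ r : Fin n ⊕ Fin n' → E, ∑ u, r u = 0 ∧ v - ∑ u, algebraMap E F (r u) • g u ∈ K}
  zero_mem' := ⟨0, by simp, by simp⟩
  add_mem' := by
    rintro a b ⟨r, h1, h2⟩ ⟨r', h3, h4⟩
    refine ⟨r + r', ?_, ?_⟩
    · simp only [Pi.add_apply]
      rw [Finset.sum_add_distrib, h1, h3, add_zero]
    · have h5 : a + b - ∑ u, algebraMap E F ((r + r') u) • g u =
          (a - ∑ u, algebraMap E F (r u) • g u) + (b - ∑ u, algebraMap E F (r' u) • g u) := by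
        simp only [Pi.add_apply, map_add, add_smul]
        rw [Finset.sum_add_distrib]
        abel
      rw [h5]
      exact K.add_mem h2 h4
  smul_mem' := by
    rintro e a ⟨r, h1, h2⟩
    refine ⟨fun u => e * r u, ?_, ?_⟩
    · rw [← Finset.mul_sum, h1, mul_zero]
    · rw [← smul_comb g e r, ← smul_sub]
      exact rs_smul e h2

omit [FiniteDimensional E F] in
private theorem bcForm_eq : bcForm E K g = combS E K g := by
  apply le_antisymm
  · apply hat_le
    · intro v hv
      exact ⟨0, by simp, by simpa using hv⟩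
    · rintro v ⟨r, h1, rfl⟩
      exact ⟨r, h1, by rw [sub_self]; exact K.zero_mem⟩
  · rintro v ⟨r, h1, h2⟩
    have h3 : v = (v - ∑ u, algebraMap E F (r u) • g u) + ∑ u, algebraMap E F (r u) • g u := by abel
    rw [h3]
    exact Submodule.add_mem _ (le_hat (rs E K) _ h2) (subset_hat (rs E K) _ ⟨r, h1, rfl⟩)

theorem mem_bcForm (v : V) : v ∈ bcForm E K g ↔
    ∃ r : Fin n ⊕ Fin n' → E, ∑ u, r u = 0 ∧ v - ∑ u, algebraMap E F (r u) • g u ∈ K := by
  rw [bcForm_eq]
  rfl

theorem IsBC.isForm (h : IsBC K g B) : IsForm K (bcForm E K g) := by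
  refine isForm_of_basis (Module.finBasis E F) (fun v hv => le_hat (rs E K) _ hv) ?_
  intro l hl hs
  obtain ⟨α, hα⟩ : ∃ α : Basis (Fin (finrank E F)) E F, α = Module.finBasis E F := ⟨_, rfl⟩
  rw [← hα] at hs
  choose r hr0 hrK using fun j => (mem_bcForm (l j)).1 (hl j)
  have h1 : ∑ j, α j • (l j - ∑ u, algebraMap E F (r j u) • g u) ∈ K :=
    K.sum_mem fun j _ => K.smul_mem _ (hrK j)
  have h2 : ∑ u, (∑ j, α j * algebraMap E F (r j u)) • g u ∈ K := by
    have h3 := K.sub_mem hs h1
    have h4 : ∑ j, α j • l j - ∑ j, α j • (l j - ∑ u, algebraMap E F (r j u) • g u) =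
        ∑ u, (∑ j, α j * algebraMap E F (r j u)) • g u := by
      rw [← Finset.sum_sub_distrib]
      simp only [Finset.sum_smul]
      rw [Finset.sum_comm]
      refine Finset.sum_congr rfl fun j _ => ?_
      rw [smul_sub, sub_sub_cancel, Finset.smul_sum]
      exact Finset.sum_congr rfl fun u _ => smul_smul _ _ _
    rw [h4] at h3
    exact h3
  have h5 : ∑ u, (∑ j, α j * algebraMap E F (r j u)) = 0 := by
    rw [Finset.sum_comm]
    refine Finset.sum_eq_zero fun j _ => ?_
    rw [← Finset.mul_sum, ← map_sum, hr0 j, map_zero, mul_zero]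
  have h6 := h.ind _ h5 h2
  have h7 : ∀ u j, r j u = 0 := by
    intro u
    refine Fintype.linearIndependent_iff.1 α.linearIndependent (fun j => r j u) ?_
    have h8 := congrFun h6 u
    rw [Pi.zero_apply] at h8
    rw [← h8]
    refine Finset.sum_congr rfl fun j _ => ?_
    rw [Algebra.smul_def, mul_comm]
  intro j
  have h9 := hrK j
  have h10 : ∑ u, algebraMap E F (r j u) • g u = 0 :=
    Finset.sum_eq_zero fun u _ => by rw [h7 u j, map_zero, zero_smul]
  rwa [h10, sub_zero] at h9

theorem IsBC.mem_bcForm (h : IsBC K g B) {b : V} (hb : b ∈ B) :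
    ∃ c : F, c ≠ 0 ∧ c • b ∈ bcForm E K g := by
  obtain ⟨i, l, c, hc, hK⟩ := h.sub b hb
  refine ⟨c⁻¹, inv_ne_zero hc, (Pool.Agent.SFT.mem_bcForm _).2
    ⟨Pi.single (Sum.inl i) 1 - Pi.single (Sum.inr l) 1, ?_, ?_⟩⟩
  · simp only [Pi.sub_apply]
    rw [Finset.sum_sub_distrib, Finset.sum_pi_single', Finset.sum_pi_single', if_pos (Finset.mem_univ _),
      if_pos (Finset.mem_univ _), sub_self]
  · have h1 : ∑ u, algebraMap E F ((Pi.single (Sum.inl i) 1 - Pi.single (Sum.inr l) 1 : Fin n ⊕ Fin n' → E) u) • g u =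
        g (Sum.inl i) - g (Sum.inr l) := by
      have h2 : ∀ (p : Fin n ⊕ Fin n'), ∑ u, algebraMap E F ((Pi.single p 1 : Fin n ⊕ Fin n' → E) u) • g u = g p := by
        intro p
        rw [Finset.sum_eq_single p]
        · rw [Pi.single_eq_same, map_one, one_smul]
        · intro q _ hq
          rw [Pi.single_eq_of_ne hq, map_zero, zero_smul]
        · intro hp
          exact absurd (Finset.mem_univ _) hp
      simp only [Pi.sub_apply, map_sub, sub_smul]
      rw [Finset.sum_sub_distrib, h2, h2]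
    rw [h1]
    have h3 : c⁻¹ • b - (g (Sum.inl i) - g (Sum.inr l)) = c⁻¹ • (b - c • (g (Sum.inl i) - g (Sum.inr l))) := by
      rw [smul_sub, smul_smul, inv_mul_cancel₀ hc, one_smul]
    rw [h3]
    exact K.smul_mem _ hK

end Pool.Agent.SFT
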