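import Pool.Agent.SFT.BasB

/-!
# SFT-BcM: bipartite cliques, elementary facts

Everything follows from the independence of the vertex vectors.
-/

namespace Pool.Agent.SFT

open Finset Module

variable {k V : Type} [Field k] [AddCommGroup V] [Module k V] {K L : Submodule k V} {n n' : ℕ}
  {g : Fin n ⊕ Fin n' → V} {B : Finset V}

private theorem bcm_sum (a b : Fin n ⊕ Fin n') :
    ∑ v, ((Pi.single a 1 - Pi.single b 1 : Fin n ⊕ Fin n' → k) v) • g v = g a - g b := by
  simp only [Pi.sub_apply, sub_smul, sum_sub_distrib, Pi.single_apply, ite_smul, one_smul, zero_smul,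
    sum_ite_eq', mem_univ, if_true]

private theorem bcm_sum0 (a b : Fin n ⊕ Fin n') :
    ∑ v, ((Pi.single a 1 - Pi.single b 1 : Fin n ⊕ Fin n' → k) v) = 0 := by
  simp only [Pi.sub_apply, sum_sub_distrib, Pi.single_apply, sum_ite_eq', mem_univ, if_true, sub_self]

theorem IsBC.ne_mem (h : IsBC K g B) {b : V} (hb : b ∈ B) : b ∉ K := by
  intro hbK
  obtain ⟨i, l, c, hc, hbc⟩ := h.sub b hb
  have h1 : c • (g (Sum.inl i) - g (Sum.inr l)) ∈ K := by
    have h2 := K.sub_mem hbK hbc
    rw [sub_sub_cancel] at h2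
    exact h2
  have h3 : g (Sum.inl i) - g (Sum.inr l) ∈ K := (K.smul_mem_iff hc).1 h1
  have h4 := h.ind (Pi.single (Sum.inl i) 1 - Pi.single (Sum.inr l) 1) (bcm_sum0 _ _) (by rw [bcm_sum]; exact h3)
  have h5 := congrFun h4 (Sum.inl i)
  simp at h5

theorem IsBC.diff_mem (h : IsBC K g B) (i : Fin n) (l : Fin n') :
    g (Sum.inl i) - g (Sum.inr l) ∈ hat K (B : Set V) := by
  obtain ⟨b, hb, c, hc, hbc⟩ := h.mem i l
  have h1 : b ∈ hat K (B : Set V) := subset_hat K _ hb
  have h2 := (hat K (B : Set V)).sub_mem h1 (le_hat K _ hbc)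
  rw [sub_sub_cancel] at h2
  exact ((hat K (B : Set V)).smul_mem_iff hc).1 h2

theorem IsBC.sum_mem (h : IsBC K g B) (hn : 0 < n) (hn' : 0 < n') (r : Fin n ⊕ Fin n' → k)
    (hr : ∑ v, r v = 0) : ∑ v, r v • g v ∈ hat K (B : Set V) := by
  have hd : ∀ v : Fin n ⊕ Fin n', g v - g (Sum.inl ⟨0, hn⟩) ∈ hat K (B : Set V) := by
    rintro (i | l)
    · have h1 := h.diff_mem i ⟨0, hn'⟩
      have h2 := h.diff_mem ⟨0, hn⟩ ⟨0, hn'⟩
      have h3 := (hat K (B : Set V)).sub_mem h1 h2
      rw [sub_sub_sub_cancel_right] at h3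
      exact h3
    · have h1 := h.diff_mem ⟨0, hn⟩ l
      have h3 := (hat K (B : Set V)).neg_mem h1
      rw [neg_sub] at h3
      exact h3
  have h1 : ∑ v, r v • g v = ∑ v, r v • (g v - g (Sum.inl ⟨0, hn⟩)) := by
    simp only [smul_sub, sum_sub_distrib]
    rw [← Finset.sum_smul, hr, zero_smul, sub_zero]
  rw [h1]
  exact Submodule.sum_mem _ fun v _ => Submodule.smul_mem _ _ (hd v)

theorem IsBC.mem_hat (h : IsBC K g B) (hn : 0 < n) (hn' : 0 < n') (v : V) :
    v ∈ hat K (B : Set V) ↔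
      ∃ r : Fin n ⊕ Fin n' → k, ∑ u, r u = 0 ∧ v - ∑ u, r u • g u ∈ K := by
  constructor
  · intro hv
    let W : Submodule k V :=
      { carrier := {v | ∃ r : Fin n ⊕ Fin n' → k, ∑ u, r u = 0 ∧ v - ∑ u, r u • g u ∈ K}
        add_mem' := by
          rintro a b ⟨r, hr, ha⟩ ⟨r', hr', hb⟩
          refine ⟨r + r', ?_, ?_⟩
          · simp only [Pi.add_apply, sum_add_distrib, hr, hr', add_zero]
          · have h1 := K.add_mem ha hb
            have h2 : a + b - ∑ u, (r + r') u • g u = a - ∑ u, r u • g u + (b - ∑ u, r' u • g u) := by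
              simp only [Pi.add_apply, add_smul, sum_add_distrib]
              abel
            rw [h2]
            exact h1
        zero_mem' := ⟨0, by simp, by simp⟩
        smul_mem' := by
          rintro c a ⟨r, hr, ha⟩
          refine ⟨c • r, ?_, ?_⟩
          · simp only [Pi.smul_apply, smul_eq_mul, ← mul_sum, hr, mul_zero]
          · have h1 := K.smul_mem c ha
            have h2 : c • a - ∑ u, (c • r) u • g u = c • (a - ∑ u, r u • g u) := by
              simp only [Pi.smul_apply, smul_eq_mul, mul_smul, ← smul_sum, smul_sub]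
            rw [h2]
            exact h1 }
    have hW : hat K (B : Set V) ≤ W := by
      apply hat_le
      · intro x hx
        exact ⟨0, by simp, by simpa using hx⟩
      · intro b hb
        obtain ⟨i, l, c, hc, hbc⟩ := h.sub b hb
        refine ⟨c • (Pi.single (Sum.inl i) 1 - Pi.single (Sum.inr l) 1), ?_, ?_⟩
        · simp only [Pi.smul_apply, smul_eq_mul, ← mul_sum, bcm_sum0, mul_zero]
        · have h2 : ∑ u, (c • (Pi.single (Sum.inl i) 1 - Pi.single (Sum.inr l) 1 : Fin n ⊕ Fin n' → k)) u • g u =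
              c • (g (Sum.inl i) - g (Sum.inr l)) := by
            rw [← bcm_sum (k := k) (g := g), smul_sum]
            exact sum_congr rfl fun u _ => by rw [Pi.smul_apply, smul_eq_mul, mul_smul]
          rw [h2]
          exact hbc
    exact hW hv
  · rintro ⟨r, hr, hv⟩
    have h1 := (hat K (B : Set V)).add_mem (le_hat K _ hv) (h.sum_mem hn hn' r hr)
    rw [sub_add_cancel] at h1
    exact h1

theorem IsBC.mono (h : IsBC K g B) (hn : 0 < n) (hn' : 0 < n') (hKL : K ≤ L)
    (hL : hat K (B : Set V) ⊓ L = K) : IsBC L g B := by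
  have hmem : ∀ x, x ∈ hat K (B : Set V) → x ∈ L → x ∈ K := by
    intro x h1 h2
    rw [← hL]
    exact ⟨h1, h2⟩
  refine ⟨?_, ?_, ?_, ?_⟩
  · intro r hr hrL
    exact h.ind r hr (hmem _ (h.sum_mem hn hn' r hr) hrL)
  · intro i l
    obtain ⟨b, hb, c, hc, hbc⟩ := h.mem i l
    exact ⟨b, hb, c, hc, hKL hbc⟩
  · intro b hb
    obtain ⟨i, l, c, hc, hbc⟩ := h.sub b hb
    exact ⟨i, l, c, hc, hKL hbc⟩
  · intro b hb b' hb' c hc
    refine h.uniq b hb b' hb' c (hmem _ ?_ hc)
    exact Submodule.sub_mem _ (subset_hat K _ hb) (Submodule.smul_mem _ _ (subset_hat K _ hb'))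

end Pool.Agent.SFT
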