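import Pool.Agent.SFT.TrB

/-!
# SFT-Ca: a smallest counterexample is tight (3.1, 3.2)

`c1`: let `X` be small, nonempty, `lam K S X = 0`: `guts K S X = K` (`lam_add`, `Submodule.eq_of_le_of_finrank_eq`).
`TD K S X ∅ ∅` (`hat_empty`; `WD`: no `w`). `(S \ X) ∪ ∅` has fewer elements. `red`, `glue_back` (`gl X`), against `ng`.
`c2`: `2 ≤ X.card`, `lam K S X ≤ 1`; by `c1` it is 1. `w ∈ guts K S X`, `w ∉ K`; `guts K S X = hat K {w}` (`eq_hat_singleton`).
`exists_min_span K X w`: `D0 ⊆ X` minimal with `w ∈ hat K D0`; `D0 ≠ ∅` (`w ∉ K`); `d ∈ D0`, `A := D0.erase d`: `w ∉ hat K A`.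
`w ∈ hat (hat K A) {d}`: `w - c • d ∈ hat K A`, `c ≠ 0`. `TD K S X A {d}`: `Az`: `v ∈ hat K A ⊓ hat K (S \ X) ≤ guts K S X = hat K {w}`:
`v - c' • w ∈ K`; if `c' ≠ 0` then `w ∈ hat K A`, contradiction; so `v ∈ K`. `DW`: `c⁻¹ • w`. `WD`: `w' - c' • w ∈ K`, `c' ≠ 0`.
Cardinality: `X.card ≥ 2`, `(S \ X) ∪ {d}` has at most `S.card - X.card + 1 < S.card` elements.
-/

namespace Pool.Agent.SFT

open Finset Module

variable {E F V : Type} [Field E] [Field F] [Algebra E F] [AddCommGroup V] [Module F V]
  [Module E V] [IsScalarTower E F V]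
  [DecidableEq V] [FiniteDimensional E F] [FiniteDimensional F V] {K : Submodule F V}
  {S : Finset V} {sm : Finset V → Prop}

theorem MinCex.tight (h : MinCex E K S sm) : Tight K S sm := by
  have c1 : ∀ X, sm X → X.Nonempty → 1 ≤ lam K S X := by
    intro X hX hne
    by_contra hlt
    have h0 : lam K S X = 0 := by omega
    have hla := lam_add K S X
    rw [h0, zero_add] at hla
    have hg : K = guts K S X := Submodule.eq_of_le_of_finrank_eq (le_guts K S X) hla
    have hXS := h.sS X hX
    have ht : TD K S X ∅ ∅ := by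
      refine ⟨hXS, Finset.empty_subset _, Finset.empty_subset _, ?_, by simp, ?_, ?_⟩
      · rw [Finset.coe_empty, hat_empty]
        exact inf_eq_left.2 (le_hat _ _)
      · intro d hd
        exact absurd hd (Finset.notMem_empty d)
      · intro w hw hwK
        rw [← hg] at hw
        exact absurd hw hwK
    have hcard : ((S \ X) ∪ ∅).card < S.card := by
      rw [Finset.union_empty]
      refine Finset.card_lt_card ⟨Finset.sdiff_subset, fun hss => ?_⟩
      obtain ⟨x, hx⟩ := hne
      exact (Finset.mem_sdiff.1 (hss (hXS hx))).2 hx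
    exact h.ng (ht.glue_back (h.gl X hX (by omega)) (h.red X ∅ ∅ hX ht hcard))
  refine ⟨h.sub, h.sS, h.nz, h.npar, c1, ?_⟩
  intro X hX hc
  by_contra hlt
  have hXS := h.sS X hX
  have hne : X.Nonempty := Finset.card_pos.1 (by omega)
  have h1 := c1 X hX hne
  have hla := lam_add K S X
  have hfin : finrank F (guts K S X) = finrank F K + 1 := by omega
  obtain ⟨w, hw, hwK⟩ : ∃ w ∈ guts K S X, w ∉ K := by
    by_contra hcon
    push Not at hcon
    have h2 : guts K S X ≤ K := hcon
    have h3 := Submodule.finrank_mono h2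
    omega
  have hG := eq_hat_singleton (le_guts K S X) (by omega) hw hwK
  obtain ⟨D0, hD0X, hwD, hmin⟩ := exists_min_span K X w hw.1
  have hD0 : D0.Nonempty := by
    rw [Finset.nonempty_iff_ne_empty]
    rintro rfl
    rw [Finset.coe_empty, hat_empty] at hwD
    exact hwK hwD
  obtain ⟨d, hd⟩ := hD0
  have hwA : w ∉ hat K ((D0.erase d : Finset V) : Set V) := hmin _ (Finset.erase_ssubset hd)
  have hAX : D0.erase d ⊆ X := (Finset.erase_subset _ _).trans hD0X
  -- `w` and `d` are parallel
  obtain ⟨c, hcd⟩ : ∃ c : F, w - c • d ∈ hat K ((D0.erase d : Finset V) : Set V) := by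
    rw [← mem_hat_singleton, hat_hat, Set.union_singleton, ← Finset.coe_insert,
      Finset.insert_erase hd]
    exact hwD
  have hc0 : c ≠ 0 := by
    rintro rfl
    rw [zero_smul, sub_zero] at hcd
    exact hwA hcd
  have hdw : d - c⁻¹ • w ∈ hat K ((D0.erase d : Finset V) : Set V) := by
    have e : d - c⁻¹ • w = (-c⁻¹) • (w - c • d) := by
      rw [smul_sub, smul_smul, neg_mul, inv_mul_cancel₀ hc0, neg_smul, neg_smul, one_smul]
      abel
    rw [e]
    exact Submodule.smul_mem _ _ hcd
  have ht : TD K S X (D0.erase d) {d} := by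
    refine ⟨hXS, hAX, Finset.singleton_subset_iff.2 (hD0X hd), ?_, by simp, ?_, ?_⟩
    · apply le_antisymm
      · rintro v ⟨hv1, hv2⟩
        have hvG : v ∈ guts K S X :=
          ⟨hat_mono le_rfl (Finset.coe_subset.2 hAX) hv1, hv2⟩
        rw [hG] at hvG
        obtain ⟨c', hc'⟩ := (mem_hat_singleton K w v).1 hvG
        by_cases h0 : c' = 0
        · rwa [h0, zero_smul, sub_zero] at hc'
        · exfalso
          apply hwA
          have h2 : c' • w ∈ hat K ((D0.erase d : Finset V) : Set V) := by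
            have e : c' • w = v - (v - c' • w) := (sub_sub_cancel v _).symm
            rw [e]
            exact Submodule.sub_mem _ hv1 (le_hat _ _ hc')
          exact (Submodule.smul_mem_iff _ h0).1 h2
      · exact le_inf (le_hat _ _) (le_hat _ _)
    · intro d' hd'
      rw [Finset.mem_singleton] at hd'
      subst hd'
      refine ⟨c⁻¹ • w, Submodule.smul_mem _ _ hw, ?_, hdw⟩
      intro h2
      exact hwK ((Submodule.smul_mem_iff _ (inv_ne_zero hc0)).1 h2)
    · intro w' hw' hwK'
      rw [hG] at hw'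
      obtain ⟨c', hc'⟩ := (mem_hat_singleton K w w').1 hw'
      have hc'0 : c' ≠ 0 := by
        rintro rfl
        rw [zero_smul, sub_zero] at hc'
        exact hwK' hc'
      refine ⟨d, Finset.mem_singleton_self d, c⁻¹ * c'⁻¹,
        mul_ne_zero (inv_ne_zero hc0) (inv_ne_zero hc'0), ?_⟩
      have e : d - (c⁻¹ * c'⁻¹) • w' =
          (d - c⁻¹ • w) - (c⁻¹ * c'⁻¹) • (w' - c' • w) := by
        rw [smul_sub, smul_smul, mul_assoc, inv_mul_cancel₀ hc'0, mul_one]
        abel
      rw [e]
      exact Submodule.sub_mem _ hdw (le_hat _ _ (K.smul_mem _ hc'))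
  have hcard : ((S \ X) ∪ {d}).card < S.card := by
    have h2 := Finset.card_union_le (S \ X) {d}
    have h3 := Finset.card_sdiff_add_card_eq_card hXS
    rw [Finset.card_singleton] at h2
    omega
  exact h.ng (ht.glue_back (h.gl X hX (by omega)) (h.red X _ _ hX ht hcard))

end Pool.Agent.SFT
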