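import Pool.Agent.SFT.Cf1

/-!
# SFT-Cf2: gluing along at most one point ((F3) of the paper proof)

The two forms are scaled such that both contain a vector `w` with `hat K X ⊓ hat K Z = hat K {w}`; then their
sum is a form.
-/

namespace Pool.Agent.SFT

open Finset Module

variable {E F V : Type} [Field E] [Field F] [Algebra E F] [AddCommGroup V] [Module F V]
  [Module E V] [IsScalarTower E F V]
  {K : Submodule F V} {X Z : Set V}

private theorem glue_form [FiniteDimensional E F] {L1 L2 : Submodule E V} {M1 M2 : Submodule F V} {w : V}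
    (h1 : IsForm K L1) (h2 : IsForm K L2) (hw1 : w ∈ L1) (hw2 : w ∈ L2) (hM1 : ∀ v ∈ L1, v ∈ M1)
    (hM2 : ∀ v ∈ L2, v ∈ M2) (hKM : K ≤ M2) (hG : M1 ⊓ M2 ≤ hat K {w}) : IsForm K (L1 ⊔ L2) := by
  let α := Module.finBasis E F
  refine isForm_of_basis α (fun v hv => Submodule.mem_sup_left (h1.le v hv)) fun l hl hs => ?_
  choose x hx z hz hxz using fun j => Submodule.mem_sup.1 (hl j)
  have hsum : ∑ j, α j • l j = ∑ j, α j • x j + ∑ j, α j • z j := by
    rw [← Finset.sum_add_distrib]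
    exact Finset.sum_congr rfl fun j _ => by rw [← hxz j, smul_add]
  have hsx : ∑ j, α j • x j ∈ M1 := Submodule.sum_mem _ fun j _ => Submodule.smul_mem _ _ (hM1 _ (hx j))
  have hsz : ∑ j, α j • z j ∈ M2 := Submodule.sum_mem _ fun j _ => Submodule.smul_mem _ _ (hM2 _ (hz j))
  have hsx2 : ∑ j, α j • x j ∈ M2 := by
    have e : ∑ j, α j • x j = ∑ j, α j • l j - ∑ j, α j • z j := by
      rw [hsum, add_sub_cancel_right]
    rw [e]
    exact Submodule.sub_mem _ (hKM hs) hsz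
  obtain ⟨c, hc⟩ := (mem_hat_singleton K w _).1 (hG ⟨hsx, hsx2⟩)
  have hcw : c • w = ∑ j, α j • (α.repr c j • w) := by
    conv_lhs => rw [← α.sum_repr c]
    rw [Finset.sum_smul]
    refine Finset.sum_congr rfl fun j _ => ?_
    rw [← algebraMap_smul F (α.repr c j) w, smul_smul, Algebra.smul_def, mul_comm]
  have hx2 : ∑ j, α j • (x j - α.repr c j • w) ∈ K := by
    have e : ∑ j, α j • (x j - α.repr c j • w) = ∑ j, α j • x j - c • w := by
      rw [hcw, ← Finset.sum_sub_distrib]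
      exact Finset.sum_congr rfl fun j _ => by rw [smul_sub]
    rw [e]
    exact hc
  have hz2 : ∑ j, α j • (z j + α.repr c j • w) ∈ K := by
    have e : ∑ j, α j • (z j + α.repr c j • w) = ∑ j, α j • l j - ∑ j, α j • (x j - α.repr c j • w) := by
      rw [← Finset.sum_sub_distrib]
      refine Finset.sum_congr rfl fun j _ => ?_
      rw [← smul_sub, ← hxz j]
      congr 1
      abel
    rw [e]
    exact Submodule.sub_mem _ hs hx2
  have e1 := h1.basis α (fun j => x j - α.repr c j • w)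
    (fun j => Submodule.sub_mem _ (hx j) (Submodule.smul_mem _ _ hw1)) hx2
  have e2 := h2.basis α (fun j => z j + α.repr c j • w)
    (fun j => Submodule.add_mem _ (hz j) (Submodule.smul_mem _ _ hw2)) hz2
  intro j
  have e3 : l j = (x j - α.repr c j • w) + (z j + α.repr c j • w) := by
    rw [← hxz j]
    abel
  rw [e3]
  exact Submodule.add_mem _ (e1 j) (e2 j)

/-- A form in `hat K X` for `X`, which contains a given vector. -/
private theorem scale_form {w : V} (hw : w ∈ hat K X)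
    (h : ∃ L : Submodule E V, IsForm K L ∧ (∀ x ∈ X, ∃ c : F, c ≠ 0 ∧ c • x ∈ L) ∧
      ∃ c : F, c ≠ 0 ∧ c • w ∈ L) :
    ∃ L : Submodule E V, IsForm K L ∧ (∀ x ∈ X, ∃ c : F, c ≠ 0 ∧ c • x ∈ L) ∧ w ∈ L ∧ ∀ v ∈ L, v ∈ hat K X := by
  obtain ⟨L, h1, h2, c, hc, h3⟩ := h
  have h4 : IsForm K (L ⊓ rs E (hat K X)) :=
    h1.inf (le_hat K X) le_rfl (inf_eq_right.2 (le_hat K X))
  obtain ⟨L', h5, h6⟩ := h4.smul (inv_ne_zero hc)
  rw [inv_inv] at h6
  refine ⟨L', h5, fun x hx => ?_, ?_, fun v hv => ?_⟩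
  · obtain ⟨d, hd, h7⟩ := h2 x hx
    refine ⟨c⁻¹ * d, mul_ne_zero (inv_ne_zero hc) hd, ?_⟩
    rw [h6, smul_smul, ← mul_assoc, mul_inv_cancel₀ hc, one_mul]
    exact ⟨h7, Submodule.smul_mem (hat K X) d (subset_hat K X hx)⟩
  · rw [h6]
    exact ⟨h3, Submodule.smul_mem (hat K X) c hw⟩
  · have h7 : c • v ∈ hat K X := ((h6 v).1 hv).2
    have h8 := Submodule.smul_mem (hat K X) c⁻¹ h7
    rwa [smul_smul, inv_mul_cancel₀ hc, one_smul] at h8

theorem Conf.glue [FiniteDimensional E F] [FiniteDimensional F V]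
    (hG : finrank F ↥(hat K X ⊓ hat K Z) ≤ finrank F K + 1)
    (hX : Conf E K (X ∪ ((hat K X ⊓ hat K Z : Submodule F V) : Set V)))
    (hZ : Conf E K (Z ∪ ((hat K X ⊓ hat K Z : Submodule F V) : Set V))) :
    Conf E K (X ∪ Z) := by
  have hKG : K ≤ hat K X ⊓ hat K Z := le_inf (le_hat K X) (le_hat K Z)
  obtain ⟨w, hw, hwG⟩ : ∃ w ∈ hat K X ⊓ hat K Z, hat K X ⊓ hat K Z ≤ hat K {w} := by
    by_cases h : hat K X ⊓ hat K Z ≤ K
    · exact ⟨0, Submodule.zero_mem _, h.trans (le_hat K {0})⟩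
    · obtain ⟨w, hw, hwK⟩ := SetLike.not_le_iff_exists.1 h
      exact ⟨w, hw, (eq_hat_singleton hKG hG hw hwK).le⟩
  obtain ⟨L1, a1, a2⟩ := hX
  obtain ⟨L2, b1, b2⟩ := hZ
  obtain ⟨L1', c1, c2, c3, c4⟩ := scale_form (E := E) (X := X) hw.1
    ⟨L1, a1, fun x hx => a2 x (Or.inl hx), a2 w (Or.inr hw)⟩
  obtain ⟨L2', d1, d2, d3, d4⟩ := scale_form (E := E) (X := Z) hw.2
    ⟨L2, b1, fun x hx => b2 x (Or.inl hx), b2 w (Or.inr hw)⟩
  refine ⟨L1' ⊔ L2', glue_form c1 d1 c3 d3 c4 d4 (le_hat K Z) hwG, ?_⟩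
  rintro x (hx | hx)
  · obtain ⟨c, hc, h1⟩ := c2 x hx
    exact ⟨c, hc, Submodule.mem_sup_left h1⟩
  · obtain ⟨c, hc, h1⟩ := d2 x hx
    exact ⟨c, hc, Submodule.mem_sup_right h1⟩

end Pool.Agent.SFT
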