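import Pool.Agent.Helper39.TC.Lin
import Pool.Agent.SFT.BasA

/-!
# SFT-CoA: a clique minor of a represented matroid as a spanning clique minor of its configuration

Adaptation of `Pool.Agent.Helper39.HCI.Clq` (the field with two elements) to an arbitrary field.
-/

namespace Pool.Agent.SFT

open Finset Module
open Pool.Agent.Helper39.TC

variable {F : Type} [Field F]

private theorem ca_ext {V : Type} [AddCommGroup V] [Module F V] [DecidableEq V] (S : Finset V)
    (R : Submodule F V) (C1 : Finset V) (hC1 : C1 ⊆ S)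
    (h1 : ∀ r : V → F, ∑ x ∈ C1, r x • x ∈ R → ∀ x ∈ C1, r x = 0) :
    ∃ C, C1 ⊆ C ∧ C ⊆ S ∧ (∀ r : V → F, ∑ x ∈ C, r x • x ∈ R → ∀ x ∈ C, r x = 0) ∧
      ∀ x ∈ S, x ∈ R ⊔ Submodule.span F (C : Set V) := by
  classical
  let P : Finset (Finset V) := S.powerset.filter fun C => C1 ⊆ C ∧
    ∀ r : V → F, ∑ x ∈ C, r x • x ∈ R → ∀ x ∈ C, r x = 0
  have hP : P.Nonempty := ⟨C1, Finset.mem_filter.2 ⟨Finset.mem_powerset.2 hC1,
    Finset.Subset.refl _, h1⟩⟩
  obtain ⟨C, hC, hmax⟩ := Finset.exists_max_image P Finset.card hP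
  obtain ⟨hCS, hCC, hCi⟩ := Finset.mem_filter.1 hC
  rw [Finset.mem_powerset] at hCS
  refine ⟨C, hCC, hCS, hCi, fun x hx => ?_⟩
  by_contra hnot
  have hxC : x ∉ C := fun h => hnot (Submodule.mem_sup_right (Submodule.subset_span h))
  have hin : insert x C ∈ P := by
    refine Finset.mem_filter.2 ⟨Finset.mem_powerset.2 (Finset.insert_subset hx hCS),
      hCC.trans (Finset.subset_insert _ _), fun r hr => ?_⟩
    rw [Finset.sum_insert hxC] at hr
    have hx0 : r x = 0 := by
      by_contra hrx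
      apply hnot
      have h3 : x = (r x)⁻¹ • ((r x • x + ∑ y ∈ C, r y • y) - ∑ y ∈ C, r y • y) := by
        rw [add_sub_cancel_right, smul_smul, inv_mul_cancel₀ hrx, one_smul]
      rw [h3]
      refine Submodule.smul_mem _ _ (Submodule.sub_mem _ (Submodule.mem_sup_left hr)
        (Submodule.mem_sup_right ?_))
      exact Submodule.sum_mem _ fun y hy => Submodule.smul_mem _ _ (Submodule.subset_span hy)
    rw [hx0, zero_smul, zero_add] at hr
    intro y hy
    rcases Finset.mem_insert.1 hy with rfl | hy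
    · exact hx0
    · exact hCi r hr y hy
  have := hmax _ hin
  rw [Finset.card_insert_of_notMem hxC] at this
  omega

theorem exists_isQ {n N m' : ℕ} (hN : 2 ≤ N) (W : Submodule F (Fin n → F))
    [DecidableEq (W →ₗ[F] F)] (f : Fin m' ↪ Fin n) (C0 : Set (Fin n))
    (h : IsClique N (minor W f C0)) :
    ∃ (C : Finset (W →ₗ[F] F)) (g : Fin N → (W →ₗ[F] F)) (q : Fin N → Fin N → (W →ₗ[F] F)),
      IsQ (⊥ : Submodule F (W →ₗ[F] F)) (Finset.univ.image (cf W)) C g q := by
  classical
  obtain ⟨e, he⟩ := h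
  let z : Fin N := ⟨0, by omega⟩
  have hzlt : ∀ i : Fin N, i ≠ z → z < i := by
    intro i hi
    rw [Fin.lt_def]
    have : (i : ℕ) ≠ 0 := fun h => hi (Fin.ext h)
    show 0 < (i : ℕ)
    omega
  -- the element of a pair
  let x : ∀ i j : Fin N, i < j → Fin n := fun i j hij => f (e.symm ⟨(i, j), hij⟩)
  let q : Fin N → Fin N → (W →ₗ[F] F) := fun i j =>
    if h : i < j then cf W (x i j h) else if h : j < i then cf W (x j i h) else 0
  have hqsymm : ∀ i j, q i j = q j i := by
    intro i j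
    simp only [q]
    rcases lt_trichotomy i j with h | h | h
    · rw [dif_pos h, dif_neg h.not_gt, dif_pos h]
    · subst h; rfl
    · rw [dif_neg h.not_gt, dif_pos h, dif_pos h]
  have hqlt : ∀ i j (h : i < j), q i j = cf W (x i j h) := by
    intro i j h
    simp only [q]
    rw [dif_pos h]
  have hqz : q z z = 0 := by simp [q]
  let g : Fin N → (W →ₗ[F] F) := fun i => q z i
  have hgz : g z = 0 := hqz
  let A0 : Submodule F (W →ₗ[F] F) := Submodule.span F (cf W '' C0)
  -- values of the functionals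
  have hval1 : ∀ u : W, (∀ ψ ∈ A0, ψ u = 0) → ∃ p : Fin N → F, ∀ i j, i < j →
      q i j u = p j - p i := by
    intro u hu
    have hmem : (fun j => (u : Fin n → F) (f j)) ∈ minor W f C0 :=
      ⟨u, u.2, fun c hc => hu _ (Submodule.subset_span ⟨c, hc, rfl⟩), fun j => rfl⟩
    obtain ⟨p, hp⟩ := (he _).1 hmem
    refine ⟨p, fun i j h => ?_⟩
    rw [hqlt i j h, cf_apply]
    have := hp (e.symm ⟨(i, j), h⟩)
    rw [Equiv.apply_symm_apply] at this
    exact this
  have hval2 : ∀ p : Fin N → F, ∃ u : W, (∀ ψ ∈ A0, ψ u = 0) ∧ ∀ i j, i < j →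
      q i j u = p j - p i := by
    intro p
    have hmem : (fun y => p (e y).1.2 - p (e y).1.1) ∈ minor W f C0 := (he _).2 ⟨p, fun y => rfl⟩
    obtain ⟨u, huW, hu0, hu⟩ := mem_minor.1 hmem
    refine ⟨⟨u, huW⟩, ?_, fun i j h => ?_⟩
    · intro ψ hψ
      refine Submodule.span_induction ?_ ?_ ?_ ?_ hψ
      · rintro _ ⟨c, hc, rfl⟩
        exact hu0 c hc
      · rfl
      · intro a b _ _ ha hb
        rw [LinearMap.add_apply, ha, hb, add_zero]
      · intro r a _ ha
        rw [LinearMap.smul_apply, ha, smul_zero]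
    · rw [hqlt i j h, cf_apply]
      have := hu (e.symm ⟨(i, j), h⟩)
      rw [Equiv.apply_symm_apply] at this
      exact this.symm
  -- annihilator
  have hann : ∀ ψ : W →ₗ[F] F, (∀ u : W, (∀ φ ∈ A0, φ u = 0) → ψ u = 0) → ψ ∈ A0 := by
    intro ψ hψ
    have h1 : ψ ∈ Submodule.span F (Set.range fun c : C0 => cf W (c : Fin n)) := by
      refine mem_span_of_iInf_ker_le_ker ?_
      intro u hu
      rw [LinearMap.mem_ker]
      apply hψ
      intro φ hφ
      refine Submodule.span_induction ?_ ?_ ?_ ?_ hφ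
      · rintro _ ⟨c, hc, rfl⟩
        exact LinearMap.mem_ker.1 ((Submodule.mem_iInf _).1 hu ⟨c, hc⟩)
      · rfl
      · intro a b _ _ ha hb
        rw [LinearMap.add_apply, ha, hb, add_zero]
      · intro r a _ ha
        rw [LinearMap.smul_apply, ha, smul_zero]
    refine Submodule.span_mono ?_ h1
    rintro _ ⟨c, rfl⟩
    exact ⟨c, c.2, rfl⟩
  have hgval : ∀ (u : W) (p : Fin N → F), (∀ i j, i < j → q i j u = p j - p i) → ∀ i,
      g i u = p i - p z := by
    intro u p hp i
    by_cases hi : i = z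
    · rw [hi, hgz, LinearMap.zero_apply, sub_self]
    · exact hp z i (hzlt i hi)
  -- independence modulo `A0`
  have hind0 : ∀ r : Fin N → F, (∑ i, r i • g i) ∈ A0 → ∀ i, i ≠ z → r i = 0 := by
    intro r hr i hiz
    obtain ⟨u, hu0, hu⟩ := hval2 (Pi.single i 1)
    have h2 : (∑ j, r j • g j) u = 0 := hu0 _ hr
    rw [LinearMap.sum_apply] at h2
    have h3 : ∑ j, (r j • g j) u = r i := by
      rw [Finset.sum_eq_single i]
      · rw [LinearMap.smul_apply, hgval u _ hu i, Pi.single_eq_of_ne (Ne.symm hiz), Pi.single_eq_same,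
          sub_zero, smul_eq_mul, mul_one]
      · intro j _ hj
        rw [LinearMap.smul_apply, hgval u _ hu j, Pi.single_eq_of_ne (Ne.symm hiz),
          Pi.single_eq_of_ne hj, sub_zero, smul_zero]
      · intro h; exact absurd (Finset.mem_univ i) h
    rw [h3] at h2
    exact h2
  have hT0 : ∀ r : Fin N → F, (∑ i, r i • g i) ∈ A0 → ∑ i, r i • g i = 0 := by
    intro r hr
    refine Finset.sum_eq_zero fun i _ => ?_
    by_cases hi : i = z
    · rw [hi, hgz, smul_zero]
    · rw [hind0 r hr i hi, zero_smul]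
  -- the span of the vertex vectors
  let G : Submodule F (W →ₗ[F] F) := Submodule.span F (Set.range g)
  have hG : ∀ v ∈ G, ∃ r : Fin N → F, ∑ i, r i = 0 ∧ v = ∑ i, r i • g i := by
    intro v hv
    obtain ⟨c, hc⟩ := (Submodule.mem_span_range_iff_exists_fun F).1 hv
    refine ⟨fun i => c i - (if i = z then ∑ j, c j else 0), ?_, ?_⟩
    · rw [Finset.sum_sub_distrib, Finset.sum_ite_eq' Finset.univ z, if_pos (Finset.mem_univ z),
        sub_self]
    · rw [← hc]
      refine Finset.sum_congr rfl fun i _ => ?_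
      by_cases hi : i = z
      · rw [hi, hgz, smul_zero, smul_zero]
      · show c i • g i = (c i - if i = z then ∑ j, c j else 0) • g i
        rw [if_neg hi, sub_zero]
  -- a basis of `A0` inside the contracted elements
  let S0 : Finset (W →ₗ[F] F) := (Finset.univ.filter fun x : Fin n => x ∈ C0).image (cf W)
  obtain ⟨Ca, hCaS, hCah, hCai⟩ := exists_indep_subset (⊥ : Submodule F (W →ₗ[F] F)) S0
  have hCa0 : A0 ≤ Submodule.span F (Ca : Set (W →ₗ[F] F)) := by
    rw [Submodule.span_le]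
    rintro _ ⟨x, hx, rfl⟩
    have h1 : cf W x ∈ hat (⊥ : Submodule F (W →ₗ[F] F)) (S0 : Set (W →ₗ[F] F)) :=
      subset_hat _ _ (Finset.mem_coe.2 (Finset.mem_image.2 ⟨x, Finset.mem_filter.2
        ⟨Finset.mem_univ _, hx⟩, rfl⟩))
    rw [← hCah] at h1
    unfold hat at h1
    rwa [bot_sup_eq] at h1
  have hCaA : ∀ r : (W →ₗ[F] F) → F, ∑ y ∈ Ca, r y • y ∈ A0 := by
    intro r
    refine Submodule.sum_mem _ fun y hy => Submodule.smul_mem _ _ ?_
    obtain ⟨x, hx, rfl⟩ := Finset.mem_image.1 (hCaS hy)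
    exact Submodule.subset_span ⟨x, (Finset.mem_filter.1 hx).2, rfl⟩
  have hCaU : Ca ⊆ Finset.univ.image (cf W) := by
    intro y hy
    obtain ⟨x, -, rfl⟩ := Finset.mem_image.1 (hCaS hy)
    exact Finset.mem_image_of_mem _ (Finset.mem_univ _)
  obtain ⟨C, hCaC, hCS, hCi, hCs⟩ := ca_ext (Finset.univ.image (cf W)) G Ca hCaU (by
    intro r hrG
    obtain ⟨r', -, hr'⟩ := hG _ hrG
    apply hCai r
    rw [Submodule.mem_bot, hr']
    apply hT0
    rw [← hr']
    exact hCaA r)
  have hAC : A0 ≤ Submodule.span F (C : Set (W →ₗ[F] F)) :=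
    hCa0.trans (Submodule.span_mono (by exact_mod_cast hCaC))
  have hhat : hat (⊥ : Submodule F (W →ₗ[F] F)) (C : Set (W →ₗ[F] F)) =
      Submodule.span F (C : Set (W →ₗ[F] F)) := by
    unfold hat
    rw [bot_sup_eq]
  refine ⟨C, g, q, ?_⟩
  constructor
  · exact hCS
  · intro r h0
    apply hCi r
    rw [Submodule.mem_bot] at h0
    rw [h0]
    exact G.zero_mem
  · intro r hr0 hr
    obtain ⟨s, hs⟩ := (mem_hat_iff _ C _).1 hr
    rw [Submodule.mem_bot, sub_eq_zero] at hs
    have h1 : ∀ x ∈ C, s x = 0 := by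
      apply hCi s
      rw [← hs]
      exact Submodule.sum_mem _ fun i _ => Submodule.smul_mem _ _ (Submodule.subset_span ⟨i, rfl⟩)
    have h2 : ∑ i, r i • g i = 0 := by
      rw [hs]
      exact Finset.sum_eq_zero fun x hx => by rw [h1 x hx, zero_smul]
    have h3 : ∀ i, i ≠ z → r i = 0 := hind0 r (by rw [h2]; exact A0.zero_mem)
    have h4 : r z = 0 := by
      rw [← hr0]
      symm
      refine Finset.sum_eq_single z (fun i _ hi => h3 i hi) ?_
      intro h
      exact absurd (Finset.mem_univ z) h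
    funext i
    by_cases hi : i = z
    · rw [hi, h4]
      rfl
    · rw [h3 i hi]
      rfl
  · intro i j hij
    rcases lt_or_gt_of_ne hij with h | h
    · rw [hqlt i j h]
      exact Finset.mem_image_of_mem _ (Finset.mem_univ _)
    · rw [hqsymm, hqlt j i h]
      exact Finset.mem_image_of_mem _ (Finset.mem_univ _)
  · exact hqsymm
  · intro i j hij
    rcases lt_or_gt_of_ne hij with h | h
    · refine ⟨-1, neg_ne_zero.2 one_ne_zero, ?_⟩
      rw [hhat]
      apply hAC
      apply hann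
      intro u hu
      obtain ⟨p, hp⟩ := hval1 u hu
      rw [LinearMap.sub_apply, LinearMap.smul_apply, LinearMap.sub_apply, hp i j h, hgval u p hp i,
        hgval u p hp j, smul_eq_mul]
      ring
    · refine ⟨1, one_ne_zero, ?_⟩
      rw [hhat]
      apply hAC
      apply hann
      intro u hu
      obtain ⟨p, hp⟩ := hval1 u hu
      rw [LinearMap.sub_apply, LinearMap.smul_apply, LinearMap.sub_apply, hqsymm, hp j i h,
        hgval u p hp i, hgval u p hp j, smul_eq_mul]
      ring
  · intro y hy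
    rw [hhat]
    obtain ⟨γ, hγ, c, hc, hyc⟩ := Submodule.mem_sup.1 (hCs y hy)
    obtain ⟨r, hr, hγr⟩ := hG γ hγ
    refine ⟨r, hr, ?_⟩
    rw [← hyc, ← hγr, add_sub_cancel_left]
    exact hc

end Pool.Agent.SFT
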