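import Pool.Agent.Helper39.TC.Defs

/-!
# SFT-FDefs: definitions for the final theorem

Represented matroids are row spaces (`Pool.Agent.Helper39.TC`).
-/

namespace Pool.Agent.SFT

open Finset
open Pool.Agent.Helper39.TC

variable {F : Type} [Field F]

/-- `U` is, up to column scaling, confined to the subfield `K`: `U` is the row space of `A D`, where
all entries of `A` are in `K` and `D` is an invertible diagonal matrix (with diagonal `d`) -/
def ConfinedTo (K : Subfield F) {n : ℕ} (U : Submodule F (Fin n → F)) : Prop :=
  ∃ (d : Fin n → F) (m : ℕ) (A : Matrix (Fin m) (Fin n) F), (∀ j, d j ≠ 0) ∧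
    (∀ i j, A i j ∈ K) ∧ rowSpace (Matrix.of fun i j => A i j * d j) = U

/-- `U` is the represented matroid `N_m(a)` for some `a = t / s` not in `K`: up to a bijection `g`
of the ground set with the edges of the complete graph on `m` vertices and one further element, and
up to column scaling (`d`), the row space of the signed incidence matrix of the complete graph
with one further column, which has the entries `s`, `t`, `-(s + t)` at three vertices `a`, `b`, `c`
and is zero elsewhere -/
def IsN (K : Subfield F) (m : ℕ) {n : ℕ} (U : Submodule F (Fin n → F)) : Prop :=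
  ∃ (g : Fin n ≃ Option {p : Fin m × Fin m // p.1 < p.2}) (a b c : Fin m) (s t : F)
    (d : Fin n → F), a ≠ b ∧ a ≠ c ∧ b ≠ c ∧ s ≠ 0 ∧ t / s ∉ K ∧ (∀ x, d x ≠ 0) ∧
    ∀ u : Fin n → F, u ∈ U ↔ ∃ p : Fin m → F, ∀ x, u x = d x *
      match g x with
      | some e => p e.1.1 - p e.1.2
      | none => s * p a + t * p b - (s + t) * p c

/-- The conclusion of the question, with confinement up to column scaling. -/
def HasStructureS (𝓜 : MClass F) : Prop :=
  ∃ k t : ℕ, ∀ (n : ℕ) (U : Submodule F (Fin n → F)), 𝓜 n U → TutteConn k U →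
    ∃ N : Submodule F (Fin n → F), IsPerturbation t N U ∧
      (IsFrame N ∨ IsFrame (dual N) ∨ ∃ K : Subfield F, K ≠ ⊤ ∧ ConfinedTo K N)

end Pool.Agent.SFT
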