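import Pool.Agent.SFT.Fm1

/-!
# SFT-Fm3: forms, intersections and dimensions of `F`-spans

`α := Module.finBasis E F`. `IsForm.span_inf`: `v = ∑ α j • a j = ∑ α j • b j` (`mem_span_iff`), so
`∑ α j • (a j - b j) = 0 ∈ K`, `a j - b j ∈ K ≤ B`, `a j ∈ A ⊓ B`; `mem_span_iff` again.
`finrank_span_le`: choose `X` with `hat (rs E K) X = A`, `finrank (rs E K) + X.card = finrank A`
(`exists_basis_mod` over `E`, `classical`). Then `span F A = hat K X` (`A` is generated over `E` by `K` and `X`),
of dimension at most `finrank F K + X.card` (`finrank_hat_le`).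
`IsForm.finrank_span`: in addition `X` is independent modulo `K` over `F`: if `∑ x ∈ X, r x • x ∈ K`, write
`r x = ∑ j, m x j • α j`: `∑ j, α j • (∑ x ∈ X, m x j • x) ∈ K`, so `∑ x ∈ X, m x j • x ∈ K` for all `j`
(`IsForm.basis`), so `m x j = 0`. Then `finrank_hat_of_indep`.
-/

namespace Pool.Agent.SFT

open Finset Module

variable {E F V : Type} [Field E] [Field F] [Algebra E F] [AddCommGroup V] [Module F V]
  [Module E V] [IsScalarTower E F V]
  [FiniteDimensional E F] {K : Submodule F V} {L A B : Submodule E V}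

theorem IsForm.span_inf (h : IsForm K L) (hA : A ≤ L) (hB : B ≤ L) (hKB : ∀ v ∈ K, v ∈ B)
    {v : V} (hvA : v ∈ Submodule.span F (A : Set V)) (hvB : v ∈ Submodule.span F (B : Set V)) :
    v ∈ Submodule.span F ((A ⊓ B : Submodule E V) : Set V) := by
  set α := Module.finBasis E F
  obtain ⟨a, ha, hva⟩ := (mem_span_iff α A v).1 hvA
  obtain ⟨b, hb, hvb⟩ := (mem_span_iff α B v).1 hvB
  have h1 : ∑ j, α j • (a j - b j) ∈ K := by
    have h2 : ∑ j, α j • (a j - b j) = 0 := by
      rw [Finset.sum_congr rfl fun j _ => smul_sub (α j) (a j) (b j), Finset.sum_sub_distrib,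
        ← hva, ← hvb, sub_self]
    rw [h2]
    exact K.zero_mem
  have h2 := h.basis α (fun j => a j - b j) (fun j => L.sub_mem (hA (ha j)) (hB (hb j))) h1
  refine (mem_span_iff α (A ⊓ B) v).2 ⟨a, fun j => ⟨ha j, ?_⟩, hva⟩
  have h3 : a j = (a j - b j) + b j := (sub_add_cancel _ _).symm
  rw [h3]
  exact B.add_mem (hKB _ (h2 j)) (hb j)

variable [FiniteDimensional F V] [FiniteDimensional E V]

private theorem fm3_basis (hKA : ∀ v ∈ K, v ∈ A) : ∃ X : Finset V, (∀ x ∈ X, x ∈ A) ∧
    Submodule.span F (A : Set V) = hat K (X : Set V) ∧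
    finrank E (rs E K) + X.card = finrank E A ∧
    ∀ r : V → E, ∑ x ∈ X, r x • x ∈ K → ∀ x ∈ X, r x = 0 := by
  classical
  obtain ⟨X, hXA, hX, hc, hind⟩ := exists_basis_mod (K := rs E K) (D := A) (fun v hv => hKA v hv)
  refine ⟨X, hXA, ?_, hc, hind⟩
  apply le_antisymm
  · rw [Submodule.span_le]
    intro v hv
    have hv' : v ∈ hat (rs E K) (X : Set V) := by
      rw [hX]
      exact hv
    obtain ⟨r, hr⟩ := (mem_hat_iff (rs E K) X v).1 hv'
    have h1 : v = (v - ∑ x ∈ X, r x • x) + ∑ x ∈ X, r x • x := (sub_add_cancel _ _).symm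
    rw [h1]
    refine Submodule.add_mem _ (le_hat K _ hr) (Submodule.sum_mem _ fun x hx => ?_)
    rw [← algebraMap_smul F (r x) x]
    exact Submodule.smul_mem _ _ (subset_hat K _ (Finset.mem_coe.2 hx))
  · refine hat_le (fun v hv => Submodule.subset_span (hKA v hv)) fun x hx => ?_
    exact Submodule.subset_span (hXA x (Finset.mem_coe.1 hx))

theorem finrank_span_le (hKA : ∀ v ∈ K, v ∈ A) :
    finrank F (Submodule.span F (A : Set V)) + finrank E (rs E K) ≤
      finrank F K + finrank E A := by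
  obtain ⟨X, -, hX, hc, -⟩ := fm3_basis hKA
  have h1 := finrank_hat_le K X
  rw [hX]
  omega

theorem IsForm.finrank_span (h : IsForm K L) (hA : A ≤ L) (hKA : ∀ v ∈ K, v ∈ A) :
    finrank F (Submodule.span F (A : Set V)) + finrank E (rs E K) =
      finrank F K + finrank E A := by
  classical
  obtain ⟨X, hXA, hX, hc, hind⟩ := fm3_basis hKA
  have h1 : finrank F (hat K (X : Set V)) = finrank F K + X.card := by
    apply finrank_hat_of_indep
    intro r hr
    set α := Module.finBasis E F
    have hcomm : ∀ (m : E) (a : F) (v : V), m • a • v = a • m • v := by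
      intro m a v
      rw [← algebraMap_smul F m (a • v), ← algebraMap_smul F m v, smul_comm]
    have h2 : ∑ x ∈ X, r x • x = ∑ j, α j • ∑ x ∈ X, α.repr (r x) j • x := by
      have h3 : ∀ x ∈ X, r x • x = ∑ j, α j • (α.repr (r x) j • x) := by
        intro x _
        conv_lhs => rw [← α.sum_repr (r x), Finset.sum_smul]
        refine Finset.sum_congr rfl fun i _ => ?_
        rw [smul_assoc, hcomm]
      rw [Finset.sum_congr rfl h3, Finset.sum_comm]
      exact Finset.sum_congr rfl fun j _ => (Finset.smul_sum).symm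
    rw [h2] at hr
    have h3 := h.basis α (fun j => ∑ x ∈ X, α.repr (r x) j • x)
      (fun j => L.sum_mem fun x hx => L.smul_mem _ (hA (hXA x hx))) hr
    intro x hx
    have h4 : ∀ j, α.repr (r x) j = 0 := fun j => hind (fun y => α.repr (r y) j) (h3 j) x hx
    rw [← α.sum_repr (r x)]
    exact Finset.sum_eq_zero fun j _ => by rw [h4 j, zero_smul]
  rw [hX, h1]
  omega

end Pool.Agent.SFT
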