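import Pool.Agent.Helper39.TC.Lin
import Pool.Agent.SFT.Fm3
import Pool.Agent.SFT.FDefs

/-!
# SFT-CoB: a confined configuration gives a confined matroid

Let `L` be the form modulo `⊥`, `c x • cf W x ∈ L` (`c x ≠ 0`). `L1 := span K {c x • cf W x} ≤ L` (`K` as a field), a form modulo `⊥`
(`IsForm.mono`; `rs K ⊥ = ⊥`). A basis `ψ_1, ..., ψ_r` of `L1` over `K` (`Module.finBasis`; `L1` is finite dimensional) is independent over
`F` (`IsForm`: decompose the coefficients in a basis of `F` over `K`; or `finrank_span`) and spans `W →ₗ[F] F` (`span_cf`), so it is a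
basis over `F`; the dual basis in `W` (`Module.evalEquiv F W`, as in `Pool.Agent.Helper39.HCI.Frame`) `w_1, ..., w_r`,
`ψ_i w_j = δ_ij`, is a basis of `W`. `c x • cf W x = ∑ i, a i x • ψ_i` with `a i x ∈ K`. `w_i x = cf W x w_i = (c x)⁻¹ * a i x`. So
`W = rowSpace (a i x * (c x)⁻¹)` (`d x := (c x)⁻¹`).
-/

namespace Pool.Agent.SFT

open Finset Module
open Pool.Agent.Helper39.TC

variable {F : Type} [Field F] [Finite F]

theorem confinedTo_of_conf (K : Subfield F) {n : ℕ} (W : Submodule F (Fin n → F))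
    (h : Conf K (⊥ : Submodule F (W →ₗ[F] F)) (Set.range (cf W))) : ConfinedTo K W := by
  classical
  obtain ⟨L, hL, hc⟩ := h
  have hc' : ∀ x : Fin n, ∃ c : F, c ≠ 0 ∧ c • cf W x ∈ L := fun x => hc _ ⟨x, rfl⟩
  choose c hc0 hcL using hc'
  haveI hKF : FiniteDimensional K F := inferInstance
  haveI hKV : FiniteDimensional K (W →ₗ[F] F) := Module.Finite.trans F (W →ₗ[F] F)
  obtain ⟨L1, hL1⟩ : ∃ L1 : Submodule K (W →ₗ[F] F),
      L1 = Submodule.span K (Set.range fun x => c x • cf W x) := ⟨_, rfl⟩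
  have hmem : ∀ x, c x • cf W x ∈ L1 := fun x => by
    rw [hL1]
    exact Submodule.subset_span ⟨x, rfl⟩
  have hle : L1 ≤ L := by
    rw [hL1, Submodule.span_le]
    rintro _ ⟨x, rfl⟩
    exact hcL x
  have hbot : ∀ v ∈ (⊥ : Submodule F (W →ₗ[F] F)), v ∈ L1 := fun v hv => by
    rw [(Submodule.mem_bot F).1 hv]
    exact L1.zero_mem
  have hform : IsForm (⊥ : Submodule F (W →ₗ[F] F)) L1 := hL.mono hle hbot
  have hspan : Submodule.span F (L1 : Set (W →ₗ[F] F)) = ⊤ := by
    rw [eq_top_iff, ← span_cf W, Submodule.span_le]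
    rintro _ ⟨x, rfl⟩
    have h1 : cf W x = (c x)⁻¹ • (c x • cf W x) := by
      rw [smul_smul, inv_mul_cancel₀ (hc0 x), one_smul]
    rw [h1]
    exact Submodule.smul_mem _ _ (Submodule.subset_span (hmem x))
  have hfr := hform.finrank_span le_rfl hbot
  have hrs : rs K (⊥ : Submodule F (W →ₗ[F] F)) = ⊥ := Submodule.restrictScalars_bot ..
  rw [hspan, hrs, finrank_bot, finrank_bot, finrank_top, add_zero, zero_add] at hfr
  haveI hfree : Module.Free K L1 := Module.Free.of_divisionRing K L1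
  obtain ⟨ψ, -⟩ : ∃ ψ : Basis (Fin (finrank K L1)) K L1, True := ⟨Module.finBasis K L1, trivial⟩
  have hexp : ∀ (x : W →ₗ[F] F) (hx : x ∈ L1),
      x = ∑ i, (((ψ.repr ⟨x, hx⟩ i : K) : F)) • (ψ i : W →ₗ[F] F) := by
    intro x hx
    have h1 := congrArg (Subtype.val) (ψ.sum_repr ⟨x, hx⟩)
    refine h1.symm.trans ?_
    push_cast
    rfl
  have hsp : ⊤ ≤ Submodule.span F (Set.range fun i => (ψ i : W →ₗ[F] F)) := by
    rw [← hspan, Submodule.span_le]
    intro x hx
    rw [hexp x hx]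
    exact Submodule.sum_mem _ fun i _ => Submodule.smul_mem _ _ (Submodule.subset_span ⟨i, rfl⟩)
  obtain ⟨B, hB⟩ : ∃ B : Basis (Fin (finrank K L1)) F (W →ₗ[F] F),
      ∀ i, B i = (ψ i : W →ₗ[F] F) := by
    refine ⟨basisOfTopLeSpanOfCardEqFinrank (fun i => (ψ i : W →ₗ[F] F)) hsp ?_, fun i => ?_⟩
    · rw [Fintype.card_fin, hfr]
    · rw [coe_basisOfTopLeSpanOfCardEqFinrank]
  obtain ⟨w, hw⟩ : ∃ w : Basis (Fin (finrank K L1)) F W,
      ∀ i (φ : W →ₗ[F] F), φ (w i) = B.repr φ i := by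
    refine ⟨B.dualBasis.map (Module.evalEquiv F W).symm, fun i φ => ?_⟩
    rw [Basis.map_apply]
    have h1 : Module.evalEquiv F W ((Module.evalEquiv F W).symm (B.dualBasis i)) =
        B.dualBasis i := LinearEquiv.apply_symm_apply _ _
    have h2 := congrArg (fun f => f φ) h1
    rw [← B.dualBasis_apply]
    exact h2
  have hent : ∀ i x, ((w i : W) : Fin n → F) x =
      ((ψ.repr ⟨c x • cf W x, hmem x⟩ i : K) : F) * (c x)⁻¹ := by
    intro i x
    have h1 : c x • cf W x =
        ∑ i, (((ψ.repr ⟨c x • cf W x, hmem x⟩ i : K) : F)) • B i := by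
      refine (hexp _ (hmem x)).trans (Finset.sum_congr rfl fun i _ => ?_)
      rw [hB]
    have h2 := congrArg (fun f => B.repr f i) h1
    beta_reduce at h2
    rw [B.repr_sum_self, map_smul, Finsupp.smul_apply, smul_eq_mul, ← hw, cf_apply] at h2
    rw [← h2, mul_comm, ← mul_assoc, inv_mul_cancel₀ (hc0 x), one_mul]
  refine ⟨fun x => (c x)⁻¹, finrank K L1,
    Matrix.of fun i x => ((ψ.repr ⟨c x • cf W x, hmem x⟩ i : K) : F),
    fun x => inv_ne_zero (hc0 x), fun i x => (ψ.repr ⟨c x • cf W x, hmem x⟩ i : K).2, ?_⟩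
  unfold rowSpace
  have hrows : (Set.range fun i => (Matrix.of fun i j =>
      (Matrix.of fun i x => ((ψ.repr ⟨c x • cf W x, hmem x⟩ i : K) : F)) i j * (c j)⁻¹) i) =
      W.subtype '' Set.range w := by
    rw [← Set.range_comp]
    congr 1
    funext i
    funext x
    exact (hent i x).symm
  rw [hrows, ← Submodule.map_span, w.span_eq, Submodule.map_top, Submodule.range_subtype]

end Pool.Agent.SFT
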