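import Pool.Agent.SFT.BasB

/-!
# SFT-Con2: a set which is fully linked to a clique keeps its connectivity

`W = guts K S X = hat K X ⊓ hat K (S \ X)`. `rooted_inf`: `hat L X ⊓ hat L B = L ⊔ W` by the modular
law and dimensions. `rooted_guts`: the guts of a subset `Y` of `X` in `(L, X ∪ B)` are the guts of
`Y` in `(K, S)` modulo `L`, hence the connectivities agree (`rooted_lam`).
-/

namespace Pool.Agent.SFT

open Finset Module

variable {k V : Type} [Field k] [AddCommGroup V] [Module k V] [DecidableEq V] [FiniteDimensional k V]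
  {K L : Submodule k V} {S X B Y : Finset V}

theorem rooted_inf (hX : X ⊆ S) (hB : B ⊆ S \ X) (hKL : K ≤ L)
    (hLZ : L ≤ hat K ((S \ X : Finset V) : Set V)) (hLX : hat K (X : Set V) ⊓ L = K)
    (hdim : finrank k L + lam K S X ≤ finrank k ↥(hat L (X : Set V) ⊓ hat L (B : Set V))) :
    hat L (X : Set V) ⊓ hat L (B : Set V) = L ⊔ guts K S X := by
  have hBZ : (B : Set V) ⊆ ((S \ X : Finset V) : Set V) := fun x hx => hB hx
  have h1 : hat L (X : Set V) ⊓ hat L (B : Set V) ≤ L ⊔ guts K S X := by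
    have h2 : hat L (X : Set V) ≤ L ⊔ hat K (X : Set V) :=
      hat_le le_sup_left ((subset_hat K (X : Set V)).trans (show ((hat K (X : Set V) :
        Submodule k V) : Set V) ⊆ _ from fun v hv => (le_sup_right : _ ≤ L ⊔ hat K (X : Set V)) hv))
    have h3 : hat L (B : Set V) ≤ hat K ((S \ X : Finset V) : Set V) :=
      hat_le hLZ (hBZ.trans (subset_hat K _))
    calc hat L (X : Set V) ⊓ hat L (B : Set V)
        ≤ (L ⊔ hat K (X : Set V)) ⊓ hat K ((S \ X : Finset V) : Set V) := inf_le_inf h2 h3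
      _ = L ⊔ hat K (X : Set V) ⊓ hat K ((S \ X : Finset V) : Set V) := sup_inf_of_le hLZ
  refine Submodule.eq_of_le_of_finrank_le h1 ?_
  have h4 := finrank_sup_of_inf_eq hLX (le_guts K S X) (inf_le_left : guts K S X ≤ _) hKL
  have h5 := lam_add K S X
  omega

omit [DecidableEq V] [FiniteDimensional k V] in
private theorem con2_split {T : Set V} (hKL : K ≤ L) {v : V} (hv : v ∈ hat L T) :
    v ∈ L ⊔ hat K T := by
  have h1 : hat L T ≤ L ⊔ hat K T :=
    hat_le le_sup_left fun x hx => (le_sup_right : hat K T ≤ L ⊔ hat K T) (subset_hat K T hx)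
  exact h1 hv

theorem rooted_guts (hX : X ⊆ S) (hB : B ⊆ S \ X) (hKL : K ≤ L)
    (hLZ : L ≤ hat K ((S \ X : Finset V) : Set V)) (hLX : hat K (X : Set V) ⊓ L = K)
    (hdim : finrank k L + lam K S X ≤ finrank k ↥(hat L (X : Set V) ⊓ hat L (B : Set V)))
    (hY : Y ⊆ X) : guts L (X ∪ B) Y = L ⊔ guts K S Y := by
  have hI := rooted_inf hX hB hKL hLZ hLX hdim
  have hWX : guts K S X ≤ hat K (X : Set V) := inf_le_left
  have hYX : hat K (Y : Set V) ≤ hat K (X : Set V) := hat_mono le_rfl (fun x hx => hY hx)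
  have hYX' : hat K ((X \ Y : Finset V) : Set V) ≤ hat K (X : Set V) :=
    hat_mono le_rfl (fun x hx => sdiff_subset hx)
  have hset : (((X ∪ B) \ Y : Finset V) : Set V) = ((X \ Y : Finset V) : Set V) ∪ (B : Set V) := by
    have h1 : (X ∪ B) \ Y = (X \ Y) ∪ B := by
      rw [union_sdiff_distrib]
      congr 1
      refine sdiff_eq_self_of_disjoint ?_
      rw [disjoint_left]
      intro x hxB hxY
      exact (mem_sdiff.1 (hB hxB)).2 (hY hxY)
    rw [h1, coe_union]
  have hWB : guts K S X ≤ hat L (B : Set V) := by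
    have h1 : guts K S X ≤ hat L (X : Set V) ⊓ hat L (B : Set V) := by
      rw [hI]
      exact le_sup_right
    exact h1.trans inf_le_right
  refine le_antisymm ?_ ?_
  · intro v hv
    obtain ⟨hv1, hv2⟩ := Submodule.mem_inf.1 hv
    rw [hset, hat_union] at hv2
    obtain ⟨x', hx', b, hb, hxb⟩ := Submodule.mem_sup.1 hv2
    have hvX : v ∈ hat L (X : Set V) := hat_mono le_rfl (fun x hx => hY hx) hv1
    have hxX : x' ∈ hat L (X : Set V) := hat_mono le_rfl (fun x hx => sdiff_subset hx) hx'
    have hbX : b ∈ hat L (X : Set V) := by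
      have h1 : b = v - x' := by
        rw [← hxb]
        abel
      rw [h1]
      exact sub_mem hvX hxX
    have hb2 : b ∈ L ⊔ guts K S X := by
      rw [← hI]
      exact ⟨hbX, hb⟩
    obtain ⟨l, hl, w, hw, hlw⟩ := Submodule.mem_sup.1 hb2
    have hx2 : x' ∈ L ⊔ hat K ((X \ Y : Finset V) : Set V) :=
      con2_split hKL hx'
    obtain ⟨l2, hl2, y2, hy2, hly2⟩ := Submodule.mem_sup.1 hx2
    have hv3 : v ∈ L ⊔ hat K (Y : Set V) := con2_split hKL hv1
    obtain ⟨l3, hl3, a, ha, hla⟩ := Submodule.mem_sup.1 hv3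
    -- `a - (y2 + w)` is in `L` and in `hat K X`
    have hk : a - (y2 + w) ∈ K := by
      rw [← hLX]
      refine ⟨sub_mem (hYX ha) (add_mem (hYX' hy2) (hWX hw)), ?_⟩
      have h1 : a - (y2 + w) = l2 + l - l3 := by
        have h2 : l3 + a = l2 + y2 + (l + w) := by
          rw [hla, hly2, hlw, hxb]
        have h3 : a = l2 + y2 + (l + w) - l3 := by
          rw [← h2]
          abel
        rw [h3]
        abel
      rw [h1]
      exact sub_mem (add_mem hl2 hl) hl3
    have haC : a ∈ hat K ((X \ Y : Finset V) : Set V) ⊔ guts K S X := by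
      have h1 : a = (a - (y2 + w)) + (y2 + w) := by abel
      rw [h1]
      refine add_mem ?_ (Submodule.add_mem_sup hy2 hw)
      exact (le_hat K ((X \ Y : Finset V) : Set V)).trans le_sup_left hk
    have hag : a ∈ guts K S Y := by
      rw [guts_sub hY hX]
      exact ⟨ha, haC⟩
    rw [← hla]
    exact Submodule.add_mem_sup hl3 hag
  · refine sup_le (le_guts L _ _) ?_
    rw [guts_sub hY hX]
    refine le_inf ?_ ?_
    · exact inf_le_left.trans (hat_mono hKL le_rfl)
    · refine inf_le_right.trans (sup_le ?_ ?_)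
      · rw [hset]
        exact hat_mono hKL Set.subset_union_left
      · refine hWB.trans ?_
        rw [hset]
        exact hat_mono le_rfl Set.subset_union_right

theorem rooted_lam (hX : X ⊆ S) (hB : B ⊆ S \ X) (hKL : K ≤ L)
    (hLZ : L ≤ hat K ((S \ X : Finset V) : Set V)) (hLX : hat K (X : Set V) ⊓ L = K)
    (hdim : finrank k L + lam K S X ≤ finrank k ↥(hat L (X : Set V) ⊓ hat L (B : Set V)))
    (hY : Y ⊆ X) : lam L (X ∪ B) Y = lam K S Y := by
  have h1 := lam_add L (X ∪ B) Y
  rw [rooted_guts hX hB hKL hLZ hLX hdim hY] at h1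
  have h2 := lam_add K S Y
  have hYX : hat K (Y : Set V) ≤ hat K (X : Set V) := hat_mono le_rfl (fun x hx => hY hx)
  have h3 := finrank_sup_of_inf_eq hLX (le_guts K S Y)
    ((inf_le_left : guts K S Y ≤ hat K (Y : Set V)).trans hYX) hKL
  omega

end Pool.Agent.SFT
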