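import Pool.Agent.SFT.Con1
import Pool.Agent.SFT.Con2
import Pool.Agent.SFT.Cf1
import Pool.Agent.SFT.Fm3

/-!
# SFT-CoC: the end of the contraction argument (3.3, 5.3)

The guts of `insert e X` are spanned modulo `K` by `e` and a vector `w` of the form (`rooted_inf`, `IsForm.basis`); restrict the form to
`hat K (insert e X)` and contract `e`.
-/

namespace Pool.Agent.SFT

open Finset Module

variable {E F V : Type} [Field E] [Field F] [Algebra E F] [AddCommGroup V] [Module F V]
  [Module E V] [IsScalarTower E F V]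
  [DecidableEq V] [FiniteDimensional E F] [FiniteDimensional F V] {K L : Submodule F V}
  {S X B : Finset V} {e : V} {sm : Finset V → Prop}

theorem cl_contract (ht : Tight K S sm) (he : e ∈ S) (hX : sm (insert e X)) (heX : e ∉ X)
    (hc : 2 ≤ X.card) (hl : lam (hat K {e}) (S.erase e) X ≤ 1) (hB : B ⊆ S \ insert e X)
    (hKL : K ≤ L) (hLZ : L ≤ hat K ((S \ insert e X : Finset V) : Set V))
    (hLX : hat K ((insert e X : Finset V) : Set V) ⊓ L = K)
    (hdim : finrank F L + 2 ≤
      finrank F ↥(hat L ((insert e X : Finset V) : Set V) ⊓ hat L (B : Set V)))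
    (hg : Conf E L ((insert e X ∪ B : Finset V) : Set V)) :
    CL E (hat K {e}) (S.erase e) X := by
  obtain ⟨p1, p2, p3, p4, p5⟩ := ht.contract_pre he hX heX hc hl
  have heK : e ∉ K := ht.nz e he
  have hXS : insert e X ⊆ S := ht.sS _ hX
  have hinf := rooted_inf hXS hB hKL hLZ hLX (by rw [p3]; exact hdim)
  have hlam := lam_add K S (insert e X)
  obtain ⟨W, hW⟩ : ∃ W, W = guts K S (insert e X) := ⟨_, rfl⟩
  rw [← hW] at hinf p5 hlam
  rw [p3] at hlam
  have hWX : W ≤ hat K ((insert e X : Finset V) : Set V) := by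
    rw [hW]
    exact inf_le_left
  have hWL : W ≤ hat L (B : Set V) := by
    have h1 : W ≤ hat L ((insert e X : Finset V) : Set V) ⊓ hat L (B : Set V) := by
      rw [hinf]
      exact le_sup_right
    exact h1.trans inf_le_right
  have hKW : K ≤ W := by
    rw [hW]
    exact le_guts K S _
  have heW : e ∈ W := by
    rw [hW]
    exact ⟨subset_hat K _ (mem_coe.2 (mem_insert_self e X)), p2⟩
  have hBZ : hat L (B : Set V) ≤ hat K ((S \ insert e X : Finset V) : Set V) :=
    hat_le hLZ fun x hx => subset_hat K _ (mem_coe.2 (hB (mem_coe.1 hx)))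
  obtain ⟨M, hM, hMs⟩ := hg
  have hσ : ∀ x, ∃ c : F, c ≠ 0 ∧ (x ∈ ((insert e X ∪ B : Finset V) : Set V) → c • x ∈ M) := by
    intro x
    by_cases hx : x ∈ ((insert e X ∪ B : Finset V) : Set V)
    · obtain ⟨c, h1, h2⟩ := hMs x hx
      exact ⟨c, h1, fun _ => h2⟩
    · exact ⟨1, one_ne_zero, fun h => absurd h hx⟩
  choose c hc0 hcM using hσ
  obtain ⟨A0, hA0⟩ : ∃ A0 : Submodule E V,
      A0 = hat (rs E K) ((fun x => c x • x) '' ((insert e X : Finset V) : Set V)) := ⟨_, rfl⟩
  obtain ⟨B1, hB1⟩ : ∃ B1 : Submodule E V,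
      B1 = hat (rs E L) ((fun x => c x • x) '' (B : Set V)) := ⟨_, rfl⟩
  have hcX : ∀ x ∈ insert e X, c x • x ∈ M := fun x hx =>
    hcM x (mem_coe.2 (mem_union_left _ hx))
  have hA0M : A0 ≤ M := by
    rw [hA0]
    refine hat_le (fun v hv => hM.le v (hKL hv)) ?_
    rintro _ ⟨x, hx, rfl⟩
    exact hcX x (mem_coe.1 hx)
  have hB1M : B1 ≤ M := by
    rw [hB1]
    refine hat_le (fun v hv => hM.le v hv) ?_
    rintro _ ⟨x, hx, rfl⟩
    exact hcM x (mem_coe.2 (mem_union_right _ (mem_coe.1 hx)))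
  have hA0K : ∀ v ∈ A0, v ∈ hat K ((insert e X : Finset V) : Set V) := by
    have h1 : A0 ≤ rs E (hat K ((insert e X : Finset V) : Set V)) := by
      rw [hA0]
      refine hat_le (fun v hv => le_hat K _ hv) ?_
      rintro _ ⟨x, hx, rfl⟩
      exact Submodule.smul_mem _ _ (subset_hat K _ hx)
    exact fun v hv => h1 hv
  have hB1L : ∀ v ∈ B1, v ∈ hat L (B : Set V) := by
    have h1 : B1 ≤ rs E (hat L (B : Set V)) := by
      rw [hB1]
      refine hat_le (fun v hv => le_hat L _ hv) ?_
      rintro _ ⟨x, hx, rfl⟩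
      exact Submodule.smul_mem _ _ (subset_hat L _ hx)
    exact fun v hv => h1 hv
  have hspA : hat K ((insert e X : Finset V) : Set V) ≤ Submodule.span F (A0 : Set V) := by
    refine hat_le (fun v hv => Submodule.subset_span ?_) (fun x hx => ?_)
    · rw [hA0]
      exact le_hat (rs E K) _ hv
    · have h1 : c x • x ∈ Submodule.span F (A0 : Set V) := Submodule.subset_span (by
        rw [hA0]
        exact subset_hat (rs E K) _ ⟨x, hx, rfl⟩)
      exact (Submodule.smul_mem_iff _ (hc0 x)).1 h1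
  have hspB : hat L (B : Set V) ≤ Submodule.span F (B1 : Set V) := by
    refine hat_le (fun v hv => Submodule.subset_span ?_) (fun x hx => ?_)
    · rw [hB1]
      exact le_hat (rs E L) _ hv
    · have h1 : c x • x ∈ Submodule.span F (B1 : Set V) := Submodule.subset_span (by
        rw [hB1]
        exact subset_hat (rs E L) _ ⟨x, hx, rfl⟩)
      exact (Submodule.smul_mem_iff _ (hc0 x)).1 h1
  -- every vector of the guts is a combination of vectors of the guts in the form
  have key : ∀ v ∈ W, ∃ a : Fin (finrank E F) → V, (∀ j, a j ∈ A0 ∧ a j ∈ W) ∧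
      v = ∑ j, (finBasis E F) j • a j := by
    intro v hv
    obtain ⟨a, ha, hva⟩ := (mem_span_iff (finBasis E F) A0 v).1 (hspA (hWX hv))
    obtain ⟨b, hb, hvb⟩ := (mem_span_iff (finBasis E F) B1 v).1 (hspB (hWL hv))
    have h1 : ∑ j, (finBasis E F) j • (a j - b j) ∈ L := by
      simp only [smul_sub, Finset.sum_sub_distrib]
      rw [← hva, ← hvb, sub_self]
      exact L.zero_mem
    have h2 := hM.basis (finBasis E F) (fun j => a j - b j)
      (fun j => M.sub_mem (hA0M (ha j)) (hB1M (hb j))) h1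
    refine ⟨a, fun j => ⟨ha j, ?_⟩, hva⟩
    have h3 : a j ∈ hat L (B : Set V) := by
      have h4 : a j = (a j - b j) + b j := (sub_add_cancel _ _).symm
      rw [h4]
      exact add_mem (le_hat L _ (h2 j)) (hB1L _ (hb j))
    rw [hW]
    exact ⟨hA0K _ (ha j), hBZ h3⟩
  obtain ⟨w, hwA, hwW, hwe⟩ : ∃ w, w ∈ A0 ∧ w ∈ W ∧ w ∉ hat K {e} := by
    by_contra hcon
    push Not at hcon
    have h1 : W ≤ hat K {e} := by
      intro v hv
      obtain ⟨a, ha, hva⟩ := key v hv
      rw [hva]
      exact Submodule.sum_mem _ fun j _ => Submodule.smul_mem _ _ (hcon (a j) (ha j).1 (ha j).2)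
    have h2 := Submodule.finrank_mono h1
    rw [finrank_hat_singleton K e heK] at h2
    omega
  have heW' : hat K {e} ≤ W := hat_le hKW (Set.singleton_subset_iff.2 heW)
  have hWw : W = hat (hat K {e}) {w} := by
    refine eq_hat_singleton heW' ?_ hwW hwe
    rw [finrank_hat_singleton K e heK]
    omega
  have hform : IsForm K (M ⊓ rs E (hat K ((insert e X : Finset V) : Set V))) :=
    hM.inf (le_hat K _) hKL hLX
  have hconf : Conf E K (((insert e X : Finset V) : Set V) ∪ {w}) := by
    refine ⟨_, hform, ?_⟩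
    rintro x (hx | hx)
    · exact ⟨c x, hc0 x, hcX x (mem_coe.1 hx), Submodule.smul_mem _ _ (subset_hat K _ hx)⟩
    · rw [Set.mem_singleton_iff] at hx
      rw [hx]
      refine ⟨1, one_ne_zero, ?_⟩
      rw [one_smul]
      exact ⟨hA0M hwA, hWX hwW⟩
  have hconf' : Conf E (hat K {e}) (((insert e X : Finset V) : Set V) ∪ {w}) := by
    refine hconf.contract ?_
    rintro x hx
    rw [Set.mem_singleton_iff] at hx
    rw [hx]
    exact Or.inl (mem_coe.2 (mem_insert_self e X))
  show Conf E (hat K {e}) ((X : Set V) ∪ (guts (hat K {e}) (S.erase e) X : Set V))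
  rw [p5]
  refine hconf'.of_par ?_
  rintro x (hx | hx)
  · refine Or.inr ⟨x, Or.inl (mem_coe.2 (mem_insert_of_mem (mem_coe.1 hx))), 1, one_ne_zero, ?_⟩
    rw [one_smul, sub_self]
    exact Submodule.zero_mem _
  · have hx' : x ∈ hat (hat K {e}) {w} := by
      rw [← hWw]
      exact hx
    obtain ⟨a, ha⟩ := (mem_hat_singleton _ w x).1 hx'
    by_cases h0 : a = 0
    · refine Or.inl ?_
      rw [h0, zero_smul, sub_zero] at ha
      exact ha
    · exact Or.inr ⟨w, Or.inr rfl, a, h0, ha⟩

end Pool.Agent.SFT
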