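import Pool.Agent.Helper39.TC.Clique
import Pool.Agent.SFT.BasA
import Pool.Agent.SFT.FDefs

/-!
# SFT-CoD: an `N_m`-minor of the configuration gives an `N_m`-minor of the matroid

Adapt `Pool.Agent.Helper39.HCI.OMin` (`exists_isO`). `U' := hat ⊥ A`. Ground set of the minor: the elements `X e` (`e` a pair `i < j`:
the element `y` of `h` for it, scaled `y = t e • (f i - f j)` modulo `U'`; `none`: the element `x`); they are different and not in
`U'` (independence). `C := {e | cf W e ∈ U'}`. For `u ∈ W` with `φ u = 0` for all `φ ∈ U'`: `u (X e) = t e * (p i - p j)` with `p i := f i u`, and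
`u (X none) = s * p a + t * p b - (s + t) * p c`; conversely every `p : Fin m → F` occurs up to a constant (`exists_value` in
`Pool.Agent.Helper39.TC.Clique` for the independent family `f i - f i0` modulo `U'`). `d := t e`, and `1` for `none`.
`t / s ∉ K`: `t = algebraMap u * s` otherwise.
-/

namespace Pool.Agent.SFT

open Finset Module
open Pool.Agent.Helper39.TC

variable {F : Type} [Field F]

/-- coefficients of the elements of the minor -/
private def co {m : ℕ} (a b c : Fin m) (s t : F) :
    Option {p : Fin m × Fin m // p.1 < p.2} → Fin m → F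
  | some e => Pi.single e.1.1 1 - Pi.single e.1.2 1
  | none => Pi.single a s + Pi.single b t - Pi.single c (s + t)

private theorem co_sum_mul {m : ℕ} (a b c : Fin m) (s t : F) (p : Fin m → F)
    (e : Option {p : Fin m × Fin m // p.1 < p.2}) :
    ∑ i, co a b c s t e i * p i = match e with
      | some e => p e.1.1 - p e.1.2
      | none => s * p a + t * p b - (s + t) * p c := by
  have h1 : ∀ (i0 : Fin m) (x : F), ∑ i, (Pi.single i0 x : Fin m → F) i * p i = x * p i0 := by
    intro i0 x
    rw [sum_eq_single i0]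
    · rw [Pi.single_eq_same]
    · intro j _ hj
      rw [Pi.single_eq_of_ne hj, zero_mul]
    · intro h
      exact absurd (mem_univ _) h
  match e with
  | some e =>
    simp only [co, Pi.sub_apply, sub_mul, sum_sub_distrib]
    rw [h1, h1, one_mul, one_mul]
  | none =>
    simp only [co, Pi.sub_apply, Pi.add_apply, sub_mul, add_mul, sum_sub_distrib,
      sum_add_distrib]
    rw [h1, h1, h1, add_mul]

private theorem co_sum_smul {V : Type} [AddCommGroup V] [Module F V] {m : ℕ} (a b c : Fin m)
    (s t : F) (p : Fin m → V) (e : Option {p : Fin m × Fin m // p.1 < p.2}) :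
    ∑ i, co a b c s t e i • p i = match e with
      | some e => p e.1.1 - p e.1.2
      | none => s • p a + t • p b - (s + t) • p c := by
  have h1 : ∀ (i0 : Fin m) (x : F), ∑ i, (Pi.single i0 x : Fin m → F) i • p i = x • p i0 := by
    intro i0 x
    rw [sum_eq_single i0]
    · rw [Pi.single_eq_same]
    · intro j _ hj
      rw [Pi.single_eq_of_ne hj, zero_smul]
    · intro h
      exact absurd (mem_univ _) h
  match e with
  | some e =>
    simp only [co, Pi.sub_apply, sub_smul, sum_sub_distrib]
    rw [h1, h1, one_smul, one_smul]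
  | none =>
    simp only [co, Pi.sub_apply, Pi.add_apply, sub_smul, add_smul, sum_sub_distrib,
      sum_add_distrib]
    rw [h1, h1, h1, add_smul]

private theorem co_sum {m : ℕ} (a b c : Fin m) (s t : F)
    (e : Option {p : Fin m × Fin m // p.1 < p.2}) : ∑ i, co a b c s t e i = 0 := by
  have h1 := co_sum_mul a b c s t (fun _ => 1) e
  simp only [mul_one] at h1
  rw [h1]
  match e with
  | some e => exact sub_self _
  | none => exact sub_self _

/-- supports -/
private def su {m : ℕ} (a b c : Fin m) :
    Option {p : Fin m × Fin m // p.1 < p.2} → Finset (Fin m)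
  | some e => {e.1.1, e.1.2}
  | none => {a, b, c}

private theorem co_ne {m : ℕ} {a b c : Fin m} (hab : a ≠ b) (hac : a ≠ c) (hbc : b ≠ c) {s t : F}
    (hs : s ≠ 0) (ht : t ≠ 0) (hst : s + t ≠ 0) (e : Option {p : Fin m × Fin m // p.1 < p.2})
    (i : Fin m) : co a b c s t e i ≠ 0 ↔ i ∈ su a b c e := by
  match e with
  | some ⟨(k, l), hkl⟩ =>
    have hkl' : k ≠ l := ne_of_lt hkl
    simp only [co, su, Pi.sub_apply, mem_insert, mem_singleton]
    by_cases h1 : i = k
    · subst h1
      rw [Pi.single_eq_same, Pi.single_eq_of_ne hkl', sub_zero]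
      simp
    · by_cases h2 : i = l
      · subst h2
        rw [Pi.single_eq_same, Pi.single_eq_of_ne h1, zero_sub]
        simp
      · rw [Pi.single_eq_of_ne h1, Pi.single_eq_of_ne h2, sub_zero]
        simp [h1, h2]
  | none =>
    simp only [co, su, Pi.sub_apply, Pi.add_apply, mem_insert, mem_singleton]
    by_cases h1 : i = a
    · subst h1
      rw [Pi.single_eq_same, Pi.single_eq_of_ne hab, Pi.single_eq_of_ne hac, add_zero, sub_zero]
      simp [hs]
    · by_cases h2 : i = b
      · subst h2
        rw [Pi.single_eq_same, Pi.single_eq_of_ne h1, Pi.single_eq_of_ne hbc, zero_add, sub_zero]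
        simp [ht]
      · by_cases h3 : i = c
        · subst h3
          rw [Pi.single_eq_same, Pi.single_eq_of_ne h1, Pi.single_eq_of_ne h2, zero_add, zero_sub]
          simp only [ne_eq, neg_eq_zero, or_true, iff_true]
          exact hst
        · rw [Pi.single_eq_of_ne h1, Pi.single_eq_of_ne h2, Pi.single_eq_of_ne h3]
          simp [h1, h2, h3]

private theorem su_inj {m : ℕ} {a b c : Fin m} (hab : a ≠ b) (hac : a ≠ c) (hbc : b ≠ c)
    (e e' : Option {p : Fin m × Fin m // p.1 < p.2}) (h : su a b c e = su a b c e') : e = e' := by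
  have h3 : ({a, b, c} : Finset (Fin m)).card = 3 := by
    rw [card_insert_of_notMem (by simp [hab, hac]), card_insert_of_notMem (by simp [hbc]),
      card_singleton]
  match e, e', h with
  | some ⟨(i, j), hij⟩, some ⟨(k, l), hkl⟩, hee =>
    have hee' : ({i, j} : Finset (Fin m)) = {k, l} := hee
    simp only at hij hkl
    have hi : i ∈ ({k, l} : Finset (Fin m)) := by rw [← hee']; simp
    have hj : j ∈ ({k, l} : Finset (Fin m)) := by rw [← hee']; simp
    simp only [Finset.mem_insert, Finset.mem_singleton] at hi hj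
    rcases hi with rfl | rfl <;> rcases hj with rfl | rfl
    · exact absurd hij (lt_irrefl _)
    · rfl
    · exact absurd (hij.trans hkl) (lt_irrefl _)
    · exact absurd hij (lt_irrefl _)
  | none, none, _ => rfl
  | some e, none, hee =>
    have hee' : ({e.1.1, e.1.2} : Finset (Fin m)) = {a, b, c} := hee
    have hc := congrArg Finset.card hee'
    rw [Finset.card_pair e.2.ne, h3] at hc
    omega
  | none, some e, hee =>
    have hee' : ({a, b, c} : Finset (Fin m)) = {e.1.1, e.1.2} := hee
    have hc := congrArg Finset.card hee'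
    rw [Finset.card_pair e.2.ne, h3] at hc
    omega


private theorem aux_mem {V : Type} [AddCommGroup V] [Module F V] {U' : Submodule F V} {m : ℕ}
    {f : Fin m → V} (hind : ∀ r : Fin m → F, ∑ i, r i = 0 → ∑ i, r i • f i ∈ U' → r = 0)
    {a b c : Fin m} (hab : a ≠ b) (hac : a ≠ c) (hbc : b ≠ c) {s t : F}
    (hs : s ≠ 0) (ht : t ≠ 0) (hst : s + t ≠ 0) (e : Option {p : Fin m × Fin m // p.1 < p.2})
    {v : V} {d : F} (hd : d ≠ 0) (hv : v - d • ∑ i, co a b c s t e i • f i ∈ U') : v ∉ U' := by
  intro he
  have h1 : ∑ i, (d * co a b c s t e i) • f i ∈ U' := by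
    have h2 := U'.sub_mem he hv
    rw [sub_sub_cancel, smul_sum] at h2
    simp only [smul_smul] at h2
    exact h2
  have h2 := hind _ (by rw [← mul_sum, co_sum, mul_zero]) h1
  obtain ⟨i, hi⟩ : (su a b c e).Nonempty := by
    match e with
    | some e => exact ⟨_, mem_insert_self _ _⟩
    | none => exact ⟨_, mem_insert_self _ _⟩
  have h3 := congrFun h2 i
  rw [← co_ne hab hac hbc hs ht hst] at hi
  exact mul_ne_zero hd hi h3

private theorem aux_inj {V : Type} [AddCommGroup V] [Module F V] {U' : Submodule F V} {m : ℕ}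
    {f : Fin m → V} (hind : ∀ r : Fin m → F, ∑ i, r i = 0 → ∑ i, r i • f i ∈ U' → r = 0)
    {a b c : Fin m} (hab : a ≠ b) (hac : a ≠ c) (hbc : b ≠ c) {s t : F}
    (hs : s ≠ 0) (ht : t ≠ 0) (hst : s + t ≠ 0) (e e' : Option {p : Fin m × Fin m // p.1 < p.2})
    {v : V} {d d' : F} (hd : d ≠ 0) (hd' : d' ≠ 0)
    (hv : v - d • ∑ i, co a b c s t e i • f i ∈ U')
    (hv' : v - d' • ∑ i, co a b c s t e' i • f i ∈ U') : e = e' := by
  have h1 : ∑ i, (d * co a b c s t e i - d' * co a b c s t e' i) • f i ∈ U' := by
    have h2 := U'.sub_mem hv' hv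
    convert h2 using 1
    simp only [sub_smul, sum_sub_distrib, smul_sum, smul_smul]
    abel
  have h2 := hind _ (by
    rw [sum_sub_distrib, ← mul_sum, ← mul_sum, co_sum, co_sum, mul_zero, mul_zero,
      sub_zero]) h1
  apply su_inj hab hac hbc
  ext i
  rw [← co_ne hab hac hbc hs ht hst, ← co_ne hab hac hbc hs ht hst]
  have h3 : d * co a b c s t e i = d' * co a b c s t e' i := sub_eq_zero.1 (congrFun h2 i)
  constructor
  · intro h4 h5
    rw [h5, mul_zero] at h3
    exact mul_ne_zero hd h4 h3
  · intro h4 h5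
    rw [h5, mul_zero] at h3
    exact mul_ne_zero hd' h4 h3.symm

private theorem aux_li {V : Type} [AddCommGroup V] [Module F V] {U' : Submodule F V} {m : ℕ}
    {f : Fin m → V} (hind : ∀ r : Fin m → F, ∑ i, r i = 0 → ∑ i, r i • f i ∈ U' → r = 0)
    (a : Fin m) : LinearIndependent F (fun i : {i : Fin m // i ≠ a} =>
        U'.mkQ (f i - f a)) := by
  rw [Fintype.linearIndependent_iff]
  intro r hr
  set r' : Fin m → F := fun i => if h : i ≠ a then r ⟨i, h⟩ else - ∑ j, r j with hr'
  have hra : r' a = - ∑ j, r j := by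
    simp [hr']
  have hrj : ∀ j : {i : Fin m // i ≠ a}, r' j = r j := by
    intro j
    simp only [hr']
    rw [dif_pos j.2]
  have hsplit : ∀ (V : Type) [AddCommGroup V] (φ : Fin m → V),
      ∑ i, φ i = φ a + ∑ j : {i : Fin m // i ≠ a}, φ j := by
    intro V _ φ
    rw [← Finset.add_sum_erase univ φ (mem_univ a)]
    congr 1
    rw [← Finset.sum_subtype (univ.erase a) (fun i => by simp) φ]
  have h1 : ∑ i, r' i = 0 := by
    rw [hsplit F r', hra]
    simp only [hrj]
    rw [neg_add_cancel]
  have h2 : ∑ i, r' i • f i ∈ U' := by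
    rw [hsplit _ (fun i => r' i • f i)]
    simp only [hrj, hra]
    have h3 : (-∑ j, r j) • f a + ∑ j : {i : Fin m // i ≠ a}, r j • f j =
        ∑ j : {i : Fin m // i ≠ a}, r j • (f j - f a) := by
      simp only [smul_sub, sum_sub_distrib]
      rw [neg_smul, sum_smul]
      abel
    rw [h3, ← Submodule.Quotient.mk_eq_zero, ← Submodule.mkQ_apply, map_sum]
    simpa using hr
  have h3 := hind r' h1 h2
  intro j
  rw [← hrj j, h3]
  rfl

theorem exists_isN (K : Subfield F) {m n : ℕ} (W : Submodule F (Fin n → F))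
    [DecidableEq (W →ₗ[F] F)]
    (h : HasN K m (⊥ : Submodule F (W →ₗ[F] F)) (Finset.univ.image (cf W))) :
    ∃ (m' : ℕ) (f : Fin m' ↪ Fin n) (C : Set (Fin n)), (∀ j, f j ∉ C) ∧
      IsN K m (minor W f C) := by
  classical
  obtain ⟨A, f, a, b, c, hAS, hind, hy, hab, hac, hbc, x, hx, s, t, hs, hst, hxU⟩ := h
  have ht0 : t ≠ 0 := by
    have := hst 0
    rwa [map_zero, zero_mul] at this
  have hst0 : s + t ≠ 0 := by
    have := hst (-1)
    rw [map_neg, map_one, neg_one_mul] at this
    intro h
    exact this (eq_neg_of_add_eq_zero_right h)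
  set U' : Submodule F (W →ₗ[F] F) := hat ⊥ (A : Set (W →ₗ[F] F)) with hU'
  have hel : ∀ e : Option {p : Fin m × Fin m // p.1 < p.2}, ∃ x : Fin n, ∃ d : F, d ≠ 0 ∧
      cf W x - d • ∑ i, co a b c s t e i • f i ∈ U' := by
    intro e
    have hgo : ∃ x : Fin n, ∃ d : F, d ≠ 0 ∧ cf W x - d • (match e with
      | some e => f e.1.1 - f e.1.2
      | none => s • f a + t • f b - (s + t) • f c) ∈ U' := by
      match e with
      | some e =>
        obtain ⟨y, hyS, d, hd, hyU⟩ := hy e.1.1 e.1.2 e.2.ne
        obtain ⟨x, -, rfl⟩ := Finset.mem_image.1 hyS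
        exact ⟨x, d, hd, hyU⟩
      | none =>
        obtain ⟨x, -, rfl⟩ := Finset.mem_image.1 hx
        refine ⟨x, 1, one_ne_zero, ?_⟩
        rw [one_smul]
        exact hxU
    obtain ⟨x', d', hd', hU2⟩ := hgo
    have hcs := co_sum_smul (V := W →ₗ[F] F) a b c s t f e
    refine ⟨x', d', hd', ?_⟩
    rw [hcs]
    exact hU2
  choose X d hd hX using hel
  have hmem : ∀ e, cf W (X e) ∈ U' → False := fun e he =>
    aux_mem hind hab hac hbc hs ht0 hst0 e (hd e) (hX e) he
  have hXinj : Function.Injective X := by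
    intro e e' hee
    have h1 := hX e
    rw [hee] at h1
    exact aux_inj hind hab hac hbc hs ht0 hst0 e e' (hd e) (hd e') h1 (hX e')
  -- values
  have hval : ∀ p : Fin m → F, ∃ u : W, (∀ φ ∈ U', φ u = 0) ∧
      ∀ e, (u : Fin n → F) (X e) = d e * ∑ i, co a b c s t e i * p i := by
    intro p
    have hli : LinearIndependent F (fun i : {i : Fin m // i ≠ a} =>
        U'.mkQ (f i - f a)) := aux_li hind a
    let en : Fin (Fintype.card {i : Fin m // i ≠ a}) ≃ {i : Fin m // i ≠ a} :=
      (Fintype.equivFin _).symm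
    obtain ⟨u, hu, hfu⟩ := exists_value U' (fun t => f (en t) - f a)
      (hli.comp en en.injective) (fun t => p (en t) - p a)
    refine ⟨u, hu, fun e => ?_⟩
    have hfi : ∀ i : Fin m, f i u - f a u = p i - p a := by
      intro i
      by_cases hi : i = a
      · subst hi
        rw [sub_self, sub_self]
      · have := hfu (en.symm ⟨i, hi⟩)
        simpa using this
    have h9 := hu _ (hX e)
    rw [LinearMap.sub_apply, cf_apply, LinearMap.smul_apply, LinearMap.sum_apply] at h9
    have h10 : ∑ i, (co a b c s t e i • f i) u = ∑ i, co a b c s t e i * p i := by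
      have e1 : ∑ i, co a b c s t e i * (f i u - f a u) =
          ∑ i, co a b c s t e i * (p i - p a) :=
        Finset.sum_congr rfl fun i _ => by rw [hfi i]
      simp only [mul_sub, sum_sub_distrib] at e1
      rw [← sum_mul, ← sum_mul, co_sum, zero_mul, zero_mul, sub_zero, sub_zero] at e1
      rw [← e1]
      rfl
    rw [h10, smul_eq_mul] at h9
    exact sub_eq_zero.1 h9
  let g : Fin (Fintype.card (Option {p : Fin m × Fin m // p.1 < p.2})) ≃
    Option {p : Fin m × Fin m // p.1 < p.2} := (Fintype.equivFin _).symm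
  refine ⟨_, ⟨fun j => X (g j), hXinj.comp g.injective⟩, {e | cf W e ∈ U'}, fun j => hmem _, g,
    a, b, c, s, t, fun x => d (g x), hab, hac, hbc, hs, ?_, fun x => hd _, fun w => ?_⟩
  · intro hK
    apply hst ⟨t / s, hK⟩
    show t = t / s * s
    rw [div_mul_cancel₀ _ hs]
  rw [mem_minor]
  constructor
  · rintro ⟨u, hu, huC, hw⟩
    have hann : ∀ φ ∈ U', φ ⟨u, hu⟩ = 0 := by
      intro φ hφ
      rw [hU'] at hφ
      unfold hat at hφ
      rw [bot_sup_eq] at hφ
      refine Submodule.span_induction ?_ ?_ ?_ ?_ hφ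
      · intro y hy
        obtain ⟨e, -, rfl⟩ := Finset.mem_image.1 (hAS hy)
        refine huC e ?_
        show cf W e ∈ U'
        rw [hU']
        unfold hat
        exact Submodule.mem_sup_right (Submodule.subset_span hy)
      · rfl
      · intro a b _ _ ha hb
        rw [LinearMap.add_apply, ha, hb, add_zero]
      · intro r a _ ha
        rw [LinearMap.smul_apply, ha, smul_zero]
    refine ⟨fun i => f i ⟨u, hu⟩, fun x => ?_⟩
    rw [hw x]
    have h4 := hann _ (hX (g x))
    rw [LinearMap.sub_apply, cf_apply, LinearMap.smul_apply, LinearMap.sum_apply,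
      smul_eq_mul] at h4
    have h5 := sub_eq_zero.1 h4
    refine h5.trans ?_
    congr 1
    exact co_sum_mul a b c s t (fun i => f i ⟨u, hu⟩) (g x)
  · rintro ⟨p, hp⟩
    obtain ⟨u, hu0, hu⟩ := hval p
    refine ⟨u, u.2, fun e he => hu0 _ he, fun x => ?_⟩
    rw [hp x]
    refine Eq.trans ?_ (hu (g x)).symm
    congr 1
    exact (co_sum_mul a b c s t p (g x)).symm

end Pool.Agent.SFT
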