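import Pool.Agent.SFT.Qa
import Pool.Agent.SFT.BasB

/-!
# SFT-Qb: small sets of a configuration with a spanning clique minor (4.1)

Adapt the second part of `Pool.Agent.HC.Q1` (`GG_inj`, `GG_mem`, `q1_low`, `q1_lam`, `small_or`, `small_union`, `span_compl`,
`rq_le_card`) to coefficients. `G := Fintype.linearCombination k g`; `G (ev i j) = g i - g j`; injective on vectors of sum zero
modulo `hat K C` (`gind`). `qsmall_lam`: `rq X + rq (S \ X) + 1 ≤ N + lam K S X`: `finrank (hat K C) + rq X ≤ finrank (hat (hat K C) X)`,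
the two spaces `hat (hat K C) X`, `hat (hat K C) (S \ X)` have the sum `hat K S` of dimension at most `finrank (hat K C) + N - 1`
(`span`) and the intersection is at most `hat K C ⊔ guts K S X`. For `N = 0` the statement of `small_or` is trivial.
`small_union`: if `S \ (X ∪ Y)` is small then `rq_or` gives `N ≤ 2 * ℓ + 1` or `N ≤ ℓ + 1`.
`span_compl`: `rq_or` (`N ≥ ℓ + 2`): all `ev k i j` are in `rqs k q (S \ X)`; `span`.
`rq_le_card`: different pairs have different `q i j` (`IsQ.inj`).
-/

namespace Pool.Agent.SFT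

open Finset Module

variable {k V : Type} [Field k] [AddCommGroup V] [Module k V] [DecidableEq V]
  [FiniteDimensional k V] {K : Submodule k V}
  {S C X Y : Finset V} {N : ℕ} {g : Fin N → V} {q : Fin N → Fin N → V}

/-- the linear map of the family `g` -/
private noncomputable def GG (g : Fin N → V) : (Fin N → k) →ₗ[k] V :=
  Fintype.linearCombination k g

omit [DecidableEq V] [FiniteDimensional k V] in
private theorem GG_apply (g : Fin N → V) (y : Fin N → k) : GG g y = ∑ i, y i • g i := by
  unfold GG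
  rw [Fintype.linearCombination_apply]

omit [DecidableEq V] [FiniteDimensional k V] in
private theorem GG_ev (g : Fin N → V) (i j : Fin N) : GG g (ev k i j) = g i - g j := by
  unfold GG ev
  rw [map_sub, Fintype.linearCombination_apply_single, Fintype.linearCombination_apply_single,
    one_smul, one_smul]

omit [FiniteDimensional k V] in
private theorem GG_inj (h : IsQ K S C g q) {y : Fin N → k} (hy : ∑ i, y i = 0)
    (h0 : GG g y ∈ hat K (C : Set V)) : y = 0 := by
  rw [GG_apply] at h0
  exact h.gind y hy h0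

private theorem ev_left {i j : Fin N} (h : i ≠ j) : ev k i j i = 1 := by
  unfold ev
  rw [Pi.sub_apply, Pi.single_eq_same, Pi.single_eq_of_ne h, sub_zero]

private theorem ev_right {i j : Fin N} (h : i ≠ j) : ev k i j j = -1 := by
  unfold ev
  rw [Pi.sub_apply, Pi.single_eq_same, Pi.single_eq_of_ne (Ne.symm h), zero_sub]

private theorem ev_ne {i j t : Fin N} (h : ev k i j t ≠ 0) : t = i ∨ t = j := by
  by_contra hn
  push Not at hn
  apply h
  unfold ev
  rw [Pi.sub_apply, Pi.single_eq_of_ne hn.1, Pi.single_eq_of_ne hn.2, sub_zero]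

omit [FiniteDimensional k V] in
private theorem GG_mem (h : IsQ K S C g q) {X : Finset V} {y : Fin N → k} (hy : y ∈ rqs k q X) :
    GG g y ∈ hat (hat K (C : Set V)) (X : Set V) := by
  unfold rqs at hy
  induction hy using Submodule.span_induction with
  | mem y hy =>
    obtain ⟨i, j, hij, h1, rfl⟩ := hy
    rw [GG_ev]
    obtain ⟨c, hc, h2⟩ := h.qg i j hij
    have h3 : c • (g i - g j) ∈ hat (hat K (C : Set V)) (X : Set V) := by
      have h4 := Submodule.sub_mem _ (subset_hat (hat K (C : Set V)) _ (mem_coe.2 h1))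
        (le_hat _ (X : Set V) h2)
      rwa [sub_sub_cancel] at h4
    have h4 := Submodule.smul_mem _ c⁻¹ h3
    rwa [smul_smul, inv_mul_cancel₀ hc, one_smul] at h4
  | zero =>
    rw [map_zero]
    exact Submodule.zero_mem _
  | add y z _ _ h1 h2 =>
    rw [map_add]
    exact Submodule.add_mem _ h1 h2
  | smul a y _ h1 =>
    rw [map_smul]
    exact Submodule.smul_mem _ _ h1

private theorem qb_low (h : IsQ K S C g q) (X : Finset V) :
    finrank k (hat K (C : Set V)) + rq k q X ≤
      finrank k (hat (hat K (C : Set V)) (X : Set V)) := by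
  have h1 : (hat K (C : Set V)) ⊔ (rqs k q X).map (GG g) ≤
      hat (hat K (C : Set V)) (X : Set V) := by
    refine sup_le (le_hat _ _) ?_
    rintro _ ⟨y, hy, rfl⟩
    exact GG_mem h hy
  have h2 : hat K (C : Set V) ⊓ (rqs k q X).map (GG g) = ⊥ := by
    rw [eq_bot_iff]
    rintro v ⟨hv, y, hy, rfl⟩
    have h3 := GG_inj h (sum_of_mem_rqs hy) hv
    rw [h3, map_zero]
    exact Submodule.zero_mem _
  have h3 := finrank_sup_add_inf (hat K (C : Set V)) ((rqs k q X).map (GG g))
  rw [h2, finrank_bot, add_zero] at h3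
  have h4 : finrank k ((rqs k q X).map (GG g)) = rq k q X := by
    have h5 : Function.Injective ((GG g).domRestrict (rqs k q X)) := by
      rw [← LinearMap.ker_eq_bot, eq_bot_iff]
      rintro ⟨y, hy⟩ hy0
      rw [LinearMap.mem_ker, LinearMap.domRestrict_apply] at hy0
      have h6 : y = 0 := GG_inj h (sum_of_mem_rqs hy) (by
        rw [hy0]
        exact Submodule.zero_mem _)
      rw [Submodule.mem_bot]
      exact Subtype.ext h6
    have h6 := LinearMap.finrank_range_of_inj h5
    rw [LinearMap.range_domRestrict] at h6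
    exact h6
  have h5 := Submodule.finrank_mono h1
  omega

omit [DecidableEq V] [FiniteDimensional k V] in
private theorem sum_zero_mem {L : Submodule k V} (g : Fin N → V) (hg : ∀ i j, g i - g j ∈ L)
    (r : Fin N → k) (hr : ∑ i, r i = 0) : ∑ i, r i • g i ∈ L := by
  rcases Nat.eq_zero_or_pos N with hN | hN
  · subst hN
    rw [Finset.univ_eq_empty, sum_empty]
    exact L.zero_mem
  · have h1 : ∑ i, r i • g i = ∑ i, r i • (g i - g ⟨0, hN⟩) := by
      simp only [smul_sub, sum_sub_distrib]
      rw [← sum_smul, hr, zero_smul, sub_zero]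
    rw [h1]
    exact Submodule.sum_mem _ fun i _ => Submodule.smul_mem _ _ (hg _ _)

theorem IsQ.q_not_mem (h : IsQ K S C g q) {i j : Fin N} (hij : i ≠ j) :
    q i j ∉ hat K (C : Set V) := by
  intro h0
  obtain ⟨c, hc, h2⟩ := h.qg i j hij
  have h3 : c • (g i - g j) ∈ hat K (C : Set V) := by
    have h4 := Submodule.sub_mem _ h0 h2
    rwa [sub_sub_cancel] at h4
  have h4 : GG g (c • ev k i j) ∈ hat K (C : Set V) := by
    rw [map_smul, GG_ev]
    exact h3
  have h5 := GG_inj h (by
    simp only [Pi.smul_apply, smul_eq_mul]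
    rw [← mul_sum, ev_sum, mul_zero]) h4
  have h6 := congrFun h5 i
  rw [Pi.smul_apply, ev_left hij, smul_eq_mul, mul_one] at h6
  exact hc h6

/-- elements of different pairs are not parallel -/
theorem IsQ.inj (h : IsQ K S C g q) {i j i' j' : Fin N} (hij : i ≠ j) (hij' : i' ≠ j') {c : k}
    (hc : q i j - c • q i' j' ∈ hat K (C : Set V)) : (i = i' ∧ j = j') ∨ (i = j' ∧ j = i') := by
  obtain ⟨c1, hc1, h1⟩ := h.qg i j hij
  obtain ⟨c2, hc2, h2⟩ := h.qg i' j' hij'
  have h3 : GG g (c1 • ev k i j - (c * c2) • ev k i' j') ∈ hat K (C : Set V) := by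
    rw [map_sub, map_smul, map_smul, GG_ev, GG_ev]
    have h4 := Submodule.add_mem _ (Submodule.sub_mem _ hc h1) (Submodule.smul_mem _ c h2)
    convert h4 using 1
    rw [smul_sub c, smul_smul c c2]
    abel
  have h5 := GG_inj h (by
    simp only [Pi.sub_apply, Pi.smul_apply, smul_eq_mul, sum_sub_distrib]
    rw [← mul_sum, ← mul_sum, ev_sum, ev_sum, mul_zero, mul_zero, sub_zero]) h3
  have h6 : ev k i' j' i ≠ 0 := by
    intro h7
    have h8 := congrFun h5 i
    rw [Pi.sub_apply, Pi.smul_apply, Pi.smul_apply, ev_left hij, h7, smul_zero, sub_zero,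
      smul_eq_mul, mul_one] at h8
    exact hc1 h8
  have h7 : ev k i' j' j ≠ 0 := by
    intro h7
    have h8 := congrFun h5 j
    rw [Pi.sub_apply, Pi.smul_apply, Pi.smul_apply, ev_right hij, h7, smul_zero, sub_zero,
      smul_eq_mul, mul_neg, mul_one, Pi.zero_apply, neg_eq_zero] at h8
    exact hc1 h8
  rcases ev_ne h6 with h8 | h8 <;> rcases ev_ne h7 with h9 | h9
  · exact absurd (h8.trans h9.symm) hij
  · exact Or.inl ⟨h8, h9⟩
  · exact Or.inr ⟨h8, h9⟩
  · exact absurd (h8.trans h9.symm) hij

theorem rq_le_card (h : IsQ K S C g q) (X : Finset V) : rq k q X ≤ X.card := by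
  classical
  let f : V → (Fin N → k) := fun x =>
    if hx : ∃ p : Fin N × Fin N, p.1 ≠ p.2 ∧ q p.1 p.2 = x then
      ev k hx.choose.1 hx.choose.2 else 0
  have h1 : rqs k q X ≤ Submodule.span k ((X.image f : Finset (Fin N → k)) : Set (Fin N → k)) := by
    refine Submodule.span_le.2 ?_
    rintro y ⟨i, j, hij, h1, rfl⟩
    have hx : ∃ p : Fin N × Fin N, p.1 ≠ p.2 ∧ q p.1 p.2 = q i j := ⟨(i, j), hij, rfl⟩
    have h2 : f (q i j) = ev k hx.choose.1 hx.choose.2 := dif_pos hx
    have h3 : f (q i j) ∈ Submodule.span k ((X.image f : Finset (Fin N → k)) : Set (Fin N → k)) :=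
      Submodule.subset_span (mem_coe.2 (mem_image_of_mem f h1))
    rw [h2] at h3
    have h4 : q hx.choose.1 hx.choose.2 - (1 : k) • q i j ∈ hat K (C : Set V) := by
      rw [one_smul, hx.choose_spec.2, sub_self]
      exact Submodule.zero_mem _
    rcases h.inj hx.choose_spec.1 hij h4 with ⟨h5, h6⟩ | ⟨h5, h6⟩
    · rw [h5, h6] at h3
      exact h3
    · rw [h5, h6, ← ev_neg i j] at h3
      exact (Submodule.neg_mem_iff _).1 h3
  have h2 := Submodule.finrank_mono h1
  have h3 := finrank_span_finset_le_card (R := k) (X.image f)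
  unfold Set.finrank at h3
  exact (h2.trans h3).trans card_image_le

theorem qsmall_lam (h : IsQ K S C g q) (hN : 0 < N) (hX : X ⊆ S) :
    rq k q X + rq k q (S \ X) + 1 ≤ N + lam K S X := by
  classical
  have h1 := qb_low h X
  have h2 := qb_low h (S \ X)
  set L := hat K (C : Set V) with hL
  have hKL : K ≤ L := le_hat _ _
  have h3 := finrank_sup_add_inf (hat L (X : Set V)) (hat L ((S \ X : Finset V) : Set V))
  rw [← hat_union, ← coe_union, union_sdiff_of_subset hX] at h3
  -- the span
  have h4 : finrank k (hat L (S : Set V)) + 1 ≤ finrank k L + N := by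
    set i0 : Fin N := ⟨0, hN⟩ with hi0
    have h5 : hat L (S : Set V) ≤
        hat L (((univ.erase i0).image (fun i => g i - g i0) : Finset V) : Set V) := by
      refine hat_le (le_hat _ _) ?_
      intro x hx
      obtain ⟨r, hr, hr2⟩ := h.span x hx
      have h6 : ∀ i, g i - g i0 ∈
          hat L (((univ.erase i0).image (fun i => g i - g i0) : Finset V) : Set V) := by
        intro i
        by_cases hi : i = i0
        · rw [hi, sub_self]
          exact Submodule.zero_mem _
        · refine subset_hat _ _ (mem_coe.2 (mem_image.2 ⟨i, mem_erase.2 ⟨hi, mem_univ _⟩, rfl⟩))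
      have h7 := sum_zero_mem g (fun i j => by
        have h8 : g i - g j = (g i - g i0) - (g j - g i0) := by abel
        rw [h8]
        exact Submodule.sub_mem _ (h6 i) (h6 j)) r hr
      have h8 := Submodule.add_mem _ (le_hat L _ hr2) h7
      rwa [sub_add_cancel] at h8
    have h6 := Submodule.finrank_mono h5
    have h7 := finrank_hat_le L ((univ.erase i0).image (fun i => g i - g i0))
    have h8 : ((univ.erase i0).image (fun i => g i - g i0)).card ≤ (univ.erase i0).card :=
      card_image_le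
    rw [card_erase_of_mem (mem_univ _), card_univ, Fintype.card_fin] at h8
    omega
  -- the intersection
  have h5 : hat L (X : Set V) ⊓ hat L ((S \ X : Finset V) : Set V) ≤ L ⊔ guts K S X := by
    have hsup : ∀ T : Set V, hat L T ≤ L ⊔ hat K T := fun T =>
      hat_le le_sup_left fun x hx => (le_sup_right : hat K T ≤ L ⊔ hat K T) (subset_hat K T hx)
    have hLC : L ≤ hat K ((C ∩ X : Finset V) : Set V) ⊔ hat K ((C \ X : Finset V) : Set V) := by
      rw [← hat_union, ← coe_union, hL]
      refine hat_mono le_rfl (coe_subset.2 ?_)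
      intro c hc
      by_cases hcX : c ∈ X
      · exact mem_union_left _ (mem_inter.2 ⟨hc, hcX⟩)
      · exact mem_union_right _ (mem_sdiff.2 ⟨hc, hcX⟩)
    rintro v ⟨hv1, hv2⟩
    obtain ⟨a, ha, x, hx, hax⟩ := Submodule.mem_sup.1 (hsup _ hv1)
    obtain ⟨b, hb, z, hz, hbz⟩ := Submodule.mem_sup.1 (hsup _ hv2)
    obtain ⟨c1, hc1, c2, hc2, hcc⟩ := Submodule.mem_sup.1 (hLC (Submodule.sub_mem _ hb ha))
    have hc1L : c1 ∈ L := hat_mono le_rfl (coe_subset.2 inter_subset_left) hc1
    have hc1X : c1 ∈ hat K (X : Set V) := hat_mono le_rfl (coe_subset.2 inter_subset_right) hc1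
    have hc2X : c2 ∈ hat K ((S \ X : Finset V) : Set V) :=
      hat_mono le_rfl (coe_subset.2 (sdiff_subset_sdiff h.CS le_rfl)) hc2
    have e1 : x - z = b - a := by
      rw [sub_eq_sub_iff_add_eq_add, add_comm x a, hax, ← hbz]
    have e2 : x - c1 = z + c2 := by
      rw [← hcc] at e1
      rw [sub_eq_iff_eq_add] at e1 ⊢
      rw [e1]
      abel
    have e3 : v = (a + c1) + (x - c1) := by
      rw [← hax]
      abel
    rw [e3]
    refine Submodule.add_mem_sup (Submodule.add_mem _ ha hc1L) ⟨Submodule.sub_mem _ hx hc1X, ?_⟩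
    rw [e2]
    exact Submodule.add_mem _ hz hc2X
  have h6 := Submodule.finrank_mono h5
  have h7 := finrank_sup_add_inf L (guts K S X)
  have h8 : finrank k K ≤ finrank k ↥(L ⊓ guts K S X) :=
    Submodule.finrank_mono (le_inf hKL (le_guts K S X))
  have h9 := lam_add K S X
  omega

theorem small_or (h : IsQ K S C g q) {ℓ : ℕ} (hX : X ⊆ S) (hl : lam K S X ≤ ℓ) :
    QSmall k ℓ S q X ∨ QSmall k ℓ S q (S \ X) := by
  rcases Nat.eq_zero_or_pos N with hN | hN
  · left
    refine ⟨hX, ?_⟩
    have := rq_le (k := k) (q := q) X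
    omega
  have h1 := qsmall_lam h hN hX
  rcases rq_or (k := k) h.qS X with h2 | h2
  · right
    exact ⟨sdiff_subset, by omega⟩
  · left
    exact ⟨hX, by omega⟩

theorem small_union (h : IsQ K S C g q) {ℓ : ℕ} (hN : 2 * ℓ + 2 ≤ N) (hX : QSmall k ℓ S q X)
    (hY : QSmall k ℓ S q Y) (hl : lam K S (X ∪ Y) ≤ ℓ) : QSmall k ℓ S q (X ∪ Y) := by
  have hXY : X ∪ Y ⊆ S := union_subset hX.1 hY.1
  rcases small_or h hXY hl with h1 | h1
  · exact h1
  exfalso
  have h2 := rq_union (k := k) (q := q) X Y
  have h3 := hX.2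
  have h4 := hY.2
  have h5 := h1.2
  rcases rq_or (k := k) h.qS (X ∪ Y) with h6 | h6 <;> omega

theorem span_compl (h : IsQ K S C g q) {ℓ : ℕ} (hN : ℓ + 2 ≤ N) (hX : QSmall k ℓ S q X) :
    hat K (S : Set V) ≤ hat (hat K (C : Set V)) ((S \ X : Finset V) : Set V) := by
  rcases rqs_or (k := k) h.qS X with h1 | h1
  · have h2 := rq_full h1
    have h3 := hX.2
    omega
  refine hat_le ((le_hat K _).trans (le_hat _ _)) ?_
  intro x hx
  obtain ⟨r, hr, hr2⟩ := h.span x hx
  have h7 := sum_zero_mem g (fun i j => by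
    rw [← GG_ev (k := k) g i j]
    exact GG_mem h (h1 i j)) r hr
  have h8 := Submodule.add_mem _ (le_hat _ ((S \ X : Finset V) : Set V) hr2) h7
  rwa [sub_add_cancel] at h8

end Pool.Agent.SFT
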