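import Pool.Agent.Helper39.TC.Rank
import Pool.Agent.SFT.Qb
import Pool.Agent.SFT.Cf1

/-!
# SFT-CoE: in a highly connected matroid the small sets of order at most one have at most one element

Adapted from `Pool.Agent.Helper39.HCI.Main` and `Pool.Agent.Helper39.HCI.Small`.
-/

namespace Pool.Agent.SFT

open Finset Module
open Pool.Agent.Helper39.TC (cf TutteConn)

variable {F : Type} [Field F]

theorem cf_injective {n k : ℕ} (W : Submodule F (Fin n → F)) (hk : 3 ≤ k) (hn : 2 * k ≤ n)
    (hW : TutteConn k W) : Function.Injective (cf W) := by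
  classical
  intro x y hxy
  by_contra hne
  obtain ⟨c, hcdef⟩ : ∃ c : Fin n → F, c = Pi.single x 1 - Pi.single y 1 := ⟨_, rfl⟩
  have hc : c ∈ Pool.Agent.Helper39.TC.dual W := by
    intro u hu
    have h1 := congrArg (fun ψ => ψ ⟨u, hu⟩) hxy
    simp only [Pool.Agent.Helper39.TC.cf_apply] at h1
    simp only [hcdef, Pi.sub_apply, mul_sub, Finset.sum_sub_distrib]
    rw [Finset.sum_eq_single x, Finset.sum_eq_single y]
    · rw [Pi.single_eq_same, Pi.single_eq_same, mul_one, mul_one, h1, sub_self]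
    · intro j _ hj
      rw [Pi.single_eq_of_ne hj, mul_zero]
    · intro h
      exact absurd (Finset.mem_univ _) h
    · intro j _ hj
      rw [Pi.single_eq_of_ne hj, mul_zero]
    · intro h
      exact absurd (Finset.mem_univ _) h
  have hc0 : c ≠ 0 := by
    intro h
    have h1 := congrFun h x
    rw [hcdef, Pi.sub_apply, Pi.single_eq_same, Pi.single_eq_of_ne hne, sub_zero] at h1
    exact one_ne_zero h1
  have h1 := Pool.Agent.Helper39.TC.girth_of_conn W hn hW c hc hc0
  have h2 : Pool.Agent.Helper39.TC.supp c ⊆ {x, y} := by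
    intro j hj
    have hj' := (Finset.mem_filter.1 hj).2
    simp only [Finset.mem_insert, Finset.mem_singleton]
    by_contra hcon
    push Not at hcon
    apply hj'
    rw [hcdef, Pi.sub_apply, Pi.single_eq_of_ne hcon.1, Pi.single_eq_of_ne hcon.2, sub_zero]
  have h3 := (Finset.card_le_card h2).trans Finset.card_le_two
  omega

private theorem span_cf_image' {n : ℕ} (W : Submodule F (Fin n → F)) (X : Finset (Fin n)) :
    Submodule.span F (cf W '' (X : Set (Fin n))) =
      (LinearMap.ker ((Pool.Agent.Helper39.TC.rst X :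
        (Fin n → F) →ₗ[F] (X → F)).domRestrict W)).dualAnnihilator := by
  apply le_antisymm
  · rw [Submodule.span_le]
    rintro _ ⟨x, hx, rfl⟩
    rw [SetLike.mem_coe, Submodule.mem_dualAnnihilator]
    intro w hw
    exact congrFun (LinearMap.mem_ker.1 hw) ⟨x, hx⟩
  · intro ψ hψ
    rw [Submodule.mem_dualAnnihilator] at hψ
    have h1 : ψ ∈ Submodule.span F (Set.range fun x : X => cf W (x : Fin n)) := by
      refine mem_span_of_iInf_ker_le_ker ?_
      intro w hw
      rw [LinearMap.mem_ker]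
      apply hψ
      rw [LinearMap.mem_ker]
      funext x
      exact LinearMap.mem_ker.1 ((Submodule.mem_iInf _).1 hw x)
    refine Submodule.span_mono ?_ h1
    rintro _ ⟨x, rfl⟩
    exact ⟨x, x.2, rfl⟩

private theorem finrank_span_cf' {n : ℕ} (W : Submodule F (Fin n → F)) (X : Finset (Fin n)) :
    finrank F (Submodule.span F (cf W '' (X : Set (Fin n)))) = Pool.Agent.Helper39.TC.rk W X := by
  rw [span_cf_image']
  have h1 := LinearMap.finrank_range_add_finrank_ker
    ((Pool.Agent.Helper39.TC.rst X : (Fin n → F) →ₗ[F] (X → F)).domRestrict W)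
  have h2 := Subspace.finrank_add_finrank_dualAnnihilator_eq
    (LinearMap.ker ((Pool.Agent.Helper39.TC.rst X : (Fin n → F) →ₗ[F] (X → F)).domRestrict W))
  rw [LinearMap.range_domRestrict, ← Pool.Agent.Helper39.TC.rk_def] at h1
  refine Nat.add_left_cancel (n := finrank F (LinearMap.ker
    ((Pool.Agent.Helper39.TC.rst X : (Fin n → F) →ₗ[F] (X → F)).domRestrict W))) ?_
  refine Eq.trans ?_ (h1.symm.trans (add_comm _ _))
  exact h2

private theorem hat_bot' {n : ℕ} (W : Submodule F (Fin n → F)) (T : Set (W →ₗ[F] F)) :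
    hat (⊥ : Submodule F (W →ₗ[F] F)) T = Submodule.span F T := by
  unfold hat
  rw [bot_sup_eq]

private theorem image_compl' {n : ℕ} (W : Submodule F (Fin n → F)) [DecidableEq (W →ₗ[F] F)]
    (hinj : Function.Injective (cf W)) (X : Finset (Fin n)) :
    Finset.univ.image (cf W) \ X.image (cf W) = Xᶜ.image (cf W) := by
  ext ψ
  simp only [Finset.mem_sdiff, Finset.mem_image, Finset.mem_univ, true_and, Finset.mem_compl]
  constructor
  · rintro ⟨⟨x, rfl⟩, hx⟩
    exact ⟨x, fun h => hx ⟨x, h, rfl⟩, rfl⟩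
  · rintro ⟨x, hx, rfl⟩
    exact ⟨⟨x, rfl⟩, fun ⟨y, hy, h⟩ => hx (hinj h ▸ hy)⟩

theorem lam_eq {n : ℕ} (W : Submodule F (Fin n → F)) [DecidableEq (W →ₗ[F] F)]
    (hinj : Function.Injective (cf W)) (X : Finset (Fin n)) :
    lam (⊥ : Submodule F (W →ₗ[F] F)) (Finset.univ.image (cf W)) (X.image (cf W)) +
      Pool.Agent.Helper39.TC.rk W Finset.univ =
      Pool.Agent.Helper39.TC.rk W X + Pool.Agent.Helper39.TC.rk W Xᶜ := by
  have hc := image_compl' W hinj X
  unfold lam guts
  rw [hc, hat_bot', hat_bot', finrank_bot, Nat.sub_zero, Finset.coe_image, Finset.coe_image]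
  have h1 := Submodule.finrank_sup_add_finrank_inf_eq
    (Submodule.span F (cf W '' (X : Set (Fin n))))
    (Submodule.span F (cf W '' ((Xᶜ : Finset (Fin n)) : Set (Fin n))))
  have h2 : Submodule.span F (cf W '' (X : Set (Fin n))) ⊔
      Submodule.span F (cf W '' ((Xᶜ : Finset (Fin n)) : Set (Fin n))) = ⊤ := by
    rw [← Submodule.span_union, ← Set.image_union, ← Pool.Agent.Helper39.TC.span_cf W]
    congr 1
    rw [Finset.coe_compl, Set.union_compl_self, Set.image_univ]
  rw [h2, finrank_top, finrank_span_cf', finrank_span_cf'] at h1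
  have h3 : finrank F (W →ₗ[F] F) = finrank F W :=
    Subspace.dual_finrank_eq (K := F) (V := W)
  rw [Pool.Agent.Helper39.TC.rk_univ]
  omega

theorem cl_of_conn (K : Subfield F) {n k : ℕ} (W : Submodule F (Fin n → F))
    [DecidableEq (W →ₗ[F] F)] (hinj : Function.Injective (cf W)) (hk : 3 ≤ k)
    (hW : TutteConn k W) {N ℓ : ℕ} (hN : ℓ + 2 ≤ N) (hN3 : 3 ≤ N) {C : Finset (W →ₗ[F] F)}
    {g : Fin N → (W →ₗ[F] F)} {q : Fin N → Fin N → (W →ₗ[F] F)}
    (hq : IsQ (⊥ : Submodule F (W →ₗ[F] F)) (Finset.univ.image (cf W)) C g q) (X : Finset (W →ₗ[F] F))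
    (hX : QSmall F ℓ (Finset.univ.image (cf W)) q X)
    (hl : lam (⊥ : Submodule F (W →ₗ[F] F)) (Finset.univ.image (cf W)) X ≤ 1) :
    CL K (⊥ : Submodule F (W →ₗ[F] F)) (Finset.univ.image (cf W)) X := by
  classical
  obtain ⟨hXS, hr⟩ := hX
  obtain ⟨X', hX'⟩ : ∃ X' : Finset (Fin n), X' = Finset.univ.filter fun x => cf W x ∈ X := ⟨_, rfl⟩
  have hXX : X'.image (cf W) = X := by
    ext ψ
    constructor
    · intro h
      obtain ⟨x, hx, rfl⟩ := Finset.mem_image.1 h
      rw [hX'] at hx
      exact (Finset.mem_filter.1 hx).2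
    · intro h
      obtain ⟨x, -, rfl⟩ := Finset.mem_image.1 (hXS h)
      refine Finset.mem_image.2 ⟨x, ?_, rfl⟩
      rw [hX']
      exact Finset.mem_filter.2 ⟨Finset.mem_univ _, h⟩
  have hcard : X.card = X'.card := by
    rw [← hXX, Finset.card_image_of_injective _ hinj]
  have hcc : (Finset.univ.image (cf W) \ X).card = X'ᶜ.card := by
    rw [← hXX, image_compl' W hinj, Finset.card_image_of_injective _ hinj]
  apply cl_of_card_le_one
  by_contra hc
  push Not at hc
  have h1 : 2 ≤ X'ᶜ.card := by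
    by_contra h2
    have h3 := rq_le_card hq (Finset.univ.image (cf W) \ X)
    rcases rq_or (k := F) hq.qS X with h4 | h4
    · omega
    · omega
  have h4 := hW 2 (by omega) X' (by omega) h1
  have h5 := lam_eq W hinj X'
  rw [hXX] at h5
  omega

end Pool.Agent.SFT
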