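import Mathlib

/-!
# SFT: highly connected matroids without `N_m(a)` are confined to a subfield: definitions

Paper proof (helper17): /team-store/t2_subfields.md. The binary analogue is `Pool.Agent.HC`
(paper proof /team-store/hconn_binary.md); many modules here are adaptations of modules there.

A configuration `(K, S)`: a subspace `K` and a finite set `S` of vectors of a finite dimensional
space `V`. All matroid notions are modulo `K`; elements may be rescaled. The basics are stated for
an arbitrary field `k`, they are used for the field `F` and for the small field `E` (`V` is an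
`E`-space, too: `[Algebra E F] [IsScalarTower E F V]`).
-/

namespace Pool.Agent.SFT

open Finset Module

section general

variable {k V : Type} [Field k] [AddCommGroup V] [Module k V]

/-- the span of `X` modulo `K` -/
def hat (K : Submodule k V) (X : Set V) : Submodule k V := K ⊔ Submodule.span k X

/-- rank modulo `K` -/
noncomputable def rk (K : Submodule k V) (X : Set V) : ℕ := finrank k (hat K X) - finrank k K

/-- a bipartite clique of `(K, ·)` with vertex vectors `g`: combinations of the `g v` with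
coefficient sum zero are independent modulo `K`, and `B` has exactly one element in the class
(modulo `K`, up to scalars) of every `g (inl i) - g (inr l)` -/
structure IsBC (K : Submodule k V) {n n' : ℕ} (g : Fin n ⊕ Fin n' → V) (B : Finset V) :
    Prop where
  ind : ∀ r : Fin n ⊕ Fin n' → k, ∑ v, r v = 0 → ∑ v, r v • g v ∈ K → r = 0
  mem : ∀ i l, ∃ b ∈ B, ∃ c : k, c ≠ 0 ∧ b - c • (g (Sum.inl i) - g (Sum.inr l)) ∈ K
  sub : ∀ b ∈ B, ∃ i l, ∃ c : k, c ≠ 0 ∧ b - c • (g (Sum.inl i) - g (Sum.inr l)) ∈ K
  uniq : ∀ b ∈ B, ∀ b' ∈ B, ∀ c : k, b - c • b' ∈ K → b = b'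

variable [DecidableEq V]

/-- the guts of `X` in `(K, S)` -/
def guts (K : Submodule k V) (S X : Finset V) : Submodule k V :=
  hat K (X : Set V) ⊓ hat K ((S \ X : Finset V) : Set V)

/-- connectivity of `X` in `(K, S)` -/
noncomputable def lam (K : Submodule k V) (S X : Finset V) : ℕ :=
  finrank k (guts K S X) - finrank k K

/-- the data of a reduction of a set `X` of order at most one: `X` is replaced by `D`, which is
empty (order zero) or consists of one element, which is parallel modulo `hat K A` to the vectors of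
the guts of `X` (order one) -/
structure TD (K : Submodule k V) (S X A D : Finset V) : Prop where
  XS : X ⊆ S
  AX : A ⊆ X
  DX : D ⊆ X
  Az : hat K (A : Set V) ⊓ hat K ((S \ X : Finset V) : Set V) = K
  card : D.card ≤ 1
  DW : ∀ d ∈ D, ∃ w ∈ guts K S X, w ∉ K ∧ d - w ∈ hat K (A : Set V)
  WD : ∀ w ∈ guts K S X, w ∉ K → ∃ d ∈ D, ∃ c : k, c ≠ 0 ∧ d - c • w ∈ hat K (A : Set V)

/-- small sets of order at most one have at most one element; `sm` is the family of the small
sets -/
structure Tight (K : Submodule k V) (S : Finset V) (sm : Finset V → Prop) : Prop where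
  sub : ∀ X Y, sm X → Y ⊆ X → sm Y
  sS : ∀ X, sm X → X ⊆ S
  nz : ∀ x ∈ S, x ∉ K
  npar : ∀ x ∈ S, ∀ y ∈ S, ∀ c : k, x - c • y ∈ K → x = y
  c1 : ∀ X, sm X → X.Nonempty → 1 ≤ lam K S X
  c2 : ∀ X, sm X → 2 ≤ X.card → 2 ≤ lam K S X

/-- a spanning minor `M(K_N)`: `C ⊆ S` is independent modulo `K`; modulo `hat K C` the combinations
of the `g i` with coefficient sum zero are independent and `q i j` is parallel to `g i - g j`; all
elements of `S` are combinations of the `g i` with coefficient sum zero modulo `hat K C` -/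
structure IsQ (K : Submodule k V) (S : Finset V) {N : ℕ} (C : Finset V) (g : Fin N → V)
    (q : Fin N → Fin N → V) : Prop where
  CS : C ⊆ S
  Cind : ∀ r : V → k, ∑ x ∈ C, r x • x ∈ K → ∀ x ∈ C, r x = 0
  gind : ∀ r : Fin N → k, ∑ i, r i = 0 → ∑ i, r i • g i ∈ hat K (C : Set V) → r = 0
  qS : ∀ i j, i ≠ j → q i j ∈ S
  qsymm : ∀ i j, q i j = q j i
  qg : ∀ i j, i ≠ j → ∃ c : k, c ≠ 0 ∧ q i j - c • (g i - g j) ∈ hat K (C : Set V)
  span : ∀ x ∈ S, ∃ r : Fin N → k, ∑ i, r i = 0 ∧ x - ∑ i, r i • g i ∈ hat K (C : Set V)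

end general

/-- the vector of the edge `i j` of a complete graph -/
def ev (k : Type) [Field k] {N : ℕ} (i j : Fin N) : Fin N → k := Pi.single i 1 - Pi.single j 1

/-- the span of the edges `i j` with `q i j ∈ X` -/
def rqs (k : Type) [Field k] {V : Type} {N : ℕ} (q : Fin N → Fin N → V) (X : Finset V) :
    Submodule k (Fin N → k) :=
  Submodule.span k {y : Fin N → k | ∃ i j, i ≠ j ∧ q i j ∈ X ∧ y = ev k i j}

/-- the rank of the set of the pairs `i j` with `q i j ∈ X`, as edges of a complete graph -/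
noncomputable def rq (k : Type) [Field k] {V : Type} {N : ℕ} (q : Fin N → Fin N → V)
    (X : Finset V) : ℕ := finrank k (rqs k q X)

/-- small sets -/
def QSmall (k : Type) [Field k] (ℓ : ℕ) {V : Type} {N : ℕ} (S : Finset V)
    (q : Fin N → Fin N → V) (X : Finset V) : Prop := X ⊆ S ∧ rq k q X ≤ ℓ

/-- `(K, S)` has a minor `N_m(t / s)` with `t / s` not in the small field `E`: the matroid of the
complete graph on `m` vertices and one further element
`s • f a + t • f b - (s + t) • f c` -/
def HasN (E : Type) {F V : Type} [Field E] [Field F] [Algebra E F] [AddCommGroup V] [Module F V]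
    (m : ℕ) (K : Submodule F V) (S : Finset V) : Prop :=
  ∃ (A : Finset V) (f : Fin m → V) (a b c : Fin m), A ⊆ S ∧
    (∀ r : Fin m → F, ∑ i, r i = 0 → ∑ i, r i • f i ∈ hat K (A : Set V) → r = 0) ∧
    (∀ i j, i ≠ j → ∃ y ∈ S, ∃ t : F, t ≠ 0 ∧ y - t • (f i - f j) ∈ hat K (A : Set V)) ∧
    a ≠ b ∧ a ≠ c ∧ b ≠ c ∧
    ∃ x ∈ S, ∃ s t : F, s ≠ 0 ∧ (∀ u : E, t ≠ algebraMap E F u * s) ∧
      x - (s • f a + t • f b - (s + t) • f c) ∈ hat K (A : Set V)

/-- the edges of a complete bipartite graph -/
noncomputable def bip (F : Type) [Field F] (n n' : ℕ) : Finset (Fin n ⊕ Fin n' → F) := by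
  classical
  exact univ.image fun p : Fin n × Fin n' =>
    (Pi.single (Sum.inl p.1) 1 - Pi.single (Sum.inr p.2) 1 : Fin n ⊕ Fin n' → F)

/-- the conclusion of Lemma Z (section 1 of the paper proof) -/
def ZN (E F : Type) [Field E] [Field F] [Algebra E F] (m n0 : ℕ) : Prop :=
  ∀ n n', n0 ≤ n → n0 ≤ n' → ∀ U : Submodule F (Fin n ⊕ Fin n' → F),
    (∀ x ∈ U, ∑ v, x v = 0) → U ≠ ⊥ → finrank F U ≤ finrank E F →
    (∀ x ∈ U, (∀ v, ∃ a : E, algebraMap E F a = x v) → x = 0) → HasN E m U (bip F n n')

section two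

variable (E : Type) {F V : Type} [Field E] [Field F] [Algebra E F] [AddCommGroup V] [Module F V]
  [Module E V] [IsScalarTower E F V]

/-- an `F`-subspace as an `E`-subspace -/
abbrev rs (K : Submodule F V) : Submodule E V := K.restrictScalars E

variable {E} in
/-- the `E`-subspace `L` is a form modulo the `F`-subspace `K`: `K ≤ L` and the map
`F ⊗ (L / K) → V / K` is injective -/
structure IsForm (K : Submodule F V) (L : Submodule E V) : Prop where
  le : ∀ v ∈ K, v ∈ L
  inj : ∀ (r : ℕ) (α : Fin r → F), LinearIndependent E α → ∀ l : Fin r → V, (∀ j, l j ∈ L) →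
    ∑ j, α j • l j ∈ K → ∀ j, l j ∈ K

/-- the elements of `T` are (modulo `K`) confined to the small field, up to scalars -/
def Conf (K : Submodule F V) (T : Set V) : Prop :=
  ∃ L : Submodule E V, IsForm K L ∧ ∀ x ∈ T, ∃ c : F, c ≠ 0 ∧ c • x ∈ L

variable [DecidableEq V]

/-- `X` together with its guts is confined -/
def CL (K : Submodule F V) (S X : Finset V) : Prop :=
  Conf E K ((X : Set V) ∪ (guts K S X : Set V))

/-- what the first part of the argument uses of a smallest counterexample; `sm` is the family of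
the small sets -/
structure MinCex (K : Submodule F V) (S : Finset V) (sm : Finset V → Prop) : Prop where
  sub : ∀ X Y, sm X → Y ⊆ X → sm Y
  sS : ∀ X, sm X → X ⊆ S
  gl : ∀ X, sm X → lam K S X ≤ 1 → CL E K S X
  nz : ∀ x ∈ S, x ∉ K
  npar : ∀ x ∈ S, ∀ y ∈ S, ∀ c : F, x - c • y ∈ K → x = y
  ng : ¬ Conf E K (S : Set V)
  red : ∀ X A D, sm X → TD K S X A D → ((S \ X) ∪ D).card < S.card →
    Conf E (hat K (A : Set V)) (((S \ X) ∪ D : Finset V) : Set V)

/-- the hypothesis of the level one theorem -/
structure Hyp1 (m : ℕ) {n n' : ℕ} (K : Submodule F V) (S B : Finset V)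
    (g : Fin n ⊕ Fin n' → V) : Prop where
  bc : IsBC K g B
  BS : B ⊆ S
  no : ¬ HasN E m K S
  gl : ∀ X, X ⊆ S \ B → lam K S X ≤ 1 → CL E K S X

/-- the hypothesis of the level two theorem -/
structure Hyp2 (m ℓ : ℕ) (K : Submodule F V) (S : Finset V) {N : ℕ} (C : Finset V)
    (g : Fin N → V) (q : Fin N → Fin N → V) : Prop where
  isq : IsQ K S C g q
  no : ¬ HasN E m K S
  gl : ∀ X, QSmall F ℓ S q X → lam K S X ≤ 1 → CL E K S X

/-- the setting of the lift step: no element of `S` is in `K` and no two are parallel, `L` is a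
form modulo `hat K {e}`, and `σ` scales the elements of `S \ e` into `L` -/
structure Lift (K : Submodule F V) (S : Finset V) (e : V) (L : Submodule E V) (σ : V → V) :
    Prop where
  eS : e ∈ S
  nz : ∀ x ∈ S, x ∉ K
  npar : ∀ x ∈ S, ∀ y ∈ S, ∀ c : F, x - c • y ∈ K → x = y
  form : IsForm (hat K {e}) L
  sc : ∀ x, ∃ c : F, c ≠ 0 ∧ σ x = c • x
  σe : σ e = e
  mem : ∀ x ∈ S.erase e, σ x ∈ L

/-- the scaled elements -/
def S1 (S : Finset V) (e : V) (σ : V → V) : Finset V := (S.erase e).image σ

/-- the space `D` of the lift step: the `E`-span of the scaled elements (modulo `K`) meets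
`K + F e` in it -/
def liftD (K : Submodule F V) (T : Finset V) (e : V) : Submodule E V :=
  hat (rs E K) (T : Set V) ⊓ rs E (hat K {e})

end two

end Pool.Agent.SFT
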