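import Pool.Agent.Helper39.TC.Lin
import Pool.Agent.SFT.FDefs

/-!
# SFT-Du: scaled confinement is self-dual
-/

namespace Pool.Agent.SFT

open Finset Module
open Pool.Agent.Helper39.TC

variable {F : Type} [Field F] [Finite F]

omit [Finite F] in
private theorem mem_dual_rs {m n : ℕ} (M : Matrix (Fin m) (Fin n) F) (v : Fin n → F) :
    v ∈ dual (rowSpace M) ↔ ∀ i, ∑ j, M i j * v j = 0 := by
  rw [mem_dual]
  constructor
  · intro h i
    exact h _ (Submodule.subset_span ⟨i, rfl⟩)
  · intro h u hu
    unfold rowSpace at hu
    induction hu using Submodule.span_induction with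
    | mem x hx =>
      obtain ⟨i, rfl⟩ := hx
      exact h i
    | zero => simp
    | add x y _ _ hx hy =>
      simp only [Pi.add_apply, add_mul, Finset.sum_add_distrib, hx, hy, add_zero]
    | smul a x _ hx =>
      simp only [Pi.smul_apply, smul_eq_mul, mul_assoc, ← Finset.mul_sum, hx, mul_zero]

/-- the solutions over the small field -/
private def sols (K : Subfield F) {m n : ℕ} (A : Matrix (Fin m) (Fin n) K) :
    Submodule K (Fin n → K) where
  carrier := {w | ∀ i, ∑ j, A i j * w j = 0}
  add_mem' := by
    intro a b ha hb i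
    simp only [Pi.add_apply, mul_add, Finset.sum_add_distrib, ha i, hb i, add_zero]
  zero_mem' := by
    intro i
    simp
  smul_mem' := by
    intro c a ha i
    have h : ∑ j, A i j * (c • a) j = c * ∑ j, A i j * a j := by
      rw [Finset.mul_sum]
      refine Finset.sum_congr rfl fun j _ => ?_
      rw [Pi.smul_apply, smul_eq_mul]
      ring
    rw [h, ha i, mul_zero]

theorem confinedTo_dual (K : Subfield F) {n : ℕ} {U : Submodule F (Fin n → F)}
    (h : ConfinedTo K U) : ConfinedTo K (dual U) := by
  obtain ⟨d, m, A, hd, hA, rfl⟩ := h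
  set A' : Matrix (Fin m) (Fin n) K := Matrix.of fun i j => ⟨A i j, hA i j⟩ with hA'
  set b := Module.finBasis K (sols K A') with hb
  refine ⟨fun j => (d j)⁻¹, Module.finrank K (sols K A'),
    Matrix.of fun a j => (((b a : Fin n → K) j : K) : F), fun j => inv_ne_zero (hd j),
    fun a j => ((b a : Fin n → K) j).2, ?_⟩
  apply le_antisymm
  · unfold rowSpace
    rw [Submodule.span_le]
    rintro _ ⟨a, rfl⟩
    rw [SetLike.mem_coe]
    refine (mem_dual_rs _ _).2 fun i => ?_
    have h1 := (b a).2 i
    have h2 : ∑ j, A i j * (((b a : Fin n → K) j : K) : F) = 0 := by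
      have h3 := congrArg (fun x : K => (x : F)) h1
      push_cast at h3
      exact h3
    rw [← h2]
    refine Finset.sum_congr rfl fun j _ => ?_
    simp only [Matrix.of_apply]
    have h4 := hd j
    field_simp
  · intro v hv
    rw [mem_dual_rs] at hv
    set α := Module.finBasis K F with hα
    have h1 : ∀ l, (fun j => α.repr (d j * v j) l) ∈ sols K A' := by
      intro l i
      have h2 : ∑ j, (A' i j) • (d j * v j) = 0 := by
        rw [← hv i]
        refine Finset.sum_congr rfl fun j _ => ?_
        rw [Subfield.smul_def, smul_eq_mul, Matrix.of_apply, ← mul_assoc]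
        rfl
      have h3 := congrArg (fun x => α.repr x l) h2
      simp only [map_sum, map_smul, Finsupp.finsetSum_apply, Finsupp.smul_apply, smul_eq_mul,
        map_zero, Finsupp.zero_apply] at h3
      exact h3
    have h2 : v = ∑ l, ∑ a, (α l * ((b.repr ⟨_, h1 l⟩ a : K) : F)) •
        (fun j => (((b a : Fin n → K) j : K) : F) * (d j)⁻¹) := by
      funext j
      have h3 : ∀ l, α.repr (d j * v j) l = ∑ a, b.repr ⟨_, h1 l⟩ a * (b a : Fin n → K) j := by
        intro l
        have h4 := congrArg (fun x : sols K A' => (x : Fin n → K) j) (b.sum_repr ⟨_, h1 l⟩)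
        simp only [AddSubmonoidClass.coe_finsetSum, Submodule.coe_smul, Finset.sum_apply,
          Pi.smul_apply, smul_eq_mul] at h4
        exact h4.symm
      have h5 : d j * v j = ∑ l, ((α.repr (d j * v j) l : K) : F) * α l := by
        have h6 := α.sum_repr (d j * v j)
        conv_lhs => rw [← h6]
        refine Finset.sum_congr rfl fun l _ => ?_
        rw [Subfield.smul_def, smul_eq_mul]
      have h6 : v j = (d j)⁻¹ * ∑ l, ((α.repr (d j * v j) l : K) : F) * α l := by
        rw [← h5, inv_mul_cancel_left₀ (hd j)]
      rw [h6, Finset.mul_sum, Finset.sum_apply]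
      refine Finset.sum_congr rfl fun l _ => ?_
      rw [h3 l, Finset.sum_apply]
      push_cast
      rw [Finset.sum_mul, Finset.mul_sum]
      refine Finset.sum_congr rfl fun a _ => ?_
      rw [Pi.smul_apply, smul_eq_mul]
      ring
    rw [h2]
    refine Submodule.sum_mem _ fun l _ => Submodule.sum_mem _ fun a _ =>
      Submodule.smul_mem _ _ (Submodule.subset_span ⟨a, ?_⟩)
    funext j
    rfl

end Pool.Agent.SFT
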