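import Pool.Agent.SFT.Fm1

/-!
# SFT-Fm2: forms, restriction, extension and contraction

`IsForm.inf`: `le`: `K ≤ M`, `K ≤ K' ≤ L`. `inj`: `∑ α j • l j ∈ K ≤ K'` gives `l j ∈ K'`, and `l j ∈ M`.
`IsForm.sup`: `l j = l' j + κ j`, `l' j ∈ L`, `κ j ∈ K'` (`Submodule.mem_sup`); `∑ α j • l j ∈ K'` gives
`∑ α j • l' j ∈ K' ⊓ M = K`, so `l' j ∈ K ≤ K'`.
`IsForm.contract`: by `isForm_of_basis` for a basis `α` (`Module.finBasis E F`). `l j = l' j + κ j` with
`l' j ∈ L`, `κ j ∈ hat K A`; `∑ α j • l' j ∈ hat K A`. Let `A1` be the `E`-subspace `hat (rs E K) A'`, `A'` the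
set of the scaled elements `c • x ∈ L` (`x ∈ A`); `A1 ≤ L` and `hat K A = span F A1`, so by `mem_span_iff`
`∑ α j • l' j = ∑ α j • a j`, `a j ∈ A1`, `∑ α j • (l' j - a j) = 0 ∈ K`, so `l' j - a j ∈ K`, so
`l' j ∈ hat K A`.
`isForm_hat_singleton`: if `t ∈ K` the space is `K`. Otherwise `l j = κ j + μ j • t` (`mem_hat_singleton` for
`rs E K`), `∑ α j • l j ∈ K` gives `(∑ α j * algebraMap (μ j)) • t ∈ K`, so `∑ μ j • α j = 0`, so `μ j = 0`.
-/

namespace Pool.Agent.SFT

open Finset Module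

variable {E F V : Type} [Field E] [Field F] [Algebra E F] [AddCommGroup V] [Module F V]
  [Module E V] [IsScalarTower E F V]
  {K K' M : Submodule F V} {L : Submodule E V}

theorem IsForm.inf (h : IsForm K' L) (hKM : K ≤ M) (hKK : K ≤ K') (hM : M ⊓ K' = K) :
    IsForm K (L ⊓ rs E M) := by
  refine ⟨fun v hv => ⟨h.le v (hKK hv), hKM hv⟩, fun r α hα l hl hs j => ?_⟩
  have h1 := h.inj r α hα l (fun j => (hl j).1) (hKK hs) j
  rw [← hM]
  exact ⟨(hl j).2, h1⟩

theorem IsForm.sup (h : IsForm K L) (hLM : ∀ v ∈ L, v ∈ M) (hKK : K ≤ K') (hM : M ⊓ K' = K) :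
    IsForm K' (L ⊔ rs E K') := by
  refine ⟨fun v hv => Submodule.mem_sup_right hv, fun r α hα l hl hs j => ?_⟩
  have h1 : ∀ j, ∃ l' ∈ L, ∃ κ ∈ K', l' + κ = l j := fun j => by
    obtain ⟨y, hy, z, hz, h2⟩ := Submodule.mem_sup.1 (hl j)
    exact ⟨y, hy, z, hz, h2⟩
  choose l' hl' κ hκ hlκ using h1
  have h2 : ∑ j, α j • l' j ∈ K := by
    rw [← hM]
    refine ⟨M.sum_mem fun j _ => M.smul_mem _ (hLM _ (hl' j)), ?_⟩
    have h3 : ∑ j, α j • l' j = ∑ j, α j • l j - ∑ j, α j • κ j := by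
      rw [← Finset.sum_sub_distrib]
      refine Finset.sum_congr rfl fun j _ => ?_
      rw [← smul_sub, ← hlκ j, add_sub_cancel_right]
    rw [h3]
    exact K'.sub_mem hs (K'.sum_mem fun j _ => K'.smul_mem _ (hκ j))
  have h3 := h.inj r α hα l' hl' h2 j
  rw [← hlκ j]
  exact K'.add_mem (hKK h3) (hκ j)

theorem IsForm.contract [FiniteDimensional E F] (h : IsForm K L) {A : Set V}
    (hA : ∀ x ∈ A, ∃ c : F, c ≠ 0 ∧ c • x ∈ L) :
    IsForm (hat K A) (L ⊔ rs E (hat K A)) := by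
  set α := Module.finBasis E F
  refine isForm_of_basis α (fun v hv => Submodule.mem_sup_right hv) fun l hl hs => ?_
  have h1 : ∀ j, ∃ l' ∈ L, ∃ κ ∈ hat K A, l' + κ = l j := fun j => by
    obtain ⟨y, hy, z, hz, h2⟩ := Submodule.mem_sup.1 (hl j)
    exact ⟨y, hy, z, hz, h2⟩
  choose l' hl' κ hκ hlκ using h1
  have h2 : ∑ j, α j • l' j ∈ hat K A := by
    have h3 : ∑ j, α j • l' j = ∑ j, α j • l j - ∑ j, α j • κ j := by
      rw [← Finset.sum_sub_distrib]
      refine Finset.sum_congr rfl fun j _ => ?_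
      rw [← smul_sub, ← hlκ j, add_sub_cancel_right]
    rw [h3]
    exact Submodule.sub_mem _ hs (Submodule.sum_mem _ fun j _ => Submodule.smul_mem _ _ (hκ j))
  have h3 : hat K A ≤ Submodule.span F ((L ⊓ rs E (hat K A) : Submodule E V) : Set V) := by
    refine hat_le (fun v hv => Submodule.subset_span ⟨h.le v hv, le_hat K A hv⟩) fun x hx => ?_
    obtain ⟨c, hc, hcx⟩ := hA x hx
    have h4 : c • x ∈ Submodule.span F ((L ⊓ rs E (hat K A) : Submodule E V) : Set V) :=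
      Submodule.subset_span ⟨hcx, Submodule.smul_mem _ _ (subset_hat K A hx)⟩
    exact (Submodule.smul_mem_iff _ hc).1 h4
  obtain ⟨a, ha, hs2⟩ := (mem_span_iff α _ _).1 (h3 h2)
  have h4 : ∑ j, α j • (l' j - a j) ∈ K := by
    have h5 : ∑ j, α j • (l' j - a j) = 0 := by
      rw [Finset.sum_congr rfl fun j _ => smul_sub (α j) (l' j) (a j), Finset.sum_sub_distrib,
        hs2, sub_self]
    rw [h5]
    exact K.zero_mem
  have h5 := h.basis α (fun j => l' j - a j) (fun j => L.sub_mem (hl' j) (ha j).1) h4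
  intro j
  rw [← hlκ j]
  refine Submodule.add_mem _ ?_ (hκ j)
  have h6 : l' j = (l' j - a j) + a j := (sub_add_cancel _ _).symm
  rw [h6]
  exact Submodule.add_mem _ (le_hat K A (h5 j)) (ha j).2

theorem isForm_hat_singleton (K : Submodule F V) (t : V) : IsForm K (hat (rs E K) {t}) := by
  refine ⟨fun v hv => le_hat (rs E K) {t} hv, fun r α hα l hl hs j => ?_⟩
  have h1 : ∀ j, ∃ c : E, l j - c • t ∈ K := fun j => (mem_hat_singleton (rs E K) t (l j)).1 (hl j)
  choose μ hμ using h1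
  have h2 : (∑ j, μ j • α j) • t ∈ K := by
    have h3 : (∑ j, μ j • α j) • t = ∑ j, α j • l j - ∑ j, α j • (l j - μ j • t) := by
      rw [← Finset.sum_sub_distrib, Finset.sum_smul]
      refine Finset.sum_congr rfl fun j _ => ?_
      rw [← smul_sub, sub_sub_cancel, smul_assoc, ← algebraMap_smul F (μ j) (α j • t),
        ← algebraMap_smul F (μ j) t, smul_comm]
    rw [h3]
    exact K.sub_mem hs (K.sum_mem fun j _ => K.smul_mem _ (hμ j))
  have h4 : μ j • t ∈ K := by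
    by_cases ht : t ∈ K
    · rw [← algebraMap_smul F (μ j) t]
      exact K.smul_mem _ ht
    · have h5 : ∑ j, μ j • α j = 0 := by
        by_contra hne
        exact ht ((K.smul_mem_iff hne).1 h2)
      have h6 := Fintype.linearIndependent_iff.1 hα μ h5 j
      rw [h6, zero_smul]
      exact K.zero_mem
  have h5 : l j = (l j - μ j • t) + μ j • t := (sub_add_cancel _ _).symm
  rw [h5]
  exact K.add_mem (hμ j) h4

end Pool.Agent.SFT
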