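import Pool.Agent.SFT.LiD

/-!
# SFT-Li1: the lift step, `D` small (2.1)
-/

namespace Pool.Agent.SFT

open Finset Module

variable {E F V : Type} [Field E] [Field F] [Algebra E F] [AddCommGroup V] [Module F V]
  [Module E V] [IsScalarTower E F V]
  [DecidableEq V] [FiniteDimensional E F] [FiniteDimensional F V] [FiniteDimensional E V]
  {K : Submodule F V} {T : Finset V} {e : V} {L : Submodule E V}

theorem conf_insert_of_small (hL : IsForm (hat K {e}) L) (hT : ∀ x ∈ T, x ∈ L) (he : e ∉ K)
    (hD : finrank E (liftD E K T e) ≤ finrank E (rs E K) + 1) :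
    Conf E K ((insert e T : Finset V) : Set V) := by
  have hTL : hat (rs E K) (T : Set V) ≤ L :=
    hat_le (fun v hv => hL.le v (le_hat K _ hv)) (fun x hx => hT x hx)
  obtain ⟨δ, hδ1, hδ2, hδ3⟩ : ∃ δ, δ ∈ hat K {e} ∧ δ ∉ K ∧
      ∀ t ∈ liftD E K T e, ∃ μ : E, t - μ • δ ∈ K := by
    by_cases hc : liftD E K T e ≤ rs E K
    · exact ⟨e, subset_hat K {e} rfl, he, fun t ht => ⟨0, by
        rw [zero_smul, sub_zero]
        exact hc ht⟩⟩
    · obtain ⟨δ, hδ, hδK⟩ := SetLike.not_le_iff_exists.1 hc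
      have h1 := eq_hat_singleton (le_liftD K T e) hD hδ hδK
      refine ⟨δ, hδ.2, hδK, fun t ht => ?_⟩
      rw [h1, mem_hat_singleton] at ht
      exact ht
  obtain ⟨d, hd⟩ := (mem_hat_singleton K e δ).1 hδ1
  have hd0 : d ≠ 0 := by
    rintro rfl
    rw [zero_smul, sub_zero] at hd
    exact hδ2 hd
  have hδL : δ ∈ L := hL.le δ hδ1
  refine ⟨hat (rs E K) (insert δ (T : Set V)), ?_, ?_⟩
  · refine isForm_of_basis (Module.finBasis E F) (fun v hv => le_hat (rs E K) _ hv) ?_
    intro l hl hs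
    have h1 : ∀ j, ∃ ν : E, l j - ν • δ ∈ hat (rs E K) (T : Set V) := by
      intro j
      have h2 := hl j
      rw [hat_insert] at h2
      obtain ⟨t, ht, s, hs', hts⟩ := Submodule.mem_sup.1 h2
      obtain ⟨ν, hν⟩ := (mem_hat_singleton (rs E K) δ s).1 hs'
      refine ⟨ν, ?_⟩
      have h3 : l j - ν • δ = t + (s - ν • δ) := by
        rw [← hts]
        abel
      rw [h3]
      exact Submodule.add_mem _ ht (le_hat (rs E K) _ hν)
    choose ν hν using h1
    have h2 : ∀ j, l j ∈ L := by
      intro j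
      have h3 := L.add_mem (hTL (hν j)) (L.smul_mem (ν j) hδL)
      rwa [sub_add_cancel] at h3
    have h3 : ∀ j, l j ∈ hat K {e} := hL.basis (Module.finBasis E F) l h2 (le_hat K _ hs)
    have h4 : ∀ j, l j - ν j • δ ∈ liftD E K T e := by
      intro j
      refine ⟨hν j, ?_⟩
      show l j - ν j • δ ∈ rs E (hat K {e})
      exact Submodule.sub_mem _ (h3 j) (Submodule.smul_mem (rs E (hat K {e})) (ν j) hδ1)
    have h5 : ∀ j, ∃ ν' : E, l j - ν' • δ ∈ K := by
      intro j
      obtain ⟨μ, hμ⟩ := hδ3 _ (h4 j)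
      refine ⟨ν j + μ, ?_⟩
      rw [add_smul, ← sub_sub]
      exact hμ
    choose ν' hν' using h5
    have h6 : (∑ j, ν' j • (Module.finBasis E F) j) • δ ∈ K := by
      have h7 : ∑ j, (Module.finBasis E F) j • (l j - ν' j • δ) ∈ K :=
        Submodule.sum_mem _ fun j _ => K.smul_mem _ (hν' j)
      have h8 : (∑ j, ν' j • (Module.finBasis E F) j) • δ =
          ∑ j, (Module.finBasis E F) j • l j - ∑ j, (Module.finBasis E F) j • (l j - ν' j • δ) := by
        rw [← Finset.sum_sub_distrib, Finset.sum_smul]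
        refine Finset.sum_congr rfl fun j _ => ?_
        rw [← smul_sub, sub_sub_cancel, smul_assoc, smul_comm]
      rw [h8]
      exact K.sub_mem hs h7
    have h9 : ∑ j, ν' j • (Module.finBasis E F) j = 0 := by
      by_contra hne
      apply hδ2
      have h10 := K.smul_mem (∑ j, ν' j • (Module.finBasis E F) j)⁻¹ h6
      rwa [smul_smul, inv_mul_cancel₀ hne, one_smul] at h10
    have h11 := Fintype.linearIndependent_iff.1 (Module.finBasis E F).linearIndependent ν' h9
    intro j
    have h12 := hν' j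
    rwa [h11 j, zero_smul, sub_zero] at h12
  · intro x hx
    rw [Finset.coe_insert] at hx
    rcases Set.mem_insert_iff.1 hx with rfl | hx
    · refine ⟨d, hd0, ?_⟩
      have h1 : d • x = δ - (δ - d • x) := by abel
      rw [h1]
      exact Submodule.sub_mem _ (subset_hat (rs E K) _ (Set.mem_insert δ _)) (le_hat (rs E K) _ hd)
    · refine ⟨1, one_ne_zero, ?_⟩
      rw [one_smul]
      exact subset_hat (rs E K) _ (Set.mem_insert_of_mem δ hx)

end Pool.Agent.SFT
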