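import Pool.Agent.SFT.LiD

/-!
# SFT-Li2: the lift step, comparison of connectivities (2.2)
-/

namespace Pool.Agent.SFT

open Finset Module

variable {E F V : Type} [Field E] [Field F] [Algebra E F] [AddCommGroup V] [Module F V]
  [Module E V] [IsScalarTower E F V]
  [DecidableEq V] [FiniteDimensional E F] [FiniteDimensional F V] [FiniteDimensional E V]
  {K : Submodule F V} {T Y Ds : Finset V} {e : V} {L : Submodule E V}

omit [DecidableEq V] [FiniteDimensional E F] [FiniteDimensional F V] [FiniteDimensional E V] in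
private theorem li2_span (X : Set V) :
    hat K X ≤ Submodule.span F ((hat (rs E K) X : Submodule E V) : Set V) := by
  refine hat_le (fun v hv => Submodule.subset_span ?_) (fun x hx => Submodule.subset_span ?_)
  · exact le_hat (rs E K) _ hv
  · exact subset_hat (rs E K) _ hx

theorem lam_le_lam_lift (hL : IsForm (hat K {e}) L) (hT : ∀ x ∈ T, x ∈ L) (heT : e ∉ T)
    (hDs : hat (rs E K) (Ds : Set V) = liftD E K T e) (hdis : Disjoint T Ds) (hY : Y ⊆ T) :
    lam K (insert e T) (insert e Y) ≤ lam (rs E K) (T ∪ Ds) (Y ∪ Ds) := by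
  have hZ1 : insert e T \ insert e Y = T \ Y := by
    ext x
    simp only [mem_sdiff, mem_insert]
    constructor
    · rintro ⟨h1, h2⟩
      push Not at h2
      exact ⟨h1.resolve_left h2.1, h2.2⟩
    · rintro ⟨h1, h2⟩
      refine ⟨Or.inr h1, ?_⟩
      rintro (h3 | h3)
      · exact heT (h3 ▸ h1)
      · exact h2 h3
  have hZ2 : (T ∪ Ds) \ (Y ∪ Ds) = T \ Y := by
    ext x
    simp only [mem_sdiff, mem_union]
    constructor
    · rintro ⟨h1, h2⟩
      push Not at h2
      exact ⟨h1.resolve_right h2.2, h2.1⟩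
    · rintro ⟨h1, h2⟩
      refine ⟨Or.inl h1, ?_⟩
      rintro (h3 | h3)
      · exact h2 h3
      · exact Finset.disjoint_left.1 hdis h1 h3
  have hTL : hat (rs E K) (T : Set V) ≤ L := by
    refine hat_le (fun v hv => hL.le v (le_hat K _ hv)) (fun x hx => hT x hx)
  have hG : guts K (insert e T) (insert e Y) ≤
      Submodule.span F ((guts (rs E K) (T ∪ Ds) (Y ∪ Ds) : Submodule E V) : Set V) := by
    intro v hv
    obtain ⟨hv1, hv2⟩ := Submodule.mem_inf.1 hv
    rw [hZ1] at hv2
    rw [coe_insert, hat_insert] at hv1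
    obtain ⟨z, hz, hvz⟩ := (mem_span_iff (finBasis E F) _ v).1 (li2_span _ hv2)
    obtain ⟨y', hy', w, hw, hyw⟩ := Submodule.mem_sup.1 hv1
    obtain ⟨y, hy, hvy⟩ := (mem_span_iff (finBasis E F) _ y').1 (li2_span (E := E) _ hy')
    have hzT : ∀ j, z j ∈ hat (rs E K) (T : Set V) := fun j =>
      hat_mono le_rfl (coe_subset.2 sdiff_subset) (hz j)
    have hyT : ∀ j, y j ∈ hat (rs E K) (T : Set V) := fun j =>
      hat_mono le_rfl (coe_subset.2 hY) (hy j)
    have h1 : ∑ j, (finBasis E F) j • (z j - y j) ∈ hat K {e} := by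
      simp only [smul_sub, Finset.sum_sub_distrib]
      rw [← hvz, ← hvy, ← hyw, add_sub_cancel_left]
      exact hw
    have h2 := hL.basis (finBasis E F) (fun j => z j - y j)
      (fun j => L.sub_mem (hTL (hzT j)) (hTL (hyT j))) h1
    refine (mem_span_iff (finBasis E F) _ v).2 ⟨z, fun j => ?_, hvz⟩
    have h3 : z j - y j ∈ hat (rs E K) (Ds : Set V) := by
      rw [hDs]
      exact Submodule.mem_inf.2 ⟨Submodule.sub_mem _ (hzT j) (hyT j), h2 j⟩
    refine Submodule.mem_inf.2 ⟨?_, ?_⟩
    · rw [coe_union, hat_union]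
      have h4 : z j = y j + (z j - y j) := (add_sub_cancel _ _).symm
      rw [h4]
      exact Submodule.add_mem_sup (hy j) h3
    · rw [hZ2]
      exact hz j
  have h1 := Submodule.finrank_mono hG
  have h2 := finrank_span_le (K := K) (A := guts (rs E K) (T ∪ Ds) (Y ∪ Ds))
    (fun v hv => le_guts (rs E K) _ _ hv)
  have h3 := lam_add K (insert e T) (insert e Y)
  have h4 := lam_add (rs E K) (T ∪ Ds) (Y ∪ Ds)
  omega

end Pool.Agent.SFT
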