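import Pool.Agent.SFT.Li2

/-!
# SFT-Li3: the lift step, lower bound for the connectivities over the small field (2.3)
-/

namespace Pool.Agent.SFT

open Finset Module

variable {E F V : Type} [Field E] [Field F] [Algebra E F] [AddCommGroup V] [Module F V]
  [Module E V] [IsScalarTower E F V]
  [DecidableEq V] [FiniteDimensional E F] [FiniteDimensional F V] [FiniteDimensional E V]
  {K : Submodule F V} {S Ds X : Finset V} {e : V} {L : Submodule E V} {σ : V → V}
  {sm : Finset V → Prop}

open Classical in
theorem Lift.two_le (h : Lift E K S e L σ) (ht : Tight K S sm)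
    (hDs : hat (rs E K) (Ds : Set V) = liftD E K (S1 S e σ) e)
    (hdis : Disjoint (S1 S e σ) Ds)
    (hD2 : finrank E (rs E K) + 2 ≤ finrank E (liftD E K (S1 S e σ) e)) (hDX : Ds ⊆ X)
    (hX : X ⊆ S1 S e σ ∪ Ds) (hsm : sm (insert e ((S.erase e).filter (fun x => σ x ∈ X)))) :
    2 ≤ lam (rs E K) (S1 S e σ ∪ Ds) X := by
  set Y0 := (S.erase e).filter (fun x => σ x ∈ X) with hY0
  have hXY : X = Y0.image σ ∪ Ds := by
    ext x
    constructor
    · intro hx
      rcases mem_union.1 (hX hx) with h1 | h1
      · obtain ⟨y, hy, rfl⟩ := mem_image.1 h1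
        exact mem_union_left _ (mem_image_of_mem σ (mem_filter.2 ⟨hy, hx⟩))
      · exact mem_union_right _ h1
    · intro hx
      rcases mem_union.1 hx with h1 | h1
      · obtain ⟨y, hy, rfl⟩ := mem_image.1 h1
        exact (mem_filter.1 hy).2
      · exact hDX h1
  rcases Y0.eq_empty_or_nonempty with h0 | h0
  · have h1 : X = Ds := by
      rw [h0, image_empty, empty_union] at hXY
      exact hXY
    have h2 : (S1 S e σ ∪ Ds) \ Ds = S1 S e σ := by
      rw [union_sdiff_right]
      exact hdis.sdiff_eq_left
    have h3 := lam_add (rs E K) (S1 S e σ ∪ Ds) Ds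
    have h4 : liftD E K (S1 S e σ) e ≤ guts (rs E K) (S1 S e σ ∪ Ds) Ds := by
      unfold guts
      rw [h2, hDs]
      exact le_inf le_rfl inf_le_left
    have h5 := Submodule.finrank_mono h4
    rw [h1]
    omega
  · have heY : e ∉ Y0 := fun h1 => (mem_erase.1 (mem_filter.1 h1).1).1 rfl
    have h1 : 2 ≤ (insert e Y0).card := by
      rw [card_insert_of_notMem heY]
      have := h0.card_pos
      omega
    have h2 := ht.c2 _ hsm h1
    have hYT : Y0.image σ ⊆ S1 S e σ := image_subset_image (filter_subset _ _)
    have heT : e ∉ S1 S e σ := fun h3 => h.notMem e h3 (subset_hat K _ (Set.mem_singleton e))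
    have hYS : insert e Y0 ⊆ S :=
      insert_subset h.eS ((filter_subset _ _).trans (erase_subset _ _))
    have h3 := h.lam_image hYS
    rw [h.image_S, image_insert, h.σe] at h3
    have h4 := lam_le_lam_lift (Y := Y0.image σ) h.form h.mem_L heT hDs hdis hYT
    rw [← hXY] at h4
    omega

end Pool.Agent.SFT
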