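import Pool.Agent.SFT.BasA

/-!
# SFT-Nm: the excluded minors: minors, rescaling, linear maps

The minor is pulled along a linear map up to scalars and modulo subspaces.
-/

namespace Pool.Agent.SFT

open Finset Module

variable {E F V : Type} [Field E] [Field F] [Algebra E F] [AddCommGroup V] [Module F V]
  {m : ℕ} {K : Submodule F V} {S S' : Finset V}

private theorem map_aux {V' : Type} [AddCommGroup V'] [Module F V'] (Θ : V' →ₗ[F] V)
    {U D : Submodule F V'} {S' : Finset V'} (hSD : ∀ x ∈ S', x ∈ D) (hUD : U ≤ D)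
    (hker : ∀ x ∈ D, Θ x ∈ K → x ∈ U) (hU : ∀ x ∈ U, Θ x ∈ K)
    (hS : ∀ x ∈ S', ∃ y ∈ S, ∃ c : F, c ≠ 0 ∧ Θ x - c • y ∈ K)
    (h : HasN E m U S') : HasN E m K S := by
  classical
  obtain ⟨A', f, a, b, c, hA', hind, hy, hab, hac, hbc, x, hx, s, t, hs, hst, hxe⟩ := h
  obtain ⟨ρ, κ, hρ⟩ : ∃ (ρ : V' → V) (κ : V' → F), ∀ z ∈ S', ρ z ∈ S ∧ κ z ≠ 0 ∧
      Θ z - κ z • ρ z ∈ K := by
    refine ⟨fun z => if hz : z ∈ S' then (hS z hz).choose else 0,
      fun z => if hz : z ∈ S' then (hS z hz).choose_spec.2.choose else 0, fun z hz => ?_⟩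
    simp only [dif_pos hz]
    exact ⟨(hS z hz).choose_spec.1, (hS z hz).choose_spec.2.choose_spec⟩
  have hAD : ∀ z ∈ A', z ∈ D := fun z hz => hSD z (hA' hz)
  have hatD : hat U (A' : Set V') ≤ D := hat_le hUD fun z hz => hAD z (Finset.mem_coe.1 hz)
  -- the image of the span
  have h1 : ∀ z ∈ hat U (A' : Set V'), Θ z ∈ hat K ((A'.image ρ : Finset V) : Set V) := by
    have h2 : hat U (A' : Set V') ≤
        Submodule.comap Θ (hat K ((A'.image ρ : Finset V) : Set V)) := by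
      refine hat_le (fun z hz => le_hat K _ (hU z hz)) fun z hz => ?_
      have hz' := Finset.mem_coe.1 hz
      change Θ z ∈ hat K ((A'.image ρ : Finset V) : Set V)
      have h3 : Θ z = (Θ z - κ z • ρ z) + κ z • ρ z := (sub_add_cancel _ _).symm
      rw [h3]
      exact Submodule.add_mem _ (le_hat K _ (hρ z (hA' hz')).2.2) (Submodule.smul_mem _ _
        (subset_hat K _ (Finset.mem_coe.2 (Finset.mem_image_of_mem ρ hz'))))
    exact fun z hz => h2 hz
  have h2 : ∀ z ∈ D, Θ z ∈ hat K ((A'.image ρ : Finset V) : Set V) →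
      z ∈ hat U (A' : Set V') := by
    intro z hz hz'
    have h3 : hat K ((A'.image ρ : Finset V) : Set V) ≤
        K ⊔ Submodule.map Θ (Submodule.span F (A' : Set V')) := by
      refine hat_le le_sup_left fun y hy' => ?_
      obtain ⟨w, hw, rfl⟩ := Finset.mem_image.1 (Finset.mem_coe.1 hy')
      obtain ⟨-, h4, h5⟩ := hρ w (hA' hw)
      have h6 : ρ w = (κ w)⁻¹ • (Θ w - (Θ w - κ w • ρ w)) := by
        rw [sub_sub_cancel, smul_smul, inv_mul_cancel₀ h4, one_smul]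
      have h7 : Θ w ∈ Submodule.map Θ (Submodule.span F (A' : Set V')) :=
        Submodule.mem_map_of_mem (Submodule.subset_span (Finset.mem_coe.2 hw))
      rw [h6]
      exact Submodule.smul_mem _ _ (Submodule.sub_mem _ (Submodule.mem_sup_right h7)
        (Submodule.mem_sup_left h5))
    obtain ⟨y, hy', v, hv, hyv⟩ := Submodule.mem_sup.1 (h3 hz')
    obtain ⟨w, hw, rfl⟩ := Submodule.mem_map.1 hv
    have hwD : w ∈ D := (Submodule.span_le.2 fun q hq => hAD q (Finset.mem_coe.1 hq)) hw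
    have h4 : z - w ∈ U := by
      refine hker _ (D.sub_mem hz hwD) ?_
      rw [map_sub, ← hyv, add_sub_cancel_right]
      exact hy'
    have h5 : z = (z - w) + w := (sub_add_cancel _ _).symm
    rw [h5]
    exact Submodule.add_mem _ (le_hat U _ h4) (Submodule.mem_sup_right hw)
  have hdiff : ∀ i j, f i - f j ∈ D := by
    intro i j
    by_cases hij : i = j
    · rw [hij, sub_self]
      exact D.zero_mem
    · obtain ⟨y, hyS, t', ht', hye⟩ := hy i j hij
      have h3 : t' • (f i - f j) ∈ D := by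
        have h4 : t' • (f i - f j) = y - (y - t' • (f i - f j)) := (sub_sub_cancel _ _).symm
        rw [h4]
        exact D.sub_mem (hSD y hyS) (hatD hye)
      exact (D.smul_mem_iff ht').1 h3
  refine ⟨A'.image ρ, fun i => Θ (f i), a, b, c, ?_, ?_, ?_, hab, hac, hbc, ρ x, (hρ x hx).1,
    (κ x)⁻¹ * s, (κ x)⁻¹ * t, mul_ne_zero (inv_ne_zero (hρ x hx).2.1) hs, ?_, ?_⟩
  · intro y hyA
    obtain ⟨w, hw, rfl⟩ := Finset.mem_image.1 hyA
    exact (hρ w (hA' hw)).1
  · intro r hr hrm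
    refine hind r hr (h2 _ ?_ ?_)
    · have h3 : ∑ i, r i • f i = ∑ i, r i • (f i - f a) := by
        simp only [smul_sub, Finset.sum_sub_distrib]
        rw [← Finset.sum_smul, hr, zero_smul, sub_zero]
      rw [h3]
      exact Submodule.sum_mem _ fun i _ => Submodule.smul_mem _ _ (hdiff i a)
    · rw [map_sum]
      simp only [map_smul]
      exact hrm
  · intro i j hij
    obtain ⟨y, hyS, t', ht', hye⟩ := hy i j hij
    obtain ⟨h3, h4, h5⟩ := hρ y hyS
    refine ⟨ρ y, h3, (κ y)⁻¹ * t', mul_ne_zero (inv_ne_zero h4) ht', ?_⟩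
    have h6 : ρ y - ((κ y)⁻¹ * t') • (Θ (f i) - Θ (f j)) =
        (κ y)⁻¹ • (Θ (y - t' • (f i - f j)) - (Θ y - κ y • ρ y)) := by
      rw [map_sub, map_smul, map_sub, mul_smul]
      have h7 : Θ y - t' • (Θ (f i) - Θ (f j)) - (Θ y - κ y • ρ y) =
          κ y • ρ y - t' • (Θ (f i) - Θ (f j)) := by abel
      rw [h7, smul_sub (κ y)⁻¹ (κ y • ρ y), inv_smul_smul₀ h4]
    rw [h6]
    exact Submodule.smul_mem _ _ (Submodule.sub_mem _ (h1 _ hye) (le_hat K _ h5))
  · intro u hu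
    apply hst u
    have h3 := (hρ x hx).2.1
    have h4 : κ x * ((κ x)⁻¹ * t) = κ x * (algebraMap E F u * ((κ x)⁻¹ * s)) := by rw [hu]
    rw [mul_inv_cancel_left₀ h3] at h4
    rw [h4]
    field_simp
  · obtain ⟨-, h4, h5⟩ := hρ x hx
    have h6 : ρ x - (((κ x)⁻¹ * s) • Θ (f a) + ((κ x)⁻¹ * t) • Θ (f b) -
        ((κ x)⁻¹ * s + (κ x)⁻¹ * t) • Θ (f c)) =
        (κ x)⁻¹ • (Θ (x - (s • f a + t • f b - (s + t) • f c)) - (Θ x - κ x • ρ x)) := by
      rw [map_sub, map_sub, map_add, map_smul, map_smul, map_smul]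
      have h7 : Θ x - (s • Θ (f a) + t • Θ (f b) - (s + t) • Θ (f c)) - (Θ x - κ x • ρ x) =
          κ x • ρ x - (s • Θ (f a) + t • Θ (f b) - (s + t) • Θ (f c)) := by abel
      rw [h7, smul_sub, smul_smul, inv_mul_cancel₀ h4, one_smul, smul_sub, smul_add,
        smul_smul, smul_smul, smul_smul, mul_add]
    rw [h6]
    exact Submodule.smul_mem _ _ (Submodule.sub_mem _ (h1 _ hxe) (le_hat K _ h5))

theorem HasN.mono {A : Finset V} (hA : A ⊆ S) (hS : S' ⊆ S)
    (h : HasN E m (hat K (A : Set V)) S') : HasN E m K S := by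
  classical
  obtain ⟨A', f, a, b, c, hA', hind, hy, hab, hac, hbc, x, hx, s, t, hs, hst, hxe⟩ := h
  have h1 : hat (hat K (A : Set V)) (A' : Set V) = hat K ((A ∪ A' : Finset V) : Set V) := by
    rw [hat_hat, Finset.coe_union]
  rw [h1] at hind hxe
  refine ⟨A ∪ A', f, a, b, c, Finset.union_subset hA (hA'.trans hS), hind, ?_, hab, hac, hbc,
    x, hS hx, s, t, hs, hst, hxe⟩
  intro i j hij
  obtain ⟨y, hyS, t', ht', hye⟩ := hy i j hij
  rw [h1] at hye
  exact ⟨y, hS hyS, t', ht', hye⟩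

theorem HasN.of_par (hS : ∀ x ∈ S', ∃ y ∈ S, ∃ c : F, c ≠ 0 ∧ x - c • y ∈ K)
    (h : HasN E m K S') : HasN E m K S :=
  map_aux (LinearMap.id (R := F) (M := V)) (U := K) (D := ⊤) (fun _ _ => Submodule.mem_top)
    le_top (fun _ _ hx => hx) (fun _ hx => hx) hS h

theorem HasN.map {V' : Type} [AddCommGroup V'] [Module F V'] (Θ : V' →ₗ[F] V)
    {U D : Submodule F V'} {S' : Finset V'} (hSD : ∀ x ∈ S', x ∈ D) (hUD : U ≤ D)
    (hker : ∀ x ∈ D, Θ x ∈ K → x ∈ U) (hU : ∀ x ∈ U, Θ x ∈ K)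
    (hS : ∀ x ∈ S', ∃ y ∈ S, ∃ c : F, c ≠ 0 ∧ Θ x - c • y ∈ K)
    (h : HasN E m U S') : HasN E m K S :=
  map_aux Θ hSD hUD hker hU hS h

end Pool.Agent.SFT
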