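import Pool.Agent.SFT.Li4a
import Pool.Agent.SFT.Nm

/-!
# SFT-Li4: the lift step, finish (2.4)

`K1 := hat (rs E K) J`, `Kh := hat K J = span F K1`, `T1 := hat (rs E K) T`, `D := liftD E K T e`. `Θ := Fintype.linearCombination F g`,
`D0 := {x | ∑ v, x v = 0}`, `U := {x ∈ D0 | Θ x ∈ Kh}`. `hz` for `U`:
* sum zero: clear.
* no nonzero rational vector: `x = ratv r`, `∑ r = 0`; `Θ x = ∑ r v • g v ∈ hat K1 B ≤ T1` (`IsBC.sum_mem` over `E`), in
  `Kh = span F K1`; `mem_of_rational`: in `K1`; `hbc.ind`: `r = 0`.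
* `finrank F U ≤ finrank E F`: `R := {r : J → E | ∑ r = 0, ∑ r v • g v ∈ K1 ⊔ D}`; `x ∈ U`, `x = ∑ α j • ratv (r j)` (`exists_rat`), `∑ r j = 0`
  (`sum_rat`), `v j := ∑ u, r j u • g u ∈ T1`, `∑ α j • v j = Θ x ∈ span F K1`, so `v j ∈ K1 ⊔ D` (`coeff_mem`): `U ≤ span F (ratv '' R)`,
  `finrank_span_ratv`. `finrank E R + finrank E (rs E K) ≤ finrank E D`: the linear map `R → V`, `r ↦ ∑ r v • g v` is injective even
  modulo `K1` (`ind`), so `finrank R + finrank K1 ≤ finrank (K1 ⊔ D)` and `finrank (K1 ⊔ D) + finrank K = finrank K1 + finrank D`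
  (`hD`); `finrank_liftD_le`.
* `U ≠ ⊥`: `M := (K1 ⊔ D) ⊓ hat K1 B` has `finrank M ≥ finrank K1 + 2`: `exists_basis_mod` (over `E`): independent `b1, b2 ∈ M` modulo `K1`.
  `b i = k i + d i` (`k i ∈ K1`, `d i ∈ D`), `d i - μ i • e ∈ K` (`μ i : F`); `b i - ∑ r i v • g v ∈ K1` (`IsBC.mem_hat` over `E`, `∑ r i = 0`).
  `x := μ 2 • ratv (r 1) - μ 1 • ratv (r 2)`: `Θ x ∈ Kh` (it is `μ 2 • b1 - μ 1 • b2` modulo `span F K1`, and
  `μ 2 • d 1 - μ 1 • d 2 ∈ K`). `x ≠ 0`: `r 1, r 2` are independent over `E` (as `b1, b2` are modulo `K1`), so `ratv (r 1), ratv (r 2)` over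
  `F` (`isForm_rat`, or `finrank_span_ratv`); `x = 0` gives `μ 1 = μ 2 = 0`, `d i ∈ K`, `b i ∈ K1`, contradiction.
So `HasN E m U (bip F n n')`. `HasN.map` with `Θ`, `D0`, `Kh = hat K J`: gives `HasN E m (hat K J) B` (the clique elements are parallel
to the differences of the `g`), and `HasN.mono` with `J ⊆ T`, `B ⊆ T`.
-/

namespace Pool.Agent.SFT

open Finset Module

variable {E F V : Type} [Field E] [Field F] [Algebra E F] [AddCommGroup V] [Module F V]
  [Module E V] [IsScalarTower E F V]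
  [DecidableEq V] [FiniteDimensional E F] [FiniteDimensional F V] [FiniteDimensional E V]
  {K : Submodule F V} {T J B : Finset V} {e : V} {L : Submodule E V} {n n' : ℕ}
  {g : Fin n ⊕ Fin n' → V}

omit [DecidableEq V] [FiniteDimensional E F] [FiniteDimensional F V] [FiniteDimensional E V] in
private theorem l4_theta (r : Fin n ⊕ Fin n' → E) :
    Fintype.linearCombination F g (ratv E F _ r) = ∑ v, r v • g v := by
  rw [Fintype.linearCombination_apply]
  refine Finset.sum_congr rfl fun v _ => ?_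
  rw [ratv_apply, algebraMap_smul]

omit [DecidableEq V] [FiniteDimensional F V] in
private theorem l4_fin {K1 T1 D : Submodule E V} {Kh : Submodule F V} (hL : IsForm (hat K {e}) L)
    (hK1 : rs E K ≤ K1) (hKT : K1 ≤ T1) (hTL : T1 ≤ L)
    (hDm : ∀ v, v ∈ D ↔ v ∈ T1 ∧ v ∈ hat K {e}) (hDK : D ⊓ K1 = rs E K) (hbc : IsBC K1 g B)
    (h0 : 0 < n) (h0' : 0 < n') (hBT : hat K1 (B : Set V) ≤ T1)
    (hKh : ∀ v ∈ Kh, v ∈ Submodule.span F (K1 : Set V))
    (hDle : finrank E D ≤ finrank E (rs E K) + finrank E F) {U : Submodule F (Fin n ⊕ Fin n' → F)}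
    (hU : ∀ x ∈ U, ∑ v, x v = 0 ∧ Fintype.linearCombination F g x ∈ Kh) :
    finrank F U ≤ finrank E F := by
  obtain ⟨R, hR⟩ : ∃ R : Submodule E (Fin n ⊕ Fin n' → E),
      ∀ r, r ∈ R ↔ ∑ v, r v = 0 ∧ ∑ v, r v • g v ∈ K1 ⊔ D := by
    refine ⟨{ carrier := {r | ∑ v, r v = 0 ∧ ∑ v, r v • g v ∈ K1 ⊔ D}
              add_mem' := ?_
              zero_mem' := ?_
              smul_mem' := ?_ }, fun r => Iff.rfl⟩
    · rintro r s ⟨h1, h2⟩ ⟨h3, h4⟩
      refine ⟨?_, ?_⟩
      · simp only [Pi.add_apply]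
        rw [Finset.sum_add_distrib, h1, h3, add_zero]
      · simp only [Pi.add_apply, add_smul]
        rw [Finset.sum_add_distrib]
        exact Submodule.add_mem _ h2 h4
    · refine ⟨by simp, ?_⟩
      simp only [Pi.zero_apply, zero_smul, Finset.sum_const_zero]
      exact Submodule.zero_mem _
    · rintro c r ⟨h1, h2⟩
      refine ⟨?_, ?_⟩
      · simp only [Pi.smul_apply, smul_eq_mul]
        rw [← Finset.mul_sum, h1, mul_zero]
      · simp only [Pi.smul_apply, smul_assoc]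
        rw [← Finset.smul_sum]
        exact Submodule.smul_mem _ _ h2
  have hUR : U ≤ Submodule.span F (ratv E F (Fin n ⊕ Fin n') '' (R : Set (Fin n ⊕ Fin n' → E))) := by
    intro x hx
    obtain ⟨h1, h2⟩ := hU x hx
    obtain ⟨r, hr⟩ := exists_rat (Module.finBasis E F) x
    have h3 := sum_rat (Module.finBasis E F) r (by rw [← hr]; exact h1)
    have h4 : ∀ j, ∑ v, r j v • g v ∈ T1 := fun j => hBT (hbc.sum_mem h0 h0' (r j) (h3 j))
    have h5 : ∑ j, (Module.finBasis E F) j • ∑ v, r j v • g v = Fintype.linearCombination F g x := by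
      rw [hr, map_sum]
      refine Finset.sum_congr rfl fun j _ => ?_
      rw [map_smul, l4_theta]
    have h6 := coeff_mem hL hK1 hKT hTL hDm (Module.finBasis E F) (fun j => ∑ v, r j v • g v) h4
      (by rw [h5]; exact hKh _ h2)
    rw [hr]
    refine Submodule.sum_mem _ fun j _ => Submodule.smul_mem _ _ (Submodule.subset_span ?_)
    exact ⟨r j, (hR _).2 ⟨h3 j, h6 j⟩, rfl⟩
  have h1 : finrank F U ≤ finrank E R := by
    rw [← finrank_span_ratv (F := F) R]
    exact Submodule.finrank_mono hUR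
  have hinj : ∀ r : R, (∑ v, (r : Fin n ⊕ Fin n' → E) v • g v) ∈ K1 → r = 0 := by
    intro r hr
    have h2 := hbc.ind r ((hR _).1 r.2).1 hr
    exact Subtype.ext h2
  obtain ⟨φ, hφ⟩ : ∃ φ : R →ₗ[E] V, ∀ r : R, φ r = ∑ v, (r : Fin n ⊕ Fin n' → E) v • g v :=
    ⟨(Fintype.linearCombination E g).domRestrict R, fun r => by
      rw [LinearMap.domRestrict_apply, Fintype.linearCombination_apply]⟩
  have hφi : Function.Injective φ := by
    rw [← LinearMap.ker_eq_bot, LinearMap.ker_eq_bot']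
    intro r hr
    refine hinj r ?_
    rw [← hφ, hr]
    exact Submodule.zero_mem _
  have h2 := LinearMap.finrank_range_of_inj hφi
  have h3 : LinearMap.range φ ⊓ K1 = ⊥ := by
    rw [eq_bot_iff]
    rintro v ⟨⟨r, rfl⟩, hv⟩
    have h4 := hinj r (by rw [← hφ]; exact hv)
    rw [h4, map_zero]
    exact Submodule.zero_mem _
  have h4 := finrank_sup_add_inf (LinearMap.range φ) K1
  rw [h3, finrank_bot] at h4
  have h5 : LinearMap.range φ ⊔ K1 ≤ K1 ⊔ D := by
    refine sup_le ?_ le_sup_left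
    rintro v ⟨r, rfl⟩
    rw [hφ]
    exact ((hR _).1 r.2).2
  have h6 := Submodule.finrank_mono h5
  have h7 := finrank_sup_add_inf K1 D
  rw [inf_comm, hDK] at h7
  omega

omit [FiniteDimensional E F] [FiniteDimensional F V] in
private theorem l4_ne {K1 D : Submodule E V} {Kh : Submodule F V} (hK1 : rs E K ≤ K1)
    (hDe : ∀ v ∈ D, v ∈ hat K {e}) (hbc : IsBC K1 g B) (h0 : 0 < n) (h0' : 0 < n')
    (hKKh : K ≤ Kh) (hK1h : ∀ v ∈ K1, v ∈ Kh)
    (hdim : finrank E K1 + 2 ≤ finrank E ↥((K1 ⊔ D) ⊓ hat K1 (B : Set V))) :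
    ∃ x : Fin n ⊕ Fin n' → F, x ≠ 0 ∧ ∑ v, x v = 0 ∧ Fintype.linearCombination F g x ∈ Kh := by
  obtain ⟨X, hX1, -, hX3, hX4⟩ := exists_basis_mod (K := K1) (D := (K1 ⊔ D) ⊓ hat K1 (B : Set V))
    (le_inf le_sup_left (le_hat _ _))
  have hcard : 1 < X.card := by omega
  obtain ⟨b1, hb1, b2, hb2, hne⟩ := Finset.one_lt_card.1 hcard
  have hind : ∀ s t : E, s • b1 + t • b2 ∈ K1 → s = 0 ∧ t = 0 := by
    intro s t hst
    have h1 := hX4 (fun x => if x = b1 then s else if x = b2 then t else 0) (by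
      have h2 : ∑ x ∈ X, (if x = b1 then s else if x = b2 then t else 0) • x = s • b1 + t • b2 := by
        rw [← Finset.sum_subset (s₁ := {b1, b2}) (by
          intro x hx
          rcases Finset.mem_insert.1 hx with hx | hx
          · rw [hx]
            exact hb1
          · rw [Finset.mem_singleton.1 hx]
            exact hb2) (by
          intro x _ hx
          rw [Finset.mem_insert, Finset.mem_singleton, not_or] at hx
          rw [if_neg hx.1, if_neg hx.2, zero_smul])]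
        rw [Finset.sum_pair hne, if_pos rfl, if_neg hne.symm, if_pos rfl]
      rw [h2]
      exact hst)
    have h2 := h1 b1 hb1
    have h3 := h1 b2 hb2
    simp only [if_pos] at h2
    simp only [if_neg hne.symm, if_pos] at h3
    exact ⟨h2, h3⟩
  obtain ⟨k1, hk1, d1, hd1, e1⟩ := Submodule.mem_sup.1 (hX1 b1 hb1).1
  obtain ⟨k2, hk2, d2, hd2, e2⟩ := Submodule.mem_sup.1 (hX1 b2 hb2).1
  obtain ⟨μ1, hμ1⟩ := (mem_hat_singleton K e d1).1 (hDe d1 hd1)
  obtain ⟨μ2, hμ2⟩ := (mem_hat_singleton K e d2).1 (hDe d2 hd2)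
  obtain ⟨r1, hr1, hs1⟩ := (hbc.mem_hat h0 h0' b1).1 (hX1 b1 hb1).2
  obtain ⟨r2, hr2, hs2⟩ := (hbc.mem_hat h0 h0' b2).1 (hX1 b2 hb2).2
  have hri : ∀ s t : E, (∀ v, s * r1 v + t * r2 v = 0) → s = 0 ∧ t = 0 := by
    intro s t hst
    refine hind s t ?_
    have h1 : s • b1 + t • b2 = s • (b1 - ∑ u, r1 u • g u) + t • (b2 - ∑ u, r2 u • g u) := by
      have h2 : s • ∑ u, r1 u • g u + t • ∑ u, r2 u • g u = 0 := by
        rw [Finset.smul_sum, Finset.smul_sum, ← Finset.sum_add_distrib]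
        refine Finset.sum_eq_zero fun u _ => ?_
        rw [smul_smul, smul_smul, ← add_smul, hst u, zero_smul]
      rw [smul_sub, smul_sub]
      calc s • b1 + t • b2 = s • b1 + t • b2 - 0 := (sub_zero _).symm
        _ = s • b1 + t • b2 - (s • ∑ u, r1 u • g u + t • ∑ u, r2 u • g u) := by rw [h2]
        _ = _ := by abel
    rw [h1]
    exact Submodule.add_mem _ (Submodule.smul_mem _ _ hs1) (Submodule.smul_mem _ _ hs2)
  have hr1z : ∃ v, r1 v ≠ 0 := by
    by_contra hcon
    push Not at hcon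
    have h1 := (hri 1 0 fun v => by rw [hcon v, mul_zero, zero_mul, add_zero]).1
    exact one_ne_zero h1
  have hr2z : ∃ v, r2 v ≠ 0 := by
    by_contra hcon
    push Not at hcon
    have h1 := (hri 0 1 fun v => by rw [hcon v, mul_zero, zero_mul, add_zero]).2
    exact one_ne_zero h1
  have hinjE : Function.Injective (algebraMap E F) := (algebraMap E F).injective
  refine ⟨μ2 • ratv E F _ r1 - μ1 • ratv E F _ r2, ?_, ?_, ?_⟩
  · intro hx
    have hx' : ∀ v, μ2 * algebraMap E F (r1 v) = μ1 * algebraMap E F (r2 v) := by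
      intro v
      have h1 := congrFun hx v
      rw [Pi.sub_apply, Pi.smul_apply, Pi.smul_apply, smul_eq_mul, smul_eq_mul, ratv_apply, ratv_apply,
        Pi.zero_apply, sub_eq_zero] at h1
      exact h1
    have hm2 : μ2 = 0 := by
      by_contra hm2
      obtain ⟨v, hv⟩ := hr1z
      have hv2 : r2 v ≠ 0 := by
        intro h1
        have h2 := hx' v
        rw [h1, map_zero, mul_zero] at h2
        rcases mul_eq_zero.1 h2 with h3 | h3
        · exact hm2 h3
        · exact hv (hinjE (by rw [h3, map_zero]))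
      have h1 : ∀ w, r1 w * r2 v = r1 v * r2 w := by
        intro w
        apply hinjE
        rw [map_mul, map_mul]
        have h2 := hx' v
        have h3 := hx' w
        have hv2' : algebraMap E F (r2 v) ≠ 0 := fun h4 => hv2 (hinjE (by rw [h4, map_zero]))
        have h5 : μ2 * (algebraMap E F (r1 w) * algebraMap E F (r2 v) -
            algebraMap E F (r1 v) * algebraMap E F (r2 w)) = 0 := by
          linear_combination algebraMap E F (r2 v) * h3 - algebraMap E F (r2 w) * h2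
        rcases mul_eq_zero.1 h5 with h6 | h6
        · exact absurd h6 hm2
        · exact sub_eq_zero.1 h6
      have h2 := (hri (r2 v) (-r1 v) fun w => by
        have h3 := h1 w
        linear_combination h3).1
      exact hv2 h2
    have hm1 : μ1 = 0 := by
      obtain ⟨v, hv⟩ := hr2z
      have h1 := hx' v
      rw [hm2, zero_mul] at h1
      rcases mul_eq_zero.1 h1.symm with h3 | h3
      · exact h3
      · exact absurd (hinjE (by rw [h3, map_zero])) hv
    rw [hm1, zero_smul, sub_zero] at hμ1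
    have h1 : b1 ∈ K1 := by
      rw [← e1]
      exact Submodule.add_mem _ hk1 (hK1 hμ1)
    have h2 := (hind 1 0 (by rw [one_smul, zero_smul, add_zero]; exact h1)).1
    exact one_ne_zero h2
  · simp only [Pi.sub_apply, Pi.smul_apply, smul_eq_mul, ratv_apply]
    rw [Finset.sum_sub_distrib, ← Finset.mul_sum, ← Finset.mul_sum, ← map_sum, ← map_sum, hr1, hr2,
      map_zero, mul_zero, mul_zero, sub_zero]
  · rw [map_sub, map_smul, map_smul, l4_theta, l4_theta]
    have h1 : μ2 • ∑ v, r1 v • g v - μ1 • ∑ v, r2 v • g v =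
        μ2 • (k1 - (b1 - ∑ v, r1 v • g v)) - μ1 • (k2 - (b2 - ∑ v, r2 v • g v)) +
          (μ2 • (d1 - μ1 • e) - μ1 • (d2 - μ2 • e)) := by
      rw [← e1, ← e2]
      simp only [smul_sub, smul_add, smul_smul]
      rw [mul_comm μ2 μ1]
      abel
    rw [h1]
    refine Submodule.add_mem _ (Submodule.sub_mem _ (Submodule.smul_mem _ _ (Submodule.sub_mem _
      (hK1h _ hk1) (hK1h _ hs1))) (Submodule.smul_mem _ _ (Submodule.sub_mem _
      (hK1h _ hk2) (hK1h _ hs2)))) ?_
    exact Submodule.sub_mem _ (Submodule.smul_mem _ _ (hKKh hμ1)) (Submodule.smul_mem _ _ (hKKh hμ2))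

theorem lift_finish {m n0 : ℕ} (hz : ZN E F m n0) (hn : n0 ≤ n) (hn' : n0 ≤ n') (h0 : 0 < n)
    (h0' : 0 < n') (hL : IsForm (hat K {e}) L) (hT : ∀ x ∈ T, x ∈ L) (hJ : J ⊆ T) (hB : B ⊆ T)
    (hbc : IsBC (hat (rs E K) (J : Set V)) g B)
    (hD : liftD E K T e ⊓ hat (rs E K) (J : Set V) = rs E K)
    (hdim : finrank E (hat (rs E K) (J : Set V)) + 2 ≤
      finrank E ↥((hat (rs E K) (J : Set V) ⊔ liftD E K T e) ⊓
        hat (hat (rs E K) (J : Set V)) (B : Set V))) : HasN E m K T := by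
  have hK1 : rs E K ≤ hat (rs E K) (J : Set V) := le_hat _ _
  have hKT : hat (rs E K) (J : Set V) ≤ hat (rs E K) (T : Set V) :=
    hat_mono le_rfl (coe_subset.2 hJ)
  have hTL : hat (rs E K) (T : Set V) ≤ L :=
    hat_le (fun v hv => hL.le v (le_hat K {e} hv)) fun v hv => hT v hv
  have hBT : hat (hat (rs E K) (J : Set V)) (B : Set V) ≤ hat (rs E K) (T : Set V) :=
    hat_le hKT fun v hv => subset_hat _ _ (hB hv)
  have hK1h : ∀ v ∈ hat (rs E K) (J : Set V), v ∈ hat K (J : Set V) := by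
    have h1 : hat (rs E K) (J : Set V) ≤ rs E (hat K (J : Set V)) :=
      hat_le (fun v hv => le_hat K (J : Set V) hv) fun v hv => subset_hat K (J : Set V) hv
    exact fun v hv => h1 hv
  have hKh : ∀ v ∈ hat K (J : Set V),
      v ∈ Submodule.span F ((hat (rs E K) (J : Set V) : Submodule E V) : Set V) := by
    have h1 : hat K (J : Set V) ≤
        Submodule.span F ((hat (rs E K) (J : Set V) : Submodule E V) : Set V) :=
      hat_le (fun v hv => Submodule.subset_span (hK1 hv)) fun v hv =>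
        Submodule.subset_span (subset_hat _ _ hv)
    exact fun v hv => h1 hv
  have hDm : ∀ v, v ∈ liftD E K T e ↔ v ∈ hat (rs E K) (T : Set V) ∧ v ∈ hat K {e} := fun v => Iff.rfl
  obtain ⟨D0, hD0⟩ : ∃ D0 : Submodule F (Fin n ⊕ Fin n' → F), ∀ x, x ∈ D0 ↔ ∑ v, x v = 0 := by
    refine ⟨{ carrier := {x | ∑ v, x v = 0}
              add_mem' := ?_
              zero_mem' := ?_
              smul_mem' := ?_ }, fun x => Iff.rfl⟩
    · rintro x y hx hy
      have hx' : ∑ v, x v = 0 := hx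
      have hy' : ∑ v, y v = 0 := hy
      show ∑ v, (x + y) v = 0
      simp only [Pi.add_apply]
      rw [Finset.sum_add_distrib, hx', hy', add_zero]
    · show ∑ v, (0 : Fin n ⊕ Fin n' → F) v = 0
      simp
    · rintro c x hx
      have hx' : ∑ v, x v = 0 := hx
      show ∑ v, (c • x) v = 0
      simp only [Pi.smul_apply, smul_eq_mul]
      rw [← Finset.mul_sum, hx', mul_zero]
  obtain ⟨U, hU⟩ : ∃ U : Submodule F (Fin n ⊕ Fin n' → F), ∀ x, x ∈ U ↔ ∑ v, x v = 0 ∧
      Fintype.linearCombination F g x ∈ hat K (J : Set V) := by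
    refine ⟨D0 ⊓ (hat K (J : Set V)).comap (Fintype.linearCombination F g), fun x => ?_⟩
    rw [Submodule.mem_inf, Submodule.mem_comap, hD0]
  have hU1 : U ≠ ⊥ := by
    obtain ⟨x, hx0, hx1, hx2⟩ := l4_ne (F := F) hK1 (fun v hv => ((hDm v).1 hv).2) hbc h0 h0'
      (le_hat K _) hK1h hdim
    intro hbot
    have h1 : x ∈ U := (hU x).2 ⟨hx1, hx2⟩
    rw [hbot, Submodule.mem_bot] at h1
    exact hx0 h1
  have hU2 : finrank F U ≤ finrank E F :=
    l4_fin hL hK1 hKT hTL hDm hD hbc h0 h0' hBT hKh (finrank_liftD_le K T e) fun x hx => (hU x).1 hx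
  have hU3 : ∀ x ∈ U, (∀ v, ∃ a : E, algebraMap E F a = x v) → x = 0 := by
    intro x hx hrat
    choose r hr using hrat
    obtain ⟨h1, h2⟩ := (hU x).1 hx
    have hx' : x = ratv E F _ r := by
      funext v
      rw [ratv_apply, hr v]
    have hr0 : ∑ v, r v = 0 := by
      apply (algebraMap E F).injective
      rw [map_sum, map_zero, ← h1]
      exact Finset.sum_congr rfl fun v _ => hr v
    rw [hx', l4_theta] at h2
    have h3 := hbc.ind r hr0 (mem_of_rational hL hK1 hKT hTL hDm hD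
      (hBT (hbc.sum_mem h0 h0' r hr0)) (hKh _ h2))
    rw [hx', h3, map_zero]
  have h1 : HasN E m U (bip F n n') :=
    hz n n' hn hn' U (fun x hx => ((hU x).1 hx).1) hU1 hU2 hU3
  have hbip : ∀ x ∈ bip F n n', ∃ i l, x =
      (Pi.single (Sum.inl i) 1 - Pi.single (Sum.inr l) 1 : Fin n ⊕ Fin n' → F) := by
    intro x hx
    classical
    unfold bip at hx
    obtain ⟨p, -, hp⟩ := Finset.mem_image.1 hx
    exact ⟨p.1, p.2, hp.symm⟩
  have h2 : HasN E m (hat K (J : Set V)) B := by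
    refine HasN.map (Fintype.linearCombination F g) (U := U) (D := D0) (S' := bip F n n') ?_ ?_ ?_ ?_ ?_ h1
    · intro x hx
      obtain ⟨i, l, rfl⟩ := hbip x hx
      rw [hD0]
      simp only [Pi.sub_apply]
      rw [Finset.sum_sub_distrib, Finset.sum_pi_single', Finset.sum_pi_single']
      simp
    · exact fun x hx => (hD0 x).2 ((hU x).1 hx).1
    · exact fun x hx hx' => (hU x).2 ⟨(hD0 x).1 hx, hx'⟩
    · exact fun x hx => ((hU x).1 hx).2
    · intro x hx
      obtain ⟨i, l, rfl⟩ := hbip x hx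
      obtain ⟨b, hb, c, hc, hbc'⟩ := hbc.mem i l
      have h3 : Fintype.linearCombination F g
          (Pi.single (Sum.inl i) 1 - Pi.single (Sum.inr l) 1 : Fin n ⊕ Fin n' → F) =
          g (Sum.inl i) - g (Sum.inr l) := by
        rw [map_sub, Fintype.linearCombination_apply_single, Fintype.linearCombination_apply_single,
          one_smul, one_smul]
      refine ⟨b, hb, algebraMap E F c⁻¹, ?_, ?_⟩
      · intro h4
        exact inv_ne_zero hc ((algebraMap E F).injective (by rw [h4, map_zero]))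
      · rw [h3, algebraMap_smul]
        have h4 : g (Sum.inl i) - g (Sum.inr l) - c⁻¹ • b =
            -(c⁻¹ • (b - c • (g (Sum.inl i) - g (Sum.inr l)))) := by
          rw [smul_sub, smul_smul, inv_mul_cancel₀ hc, one_smul]
          abel
        rw [h4]
        exact Submodule.neg_mem _ (hK1h _ (Submodule.smul_mem _ _ hbc'))
  exact HasN.mono hJ hB h2

end Pool.Agent.SFT
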