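import Pool.Agent.SFT.LiD
import Pool.Agent.SFT.Rat
import Pool.Agent.SFT.BcM

/-!
# SFT-Li4a: the lift step, the kernel (2.4 (a), (c))

Setting of 2.4 (only what is needed): `K1 : Submodule E V` with `rs E K ≤ K1 ≤ L`, `D ≤ L` an `E`-subspace which consists of the
vectors of `T1` in `hat K {e}` (`T1` an `E`-subspace with `K1 ≤ T1 ≤ L`), `D ⊓ K1 = rs E K`.
`mem_of_rational` (a): `v ∈ T1`, `v ∈ span F K1` gives `v ∈ K1`: `v = ∑ α j • k j`, `k j ∈ K1`. `IsForm.mem_of_mem_span` with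
`A = K1 ⊔ rs E (hat K {e})`: `v = k + d`, `k ∈ K1`, `d ∈ hat K {e}`; `d = v - k ∈ T1`, so `d ∈ D`. `d ∈ span F K1`:
`d = ∑ α j • k' j ∈ hat K {e}`, so `k' j ∈ hat K {e}` (`IsForm.basis`), `k' j ∈ D ⊓ K1 = K`, so `d ∈ K ≤ K1`.
`coeff_mem` (c): `v j ∈ T1`, `∑ α j • v j ∈ span F K1` gives `v j ∈ K1 ⊔ D`: `∑ α j • v j = ∑ α j • k j`, so
`v j - k j ∈ hat K {e}` (`IsForm.basis`), and in `T1`, so in `D`.
-/

namespace Pool.Agent.SFT

open Finset Module

variable {E F V : Type} [Field E] [Field F] [Algebra E F] [AddCommGroup V] [Module F V]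
  [Module E V] [IsScalarTower E F V]
  [FiniteDimensional E F] {K : Submodule F V} {e : V} {L K1 T1 D : Submodule E V}

theorem mem_of_rational (hL : IsForm (hat K {e}) L) (hK1 : rs E K ≤ K1) (hKT : K1 ≤ T1)
    (hTL : T1 ≤ L) (hD : ∀ v, v ∈ D ↔ v ∈ T1 ∧ v ∈ hat K {e}) (hDK : D ⊓ K1 = rs E K) {v : V}
    (hv : v ∈ T1) (hs : v ∈ Submodule.span F (K1 : Set V)) : v ∈ K1 := by
  have hvL : v ∈ L := hTL hv
  have hA : K1 ⊔ rs E (hat K {e}) ≤ L :=
    sup_le (hKT.trans hTL) (fun x hx => hL.le x ((Submodule.restrictScalars_mem E _ x).1 hx))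
  have hvA : v ∈ K1 ⊔ rs E (hat K {e}) :=
    hL.mem_of_mem_span hA (fun x hx => Submodule.mem_sup_right
      ((Submodule.restrictScalars_mem E _ x).2 hx)) hvL
      (Submodule.span_mono (fun x hx => Submodule.mem_sup_left hx) hs)
  obtain ⟨k, hk, d, hd, hkd⟩ := Submodule.mem_sup.1 hvA
  have hd' : d ∈ hat K {e} := (Submodule.restrictScalars_mem E _ d).1 hd
  have hdv : d = v - k := by rw [← hkd]; abel
  have hds : d ∈ Submodule.span F (K1 : Set V) := by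
    rw [hdv]
    exact sub_mem hs (Submodule.subset_span hk)
  obtain ⟨a, ha, hda⟩ := (mem_span_iff (Module.finBasis E F) K1 d).1 hds
  have haK : ∀ j, a j ∈ hat K {e} :=
    hL.basis (Module.finBasis E F) a (fun j => hTL (hKT (ha j))) (by rw [← hda]; exact hd')
  have haK2 : ∀ j, a j ∈ K := by
    intro j
    have h1 : a j ∈ D ⊓ K1 := ⟨(hD _).2 ⟨hKT (ha j), haK j⟩, ha j⟩
    rw [hDK] at h1
    exact (Submodule.restrictScalars_mem E _ _).1 h1
  have hdK : d ∈ K := by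
    rw [hda]
    exact Submodule.sum_mem _ (fun j _ => K.smul_mem _ (haK2 j))
  rw [← hkd]
  exact add_mem hk (hK1 ((Submodule.restrictScalars_mem E _ _).2 hdK))

theorem coeff_mem (hL : IsForm (hat K {e}) L) (hK1 : rs E K ≤ K1) (hKT : K1 ≤ T1)
    (hTL : T1 ≤ L) (hD : ∀ v, v ∈ D ↔ v ∈ T1 ∧ v ∈ hat K {e}) {ι : Type} [Fintype ι]
    (α : Basis ι E F) (v : ι → V) (hv : ∀ j, v j ∈ T1)
    (hs : ∑ j, α j • v j ∈ Submodule.span F (K1 : Set V)) : ∀ j, v j ∈ K1 ⊔ D := by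
  obtain ⟨a, ha, hda⟩ := (mem_span_iff α K1 _).1 hs
  have h1 : ∑ j, α j • (v j - a j) ∈ hat K {e} := by
    have h2 : ∑ j, α j • (v j - a j) = 0 := by
      simp only [smul_sub, sum_sub_distrib]
      rw [hda, sub_self]
    rw [h2]
    exact zero_mem _
  have h2 : ∀ j, v j - a j ∈ hat K {e} :=
    hL.basis α (fun j => v j - a j) (fun j => sub_mem (hTL (hv j)) (hTL (hKT (ha j)))) h1
  intro j
  have h3 : v j - a j ∈ D := (hD _).2 ⟨sub_mem (hv j) (hKT (ha j)), h2 j⟩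
  have h4 : v j = a j + (v j - a j) := by abel
  rw [h4]
  exact add_mem (Submodule.mem_sup_left (ha j)) (Submodule.mem_sup_right h3)

end Pool.Agent.SFT
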