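import Pool.Agent.SFT.Cf1
import Pool.Agent.SFT.Nm

/-!
# SFT-LiA: the lift step, rescaling

`exists_lift`: `L` from `h`; `σ x := c x • x` for `x ∈ S.erase e` (choice), `σ x := x` otherwise.
`hat_image`: every `σ x` is a nonzero multiple of `x`. `injOn`: `σ x = σ y` gives `x = c • y`, `npar`. `lam_image`:
`S.image σ \ X.image σ = (S \ X).image σ` (`injOn`) and `hat_image`. `notMem`: `c • x ∈ hat K {e}` gives `x - c' • e ∈ K`, so
`x = e` (`npar`). `conf`: `Conf.of_par`. `hasN`: `HasN.of_par`.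
-/

namespace Pool.Agent.SFT

open Finset Module

variable {E F V : Type} [Field E] [Field F] [Algebra E F] [AddCommGroup V] [Module F V]
  [Module E V] [IsScalarTower E F V]
  [DecidableEq V] {K : Submodule F V} {S : Finset V} {e : V} {L : Submodule E V} {σ : V → V}

theorem exists_lift (he : e ∈ S) (nz : ∀ x ∈ S, x ∉ K)
    (npar : ∀ x ∈ S, ∀ y ∈ S, ∀ c : F, x - c • y ∈ K → x = y)
    (h : Conf E (hat K {e}) ((S.erase e : Finset V) : Set V)) :
    ∃ (L : Submodule E V) (σ : V → V), Lift E K S e L σ := by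
  classical
  obtain ⟨L, hL, hT⟩ := h
  have hT' : ∀ x, ∃ c : F, c ≠ 0 ∧ (x ∈ S.erase e → c • x ∈ L) ∧ (x ∉ S.erase e → c = 1) := by
    intro x
    by_cases hx : x ∈ S.erase e
    · obtain ⟨c, hc, hcx⟩ := hT x hx
      exact ⟨c, hc, fun _ => hcx, fun h => absurd hx h⟩
    · exact ⟨1, one_ne_zero, fun h => absurd h hx, fun _ => rfl⟩
  choose c hc0 hcL hc1 using hT'
  refine ⟨L, fun x => c x • x, he, nz, npar, hL, fun x => ⟨c x, hc0 x, rfl⟩, ?_, fun x hx => hcL x hx⟩
  show c e • e = e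
  rw [hc1 e (Finset.notMem_erase e S), one_smul]

theorem Lift.hat_image (h : Lift E K S e L σ) (X : Finset V) :
    hat K ((X.image σ : Finset V) : Set V) = hat K (X : Set V) := by
  apply le_antisymm
  · refine hat_le (le_hat K _) fun y hy => ?_
    obtain ⟨x, hx, rfl⟩ := Finset.mem_image.1 (Finset.mem_coe.1 hy)
    obtain ⟨c, _, hc⟩ := h.sc x
    rw [hc]
    exact (hat K (X : Set V)).smul_mem c (subset_hat K _ (Finset.mem_coe.2 hx))
  · refine hat_le (le_hat K _) fun x hx => ?_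
    obtain ⟨c, hc0, hc⟩ := h.sc x
    have h1 : x = c⁻¹ • σ x := by rw [hc, smul_smul, inv_mul_cancel₀ hc0, one_smul]
    have h2 : σ x ∈ hat K ((X.image σ : Finset V) : Set V) :=
      subset_hat K _ (Finset.mem_coe.2 (Finset.mem_image_of_mem σ (Finset.mem_coe.1 hx)))
    have h3 := (hat K ((X.image σ : Finset V) : Set V)).smul_mem c⁻¹ h2
    rw [← h1] at h3
    exact h3

theorem Lift.injOn (h : Lift E K S e L σ) : Set.InjOn σ (S : Set V) := by
  intro x hx y hy hxy
  obtain ⟨c, hc0, hc⟩ := h.sc x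
  obtain ⟨c', hc0', hc'⟩ := h.sc y
  refine h.npar x hx y hy (c⁻¹ * c') ?_
  have h1 : x = (c⁻¹ * c') • y := by
    rw [mul_smul, ← hc', ← hxy, hc, smul_smul, inv_mul_cancel₀ hc0, one_smul]
  rw [← h1, sub_self]
  exact K.zero_mem

theorem Lift.lam_image (h : Lift E K S e L σ) {X : Finset V} (hX : X ⊆ S) :
    lam K (S.image σ) (X.image σ) = lam K S X := by
  have h1 : (S.image σ) \ (X.image σ) = (S \ X).image σ := (Finset.image_sdiff_of_injOn h.injOn hX).symm
  unfold lam guts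
  rw [h1, h.hat_image, h.hat_image]

theorem Lift.image_S (h : Lift E K S e L σ) : S.image σ = insert e (S1 S e σ) := by
  unfold S1
  have h1 : S = insert e (S.erase e) := (Finset.insert_erase h.eS).symm
  have h2 : (insert e (S.erase e)).image σ = insert (σ e) ((S.erase e).image σ) := Finset.image_insert σ e _
  rw [← h1, h.σe] at h2
  exact h2

theorem Lift.mem_L (h : Lift E K S e L σ) : ∀ x ∈ S1 S e σ, x ∈ L := by
  intro x hx
  obtain ⟨y, hy, rfl⟩ := Finset.mem_image.1 hx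
  exact h.mem y hy

theorem Lift.notMem (h : Lift E K S e L σ) : ∀ x ∈ S1 S e σ, x ∉ hat K {e} := by
  intro x hx hxe
  obtain ⟨y, hy, rfl⟩ := Finset.mem_image.1 hx
  obtain ⟨c, hc0, hc⟩ := h.sc y
  obtain ⟨c', hc'⟩ := (mem_hat_singleton K e (σ y)).1 hxe
  obtain ⟨hye, hyS⟩ := Finset.mem_erase.1 hy
  refine hye (h.npar y hyS e h.eS (c⁻¹ * c') ?_)
  have h1 := K.smul_mem c⁻¹ hc'
  rw [hc, smul_sub, smul_smul, inv_mul_cancel₀ hc0, one_smul, smul_smul] at h1
  exact h1

theorem Lift.conf (h : Lift E K S e L σ)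
    (hc : Conf E K ((insert e (S1 S e σ) : Finset V) : Set V)) : Conf E K (S : Set V) := by
  refine hc.of_par fun x hx => Or.inr ?_
  obtain ⟨c, hc0, hcx⟩ := h.sc x
  refine ⟨σ x, ?_, c⁻¹, inv_ne_zero hc0, ?_⟩
  · rw [← h.image_S]
    exact Finset.mem_coe.2 (Finset.mem_image_of_mem σ (Finset.mem_coe.1 hx))
  · rw [hcx, smul_smul, inv_mul_cancel₀ hc0, one_smul, sub_self]
    exact K.zero_mem

theorem Lift.hasN (h : Lift E K S e L σ) {m : ℕ} (hN : HasN E m K (S1 S e σ)) :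
    HasN E m K S := by
  refine hN.of_par fun x hx => ?_
  obtain ⟨y, hy, rfl⟩ := Finset.mem_image.1 hx
  obtain ⟨c, hc0, hc⟩ := h.sc y
  refine ⟨y, Finset.mem_of_mem_erase hy, c, hc0, ?_⟩
  rw [hc, sub_self]
  exact K.zero_mem

end Pool.Agent.SFT
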