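import Pool.Agent.SFT.LiA
import Pool.Agent.SFT.Fm3

/-!
# SFT-LiD: the lift step, the space `D`
-/

namespace Pool.Agent.SFT

open Finset Module

variable {E F V : Type} [Field E] [Field F] [Algebra E F] [AddCommGroup V] [Module F V]
  [Module E V] [IsScalarTower E F V]
  [DecidableEq V] [FiniteDimensional E F] [FiniteDimensional F V] [FiniteDimensional E V]
  {K : Submodule F V} {S T : Finset V} {e : V} {L : Submodule E V} {σ : V → V}

theorem finrank_rs (K : Submodule F V) : finrank E (rs E K) = finrank E F * finrank F K := by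
  rw [Module.finrank_mul_finrank E F K]
  rfl

theorem le_liftD (K : Submodule F V) (T : Finset V) (e : V) : rs E K ≤ liftD E K T e := by
  exact le_inf (le_hat _ _) fun v hv => le_hat K {e} hv

theorem finrank_liftD_le (K : Submodule F V) (T : Finset V) (e : V) :
    finrank E (liftD E K T e) ≤ finrank E (rs E K) + finrank E F := by
  have h1 : finrank E (liftD E K T e) ≤ finrank E (rs E (hat K {e})) :=
    Submodule.finrank_mono inf_le_right
  have h2 := finrank_hat_le K {e}
  rw [coe_singleton, card_singleton] at h2
  rw [finrank_rs (E := E) (hat K {e})] at h1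
  rw [finrank_rs (E := E) K]
  calc finrank E (liftD E K T e) ≤ finrank E F * finrank F (hat K {e}) := h1
    _ ≤ finrank E F * (finrank F K + 1) := Nat.mul_le_mul_left _ h2
    _ = _ := by ring

theorem Lift.disjoint (h : Lift E K S e L σ) {Ds : Finset V}
    (hDs : ∀ x ∈ Ds, x ∈ liftD E K (S1 S e σ) e) : Disjoint (S1 S e σ) Ds := by
  rw [Finset.disjoint_left]
  intro x hx hx'
  exact h.notMem x hx (hDs x hx').2

end Pool.Agent.SFT
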