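import Pool.Agent.SFT.BasA

/-!
# SFT-Link: Tutte's linking theorem (general field)

`kap (K, X, W) Y := dim (hat K Y ⊓ (hat K (X \ Y) ⊔ W))`. Induction on `(X \ A).card`.
If `X = A` take `F = ∅` (`ht` for `Y = A`).
Let `x ∈ X \ A`. DELETION of `x` (replace `X` by `X.erase x`, same `K`, `W`): if the hypothesis
still holds, done by induction. CONTRACTION of `x` when `x ∉ hat K A` and `x ∉ W` (replace `K` by
`hat K {x}`, `X` by `X.erase x`, `W` by `W ⊔ hat K {x}`): if the hypothesis holds, induction gives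
`F'`; put `F = insert x F'`; the first two conclusions: `hat K A ⊓ hat K F ≤ hat K A ⊓ hat K {x} = K`
because `x ∉ hat K A` (elements of `hat K {x}` are in `K` or in `K + x`), same for `W`.
Now suppose that deletion fails: there is `A ⊆ Y1 ⊆ X.erase x` with
`dim (hat Y1 ⊓ (hat (X \ Y1 \ x) ⊔ W)) < dim K + t`. Use dimensions: with `d(Y) := dim (hat K Y)`,
`D(Y) := dim (hat K Y ⊔ W)` (`Y ⊆ X`) one has `kap Y = d(Y) + D(X \ Y) - D(X)` and in the deletion
`kap' Y = d(Y) + D(X \ Y \ x) - D(X \ x)`. Since `kap Y1 ≥ dim K + t` and `kap (Y1 ∪ x) ≥ dim K + t`,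
comparison gives `D(X \ Y1) > D(X \ Y1 \ x)` and `D(X) = D(X \ x)`, resp. `d(Y1 ∪ x) > d(Y1)`: so
`x ∉ hat (X \ Y1 \ x) ⊔ W`, in particular `x ∉ W`, and `x ∉ hat Y1`, in particular `x ∉ hat A`. If
contraction fails as well, for `Y2`: `d(Y2 ∪ x) + D(X \ Y2) - D(X) - 1 < dim K + t` (dimensions in the
contraction are those of the sets with `x` added; `dim (hat K {x}) = dim K + 1`). Submodularity of `d`:
`d(Y1) + d(Y2 ∪ x) ≥ d(Y1 ∩ Y2) + d(Y1 ∪ Y2 ∪ x)`, and of `D`:
`D(X \ Y1 \ x) + D(X \ Y2) ≥ D(X \ (Y1 ∪ Y2) \ x) + D(X \ (Y1 ∩ Y2))`, adding up (with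
`D(X \ x) ≥ D(X) - 1`, here `D(X \ x) = D(X)` or treat it directly) contradicts
`kap (Y1 ∩ Y2) ≥ dim K + t`, `kap (Y1 ∪ Y2 ∪ x) ≥ dim K + t`.
-/

namespace Pool.Agent.SFT

open Finset Module

variable {k V : Type} [Field k] [AddCommGroup V] [Module k V] [DecidableEq V] [FiniteDimensional k V]

/-- dimension of the span -/
private noncomputable def lkg (M : Submodule k V) (Y : Finset V) : ℕ :=
  finrank k (hat M (Y : Set V))

private theorem lkg_mono (M : Submodule k V) {Y Z : Finset V} (h : Y ⊆ Z) :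
    lkg M Y ≤ lkg M Z :=
  Submodule.finrank_mono (hat_mono le_rfl (Finset.coe_subset.2 h))

private theorem lkg_submod (M : Submodule k V) (Y Z : Finset V) :
    lkg M (Y ∩ Z) + lkg M (Y ∪ Z) ≤ lkg M Y + lkg M Z := by
  have h1 := finrank_sup_add_inf (hat M (Y : Set V)) (hat M (Z : Set V))
  rw [← hat_union, ← Finset.coe_union] at h1
  have h2 : lkg M (Y ∩ Z) ≤ finrank k ↥(hat M (Y : Set V) ⊓ hat M (Z : Set V)) := by
    apply Submodule.finrank_mono
    refine le_inf (hat_mono le_rfl ?_) (hat_mono le_rfl ?_)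
    · exact Finset.coe_subset.2 Finset.inter_subset_left
    · exact Finset.coe_subset.2 Finset.inter_subset_right
  unfold lkg at *
  omega

private theorem lkg_insert_le (M : Submodule k V) (x : V) (Y : Finset V) :
    lkg M (insert x Y) ≤ lkg M Y + 1 := by
  have h1 := finrank_hat_le (hat M (Y : Set V)) {x}
  rw [hat_hat] at h1
  have h2 : ((Y : Set V) ∪ (({x} : Finset V) : Set V)) = ((insert x Y : Finset V) : Set V) := by
    ext v
    simp
  rw [h2] at h1
  simpa [lkg] using h1

private theorem lkg_insert_of_mem (M : Submodule k V) {x : V} {Y : Finset V}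
    (h : x ∈ hat M (Y : Set V)) : lkg M (insert x Y) = lkg M Y := by
  have h2 : ((insert x Y : Finset V) : Set V) = (Y : Set V) ∪ {x} := by
    ext v
    simp
  rw [lkg, lkg, h2, hat_union_of_subset]
  rintro _ rfl
  exact h

private theorem lk_sup {K W : Submodule k V} (hKW : K ≤ W) (Z : Set V) :
    hat K Z ⊔ W = hat W Z := by
  apply le_antisymm
  · exact sup_le (hat_mono hKW subset_rfl) (le_hat _ _)
  · apply hat_le le_sup_right
    exact (subset_hat K Z).trans (SetLike.coe_subset_coe.2 le_sup_left)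

private theorem lk_kap {K W : Submodule k V} (hKW : K ≤ W) {X Y : Finset V} (h : Y ⊆ X) :
    lkg W X + finrank k ↥(hat K (Y : Set V) ⊓ (hat K ((X \ Y : Finset V) : Set V) ⊔ W)) =
      lkg K Y + lkg W (X \ Y) := by
  rw [lk_sup hKW]
  have h1 := finrank_sup_add_inf (hat K (Y : Set V)) (hat W ((X \ Y : Finset V) : Set V))
  have h2 : hat K (Y : Set V) ⊔ hat W ((X \ Y : Finset V) : Set V) = hat W (X : Set V) := by
    apply le_antisymm
    · exact sup_le (hat_mono hKW (Finset.coe_subset.2 h))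
        (hat_mono le_rfl (Finset.coe_subset.2 Finset.sdiff_subset))
    · apply hat_le ((le_hat _ _).trans le_sup_right)
      intro v hv
      by_cases hY : v ∈ Y
      · exact (le_sup_left : hat K (Y : Set V) ≤ _) (subset_hat K _ hY)
      · exact (le_sup_right : hat W ((X \ Y : Finset V) : Set V) ≤ _)
          (subset_hat W _ (Finset.mem_coe.2 (Finset.mem_sdiff.2 ⟨hv, hY⟩)))
  rw [h2] at h1
  exact h1

private theorem lk_inf {K A : Submodule k V} {x : V} (hKA : K ≤ A) (hx : x ∉ A)
    {B : Submodule k V} (hKB : K ≤ B) (h : A ⊓ B ≤ hat K {x}) : A ⊓ B = K := by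
  apply le_antisymm
  · rw [← inf_hat_singleton hKA hx]
    exact le_inf inf_le_left h
  · exact le_inf hKA hKB

private theorem lk_base (A : Finset V) (t : ℕ) (K W : Submodule k V) (hKW : K ≤ W)
    (ht : finrank k K + t + lkg W A ≤ lkg K A + lkg W (A \ A)) :
    ∃ F ⊆ A \ A, hat K (A : Set V) ⊓ hat K (F : Set V) = K ∧ W ⊓ hat K (F : Set V) = K ∧
      finrank k (hat K (F : Set V)) + t ≤
        finrank k ↥(hat K ((F ∪ A : Finset V) : Set V) ⊓ (hat K (F : Set V) ⊔ W)) := by
  refine ⟨∅, Finset.empty_subset _, ?_, ?_, ?_⟩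
  · rw [Finset.coe_empty, hat_empty]
    exact inf_eq_right.2 (le_hat _ _)
  · rw [Finset.coe_empty, hat_empty]
    exact inf_eq_right.2 hKW
  · have h2 := lk_kap hKW (X := A) (Y := A) subset_rfl
    rw [Finset.empty_union]
    rw [Finset.sdiff_self] at ht h2
    rw [Finset.coe_empty] at h2 ⊢
    rw [hat_empty] at h2 ⊢
    omega

private theorem lk_aux (A : Finset V) (t : ℕ) : ∀ (n : ℕ) (K W : Submodule k V) (X : Finset V),
    X.card = n → K ≤ W → A ⊆ X → (∀ Y, A ⊆ Y → Y ⊆ X →
      finrank k K + t + lkg W X ≤ lkg K Y + lkg W (X \ Y)) →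
    ∃ F ⊆ X \ A, hat K (A : Set V) ⊓ hat K (F : Set V) = K ∧ W ⊓ hat K (F : Set V) = K ∧
      finrank k (hat K (F : Set V)) + t ≤
        finrank k ↥(hat K ((F ∪ A : Finset V) : Set V) ⊓ (hat K (F : Set V) ⊔ W)) := by
  intro n
  induction n with
  | zero =>
    intro K W X hn hKW hA ht
    have hX : X = ∅ := Finset.card_eq_zero.1 hn
    subst hX
    have hA' : A = ∅ := Finset.subset_empty.1 hA
    subst hA'
    exact lk_base ∅ t K W hKW (ht ∅ subset_rfl subset_rfl)
  | succ n ih =>
    intro K W X hn hKW hA ht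
    by_cases hXA : X ⊆ A
    · have hXA' : X = A := Finset.Subset.antisymm hXA hA
      subst hXA'
      exact lk_base X t K W hKW (ht X subset_rfl subset_rfl)
    obtain ⟨x, hxX, hxA⟩ := Finset.not_subset.1 hXA
    have hAe : A ⊆ X.erase x := fun a ha => Finset.mem_erase.2 ⟨fun h => hxA (h ▸ ha), hA ha⟩
    have hcard : (X.erase x).card = n := by
      rw [Finset.card_erase_of_mem hxX, hn]
      rfl
    have hins : insert x (X.erase x) = X := Finset.insert_erase hxX
    by_cases hdel : ∀ Y, A ⊆ Y → Y ⊆ X.erase x →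
      finrank k K + t + lkg W (X.erase x) ≤ lkg K Y + lkg W (X.erase x \ Y)
    · obtain ⟨F, hF, h1, h2, h3⟩ := ih K W (X.erase x) hcard hKW hAe hdel
      exact ⟨F, hF.trans (Finset.sdiff_subset_sdiff (Finset.erase_subset _ _) subset_rfl),
        h1, h2, h3⟩
    push Not at hdel
    obtain ⟨Y1, hAY1, hY1, hlt1⟩ := hdel
    have hxY1 : x ∉ Y1 := fun h => (Finset.mem_erase.1 (hY1 h)).1 rfl
    have e1 : insert x (X.erase x \ Y1) = X \ Y1 := by
      ext v
      simp only [Finset.mem_insert, Finset.mem_sdiff, Finset.mem_erase]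
      constructor
      · rintro (rfl | ⟨⟨h1, h2⟩, h3⟩)
        · exact ⟨hxX, hxY1⟩
        · exact ⟨h2, h3⟩
      · rintro ⟨h1, h2⟩
        by_cases h : v = x
        · exact Or.inl h
        · exact Or.inr ⟨⟨h, h1⟩, h2⟩
    have e2 : X \ insert x Y1 = X.erase x \ Y1 := by
      ext v
      simp only [Finset.mem_insert, Finset.mem_sdiff, Finset.mem_erase]
      tauto
    have H1 := ht Y1 hAY1 (hY1.trans (Finset.erase_subset _ _))
    have H2 := ht (insert x Y1) (hAY1.trans (Finset.subset_insert _ _))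
      (Finset.insert_subset hxX (hY1.trans (Finset.erase_subset _ _)))
    rw [e2] at H2
    have m1 : lkg W (X.erase x) ≤ lkg W X := lkg_mono W (Finset.erase_subset _ _)
    have m2 := lkg_insert_le W x (X.erase x \ Y1)
    rw [e1] at m2
    have m3 := lkg_insert_le K x Y1
    have hxK : x ∉ hat K (Y1 : Set V) := by
      intro h
      have := lkg_insert_of_mem K h
      omega
    have hxW' : x ∉ hat W ((X.erase x \ Y1 : Finset V) : Set V) := by
      intro h
      have := lkg_insert_of_mem W h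
      rw [e1] at this
      omega
    have hxW : x ∉ W := fun h => hxW' (le_hat _ _ h)
    have hxA' : x ∉ hat K (A : Set V) := fun h =>
      hxK (hat_mono le_rfl (Finset.coe_subset.2 hAY1) h)
    have hxK0 : x ∉ K := fun h => hxW (hKW h)
    have hhat : ∀ (M : Submodule k V) (Z : Finset V),
        hat (hat M {x}) (Z : Set V) = hat M ((insert x Z : Finset V) : Set V) := by
      intro M Z
      rw [hat_hat]
      congr 1
      ext v
      simp
    have hlkg : ∀ (M : Submodule k V) (Z : Finset V), lkg (hat M {x}) Z = lkg M (insert x Z) := by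
      intro M Z
      rw [lkg, hhat, lkg]
    by_cases hcon : ∀ Y, A ⊆ Y → Y ⊆ X.erase x →
      finrank k (hat K {x}) + t + lkg (hat W {x}) (X.erase x) ≤
        lkg (hat K {x}) Y + lkg (hat W {x}) (X.erase x \ Y)
    · obtain ⟨F, hF, h1, h2, h3⟩ := ih (hat K {x}) (hat W {x}) (X.erase x) hcard
        (hat_mono hKW subset_rfl) hAe hcon
      rw [hhat, hhat] at h1
      rw [hhat] at h2
      rw [hhat, hhat] at h3
      refine ⟨insert x F, ?_, ?_, ?_, ?_⟩
      · apply Finset.insert_subset (Finset.mem_sdiff.2 ⟨hxX, hxA⟩)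
        exact hF.trans (Finset.sdiff_subset_sdiff (Finset.erase_subset _ _) subset_rfl)
      · apply lk_inf (le_hat _ _) hxA' (le_hat _ _)
        rw [← h1]
        exact inf_le_inf_right _ (hat_mono le_rfl
          (Finset.coe_subset.2 (Finset.subset_insert _ _)))
      · apply lk_inf hKW hxW (le_hat _ _)
        rw [← h2]
        exact inf_le_inf_right _ (le_hat _ _)
      · have e3 : insert x F ∪ A = insert x (F ∪ A) := Finset.insert_union _ _ _
        have e4 : hat K ((insert x F : Finset V) : Set V) ⊔ W =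
            hat K ((insert x F : Finset V) : Set V) ⊔ hat W {x} := by
          apply le_antisymm
          · exact sup_le_sup_left (le_hat _ _) _
          · apply sup_le le_sup_left
            apply hat_le le_sup_right
            rintro _ rfl
            exact (le_sup_left : hat K ((insert _ F : Finset V) : Set V) ≤ _)
              (subset_hat K _ (Finset.mem_coe.2 (Finset.mem_insert_self _ _)))
        rw [e3, e4]
        exact h3
    exfalso
    push Not at hcon
    obtain ⟨Y2, hAY2, hY2, hlt2⟩ := hcon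
    have hxY2 : x ∉ Y2 := fun h => (Finset.mem_erase.1 (hY2 h)).1 rfl
    have e5 : insert x (X.erase x \ Y2) = X \ Y2 := by
      ext v
      simp only [Finset.mem_insert, Finset.mem_sdiff, Finset.mem_erase]
      constructor
      · rintro (rfl | ⟨⟨h1, h2⟩, h3⟩)
        · exact ⟨hxX, hxY2⟩
        · exact ⟨h2, h3⟩
      · rintro ⟨h1, h2⟩
        by_cases h : v = x
        · exact Or.inl h
        · exact Or.inr ⟨⟨h, h1⟩, h2⟩
    rw [hlkg, hlkg, hlkg, e5, hins, finrank_hat_singleton K x hxK0] at hlt2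
    have s1 := lkg_submod K Y1 (insert x Y2)
    have s2 := lkg_submod W (X.erase x \ Y1) (X \ Y2)
    have e6 : Y1 ∩ insert x Y2 = Y1 ∩ Y2 := by
      ext v
      simp only [Finset.mem_inter, Finset.mem_insert]
      constructor
      · rintro ⟨h1, rfl | h2⟩
        · exact absurd h1 hxY1
        · exact ⟨h1, h2⟩
      · rintro ⟨h1, h2⟩
        exact ⟨h1, Or.inr h2⟩
    have e7 : (X.erase x \ Y1) ∩ (X \ Y2) = X \ (Y1 ∪ insert x Y2) := by
      ext v
      simp only [Finset.mem_inter, Finset.mem_insert, Finset.mem_sdiff, Finset.mem_erase,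
        Finset.mem_union]
      tauto
    have e8 : (X.erase x \ Y1) ∪ (X \ Y2) = X \ (Y1 ∩ Y2) := by
      ext v
      simp only [Finset.mem_inter, Finset.mem_sdiff, Finset.mem_erase, Finset.mem_union]
      constructor
      · rintro (⟨⟨h1, h2⟩, h3⟩ | ⟨h1, h2⟩)
        · exact ⟨h2, fun h => h3 h.1⟩
        · exact ⟨h1, fun h => h2 h.2⟩
      · rintro ⟨h1, h2⟩
        by_cases h : v ∈ Y2
        · left
          refine ⟨⟨?_, h1⟩, fun h' => h2 ⟨h', h⟩⟩
          rintro rfl
          exact hxY2 h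
        · exact Or.inr ⟨h1, h⟩
    rw [e6] at s1
    rw [e7, e8] at s2
    have H3 := ht (Y1 ∩ Y2) (Finset.subset_inter hAY1 hAY2)
      (Finset.inter_subset_left.trans (hY1.trans (Finset.erase_subset _ _)))
    have H4 := ht (Y1 ∪ insert x Y2) (hAY1.trans Finset.subset_union_left)
      (Finset.union_subset (hY1.trans (Finset.erase_subset _ _))
        (Finset.insert_subset hxX (hY2.trans (Finset.erase_subset _ _))))
    omega

/-- Tutte's linking theorem -/
theorem linking (K W : Submodule k V) (hKW : K ≤ W) (X A : Finset V) (hA : A ⊆ X) (t : ℕ)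
    (ht : ∀ Y, A ⊆ Y → Y ⊆ X → finrank k K + t ≤
      finrank k ↥(hat K (Y : Set V) ⊓ (hat K ((X \ Y : Finset V) : Set V) ⊔ W))) :
    ∃ F ⊆ X \ A, hat K (A : Set V) ⊓ hat K (F : Set V) = K ∧ W ⊓ hat K (F : Set V) = K ∧
      finrank k (hat K (F : Set V)) + t ≤
        finrank k ↥(hat K ((F ∪ A : Finset V) : Set V) ⊓ (hat K (F : Set V) ⊔ W)) := by
  refine lk_aux A t X.card K W X rfl hKW hA fun Y h1 h2 => ?_
  have h3 := lk_kap hKW h2
  have h4 := ht Y h1 h2
  omega

end Pool.Agent.SFT
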