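import Pool.Agent.SFT.CoC
import Pool.Agent.SFT.BcM
import Pool.Agent.SFT.Nm
import Pool.Agent.SFT.Link

/-!
# SFT-Lv1b: level one, contraction of an element outside the span of the clique (3.3)

Adapt `Pool.Agent.HC.Lv1b` (numbers: 2 instead of 4, 1 instead of 2, `t = 2`). `ih` for `(hat K {e}, S.erase e)`: clique: `IsBC.mono`
with `hat K {e}` (`inf_hat_singleton`, `e ∉ hat K B`); `HasN.mono` with `{e}`. Let `X ⊆ S.erase e \ B`, `lam' X ≤ 1`. `X.card ≤ 1`:
`cl_of_card_le_one`. Otherwise `A := insert e X`: `Tight.contract_pre`; `linking K (hat K B) (S \ B) A 2`; `(L, A ∪ B)` with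
`L = hat K A'` has fewer elements (otherwise `S \ A = B` and `e ∈ hat K B`); `Hyp1`: for `Y ⊆ A`, `lam L (A ∪ B) Y = lam K S Y`
(`rooted_lam`), so `lam ≤ 1` gives `Y.card ≤ 1` (`ht.c2`), `cl_of_card_le_one`. `ih`, then `cl_contract`.
-/

namespace Pool.Agent.SFT

open Finset Module

variable {E F V : Type} [Field E] [Field F] [Algebra E F] [AddCommGroup V] [Module F V]
  [Module E V] [IsScalarTower E F V]
  [DecidableEq V] [FiniteDimensional E F] [FiniteDimensional F V] {K : Submodule F V}
  {S B : Finset V} {m n n' : ℕ} {g : Fin n ⊕ Fin n' → V}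

private theorem c1_sup {K : Submodule F V} {S B Y : Finset V} (hB : B ⊆ S) (hY : Y ⊆ S \ B) :
    hat K (((S \ B) \ Y : Finset V) : Set V) ⊔ hat K (B : Set V) =
      hat K ((S \ Y : Finset V) : Set V) := by
  rw [← hat_union, ← Finset.coe_union]
  congr 2
  ext x
  simp only [Finset.mem_union, Finset.mem_sdiff]
  constructor
  · rintro (⟨⟨h1, h2⟩, h3⟩ | h)
    · exact ⟨h1, h3⟩
    · exact ⟨hB h, fun h' => (Finset.mem_sdiff.1 (hY h')).2 h⟩
  · rintro ⟨h1, h2⟩
    by_cases h : x ∈ B
    · exact Or.inr h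
    · exact Or.inl ⟨⟨h1, h⟩, h2⟩

theorem Hyp1.contract (h0 : 0 < n) (h0' : 0 < n') (h : Hyp1 E m K S B g)
    (ih : ∀ (L : Submodule F V) (S' B' : Finset V) (g' : Fin n ⊕ Fin n' → V),
      S'.card < S.card → Hyp1 E m L S' B' g' → Conf E L (S' : Set V))
    (ht : Tight K S (fun X => X ⊆ S \ B)) {e : V} (he : e ∈ S) (heB : e ∉ hat K (B : Set V)) :
    Conf E (hat K {e}) ((S.erase e : Finset V) : Set V) := by
  have heK : e ∉ K := ht.nz e he
  have heB' : e ∉ B := fun h' => heB (subset_hat K (B : Set V) h')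
  have hBe : hat K (B : Set V) ⊓ hat K {e} = K := inf_hat_singleton (le_hat _ _) heB
  refine ih (hat K {e}) (S.erase e) B g (Finset.card_erase_lt_of_mem he) ⟨?_, ?_, ?_, ?_⟩
  · exact h.bc.mono h0 h0' (le_hat K _) hBe
  · intro b hb
    exact Finset.mem_erase.2 ⟨fun h' => heB' (h' ▸ hb), h.BS hb⟩
  · intro hO
    apply h.no
    have hO' : HasN E m (hat K (({e} : Finset V) : Set V)) (S.erase e) := by
      rw [Finset.coe_singleton]; exact hO
    exact hO'.mono (Finset.singleton_subset_iff.2 he) (Finset.erase_subset e S)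
  · intro X hX hl
    by_cases hc3 : X.card ≤ 1
    · exact cl_of_card_le_one _ _ _ hc3
    have hc : 2 ≤ X.card := by omega
    have heX : e ∉ X := fun h' => (Finset.mem_erase.1 (Finset.mem_sdiff.1 (hX h')).1).1 rfl
    have hXS : X ⊆ S \ B := fun x hx =>
      Finset.mem_sdiff.2 ⟨(Finset.mem_erase.1 (Finset.mem_sdiff.1 (hX hx)).1).2,
        (Finset.mem_sdiff.1 (hX hx)).2⟩
    have hA : insert e X ⊆ S \ B :=
      Finset.insert_subset (Finset.mem_sdiff.2 ⟨he, heB'⟩) hXS
    obtain ⟨h1, h2, h3, -, -⟩ := ht.contract_pre he hA heX hc hl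
    have h3Y : ∀ Y, insert e X ⊆ Y → Y ⊆ S \ B → 2 ≤ lam K S Y := by
      intro Y hAY hY
      refine ht.c2 Y hY ?_
      have h4 : X.card ≤ Y.card :=
        Finset.card_le_card ((Finset.subset_insert e X).trans hAY)
      omega
    obtain ⟨A, hF, hFA, hFB, hFd⟩ := linking K (hat K (B : Set V)) (le_hat K _) (S \ B)
      (insert e X) hA 2 (by
        intro Y hAY hY
        rw [c1_sup h.BS hY]
        have h4 := lam_add K S Y
        have h5 := h3Y Y hAY hY
        unfold guts at h4
        omega)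
    have hBA : B ⊆ S \ insert e X := fun b hb => Finset.mem_sdiff.2 ⟨h.BS hb,
      fun h' => (Finset.mem_sdiff.1 (hA h')).2 hb⟩
    have hAS : insert e X ⊆ S := hA.trans Finset.sdiff_subset
    have hFS : A ⊆ S := hF.trans (Finset.sdiff_subset.trans Finset.sdiff_subset)
    have hLZ : hat K (A : Set V) ≤ hat K ((S \ insert e X : Finset V) : Set V) := by
      apply hat_mono le_rfl
      intro x hx
      have hx' : x ∈ A := hx
      have := Finset.mem_sdiff.1 (hF hx')
      exact Finset.mem_coe.2 (Finset.mem_sdiff.2 ⟨hFS hx', this.2⟩)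
    have hcl : IsBC (hat K (A : Set V)) g B := h.bc.mono h0 h0' (le_hat K _) hFB
    have hdim : finrank F (hat K (A : Set V)) + 2 ≤
        finrank F ↥(hat (hat K (A : Set V)) ((insert e X : Finset V) : Set V) ⊓
          hat (hat K (A : Set V)) (B : Set V)) := by
      rw [hat_hat, hat_hat, hat_union K (A : Set V) (B : Set V), ← Finset.coe_union]
      exact hFd
    have hAB : insert e X ∪ B ⊆ S := Finset.union_subset hAS h.BS
    refine cl_contract ht he hA heX hc hl hBA (le_hat K _) hLZ hFA hdim ?_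
    refine ih (hat K (A : Set V)) (insert e X ∪ B) B g ?_
      ⟨hcl, Finset.subset_union_right, ?_, ?_⟩
    · apply Finset.card_lt_card
      refine ⟨hAB, fun hS => ?_⟩
      apply heB
      refine hat_mono (le_refl K) ?_ h2
      intro x hx
      have hx' := Finset.mem_sdiff.1 (Finset.mem_coe.1 hx)
      rcases Finset.mem_union.1 (hS hx'.1) with h5 | h5
      · exact absurd h5 hx'.2
      · exact h5
    · intro hO
      exact h.no (hO.mono hFS hAB)
    · intro Y hY hlY
      have hYA : Y ⊆ insert e X := by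
        intro y hy
        have h5 := Finset.mem_sdiff.1 (hY hy)
        rcases Finset.mem_union.1 h5.1 with h6 | h6
        · exact h6
        · exact absurd h6 h5.2
      have h6 : lam (hat K (A : Set V)) (insert e X ∪ B) Y = lam K S Y :=
        rooted_lam hAS hBA (le_hat K _) hLZ hFA (by rw [h3]; exact hdim) hYA
      have h7 : Y.card ≤ 1 := by
        by_contra hcon
        have := ht.c2 Y (hYA.trans hA) (by omega)
        omega
      exact cl_of_card_le_one _ _ _ h7

end Pool.Agent.SFT
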