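import Pool.Agent.SFT.Li1
import Pool.Agent.SFT.Li3
import Pool.Agent.SFT.Li4
import Pool.Agent.SFT.BcE
import Pool.Agent.SFT.Link

/-!
# SFT-Lv1c: level one, uncontraction (2.5)

By contradiction. `exists_lift`: `L`, `σ`; `T := S1 S e σ`. `conf_insert_of_small` and `Lift.conf`: so
`finrank (rs E K) + 2 ≤ finrank (liftD E K T e)`. `exists_basis_mod` (over `E`): `Ds` with `hat (rs E K) Ds = liftD`, `Ds ⊆ liftD`;
`Lift.disjoint`. `e ∉ B`, `B ⊆ S.erase e`, `B1 := B.image σ ⊆ T`. `IsBC.lift` with `K' = hat K {e}` (`inf_hat_singleton`): `g'`,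
`IsBC (rs E K) g' B1`. `linking (rs E K) (hat (rs E K) B1) ((T ∪ Ds) \ B1) Ds 2`: for `Ds ⊆ Y ⊆ (T ∪ Ds) \ B1`:
`hat (((T ∪ Ds) \ B1) \ Y) ⊔ hat B1 = hat ((T ∪ Ds) \ Y)`, so the space is `guts (rs E K) (T ∪ Ds) Y`; `Lift.two_le` (the set
`insert e {x | σ x ∈ Y}` is disjoint from `B`: `b ∈ B` with `σ b ∈ Y` is impossible, `e ∉ B`). Result: `J ⊆ T` (it is disjoint from
`Ds` and `B1`), `hat Ds ⊓ hat J = rs E K`, `hat B1 ⊓ hat J = rs E K`, dimension. `IsBC (hat (rs E K) J) g' B1` by `IsBC.mono`.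
`lift_finish`, `Lift.hasN`, against `h.no`. (`(J ∪ Ds)`: `hat (J ∪ Ds) = hat J ⊔ liftD`, `hat J ⊔ hat B1 = hat (hat J) B1`.)
-/

namespace Pool.Agent.SFT

open Finset Module

variable {E F V : Type} [Field E] [Field F] [Algebra E F] [AddCommGroup V] [Module F V]
  [Module E V] [IsScalarTower E F V]
  [DecidableEq V] [FiniteDimensional E F] [FiniteDimensional F V] [FiniteDimensional E V]
  {K : Submodule F V} {S B : Finset V} {m n0 n n' : ℕ} {g : Fin n ⊕ Fin n' → V}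

private theorem c1_sup {k W : Type} [Field k] [AddCommGroup W] [Module k W] [DecidableEq W]
    {K : Submodule k W} {S B Y : Finset W} (hB : B ⊆ S) (hY : Y ⊆ S \ B) :
    hat K (((S \ B) \ Y : Finset W) : Set W) ⊔ hat K (B : Set W) =
      hat K ((S \ Y : Finset W) : Set W) := by
  rw [← hat_union, ← Finset.coe_union]
  congr 2
  ext x
  simp only [Finset.mem_union, Finset.mem_sdiff]
  constructor
  · rintro (⟨⟨h1, h2⟩, h3⟩ | h)
    · exact ⟨h1, h3⟩
    · exact ⟨hB h, fun h' => (Finset.mem_sdiff.1 (hY h')).2 h⟩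
  · rintro ⟨h1, h2⟩
    by_cases h : x ∈ B
    · exact Or.inr h
    · exact Or.inl ⟨⟨h1, h⟩, h2⟩

theorem Hyp1.uncontract (hz : ZN E F m n0) (hn : n0 ≤ n) (hn' : n0 ≤ n') (h2 : 2 ≤ n)
    (h2' : 2 ≤ n') (h : Hyp1 E m K S B g) (ht : Tight K S (fun X => X ⊆ S \ B)) {e : V}
    (he : e ∈ S) (heB : e ∉ hat K (B : Set V))
    (hc : Conf E (hat K {e}) ((S.erase e : Finset V) : Set V)) : Conf E K (S : Set V) := by
  by_contra hcon
  obtain ⟨L, σ, hLi⟩ := exists_lift he ht.nz ht.npar hc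
  have heK : e ∉ K := ht.nz e he
  have heB' : e ∉ B := fun h' => heB (subset_hat K (B : Set V) h')
  have hBS : B ⊆ S.erase e := fun b hb =>
    Finset.mem_erase.2 ⟨fun h' => heB' (h' ▸ hb), h.BS hb⟩
  have hB1 : B.image σ ⊆ S1 S e σ := Finset.image_subset_image hBS
  have hD2 : finrank E (rs E K) + 2 ≤ finrank E (liftD E K (S1 S e σ) e) := by
    by_contra hlt
    apply hcon
    exact hLi.conf (conf_insert_of_small hLi.form hLi.mem_L heK (by omega))
  obtain ⟨Ds, hDs1, hDs2, -, -⟩ := exists_basis_mod (le_liftD (E := E) K (S1 S e σ) e)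
  have hdis : Disjoint (S1 S e σ) Ds := hLi.disjoint hDs1
  obtain ⟨g', hbc⟩ := h.bc.lift h2 h2' hLi.form (le_hat K _)
    (inf_hat_singleton (le_hat K _) heB) (fun x _ => hLi.sc x)
    (fun x hx => hLi.mem x (hBS hx))
  obtain ⟨J, hJ, hJ1, hJ2, hJd⟩ := linking (rs E K)
    (hat (rs E K) ((B.image σ : Finset V) : Set V)) (le_hat _ _)
    ((S1 S e σ ∪ Ds) \ B.image σ) Ds (by
      intro x hx
      refine Finset.mem_sdiff.2 ⟨Finset.mem_union_right _ hx, fun h' => ?_⟩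
      exact Finset.disjoint_left.1 hdis (hB1 h') hx) 2 (by
      intro Y hDY hY
      rw [c1_sup (hB1.trans Finset.subset_union_left) hY]
      have h4 := lam_add (rs E K) (S1 S e σ ∪ Ds) Y
      have h5 : 2 ≤ lam (rs E K) (S1 S e σ ∪ Ds) Y := by
        refine hLi.two_le ht hDs2 hdis hD2 hDY (hY.trans Finset.sdiff_subset) ?_
        intro x hx
        rcases Finset.mem_insert.1 hx with rfl | hx
        · exact Finset.mem_sdiff.2 ⟨he, heB'⟩
        · obtain ⟨h6, h7⟩ := Finset.mem_filter.1 hx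
          refine Finset.mem_sdiff.2 ⟨Finset.mem_of_mem_erase h6, fun h8 => ?_⟩
          exact (Finset.mem_sdiff.1 (hY h7)).2 (Finset.mem_image_of_mem σ h8)
      unfold guts at h4
      omega)
  have hJT : J ⊆ S1 S e σ := by
    intro x hx
    obtain ⟨h6, h7⟩ := Finset.mem_sdiff.1 (hJ hx)
    rcases Finset.mem_union.1 (Finset.mem_sdiff.1 h6).1 with h8 | h8
    · exact h8
    · exact absurd h8 h7
  have hn0 : 0 < n := by omega
  have hn0' : 0 < n' := by omega
  have hbc' := hbc.mono hn0 hn0' (le_hat (rs E K) (J : Set V)) hJ2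
  rw [hDs2] at hJ1
  have hdim : finrank E (hat (rs E K) (J : Set V)) + 2 ≤
      finrank E ↥((hat (rs E K) (J : Set V) ⊔ liftD E K (S1 S e σ) e) ⊓
        hat (hat (rs E K) (J : Set V)) ((B.image σ : Finset V) : Set V)) := by
    rw [Finset.coe_union, hat_union, hDs2] at hJd
    rw [hat_hat, hat_union (rs E K) (J : Set V)]
    exact hJd
  exact h.no (hLi.hasN (lift_finish hz hn hn' hn0 hn0' hLi.form hLi.mem_L hJT hB1 hbc' hJ1 hdim))

end Pool.Agent.SFT
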