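import Pool.Agent.SFT.BcF
import Pool.Agent.SFT.Nm

/-!
# SFT-Z1: a configuration spanned by a bipartite clique (Corollary Z1)

By contradiction: suppose that some `x ∈ S` has no nonzero multiple in `bcForm E K g` (otherwise this form shows
`Conf E K S`). `IsBC.mem_hat`: `x - ∑ u, ξ u • g u ∈ K`, `∑ ξ = 0`. `U := span F {ξ}`: `U ≠ ⊥` (`ξ = 0` gives `x ∈ K ≤ bcForm`), sum zero,
`finrank F U = 1 ≤ finrank E F` (`finrank_span_singleton`, `Module.finrank_pos`); no nonzero rational vector: if
`c • ξ` is rational, `c ≠ 0`, then `c • x ∈ bcForm` (`mem_bcForm`). `hz` gives `HasN E m U (bip F n n')`. `HasN.map` with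
`Θ := Fintype.linearCombination F g`, `D := {x | ∑ x = 0}`, the subspace `hat K {x}` and `S`: `hker`: `Θ y ∈ hat K {x}` gives
`Θ (y - c • ξ) ∈ K`, so `y = c • ξ` (`ind`). `hS`: an element `Pi.single (inl i) 1 - Pi.single (inr l) 1` of `bip` is mapped to
`g (inl i) - g (inr l)`, parallel to the clique element (`IsBC.mem`). Finally `HasN.mono` with `A = {x}`.
-/

namespace Pool.Agent.SFT

open Finset Module

variable {E F V : Type} [Field E] [Field F] [Algebra E F] [AddCommGroup V] [Module F V]
  [Module E V] [IsScalarTower E F V]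
  [FiniteDimensional E F] {K : Submodule F V} {S B : Finset V} {n n' : ℕ}
  {g : Fin n ⊕ Fin n' → V}

theorem conf_of_bc {m n0 : ℕ} (hz : ZN E F m n0) (hn : n0 ≤ n) (hn' : n0 ≤ n') (h0 : 0 < n)
    (h0' : 0 < n') (h : IsBC K g B) (hBS : B ⊆ S) (no : ¬ HasN E m K S)
    (hS : ∀ x ∈ S, x ∈ hat K (B : Set V)) : Conf E K (S : Set V) := by
  classical
  by_contra hc
  have hx : ∃ x ∈ S, ∀ c : F, c ≠ 0 → c • x ∉ bcForm E K g := by
    by_contra h1
    push Not at h1
    exact hc ⟨bcForm E K g, h.isForm, fun x hx => h1 x hx⟩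
  obtain ⟨x, hxS, hx⟩ := hx
  obtain ⟨ξ, hξ0, hξ⟩ := (h.mem_hat h0 h0' x).1 (hS x hxS)
  have hmul : ∀ c : F, c ≠ 0 → ¬ ∀ v, ∃ a : E, algebraMap E F a = c * ξ v := by
    intro c hc0 hr
    choose r hr using hr
    refine hx c hc0 ((mem_bcForm _).2 ⟨r, ?_, ?_⟩)
    · apply (algebraMap E F).injective
      rw [map_sum, map_zero, Finset.sum_congr rfl fun v _ => hr v, ← Finset.mul_sum, hξ0, mul_zero]
    · have h1 : c • x - ∑ u, algebraMap E F (r u) • g u = c • (x - ∑ u, ξ u • g u) := by
        rw [smul_sub, Finset.smul_sum]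
        congr 1
        exact Finset.sum_congr rfl fun u _ => by rw [hr u, mul_smul]
      rw [h1]
      exact K.smul_mem c hξ
  have hξne : ξ ≠ 0 := by
    intro h1
    refine hmul 1 one_ne_zero fun v => ⟨0, ?_⟩
    rw [h1, map_zero, Pi.zero_apply, mul_zero]
  set U : Submodule F (Fin n ⊕ Fin n' → F) := Submodule.span F {ξ} with hU
  have hUmem : ∀ y, y ∈ U ↔ ∃ c : F, c • ξ = y := fun y => Submodule.mem_span_singleton
  have hUD : ∀ y ∈ U, ∑ v, y v = 0 := by
    intro y hy
    obtain ⟨c, rfl⟩ := (hUmem y).1 hy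
    simp only [Pi.smul_apply, smul_eq_mul]
    rw [← Finset.mul_sum, hξ0, mul_zero]
  have hN : HasN E m U (bip F n n') := by
    refine hz n n' hn hn' U hUD ?_ ?_ ?_
    · rw [hU, Ne, Submodule.span_singleton_eq_bot]
      exact hξne
    · rw [hU, finrank_span_singleton hξne]
      exact Module.finrank_pos
    · intro y hy hr
      obtain ⟨c, rfl⟩ := (hUmem y).1 hy
      by_cases hc0 : c = 0
      · rw [hc0, zero_smul]
      · exact absurd hr (hmul c hc0)
  let D : Submodule F (Fin n ⊕ Fin n' → F) :=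
    { carrier := {y | ∑ v, y v = 0}
      add_mem' := by
        intro a b ha hb
        change ∑ v, (a v + b v) = 0
        rw [Finset.sum_add_distrib]
        have ha' : ∑ v, a v = 0 := ha
        have hb' : ∑ v, b v = 0 := hb
        rw [ha', hb', add_zero]
      zero_mem' := by
        change ∑ v, (0 : Fin n ⊕ Fin n' → F) v = 0
        simp
      smul_mem' := by
        intro c a ha
        change ∑ v, (c * a v) = 0
        have ha' : ∑ v, a v = 0 := ha
        rw [← Finset.mul_sum, ha', mul_zero] }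
  have hDmem : ∀ y, y ∈ D ↔ ∑ v, y v = 0 := fun y => Iff.rfl
  have hKK : K ≤ hat K ({x} : Set V) := le_hat K _
  have hxK : x ∈ hat K ({x} : Set V) := subset_hat K _ (Set.mem_singleton x)
  have hΘ : ∀ y : Fin n ⊕ Fin n' → F, Fintype.linearCombination F g y = ∑ v, y v • g v := fun y =>
    Fintype.linearCombination_apply _ _ _
  have hN' : HasN E m (hat K ({x} : Set V)) S := by
    refine HasN.map (Fintype.linearCombination F g) (D := D) ?_ (fun y hy => hUD y hy) ?_ ?_ ?_ hN
    · intro y hy
      unfold bip at hy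
      obtain ⟨p, -, rfl⟩ := Finset.mem_image.1 hy
      rw [hDmem]
      simp only [Pi.sub_apply, Finset.sum_sub_distrib]
      simp
    · intro y hy hyK
      obtain ⟨c, hc1⟩ := (mem_hat_singleton K x _).1 hyK
      rw [hΘ] at hc1
      have h2 : ∑ v, (y v - c * ξ v) • g v ∈ K := by
        have h3 : ∑ v, (y v - c * ξ v) • g v = (∑ v, y v • g v - c • x) + c • (x - ∑ u, ξ u • g u) := by
          simp only [sub_smul, mul_smul, Finset.sum_sub_distrib, smul_sub, Finset.smul_sum]
          abel
        rw [h3]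
        exact K.add_mem hc1 (K.smul_mem c hξ)
      have h4 := h.ind (fun v => y v - c * ξ v) (by
        rw [Finset.sum_sub_distrib, ← Finset.mul_sum, hξ0, (hDmem y).1 hy, mul_zero, sub_zero]) h2
      refine (hUmem y).2 ⟨c, ?_⟩
      funext v
      have h5 := congrFun h4 v
      rw [Pi.zero_apply] at h5
      rw [Pi.smul_apply, smul_eq_mul]
      exact (sub_eq_zero.1 h5).symm
    · intro y hy
      obtain ⟨c, rfl⟩ := (hUmem y).1 hy
      rw [hΘ]
      have h3 : ∑ v, (c • ξ) v • g v = c • x - c • (x - ∑ u, ξ u • g u) := by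
        simp only [Pi.smul_apply, smul_eq_mul, mul_smul, smul_sub, Finset.smul_sum]
        abel
      rw [h3]
      exact Submodule.sub_mem _ (Submodule.smul_mem _ _ hxK) (Submodule.smul_mem _ _ (hKK hξ))
    · intro y hy
      unfold bip at hy
      obtain ⟨p, -, rfl⟩ := Finset.mem_image.1 hy
      obtain ⟨b, hb, c, hc0, hbc⟩ := h.mem p.1 p.2
      refine ⟨b, hBS hb, c⁻¹, inv_ne_zero hc0, hKK ?_⟩
      have h3 : Fintype.linearCombination F g
          (Pi.single (Sum.inl p.1) 1 - Pi.single (Sum.inr p.2) 1 : Fin n ⊕ Fin n' → F) =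
          g (Sum.inl p.1) - g (Sum.inr p.2) := by
        rw [map_sub, Fintype.linearCombination_apply_single, Fintype.linearCombination_apply_single,
          one_smul, one_smul]
      rw [h3]
      have h4 : g (Sum.inl p.1) - g (Sum.inr p.2) - c⁻¹ • b =
          -(c⁻¹ • (b - c • (g (Sum.inl p.1) - g (Sum.inr p.2)))) := by
        rw [smul_sub, smul_smul, inv_mul_cancel₀ hc0, one_smul]
        abel
      rw [h4]
      exact K.neg_mem (K.smul_mem _ hbc)
  refine no (HasN.mono (A := {x}) (Finset.singleton_subset_iff.2 hxS) (Finset.Subset.refl S) ?_)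
  rw [Finset.coe_singleton]
  exact hN'

end Pool.Agent.SFT
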