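import Pool.Agent.SFT.Lv1a
import Pool.Agent.SFT.Lv1b
import Pool.Agent.SFT.Lv1c
import Pool.Agent.SFT.Ca
import Pool.Agent.SFT.Par
import Pool.Agent.SFT.Z1

/-!
# SFT-Lv1: the level one theorem, assembly (Theorem 1)

Adapt `Pool.Agent.HC.Lv1`. Strong induction on `S.card`. Elements of `B` are not in `K` (`IsBC.ne_mem`), two parallel elements of
`S` are not both in `B` (`uniq`): delete one outside `B` (`cl_erase_par`, `conf_of_erase_par`). Then `Hyp1.minCex`,
`MinCex.tight`; if `S` is spanned by `B`: `conf_of_bc`; otherwise `Hyp1.contract`, `Hyp1.uncontract`.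
-/

namespace Pool.Agent.SFT

open Finset Module

variable {E F V : Type} [Field E] [Field F] [Algebra E F] [AddCommGroup V] [Module F V]
  [Module E V] [IsScalarTower E F V]
  [DecidableEq V] [FiniteDimensional E F] [FiniteDimensional F V] [FiniteDimensional E V]

omit [FiniteDimensional E V] [FiniteDimensional E F] in
private theorem lv1_del {m n n' : ℕ} {K : Submodule F V} {S B : Finset V}
    {g : Fin n ⊕ Fin n' → V}
    (h : Hyp1 E m K S B g) {x : V} (hx : x ∈ S) (hxB : x ∉ B)
    (hp : x ∈ K ∨ ∃ y ∈ S, y ≠ x ∧ ∃ c : F, c ≠ 0 ∧ x - c • y ∈ K) :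
    Hyp1 E m K (S.erase x) B g := by
  refine ⟨h.bc, fun b hb => mem_erase.2 ⟨fun h1 => hxB (h1 ▸ hb), h.BS hb⟩, ?_, ?_⟩
  · intro hO
    apply h.no
    have hO' : HasN E m (hat K ((∅ : Finset V) : Set V)) (S.erase x) := by
      rw [coe_empty, hat_empty]
      exact hO
    exact hO'.mono (empty_subset S) (erase_subset x S)
  · intro Y hY hl
    have hY' : Y ⊆ S.erase x := hY.trans sdiff_subset
    obtain ⟨Y', h1, h2, h3, h4⟩ := cl_erase_par (E := E) hx hp hY'
    refine h4 (h.gl Y' ?_ (by rw [h3]; exact hl))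
    intro z hz
    rcases mem_insert.1 (h2 hz) with h5 | h5
    · rw [h5]
      exact mem_sdiff.2 ⟨hx, hxB⟩
    · have h6 := mem_sdiff.1 (hY h5)
      exact mem_sdiff.2 ⟨mem_of_mem_erase h6.1, h6.2⟩

theorem level_one {m n0 n n' : ℕ} (hz : ZN E F m n0) (hn : n0 ≤ n) (hn' : n0 ≤ n')
    (h2 : 2 ≤ n) (h2' : 2 ≤ n') {K : Submodule F V} {S B : Finset V}
    {g : Fin n ⊕ Fin n' → V} (h : Hyp1 E m K S B g) : Conf E K (S : Set V) := by
  induction hc : S.card using Nat.strong_induction_on generalizing K S B g with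
  | _ c ih =>
    by_contra ng
    have ih' : ∀ (L : Submodule F V) (S' B' : Finset V) (g' : Fin n ⊕ Fin n' → V),
        S'.card < S.card → Hyp1 E m L S' B' g' → Conf E L (S' : Set V) := by
      intro L S' B' g' hlt h'
      exact ih S'.card (by omega) h' rfl
    have key : ∀ x ∈ S, x ∉ B →
        ¬ (x ∈ K ∨ ∃ y ∈ S, y ≠ x ∧ ∃ c : F, c ≠ 0 ∧ x - c • y ∈ K) := by
      intro x hx hxB hp
      exact ng (conf_of_erase_par hx hp
        (ih' K (S.erase x) B g (card_erase_lt_of_mem hx) (lv1_del h hx hxB hp)))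
    have nz : ∀ x ∈ S, x ∉ K := by
      intro x hx hxK
      by_cases hxB : x ∈ B
      · exact h.bc.ne_mem hxB hxK
      · exact key x hx hxB (Or.inl hxK)
    have npar : ∀ x ∈ S, ∀ y ∈ S, ∀ c : F, x - c • y ∈ K → x = y := by
      intro x hx y hy c hxy
      by_contra hne
      have hc0 : c ≠ 0 := by
        rintro rfl
        rw [zero_smul, sub_zero] at hxy
        exact nz x hx hxy
      by_cases hxB : x ∈ B
      · by_cases hyB : y ∈ B
        · exact hne (h.bc.uniq x hxB y hyB c hxy)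
        · refine key y hy hyB (Or.inr ⟨x, hx, hne, c⁻¹, inv_ne_zero hc0, ?_⟩)
          have h1 : y - c⁻¹ • x = (-c⁻¹) • (x - c • y) := by
            rw [smul_sub, smul_smul, neg_mul, inv_mul_cancel₀ hc0, neg_smul, neg_smul, one_smul]
            abel
          rw [h1]
          exact K.smul_mem _ hxy
      · exact key x hx hxB (Or.inr ⟨y, hy, Ne.symm hne, c, hc0, hxy⟩)
    have ht := (h.minCex (by omega) (by omega) ih' nz npar ng).tight
    by_cases hS : ∀ x ∈ S, x ∈ hat K (B : Set V)
    · exact ng (conf_of_bc hz hn hn' (by omega) (by omega) h.bc h.BS h.no hS)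
    · push Not at hS
      obtain ⟨e, he, heB⟩ := hS
      exact ng (h.uncontract hz hn hn' h2 h2' ht he heB
        (h.contract (by omega) (by omega) ih' ht he heB))

end Pool.Agent.SFT
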