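import Pool.Agent.SFT.TrB
import Pool.Agent.SFT.BcM
import Pool.Agent.SFT.Nm

/-!
# SFT-Lv1a: level one, the reduction property of a smallest counterexample

Adapt `Pool.Agent.HC.Lv1a`. `sm := fun X => X ⊆ S \ B`. `B ⊆ S \ X`; `IsBC (hat K A) g B` by `IsBC.mono`
(`hat K B ⊓ hat K A ≤ hat K (S \ X) ⊓ hat K A = K`, `Az`); no `HasN`: `HasN.mono`; `transfer` with
`sm2 := fun Y => Y ⊆ ((S \ X) ∪ D) \ B`. Then `ih`.
-/

namespace Pool.Agent.SFT

open Finset Module

variable {E F V : Type} [Field E] [Field F] [Algebra E F] [AddCommGroup V] [Module F V]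
  [Module E V] [IsScalarTower E F V]
  [DecidableEq V] [FiniteDimensional E F] [FiniteDimensional F V] {K : Submodule F V}
  {S B : Finset V} {m n n' : ℕ} {g : Fin n ⊕ Fin n' → V}

theorem Hyp1.minCex (h0 : 0 < n) (h0' : 0 < n') (h : Hyp1 E m K S B g)
    (ih : ∀ (L : Submodule F V) (S' B' : Finset V) (g' : Fin n ⊕ Fin n' → V),
      S'.card < S.card → Hyp1 E m L S' B' g' → Conf E L (S' : Set V))
    (nz : ∀ x ∈ S, x ∉ K) (npar : ∀ x ∈ S, ∀ y ∈ S, ∀ c : F, x - c • y ∈ K → x = y)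
    (ng : ¬ Conf E K (S : Set V)) : MinCex E K S (fun X => X ⊆ S \ B) := by
  refine ⟨fun X Y hX hY => hY.trans hX, fun X hX => hX.trans Finset.sdiff_subset, h.gl, nz, npar,
    ng, ?_⟩
  intro X A D hX hTD hcard
  have hX' : X ⊆ S \ B := hX
  have hXB : ∀ x ∈ X, x ∉ B := fun x hx => (Finset.mem_sdiff.1 (hX' hx)).2
  have hBX : B ⊆ S \ X := fun b hb =>
    Finset.mem_sdiff.2 ⟨h.BS hb, fun hbX => hXB b hbX hb⟩
  have hDX : D ⊆ S := hTD.DX.trans hTD.XS
  have hFS : A ⊆ S := hTD.AX.trans hTD.XS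
  have hDB : ∀ x ∈ D, x ∉ B := fun x hx => hXB x (hTD.DX hx)
  have hSS : (S \ X) ∪ D ⊆ S := Finset.union_subset Finset.sdiff_subset hDX
  have hL : hat K (B : Set V) ⊓ hat K (A : Set V) = K := by
    apply le_antisymm
    · have h1 : hat K (B : Set V) ≤ hat K ((S \ X : Finset V) : Set V) :=
        hat_mono le_rfl (Finset.coe_subset.2 hBX)
      intro v hv
      have h2 : v ∈ hat K (A : Set V) ⊓ hat K ((S \ X : Finset V) : Set V) := ⟨hv.2, h1 hv.1⟩
      rwa [hTD.Az] at h2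
    · exact le_inf (le_hat K _) (le_hat K _)
  have hyp : Hyp1 E m (hat K (A : Set V)) ((S \ X) ∪ D) B g := by
    refine ⟨h.bc.mono h0 h0' (le_hat K _) hL, hBX.trans Finset.subset_union_left,
      fun hO => h.no (hO.mono hFS hSS), ?_⟩
    intro Y hY hl
    refine transfer hTD (fun X => X ⊆ S \ B) (fun Y => Y ⊆ ((S \ X) ∪ D) \ B) h.gl
      (fun Y hY => hY.trans Finset.sdiff_subset) ?_ ?_ Y hY hl
    · intro Y hY hd y hy
      have h1 := Finset.mem_sdiff.1 (hY hy)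
      have h2 : y ∉ D := fun hyD => (Finset.disjoint_left.1 hd) hy hyD
      rcases Finset.mem_union.1 h1.1 with h3 | h3
      · exact Finset.mem_sdiff.2 ⟨(Finset.mem_sdiff.1 h3).1, h1.2⟩
      · exact absurd h3 h2
    · intro Y hY _ y hy
      rcases Finset.mem_union.1 hy with h3 | h3
      · have h4 := Finset.mem_sdiff.1 h3
        have h1 := Finset.mem_sdiff.1 (hY h4.1)
        exact Finset.mem_sdiff.2 ⟨hSS h1.1, h1.2⟩
      · exact hX' h3
  exact ih _ _ B g hcard hyp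

end Pool.Agent.SFT
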