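import Pool.Agent.SFT.Qb

/-!
# SFT-Qd: elementary operations on clique minors
-/

namespace Pool.Agent.SFT

open Finset Module

variable {k V : Type} [Field k] [AddCommGroup V] [Module k V] [DecidableEq V]
  [FiniteDimensional k V] {K : Submodule k V}
  {S C : Finset V} {N : ℕ} {g : Fin N → V} {q : Fin N → Fin N → V}

omit [FiniteDimensional k V] in
/-- `x` is used by the clique minor -/
private theorem qd_used {x : V} (h : ¬ (x ∉ C ∧ ∀ i j, i ≠ j → q i j ≠ x)) :
    x ∈ C ∨ ∃ i j, i ≠ j ∧ q i j = x := by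
  by_cases hx : x ∈ C
  · exact Or.inl hx
  · right
    by_contra hcon
    push Not at hcon
    exact h ⟨hx, hcon⟩

theorem IsQ.contract (h : IsQ K S C g q) {e : V} (he : e ∈ C) :
    IsQ (hat K {e}) (S.erase e) (C.erase e) g q := by
  have e1 : hat (hat K {e}) ((C.erase e : Finset V) : Set V) = hat K (C : Set V) := by
    rw [hat_hat]
    congr 1
    rw [coe_erase, Set.union_comm, Set.union_singleton, Set.insert_diff_singleton,
      Set.insert_eq_of_mem (mem_coe.2 he)]
  refine ⟨erase_subset_erase e h.CS, ?_, ?_, ?_, h.qsymm, ?_, ?_⟩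
  · intro r hr x hx
    obtain ⟨c, hc⟩ := (mem_hat_singleton K e _).1 hr
    have h1 := h.Cind (fun z => if z = e then -c else r z) (by
      rw [← add_sum_erase C _ he, if_pos rfl]
      have h2 : ∑ z ∈ C.erase e, (if z = e then -c else r z) • z = ∑ z ∈ C.erase e, r z • z :=
        sum_congr rfl fun z hz => by rw [if_neg (mem_erase.1 hz).1]
      rw [h2, neg_smul, neg_add_eq_sub]
      exact hc) x (mem_of_mem_erase hx)
    rwa [if_neg (mem_erase.1 hx).1] at h1
  · intro r hr hsum
    rw [e1] at hsum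
    exact h.gind r hr hsum
  · intro i j hij
    refine mem_erase.2 ⟨?_, h.qS i j hij⟩
    intro hqe
    refine h.q_not_mem hij ?_
    rw [hqe]
    exact subset_hat K _ (mem_coe.2 he)
  · intro i j hij
    rw [e1]
    exact h.qg i j hij
  · intro x hx
    obtain ⟨r, hr, hr2⟩ := h.span x (mem_of_mem_erase hx)
    exact ⟨r, hr, by rw [e1]; exact hr2⟩

theorem IsQ.erase (h : IsQ K S C g q) {x : V} (hx : x ∉ C) (hxq : ∀ i j, i ≠ j → q i j ≠ x) :
    IsQ K (S.erase x) C g q := by
  refine ⟨?_, h.Cind, h.gind, ?_, h.qsymm, h.qg, ?_⟩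
  · intro y hy
    refine mem_erase.2 ⟨?_, h.CS hy⟩
    rintro rfl
    exact hx hy
  · intro i j hij
    exact mem_erase.2 ⟨hxq i j hij, h.qS i j hij⟩
  · intro y hy
    exact h.span y (mem_of_mem_erase hy)

theorem IsQ.zero (h : IsQ K S C g q) {x : V} (hx : x ∈ K) :
    x ∉ C ∧ ∀ i j, i ≠ j → q i j ≠ x := by
  refine ⟨fun hxC => ?_, fun i j hij hq => ?_⟩
  · have h1 := h.Cind (fun z => if z = x then 1 else 0) (by
      rw [sum_eq_single x]
      · rw [if_pos rfl, one_smul]
        exact hx
      · intro z _ hz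
        rw [if_neg hz, zero_smul]
      · intro h2
        exact absurd hxC h2) x hxC
    rw [if_pos rfl] at h1
    exact one_ne_zero h1
  · refine h.q_not_mem hij ?_
    rw [hq]
    exact le_hat K _ hx

theorem IsQ.par (h : IsQ K S C g q) {x y : V} (hxy : x ≠ y) {c : k} (hK : x - c • y ∈ K) :
    (x ∉ C ∧ ∀ i j, i ≠ j → q i j ≠ x) ∨ (y ∉ C ∧ ∀ i j, i ≠ j → q i j ≠ y) := by
  by_cases hc : c = 0
  · rw [hc, zero_smul, sub_zero] at hK
    exact Or.inl (h.zero hK)
  by_contra hcon
  rw [not_or] at hcon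
  have hL : x - c • y ∈ hat K (C : Set V) := le_hat K _ hK
  rcases qd_used hcon.1 with hx | ⟨i, j, hij, hx⟩
  · have hx2 : x ∈ hat K (C : Set V) := subset_hat K _ (mem_coe.2 hx)
    rcases qd_used hcon.2 with hy | ⟨i', j', hij', hy⟩
    · have h1 := h.Cind (fun z => if z = x then 1 else if z = y then -c else 0) (by
        rw [sum_eq_add x y hxy]
        · rw [if_pos rfl, if_neg hxy.symm, if_pos rfl, one_smul, neg_smul, ← sub_eq_add_neg]
          exact hK
        · rintro z _ ⟨hz1, hz2⟩
          rw [if_neg hz1, if_neg hz2, zero_smul]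
        · intro h2
          exact absurd hx h2
        · intro h2
          exact absurd hy h2) x hx
      rw [if_pos rfl] at h1
      exact one_ne_zero h1
    · refine h.q_not_mem hij' ?_
      rw [hy]
      have h1 : c • y ∈ hat K (C : Set V) := by
        have h2 := Submodule.sub_mem _ hx2 hL
        rwa [sub_sub_cancel] at h2
      have h2 := Submodule.smul_mem _ c⁻¹ h1
      rwa [smul_smul, inv_mul_cancel₀ hc, one_smul] at h2
  · rcases qd_used hcon.2 with hy | ⟨i', j', hij', hy⟩
    · have hy2 : y ∈ hat K (C : Set V) := subset_hat K _ (mem_coe.2 hy)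
      refine h.q_not_mem hij ?_
      rw [hx]
      have h1 := Submodule.add_mem _ hL (Submodule.smul_mem _ c hy2)
      rwa [sub_add_cancel] at h1
    · have h1 : q i j - c • q i' j' ∈ hat K (C : Set V) := by
        rw [hx, hy]
        exact hL
      apply hxy
      rw [← hx, ← hy]
      rcases h.inj hij hij' h1 with ⟨h2, h3⟩ | ⟨h2, h3⟩
      · rw [h2, h3]
      · rw [h2, h3, h.qsymm]

end Pool.Agent.SFT
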