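import Pool.Agent.SFT.Ro3
import Pool.Agent.SFT.Lv1
import Pool.Agent.SFT.CoC
import Pool.Agent.SFT.Qd

/-!
# SFT-Lv2c: level two, contraction of an element of `C` (5.3)

Adapt `Pool.Agent.HC.Lv2c`. `N0 := ` the bound of `rooting F ℓ n1`, `n1 := max (ℓ + 1) (max n0 2)`. `ih` for `(hat K {e}, S.erase e)`:
`IsQ.contract`, `HasN.mono`; for small `X` with `lam' X ≤ 1`: `X.card ≤ 1`: `cl_of_card_le_one`; otherwise `A := insert e X` is small
(`rq_insert`, `q_not_mem`), `Tight.contract_pre`, `lam K S A = 2 ≤ ℓ`; for small `X1 ⊇ A`: `2 ≤ lam` (`ht.c2`). `rooting`: `A', B, h`,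
`L = hat K A'`. `level_one` for `(L, A ∪ B)`: for `Y ⊆ A`: `lam L (A ∪ B) Y = lam K S Y` (`rooted_lam`), so `Y.card ≤ 1` if it is at most 1.
`cl_contract`.
-/

namespace Pool.Agent.SFT

open Finset Module

theorem exists_contract (E F : Type) [Field E] [Field F] [Algebra E F]
    [FiniteDimensional E F] [Finite F] {m n0 : ℕ} (hz : ZN E F m n0) (ℓ : ℕ) (hℓ : 2 ≤ ℓ) :
    ∃ N0 : ℕ, ∀ N, N0 ≤ N →
    ∀ (V : Type) [AddCommGroup V] [Module F V] [Module E V] [IsScalarTower E F V]
      [DecidableEq V] [FiniteDimensional F V] [FiniteDimensional E V]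
      (K : Submodule F V) (S C : Finset V) (g : Fin N → V) (q : Fin N → Fin N → V) (e : V),
      Hyp2 E m ℓ K S C g q → Tight K S (QSmall F ℓ S q) → e ∈ C →
      (∀ (L : Submodule F V) (S' C' : Finset V) (g' : Fin N → V) (q' : Fin N → Fin N → V),
        S'.card < S.card → Hyp2 E m ℓ L S' C' g' q' → Conf E L (S' : Set V)) →
      Conf E (hat K {e}) ((S.erase e : Finset V) : Set V) := by
  obtain ⟨N0, hN0⟩ := rooting F ℓ (max (ℓ + 1) (max n0 2)) (by omega)
    (lt_of_lt_of_le (Nat.lt_succ_self ℓ) (le_max_left _ _))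
  refine ⟨N0, ?_⟩
  intro N hN V _ _ _ _ _ _ _ K S C g q e h ht he ih
  have heS : e ∈ S := h.isq.CS he
  refine ih (hat K {e}) (S.erase e) (C.erase e) g q (card_erase_lt_of_mem heS)
    ⟨h.isq.contract he, ?_, ?_⟩
  · intro hO
    apply h.no
    have hO' : HasN E m (hat K (({e} : Finset V) : Set V)) (S.erase e) := by
      rw [coe_singleton]
      exact hO
    exact hO'.mono (singleton_subset_iff.2 heS) (erase_subset e S)
  · intro X hX hl
    by_cases hc : X.card ≤ 1
    · exact cl_of_card_le_one _ _ _ hc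
    have hc2 : 2 ≤ X.card := by omega
    have heX : e ∉ X := fun h1 => notMem_erase e S (hX.1 h1)
    have heC : e ∈ hat K (C : Set V) := subset_hat K _ (mem_coe.2 he)
    have hqe : ∀ i j, i ≠ j → q i j ≠ e := by
      intro i j hij h1
      have h2 := h.isq.q_not_mem hij
      rw [h1] at h2
      exact h2 heC
    have hA : QSmall F ℓ S q (insert e X) :=
      ⟨insert_subset heS (hX.1.trans (erase_subset e S)), by
        rw [rq_insert X hqe]
        exact hX.2⟩
    obtain ⟨a1, a2, a3, a4, a5⟩ := ht.contract_pre heS hA heX hc2 hl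
    obtain ⟨A', B, f, hF, hB, hcap, hcl, hdim⟩ := hN0 N hN V K S C (insert e X) g q h.isq hA
      (by rw [a3]; exact hℓ) (by
        intro X1 h1 h2
        refine ht.c2 X1 h2 ?_
        have h5 := card_le_card h1
        rw [card_insert_of_notMem heX] at h5
        omega)
    have hKL : K ≤ hat K (A' : Set V) := le_hat _ _
    have hLZ : hat K (A' : Set V) ≤ hat K ((S \ insert e X : Finset V) : Set V) :=
      hat_mono le_rfl (coe_subset.2 hF)
    have hdim' : finrank F (hat K (A' : Set V)) + lam K S (insert e X) ≤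
        finrank F ↥(hat (hat K (A' : Set V)) ((insert e X : Finset V) : Set V) ⊓
          hat (hat K (A' : Set V)) (B : Set V)) := by
      rw [a3]
      exact hdim
    have hg : Conf E (hat K (A' : Set V)) ((insert e X ∪ B : Finset V) : Set V) := by
      have m1 : n0 ≤ max (ℓ + 1) (max n0 2) := (le_max_left n0 2).trans (le_max_right _ _)
      have m2 : 2 ≤ max (ℓ + 1) (max n0 2) := (le_max_right n0 2).trans (le_max_right _ _)
      refine level_one hz m1 m1 m2 m2 (B := B) (g := f) ⟨hcl, subset_union_right, ?_, ?_⟩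
      · intro hO
        exact h.no (hO.mono (hF.trans sdiff_subset)
          (union_subset hA.1 (hB.trans sdiff_subset)))
      · intro Y hY hlY
        have hYA : Y ⊆ insert e X := by
          intro y hy
          rcases mem_union.1 (mem_sdiff.1 (hY hy)).1 with h1 | h1
          · exact h1
          · exact absurd h1 (mem_sdiff.1 (hY hy)).2
        have e1 := rooted_lam hA.1 hB hKL hLZ hcap hdim' hYA
        refine cl_of_card_le_one _ _ _ ?_
        by_contra hc3
        have h6 := ht.c2 Y (ht.sub _ _ hA hYA) (by omega)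
        rw [← e1] at h6
        omega
    exact cl_contract ht heS hA heX hc2 hl hB hKL hLZ hcap hdim hg

end Pool.Agent.SFT
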