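import Pool.Agent.SFT.Rat

/-!
# SFT-Qc: ranks of sets of edges over the two fields

The set of the vectors `ev F i j` is the image of the set of the vectors `ev E i j` under `ratv`; the `F`-span of
`ratv '' (rqs E q' X')` is `rqs F q X`: `finrank_span_ratv`.
-/

namespace Pool.Agent.SFT

open Finset Module

variable {E F : Type} [Field E] [Field F] [Algebra E F] [FiniteDimensional E F] {V V' : Type}

private theorem qc_ev {E F : Type} [Field E] [Field F] [Algebra E F] {N : ℕ} (i j : Fin N) :
    ratv E F (Fin N) (ev E i j) = ev F i j := by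
  funext v
  rw [ratv_apply]
  unfold ev
  rw [Pi.sub_apply, Pi.sub_apply, map_sub]
  congr 1
  · by_cases h : v = i
    · subst h
      rw [Pi.single_eq_same, Pi.single_eq_same, map_one]
    · rw [Pi.single_eq_of_ne h, Pi.single_eq_of_ne h, map_zero]
  · by_cases h : v = j
    · subst h
      rw [Pi.single_eq_same, Pi.single_eq_same, map_one]
    · rw [Pi.single_eq_of_ne h, Pi.single_eq_of_ne h, map_zero]

theorem rq_field {N : ℕ} {q : Fin N → Fin N → V} {q' : Fin N → Fin N → V'} {X : Finset V}
    {X' : Finset V'} (h : ∀ i j, i ≠ j → (q' i j ∈ X' ↔ q i j ∈ X)) :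
    rq E q' X' = rq F q X := by
  have h1 : Submodule.span F (ratv E F (Fin N) '' (rqs E q' X' : Set (Fin N → E))) = rqs F q X := by
    apply le_antisymm
    · rw [Submodule.span_le]
      rintro _ ⟨y, hy, rfl⟩
      have key : ∀ y ∈ rqs E q' X', ratv E F (Fin N) y ∈ rqs F q X := by
        intro y hy
        unfold rqs at hy
        induction hy using Submodule.span_induction with
        | mem y hy =>
          obtain ⟨i, j, hij, hX, rfl⟩ := hy
          rw [qc_ev]
          exact Submodule.subset_span ⟨i, j, hij, (h i j hij).1 hX, rfl⟩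
        | zero =>
          rw [map_zero]
          exact Submodule.zero_mem _
        | add a b _ _ ha hb =>
          rw [map_add]
          exact Submodule.add_mem _ ha hb
        | smul c a _ ha =>
          rw [map_smul, ← algebraMap_smul F c]
          exact Submodule.smul_mem _ _ ha
      exact key y hy
    · unfold rqs
      rw [Submodule.span_le]
      rintro _ ⟨i, j, hij, hX, rfl⟩
      apply Submodule.subset_span
      exact ⟨ev E i j, Submodule.subset_span ⟨i, j, hij, (h i j hij).2 hX, rfl⟩, qc_ev i j⟩
  unfold rq
  rw [← h1, finrank_span_ratv]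

end Pool.Agent.SFT
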