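import Pool.Agent.SFT.Qb
import Pool.Agent.SFT.LiD

/-!
# SFT-Qe: the clique minor over the small field (2.6)

`T := S1 S e σ`. `e ∈ C`, `q i j ≠ e` (`q_not_mem`), so `σ (q i j) ∈ T ⊆ L`. Fix a vertex `o` (`N ≥ 3`). For `i ≠ j`:
`σ (q i j) - d i j • (g i - g j) ∈ hat K C`, `d i j ≠ 0`. `g' o := 0`, `g' i := - (σ (q o i))` scaled so that differences come out:
first `g'' i := - (d o i)⁻¹ • σ (q o i)` is `g i - g o` modulo `hat K C`. Let `y i := σ (q o i)` (`i ≠ o`) and the `σ x` (`x ∈ C.erase e`):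
they are in `L` and independent over `F` modulo `hat K {e}` (`gind`, `Cind`). Triangle `o, i, j`:
`(d i j)⁻¹ • σ (q i j) = (g i - g o) - (g j - g o) = - (d o i)⁻¹ • y i + (d o j)⁻¹ • y j` modulo `hat K C`. So
`σ (q i j)` is a combination of `y i`, `y j`, the `σ x`, modulo `hat K {e}`, with coefficients `- d i j / d o i` and `d i j / d o j`;
`IsForm.coef` (for the family of all `y i`, `σ x`): these are in `E` (and the coefficients of the `σ x`, too). So all quotients of
the `d`'s are in `E` (through `d o i / d o j`). Fix `d0 := d o i1` and `g' i := - (d0 / d o i) • y i = d0 • (g i - g o)` modulo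
`hat K C`, in `T1 := hat (rs E K) T`; `σ (q i j) - (d i j / d0) • (g' i - g' j) ∈ hat K C`.
Key (`mem_E`): if `v ∈ T1` and `v ∈ hat K C` then `v ∈ hat (rs E K) (C+)`, `C+ := (C.erase e).image σ ∪ Ds`: `v = ∑ γ x • σ x` modulo
`hat K {e}` (`x ∈ C.erase e`), `γ x ∈ E` by `IsForm.coef` (`v ∈ L`), so `v - ∑ γ x • σ x ∈ T1 ⊓ hat K {e} = liftD = hat (rs E K) Ds`.
`gind`: `∑ r i • g' i ∈ hat (rs E K) C+ ≤ hat K C` over `E`: `d0 • ∑ algebraMap (r i) • g i ∈ hat K C`. `Cind`: modulo `hat K {e}` the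
coefficients at `(C.erase e).image σ` vanish (`Cind` of `h`; disjoint from `Ds`, `σ` injective), then those at `Ds` (`hDi`).
`span`: `x ∈ T`: `x = ∑ ρ i • g' i` modulo `hat K C` (`span` of `h`, `∑ ρ i = 0`), `x ∈ L`: by `IsForm.coef` (write the `g' i` as multiples of
the `y i`) `ρ i ∈ E` for `i ≠ o`, so for `o`; the difference is in `T1 ⊓ hat K C`: `mem_E`. `x ∈ Ds`: `r = 0`.
-/

namespace Pool.Agent.SFT

open Finset Module

variable {E F V : Type} [Field E] [Field F] [Algebra E F] [AddCommGroup V] [Module F V]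
  [Module E V] [IsScalarTower E F V]
  [DecidableEq V] [FiniteDimensional E F] [FiniteDimensional F V] [FiniteDimensional E V]
  {K : Submodule F V} {S C Ds : Finset V} {e : V} {L : Submodule E V} {σ : V → V} {N : ℕ}
  {g : Fin N → V} {q : Fin N → Fin N → V}

omit [DecidableEq V] [FiniteDimensional E F] [FiniteDimensional F V] [FiniteDimensional E V] [Module E V]
  [IsScalarTower E F V] [Field E] [Algebra E F] in
private theorem sum_conv (ρ : Fin N → F) (hρ : ∑ i, ρ i = 0) (g : Fin N → V) (o : Fin N) :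
    ∑ i, ρ i • g i = ∑ i ∈ univ.erase o, ρ i • (g i - g o) := by
  rw [Finset.sum_erase _ (by rw [sub_self, smul_zero])]
  simp only [smul_sub, Finset.sum_sub_distrib]
  rw [← Finset.sum_smul, hρ, zero_smul, sub_zero]

omit [FiniteDimensional E F] [FiniteDimensional F V] [FiniteDimensional E V] in
/-- coordinates of vectors of `hat K C` -/
private theorem dec_C (hL : Lift E K S e L σ) (he : e ∈ C) {v : V} (hv : v ∈ hat K (C : Set V)) :
    ∃ γ : V → F, v - ∑ x ∈ C.erase e, γ x • σ x ∈ hat K {e} := by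
  obtain ⟨r, hr⟩ := (mem_hat_iff K C v).1 hv
  choose c hc0 hc using hL.sc
  refine ⟨fun x => r x * (c x)⁻¹, ?_⟩
  rw [mem_hat_singleton]
  refine ⟨r e, ?_⟩
  have h1 : ∑ x ∈ C, r x • x = r e • e + ∑ x ∈ C.erase e, r x • x :=
    (Finset.add_sum_erase C (fun x => r x • x) he).symm
  have h2 : ∑ x ∈ C.erase e, (r x * (c x)⁻¹) • σ x = ∑ x ∈ C.erase e, r x • x := by
    refine Finset.sum_congr rfl fun x _ => ?_
    rw [hc x, smul_smul, mul_assoc, inv_mul_cancel₀ (hc0 x), mul_one]
  rw [h2]
  rw [h1] at hr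
  have h3 : v - ∑ x ∈ C.erase e, r x • x - r e • e = v - (r e • e + ∑ x ∈ C.erase e, r x • x) := by
    abel
  rw [h3]
  exact hr

omit [FiniteDimensional E F] [FiniteDimensional F V] [FiniteDimensional E V] in
private theorem ind_C (h : IsQ K S C g q) (hL : Lift E K S e L σ) (he : e ∈ C) (γ : V → F)
    (hs : ∑ x ∈ C.erase e, γ x • σ x ∈ hat K {e}) : ∀ x ∈ C.erase e, γ x = 0 := by
  obtain ⟨a, ha⟩ := (mem_hat_singleton K e _).1 hs
  choose c hc0 hc using hL.sc
  have h1 : ∑ x ∈ C, (if x = e then -a else γ x * c x) • x ∈ K := by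
    rw [← Finset.add_sum_erase C _ he, if_pos rfl]
    have h2 : ∑ x ∈ C.erase e, (if x = e then -a else γ x * c x) • x = ∑ x ∈ C.erase e, γ x • σ x := by
      refine Finset.sum_congr rfl fun x hx => ?_
      rw [if_neg (Finset.ne_of_mem_erase hx), hc x, smul_smul]
    rw [h2]
    have h3 : (-a) • e + ∑ x ∈ C.erase e, γ x • σ x = ∑ x ∈ C.erase e, γ x • σ x - a • e := by
      rw [neg_smul]
      abel
    rw [h3]
    exact ha
  intro x hx
  have h4 := h.Cind (fun x => if x = e then -a else γ x * c x) h1 x (Finset.mem_of_mem_erase hx)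
  rw [if_neg (Finset.ne_of_mem_erase hx)] at h4
  exact (mul_eq_zero.1 h4).resolve_right (hc0 x)

omit [FiniteDimensional E F] [FiniteDimensional F V] [FiniteDimensional E V] in
private theorem σ_mem (hL : Lift E K S e L σ) {x : V} {A : Submodule F V} (hx : x ∈ A) : σ x ∈ A := by
  obtain ⟨c, -, hc⟩ := hL.sc x
  rw [hc]
  exact A.smul_mem c hx

omit [FiniteDimensional E F] [FiniteDimensional F V] [FiniteDimensional E V] in
private theorem ind_fam (h : IsQ K S C g q) (hL : Lift E K S e L σ) (he : e ∈ C) {o : Fin N}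
    {d : Fin N → F} (hd0 : ∀ i, i ≠ o → d i ≠ 0)
    (hd : ∀ i, i ≠ o → σ (q o i) - d i • (g o - g i) ∈ hat K (C : Set V)) (β : Fin N → F) (γ : V → F)
    (hs : ∑ i ∈ univ.erase o, β i • σ (q o i) + ∑ x ∈ C.erase e, γ x • σ x ∈ hat K {e}) :
    (∀ i, i ≠ o → β i = 0) ∧ ∀ x ∈ C.erase e, γ x = 0 := by
  have hle : hat K ({e} : Set V) ≤ hat K (C : Set V) :=
    hat_mono le_rfl (Set.singleton_subset_iff.2 (Finset.mem_coe.2 he))
  have h1 : ∑ i ∈ univ.erase o, β i • σ (q o i) ∈ hat K (C : Set V) := by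
    have h2 : ∑ x ∈ C.erase e, γ x • σ x ∈ hat K (C : Set V) :=
      Submodule.sum_mem _ fun x hx => Submodule.smul_mem _ _
        (σ_mem hL (subset_hat K _ (Finset.mem_coe.2 (Finset.mem_of_mem_erase hx))))
    have h3 := Submodule.sub_mem _ (hle hs) h2
    rwa [add_sub_cancel_right] at h3
  have h2 : ∑ i ∈ univ.erase o, (-(β i * d i)) • (g i - g o) ∈ hat K (C : Set V) := by
    have h3 : ∑ i ∈ univ.erase o, β i • (σ (q o i) - d i • (g o - g i)) ∈ hat K (C : Set V) :=
      Submodule.sum_mem _ fun i hi => Submodule.smul_mem _ _ (hd i (Finset.ne_of_mem_erase hi))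
    have h4 := Submodule.sub_mem _ h1 h3
    rw [← Finset.sum_sub_distrib] at h4
    have h5 : ∑ i ∈ univ.erase o, (-(β i * d i)) • (g i - g o) =
        ∑ i ∈ univ.erase o, (β i • σ (q o i) - β i • (σ (q o i) - d i • (g o - g i))) := by
      refine Finset.sum_congr rfl fun i _ => ?_
      rw [smul_sub (β i) (σ (q o i)), sub_sub_cancel, smul_smul, neg_smul, ← smul_neg, neg_sub]
    rw [h5]
    exact h4
  have hρ : ∑ i, (if i = o then ∑ j ∈ univ.erase o, β j * d j else -(β i * d i)) = 0 := by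
    rw [← Finset.add_sum_erase univ _ (Finset.mem_univ o), if_pos rfl]
    have h3 : ∑ i ∈ univ.erase o, (if i = o then ∑ j ∈ univ.erase o, β j * d j else -(β i * d i)) =
        ∑ i ∈ univ.erase o, -(β i * d i) :=
      Finset.sum_congr rfl fun i hi => if_neg (Finset.ne_of_mem_erase hi)
    rw [h3, Finset.sum_neg_distrib, add_neg_cancel]
  have h3 := h.gind (fun i => if i = o then ∑ j ∈ univ.erase o, β j * d j else -(β i * d i)) hρ (by
    rw [sum_conv _ hρ g o]
    have h4 : ∑ i ∈ univ.erase o, (if i = o then ∑ j ∈ univ.erase o, β j * d j else -(β i * d i)) •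
        (g i - g o) = ∑ i ∈ univ.erase o, (-(β i * d i)) • (g i - g o) := by
      refine Finset.sum_congr rfl fun i hi => ?_
      rw [if_neg (Finset.ne_of_mem_erase hi)]
    rw [h4]
    exact h2)
  have hβ : ∀ i, i ≠ o → β i = 0 := by
    intro i hi
    have h4 := congrFun h3 i
    simp only [if_neg hi, Pi.zero_apply, neg_eq_zero] at h4
    exact (mul_eq_zero.1 h4).resolve_right (hd0 i hi)
  refine ⟨hβ, ind_C h hL he γ ?_⟩
  have h4 : ∑ i ∈ univ.erase o, β i • σ (q o i) = 0 :=
    Finset.sum_eq_zero fun i hi => by rw [hβ i (Finset.ne_of_mem_erase hi), zero_smul]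
  rw [h4, zero_add] at hs
  exact hs

private theorem T1_le (hL : Lift E K S e L σ) : hat (rs E K) ((S1 S e σ : Finset V) : Set V) ≤ L := by
  refine hat_le ?_ ?_
  · intro v hv
    exact hL.form.le v (le_hat K _ hv)
  · intro x hx
    exact hL.mem_L x (Finset.mem_coe.1 hx)

omit [FiniteDimensional E F] [FiniteDimensional F V] [FiniteDimensional E V] [Module E V]
  [IsScalarTower E F V] [Module F V] [Field E] [Algebra E F] [Field F] [AddCommGroup V] in
private theorem mem_S1 {x : V} (hx : x ∈ S) (hxe : x ≠ e) : σ x ∈ S1 S e σ :=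
  Finset.mem_image_of_mem σ (Finset.mem_erase.2 ⟨hxe, hx⟩)

/-- the key lemma: coefficients are in the small field -/
private theorem key (h : IsQ K S C g q) (hL : Lift E K S e L σ) (he : e ∈ C)
    (hDs : hat (rs E K) (Ds : Set V) = liftD E K (S1 S e σ) e) {o : Fin N} {d : Fin N → F}
    (hd0 : ∀ i, i ≠ o → d i ≠ 0)
    (hd : ∀ i, i ≠ o → σ (q o i) - d i • (g o - g i) ∈ hat K (C : Set V)) {v : V}
    (hv : v ∈ hat (rs E K) ((S1 S e σ : Finset V) : Set V)) (β : Fin N → F)
    (hβ : v - ∑ i ∈ univ.erase o, β i • σ (q o i) ∈ hat K (C : Set V)) :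
    ∃ b : Fin N → E, (∀ i, i ≠ o → algebraMap E F (b i) = β i) ∧
      v - ∑ i ∈ univ.erase o, b i • σ (q o i) ∈
        hat (rs E K) (((C.erase e).image σ ∪ Ds : Finset V) : Set V) := by
  classical
  obtain ⟨γ, hγ⟩ := dec_C hL he hβ
  have hqS : ∀ i, i ≠ o → σ (q o i) ∈ S1 S e σ := by
    intro i hi
    refine mem_S1 (h.qS o i hi.symm) ?_
    intro h1
    apply h.q_not_mem hi.symm
    rw [h1]
    exact subset_hat K _ (Finset.mem_coe.2 he)
  have hCS : ∀ x ∈ C.erase e, σ x ∈ S1 S e σ := fun x hx =>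
    mem_S1 (h.CS (Finset.mem_of_mem_erase hx)) (Finset.ne_of_mem_erase hx)
  let y : {i : Fin N // i ∈ univ.erase o} ⊕ {x : V // x ∈ C.erase e} → V :=
    Sum.elim (fun i => σ (q o i.1)) (fun x => σ x.1)
  have hy : ∀ t, y t ∈ L := by
    rintro (⟨i, hi⟩ | ⟨x, hx⟩)
    · exact hL.mem_L _ (hqS i (Finset.ne_of_mem_erase hi))
    · exact hL.mem_L _ (hCS x hx)
  have hsum : ∀ (r : {i : Fin N // i ∈ univ.erase o} ⊕ {x : V // x ∈ C.erase e} → F)
      (β' : Fin N → F) (γ' : V → F), (∀ i, r (Sum.inl i) = β' i.1) → (∀ x, r (Sum.inr x) = γ' x.1) →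
      ∑ t, r t • y t = ∑ i ∈ univ.erase o, β' i • σ (q o i) + ∑ x ∈ C.erase e, γ' x • σ x := by
    intro r β' γ' h1 h2
    rw [Fintype.sum_sum_type, ← Finset.sum_coe_sort (univ.erase o) (fun i => β' i • σ (q o i)),
      ← Finset.sum_coe_sort (C.erase e) (fun x => γ' x • σ x)]
    congr 1
    · refine Finset.sum_congr rfl fun i _ => ?_
      rw [h1]
      rfl
    · refine Finset.sum_congr rfl fun x _ => ?_
      rw [h2]
      rfl
  have hind : ∀ r : {i : Fin N // i ∈ univ.erase o} ⊕ {x : V // x ∈ C.erase e} → F,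
      ∑ t, r t • y t ∈ hat K {e} → r = 0 := by
    intro r hr
    have h1 := hsum r (fun i => if hi : i ∈ univ.erase o then r (Sum.inl ⟨i, hi⟩) else 0)
      (fun x => if hx : x ∈ C.erase e then r (Sum.inr ⟨x, hx⟩) else 0)
      (fun i => by rw [dif_pos i.2]) (fun x => by rw [dif_pos x.2])
    rw [h1] at hr
    obtain ⟨h2, h3⟩ := ind_fam h hL he hd0 hd _ _ hr
    funext t
    rcases t with ⟨i, hi⟩ | ⟨x, hx⟩
    · have h4 := h2 i (Finset.ne_of_mem_erase hi)
      rw [dif_pos hi] at h4
      exact h4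
    · have h4 := h3 x hx
      rw [dif_pos hx] at h4
      exact h4
  have h1 := hsum (Sum.elim (fun i => β i.1) (fun x => γ x.1)) β γ (fun _ => rfl) (fun _ => rfl)
  have h2 : ∑ t, (Sum.elim (fun i : {i : Fin N // i ∈ univ.erase o} => β i.1)
      (fun x : {x : V // x ∈ C.erase e} => γ x.1)) t • y t ∈ L := by
    have h3 : ∑ t, (Sum.elim (fun i : {i : Fin N // i ∈ univ.erase o} => β i.1)
        (fun x : {x : V // x ∈ C.erase e} => γ x.1)) t • y t =
        v - (v - ∑ i ∈ univ.erase o, β i • σ (q o i) - ∑ x ∈ C.erase e, γ x • σ x) := by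
      rw [h1]
      abel
    rw [h3]
    exact L.sub_mem (T1_le hL hv) (hL.form.le _ hγ)
  have h3 := hL.form.coef y hy hind _ h2
  choose a ha using h3
  have hb : ∀ i (hi : i ∈ univ.erase o),
      (if hi : i ∈ univ.erase o then a (Sum.inl ⟨i, hi⟩) else 0) = a (Sum.inl ⟨i, hi⟩) :=
    fun i hi => dif_pos hi
  have hc : ∀ x (hx : x ∈ C.erase e),
      (if hx : x ∈ C.erase e then a (Sum.inr ⟨x, hx⟩) else 0) = a (Sum.inr ⟨x, hx⟩) :=
    fun x hx => dif_pos hx
  have hb' : ∀ i, i ∈ univ.erase o →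
      algebraMap E F (if hi : i ∈ univ.erase o then a (Sum.inl ⟨i, hi⟩) else 0) = β i := by
    intro i hi
    rw [hb i hi, ha]
    rfl
  have hc' : ∀ x, x ∈ C.erase e →
      algebraMap E F (if hx : x ∈ C.erase e then a (Sum.inr ⟨x, hx⟩) else 0) = γ x := by
    intro x hx
    rw [hc x hx, ha]
    rfl
  refine ⟨fun i => if hi : i ∈ univ.erase o then a (Sum.inl ⟨i, hi⟩) else 0, ?_, ?_⟩
  · intro i hi
    exact hb' i (Finset.mem_erase.2 ⟨hi, Finset.mem_univ i⟩)
  · have e1 : ∑ i ∈ univ.erase o, (if hi : i ∈ univ.erase o then a (Sum.inl ⟨i, hi⟩) else 0) • σ (q o i) =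
        ∑ i ∈ univ.erase o, β i • σ (q o i) := by
      refine Finset.sum_congr rfl fun i hi => ?_
      rw [← hb' i hi, algebraMap_smul]
    have e2 : ∑ x ∈ C.erase e, (if hx : x ∈ C.erase e then a (Sum.inr ⟨x, hx⟩) else 0) • σ x =
        ∑ x ∈ C.erase e, γ x • σ x := by
      refine Finset.sum_congr rfl fun x hx => ?_
      rw [← hc' x hx, algebraMap_smul]
    have h4 : v - ∑ i ∈ univ.erase o, (if hi : i ∈ univ.erase o then a (Sum.inl ⟨i, hi⟩) else 0) • σ (q o i) -
        ∑ x ∈ C.erase e, (if hx : x ∈ C.erase e then a (Sum.inr ⟨x, hx⟩) else 0) • σ x ∈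
        hat (rs E K) (Ds : Set V) := by
      rw [hDs]
      refine ⟨?_, ?_⟩
      · refine Submodule.sub_mem _ (Submodule.sub_mem _ hv (Submodule.sum_mem _ fun i hi => ?_))
          (Submodule.sum_mem _ fun x hx => ?_)
        · exact Submodule.smul_mem _ _ (subset_hat _ _ (Finset.mem_coe.2 (hqS i (Finset.ne_of_mem_erase hi))))
        · exact Submodule.smul_mem _ _ (subset_hat _ _ (Finset.mem_coe.2 (hCS x hx)))
      · rw [e1, e2]
        exact hγ
    have h5 : ∑ x ∈ C.erase e, (if hx : x ∈ C.erase e then a (Sum.inr ⟨x, hx⟩) else 0) • σ x ∈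
        hat (rs E K) (((C.erase e).image σ ∪ Ds : Finset V) : Set V) := by
      refine Submodule.sum_mem _ fun x hx => Submodule.smul_mem _ _ (subset_hat _ _ (Finset.mem_coe.2 ?_))
      exact Finset.mem_union_left _ (Finset.mem_image_of_mem σ hx)
    have h6 : hat (rs E K) (Ds : Set V) ≤ hat (rs E K) (((C.erase e).image σ ∪ Ds : Finset V) : Set V) :=
      hat_mono le_rfl (by rw [Finset.coe_union]; exact Set.subset_union_right)
    have h7 := Submodule.add_mem _ (h6 h4) h5
    rw [sub_add_cancel] at h7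
    exact h7

theorem IsQ.lift (hN : 3 ≤ N) (h : IsQ K S C g q) (hL : Lift E K S e L σ) (he : e ∈ C)
    (hDs : hat (rs E K) (Ds : Set V) = liftD E K (S1 S e σ) e)
    (hDi : ∀ r : V → E, ∑ x ∈ Ds, r x • x ∈ rs E K → ∀ x ∈ Ds, r x = 0) :
    ∃ g' : Fin N → V, IsQ (rs E K) (S1 S e σ ∪ Ds) ((C.erase e).image σ ∪ Ds) g'
      (fun i j => σ (q i j)) := by
  classical
  -- the scalars of the edges
  have hdex : ∀ i j, ∃ d : F, i ≠ j → d ≠ 0 ∧ σ (q i j) - d • (g i - g j) ∈ hat K (C : Set V) := by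
    intro i j
    by_cases hij : i = j
    · exact ⟨0, fun h' => absurd hij h'⟩
    · obtain ⟨c, hc, hc'⟩ := h.qg i j hij
      obtain ⟨t, ht, ht'⟩ := hL.sc (q i j)
      refine ⟨t * c, fun _ => ⟨mul_ne_zero ht hc, ?_⟩⟩
      rw [ht', mul_smul, ← smul_sub]
      exact Submodule.smul_mem _ _ hc'
  choose d hd using hdex
  let o : Fin N := ⟨0, by omega⟩
  let i1 : Fin N := ⟨1, by omega⟩
  have hi1 : i1 ≠ o := by
    intro h'
    have := congrArg Fin.val h'
    simp [o, i1] at this
  have hd0 : ∀ i, i ≠ o → d o i ≠ 0 := fun i hi => (hd o i hi.symm).1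
  have hdg : ∀ i, i ≠ o → σ (q o i) - d o i • (g o - g i) ∈ hat K (C : Set V) :=
    fun i hi => (hd o i hi.symm).2
  have hq_ne : ∀ i j, i ≠ j → q i j ≠ e := by
    intro i j hij h1
    apply h.q_not_mem hij
    rw [h1]
    exact subset_hat K _ (Finset.mem_coe.2 he)
  have hqT : ∀ i j, i ≠ j → σ (q i j) ∈ S1 S e σ := fun i j hij => mem_S1 (h.qS i j hij) (hq_ne i j hij)
  have hqT1 : ∀ i j, i ≠ j → σ (q i j) ∈ hat (rs E K) ((S1 S e σ : Finset V) : Set V) :=
    fun i j hij => subset_hat _ _ (Finset.mem_coe.2 (hqT i j hij))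
  have hDse : ∀ x ∈ Ds, x ∈ liftD E K (S1 S e σ) e := by
    intro x hx
    rw [← hDs]
    exact subset_hat _ _ (Finset.mem_coe.2 hx)
  have hCe : hat K ({e} : Set V) ≤ hat K (C : Set V) :=
    hat_mono le_rfl (Set.singleton_subset_iff.2 (Finset.mem_coe.2 he))
  have hC'C : ∀ v ∈ hat (rs E K) (((C.erase e).image σ ∪ Ds : Finset V) : Set V), v ∈ hat K (C : Set V) := by
    have h1 : hat (rs E K) (((C.erase e).image σ ∪ Ds : Finset V) : Set V) ≤ rs E (hat K (C : Set V)) := by
      refine hat_le ?_ ?_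
      · intro v hv
        exact le_hat K _ hv
      · intro x hx
        rw [Finset.mem_coe, Finset.mem_union] at hx
        rcases hx with hx | hx
        · obtain ⟨x0, hx0, rfl⟩ := Finset.mem_image.1 hx
          exact σ_mem hL (subset_hat K _ (Finset.mem_coe.2 (Finset.mem_of_mem_erase hx0)))
        · exact hCe (hDse x hx).2
    intro v hv
    exact h1 hv
  -- first form
  have sp0 : ∀ v ∈ hat (rs E K) ((S1 S e σ : Finset V) : Set V), ∀ ρ : Fin N → F, ∑ i, ρ i = 0 →
      v - ∑ i, ρ i • g i ∈ hat K (C : Set V) →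
      ∃ b : Fin N → E, (∀ i, i ≠ o → algebraMap E F (b i) = -(ρ i / d o i)) ∧
        v - ∑ i ∈ univ.erase o, b i • σ (q o i) ∈
          hat (rs E K) (((C.erase e).image σ ∪ Ds : Finset V) : Set V) := by
    intro v hv ρ hρ hvρ
    refine key h hL he hDs hd0 hdg hv (fun i => -(ρ i / d o i)) ?_
    have h1 : ∑ i ∈ univ.erase o, (ρ i / d o i) • (σ (q o i) - d o i • (g o - g i)) ∈ hat K (C : Set V) :=
      Submodule.sum_mem _ fun i hi => Submodule.smul_mem _ _ (hdg i (Finset.ne_of_mem_erase hi))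
    have h2 : v - ∑ i ∈ univ.erase o, (-(ρ i / d o i)) • σ (q o i) = (v - ∑ i, ρ i • g i) +
        ∑ i ∈ univ.erase o, (ρ i / d o i) • (σ (q o i) - d o i • (g o - g i)) := by
      rw [sum_conv ρ hρ g o, sub_add, ← Finset.sum_sub_distrib]
      congr 1
      refine Finset.sum_congr rfl fun i hi => ?_
      rw [smul_sub (ρ i / d o i), smul_smul, div_mul_cancel₀ _ (hd0 i (Finset.ne_of_mem_erase hi)), neg_smul,
        ← neg_sub (g i) (g o), smul_neg]
      abel
    rw [h2]
    exact Submodule.add_mem _ hvρ h1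
  -- the ratios
  have hsg : ∀ (i j : Fin N) (c : F), i ≠ j → (∑ t, (if t = i then c else if t = j then -c else 0) = 0) ∧
      ∑ t, (if t = i then c else if t = j then -c else 0) • g t = c • (g i - g j) := by
    intro i j c hij
    have e1 : ∀ t, (if t = i then c else if t = j then -c else 0) =
        (if t = i then c else 0) + (if t = j then -c else 0) := by
      intro t
      by_cases h1 : t = i
      · have h2 : t ≠ j := fun h2 => hij (h1.symm.trans h2)
        rw [if_pos h1, if_pos h1, if_neg h2, add_zero]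
      · rw [if_neg h1, if_neg h1, zero_add]
    constructor
    · rw [Finset.sum_congr rfl fun t _ => e1 t, Finset.sum_add_distrib, Finset.sum_ite_eq', Finset.sum_ite_eq',
        if_pos (Finset.mem_univ _), if_pos (Finset.mem_univ _), add_neg_cancel]
    · have e2 : ∀ t, (if t = i then c else if t = j then -c else 0) • g t =
          (if t = i then c • g t else 0) + (if t = j then -(c • g t) else 0) := by
        intro t
        rw [e1 t, add_smul, ite_smul, ite_smul, zero_smul, neg_smul]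
      rw [Finset.sum_congr rfl fun t _ => e2 t, Finset.sum_add_distrib, Finset.sum_ite_eq', Finset.sum_ite_eq',
        if_pos (Finset.mem_univ _), if_pos (Finset.mem_univ _), smul_sub, sub_eq_add_neg]
  have hratio : ∀ i, ∃ a : E, i ≠ o → algebraMap E F a = d o i1 / d o i := by
    intro i
    by_cases hio : i = o
    · exact ⟨0, fun h' => absurd hio h'⟩
    by_cases hii : i = i1
    · refine ⟨1, fun _ => ?_⟩
      rw [hii, map_one, div_self (hd0 i1 hi1)]
    · obtain ⟨s1, s2⟩ := hsg i i1 (d i i1) hii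
      obtain ⟨b, hb, -⟩ := sp0 (σ (q i i1)) (hqT1 i i1 hii) _ s1 (by rw [s2]; exact (hd i i1 hii).2)
      refine ⟨-(b i) / (b i1), fun _ => ?_⟩
      rw [map_div₀, map_neg, hb i hio, hb i1 hi1, if_pos rfl, if_neg (Ne.symm hii), if_pos rfl]
      have n1 := (hd i i1 hii).1
      have n2 := hd0 i hio
      have n3 := hd0 i1 hi1
      field_simp
  choose a ha using hratio
  have ha0 : ∀ i, i ≠ o → a i ≠ 0 := by
    intro i hi h1
    have h2 := ha i hi
    rw [h1, map_zero] at h2
    exact div_ne_zero (hd0 i1 hi1) (hd0 i hi) h2.symm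
  -- second form
  have sp : ∀ v ∈ hat (rs E K) ((S1 S e σ : Finset V) : Set V), ∀ ρ : Fin N → F, ∑ i, ρ i = 0 →
      v - ∑ i, ρ i • g i ∈ hat K (C : Set V) →
      ∃ r : Fin N → E, ∑ i, r i = 0 ∧ (∀ i, algebraMap E F (r i) = ρ i / d o i1) ∧
        v - ∑ i, r i • (if i = o then 0 else (-(a i)) • σ (q o i)) ∈
          hat (rs E K) (((C.erase e).image σ ∪ Ds : Finset V) : Set V) := by
    intro v hv ρ hρ hvρ
    obtain ⟨b, hb, hb'⟩ := sp0 v hv ρ hρ hvρ
    have hr0 : ∀ i, i ≠ o → algebraMap E F (-(b i) / a i) = ρ i / d o i1 := by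
      intro i hi
      rw [map_div₀, map_neg, hb i hi, ha i hi]
      have n2 := hd0 i hi
      have n3 := hd0 i1 hi1
      field_simp
    have hre : ∀ (f : Fin N → E), ∀ i ∈ univ.erase o,
        (if i = o then -∑ j ∈ univ.erase o, f j else f i) = f i :=
      fun f i hi => if_neg (Finset.ne_of_mem_erase hi)
    refine ⟨fun i => if i = o then -∑ j ∈ univ.erase o, (-(b j) / a j) else -(b i) / a i, ?_, ?_, ?_⟩
    · rw [← Finset.add_sum_erase univ _ (Finset.mem_univ o), if_pos rfl,
        Finset.sum_congr rfl (hre fun i => -(b i) / a i), neg_add_cancel]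
    · intro i
      by_cases hi : i = o
      · simp only [if_pos hi]
        rw [map_neg, map_sum, Finset.sum_congr rfl fun j hj => hr0 j (Finset.ne_of_mem_erase hj), ← Finset.sum_div,
          hi, ← neg_div]
        congr 1
        rw [← Finset.add_sum_erase univ _ (Finset.mem_univ o)] at hρ
        linear_combination -hρ
      · simp only [if_neg hi]
        exact hr0 i hi
    · have h1 : ∑ i, (if i = o then -∑ j ∈ univ.erase o, (-(b j) / a j) else -(b i) / a i) •
          (if i = o then (0 : V) else (-(a i)) • σ (q o i)) = ∑ i ∈ univ.erase o, b i • σ (q o i) := by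
        rw [← Finset.add_sum_erase univ _ (Finset.mem_univ o)]
        rw [if_pos rfl, if_pos rfl, smul_zero, zero_add]
        refine Finset.sum_congr rfl fun i hi => ?_
        have hi' := Finset.ne_of_mem_erase hi
        rw [if_neg hi', if_neg hi', smul_smul]
        congr 1
        have := ha0 i hi'
        field_simp
      simp only
      rw [h1]
      exact hb'
  refine ⟨fun i => if i = o then 0 else (-(a i)) • σ (q o i), ?_, ?_, ?_, ?_, ?_, ?_, ?_⟩
  · -- subset
    intro x hx
    rw [Finset.mem_union] at hx ⊢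
    rcases hx with hx | hx
    · left
      obtain ⟨x0, hx0, rfl⟩ := Finset.mem_image.1 hx
      exact mem_S1 (h.CS (Finset.mem_of_mem_erase hx0)) (Finset.ne_of_mem_erase hx0)
    · exact Or.inr hx
  · -- independence of the contracted set
    intro r hr
    have hsub : (C.erase e).image σ ⊆ S1 S e σ :=
      Finset.image_subset_image (Finset.erase_subset_erase e h.CS)
    have hdis : Disjoint ((C.erase e).image σ) Ds := (hL.disjoint hDse).mono_left hsub
    have hinj : Set.InjOn σ ((C.erase e : Finset V) : Set V) :=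
      hL.injOn.mono (Finset.coe_subset.2 ((Finset.erase_subset e C).trans h.CS))
    rw [Finset.sum_union hdis, Finset.sum_image hinj] at hr
    have h1 : ∑ x ∈ Ds, r x • x ∈ hat K {e} := by
      have h2 : ∑ x ∈ Ds, r x • x ∈ liftD E K (S1 S e σ) e :=
        Submodule.sum_mem _ fun x hx => Submodule.smul_mem _ _ (hDse x hx)
      exact h2.2
    have h2 : ∑ x ∈ C.erase e, (algebraMap E F (r (σ x))) • σ x ∈ hat K {e} := by
      have h3 : ∑ x ∈ C.erase e, (algebraMap E F (r (σ x))) • σ x =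
          (∑ x ∈ C.erase e, r (σ x) • σ x + ∑ x ∈ Ds, r x • x) - ∑ x ∈ Ds, r x • x := by
        rw [add_sub_cancel_right]
        exact Finset.sum_congr rfl fun x _ => algebraMap_smul F _ _
      rw [h3]
      exact Submodule.sub_mem _ (le_hat K _ hr) h1
    have h3 := ind_C h hL he _ h2
    have h4 : ∀ x ∈ C.erase e, r (σ x) = 0 := fun x hx =>
      (map_eq_zero_iff _ (algebraMap E F).injective).1 (h3 x hx)
    have h5 : ∑ x ∈ C.erase e, r (σ x) • σ x = 0 :=
      Finset.sum_eq_zero fun x hx => by rw [h4 x hx, zero_smul]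
    rw [h5, zero_add] at hr
    intro x hx
    rcases Finset.mem_union.1 hx with hx | hx
    · obtain ⟨x0, hx0, rfl⟩ := Finset.mem_image.1 hx
      exact h4 x0 hx0
    · exact hDi r hr x hx
  · -- independence of the vertices
    intro r hr hr'
    have h1 := hC'C _ hr'
    have h2 : ∀ i, (if i = o then (0 : V) else (-(a i)) • σ (q o i)) - d o i1 • (g i - g o) ∈
        hat K (C : Set V) := by
      intro i
      by_cases hi : i = o
      · rw [if_pos hi, hi, sub_self, smul_zero, sub_zero]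
        exact Submodule.zero_mem _
      · rw [if_neg hi]
        have h3 := Submodule.smul_mem _ (-(d o i1 / d o i)) (hdg i hi)
        have h4 : (-(a i)) • σ (q o i) - d o i1 • (g i - g o) =
            (-(d o i1 / d o i)) • (σ (q o i) - d o i • (g o - g i)) := by
          rw [smul_sub (-(d o i1 / d o i)), smul_smul, neg_mul, div_mul_cancel₀ _ (hd0 i hi), neg_smul (d o i1),
            ← neg_sub (g i) (g o), smul_neg, neg_neg, ← ha i hi, ← map_neg, algebraMap_smul]
        rw [h4]
        exact h3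
    have hρ : ∑ i, algebraMap E F (r i) * d o i1 = 0 := by
      rw [← Finset.sum_mul, ← map_sum, hr, map_zero, zero_mul]
    have h3 := h.gind (fun i => algebraMap E F (r i) * d o i1) hρ (by
      have h4 : ∑ i, (algebraMap E F (r i) * d o i1) • g i =
          ∑ i, r i • (if i = o then (0 : V) else (-(a i)) • σ (q o i)) -
          ∑ i, algebraMap E F (r i) • ((if i = o then (0 : V) else (-(a i)) • σ (q o i)) -
            d o i1 • (g i - g o)) := by
        rw [sum_conv _ hρ g o, Finset.sum_erase _ (by rw [sub_self, smul_zero]), ← Finset.sum_sub_distrib]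
        refine Finset.sum_congr rfl fun i _ => ?_
        rw [smul_sub (algebraMap E F (r i)) (if i = o then (0 : V) else (-(a i)) • σ (q o i)),
          algebraMap_smul F (r i) (if i = o then (0 : V) else (-(a i)) • σ (q o i)), sub_sub_cancel, smul_smul]
      rw [h4]
      exact Submodule.sub_mem _ h1 (Submodule.sum_mem _ fun i _ => Submodule.smul_mem _ _ (h2 i)))
    funext i
    have h4 := congrFun h3 i
    have h5 := (mul_eq_zero.1 h4).resolve_right (hd0 i1 hi1)
    exact (map_eq_zero_iff _ (algebraMap E F).injective).1 h5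
  · intro i j hij
    exact Finset.mem_union_left _ (hqT i j hij)
  · intro i j
    exact congrArg σ (h.qsymm i j)
  · -- the edges
    intro i j hij
    obtain ⟨s1, s2⟩ := hsg i j (d i j) hij
    obtain ⟨r, hr1, hr2, hr3⟩ := sp (σ (q i j)) (hqT1 i j hij) _ s1 (by rw [s2]; exact (hd i j hij).2)
    have ri : algebraMap E F (r i) = d i j / d o i1 := by
      rw [hr2 i, if_pos rfl]
    have rj : r j = -r i := by
      apply (algebraMap E F).injective
      rw [hr2 j, if_neg (Ne.symm hij), if_pos rfl, map_neg, ri, neg_div]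
    have rt : ∀ t, t ≠ i → t ≠ j → r t = 0 := by
      intro t h1 h2
      apply (algebraMap E F).injective
      rw [hr2 t, if_neg h1, if_neg h2, zero_div, map_zero]
    refine ⟨r i, ?_, ?_⟩
    · intro h1
      rw [h1, map_zero] at ri
      exact div_ne_zero (hd i j hij).1 (hd0 i1 hi1) ri.symm
    · have h1 : ∀ f : Fin N → V, ∑ t, r t • f t = r i • (f i - f j) := by
        intro f
        rw [← Finset.add_sum_erase univ _ (Finset.mem_univ i),
          ← Finset.add_sum_erase (univ.erase i) _ (Finset.mem_erase.2 ⟨Ne.symm hij, Finset.mem_univ j⟩),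
          Finset.sum_eq_zero, add_zero, rj, neg_smul, smul_sub, sub_eq_add_neg]
        intro t ht
        rw [Finset.mem_erase, Finset.mem_erase] at ht
        rw [rt t ht.2.1 ht.1, zero_smul]
      rw [h1] at hr3
      exact hr3
  · -- spanning
    intro x hx
    rcases Finset.mem_union.1 hx with hx | hx
    · obtain ⟨x0, hx0, rfl⟩ := Finset.mem_image.1 hx
      obtain ⟨ρ, hρ, hρ'⟩ := h.span x0 (Finset.mem_of_mem_erase hx0)
      obtain ⟨c, -, hc⟩ := hL.sc x0
      obtain ⟨r, hr1, -, hr3⟩ := sp (σ x0) (subset_hat _ _ (Finset.mem_coe.2 hx)) (fun i => c * ρ i)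
        (by rw [← Finset.mul_sum, hρ, mul_zero]) (by
          have h1 : σ x0 - ∑ i, (c * ρ i) • g i = c • (x0 - ∑ i, ρ i • g i) := by
            rw [hc, smul_sub, Finset.smul_sum]
            congr 1
            exact Finset.sum_congr rfl fun i _ => mul_smul _ _ _
          rw [h1]
          exact Submodule.smul_mem _ _ hρ')
      exact ⟨r, hr1, hr3⟩
    · refine ⟨0, by simp, ?_⟩
      simp only [Pi.zero_apply, zero_smul, Finset.sum_const_zero, sub_zero]
      exact subset_hat _ _ (Finset.mem_coe.2 (Finset.mem_union_right _ hx))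

end Pool.Agent.SFT
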