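import Pool.Agent.SFT.Ro3
import Pool.Agent.SFT.Qe
import Pool.Agent.SFT.Qc
import Pool.Agent.SFT.Li1
import Pool.Agent.SFT.Li3
import Pool.Agent.SFT.Li4

/-!
# SFT-Lv2d: level two, uncontraction (2.6, 5.4)

`N0 := ` the bound of `rooting E ℓ n1`, `n1 := max (ℓ + 1) (max n0 1)`, and at least 3. By contradiction. `exists_lift`: `L, σ`,
`T := S1 S e σ`. `conf_insert_of_small`, `Lift.conf`: `finrank (rs E K) + 2 ≤ finrank (liftD E K T e)`. `exists_basis_mod` over `E`: `Ds`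
(with its independence), `Ds.card ≤ finrank E F ≤ ℓ` (`finrank_liftD_le`); `Lift.disjoint`. `IsQ.lift`: `g'`.
`rooting` for `(rs E K, T ∪ Ds)`, `X0 = Ds`: `rq E (σ ∘ q) Ds = 0` (no `σ (q i j)` is in `Ds`: they are in `T`);
`lam ≤ Ds.card ≤ ℓ` (`lam_le_card`); for small `X1 ⊇ Ds`: `Lift.two_le` with `sm = QSmall F ℓ S q`: `insert e {x ∈ S.erase e | σ x ∈ X1}` is
`QSmall`: `rq_field` (`σ (q i j) ∈ X1 ↔ q i j ∈ insert e {..}`, as `q i j ≠ e`, `q i j ∈ S`). Result `J`, `B ⊆ T`. `lift_finish`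
(`hat (hat J) Ds = hat J ⊔ liftD`), `Lift.hasN`, against `no`.
-/

namespace Pool.Agent.SFT

open Finset Module

theorem exists_uncontract (E F : Type) [Field E] [Field F] [Algebra E F]
    [FiniteDimensional E F] [Finite F] {m n0 : ℕ} (hz : ZN E F m n0) (ℓ : ℕ) (hℓ : 1 ≤ ℓ)
    (hs : finrank E F ≤ ℓ) : ∃ N0 : ℕ, ∀ N, N0 ≤ N →
    ∀ (V : Type) [AddCommGroup V] [Module F V] [Module E V] [IsScalarTower E F V]
      [DecidableEq V] [FiniteDimensional F V] [FiniteDimensional E V]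
      (K : Submodule F V) (S C : Finset V) (g : Fin N → V) (q : Fin N → Fin N → V) (e : V),
      Hyp2 E m ℓ K S C g q → Tight K S (QSmall F ℓ S q) → e ∈ C →
      Conf E (hat K {e}) ((S.erase e : Finset V) : Set V) → Conf E K (S : Set V) := by
  have hfin : Finite E := Finite.of_injective (algebraMap E F) (algebraMap E F).injective
  obtain ⟨N1, hN1⟩ := rooting E ℓ (max (ℓ + 1) (max n0 1)) hℓ (by omega)
  refine ⟨max N1 3, fun N hN V _ _ _ _ _ _ _ K S C g q e h ht heC hc => ?_⟩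
  have hN3 : 3 ≤ N := le_trans (le_max_right _ _) hN
  have hN1' : N1 ≤ N := le_trans (le_max_left _ _) hN
  have heS : e ∈ S := h.isq.CS heC
  by_contra hcon
  obtain ⟨L, σ, hL⟩ := exists_lift heS ht.nz ht.npar hc
  have hD2 : finrank E (rs E K) + 2 ≤ finrank E (liftD E K (S1 S e σ) e) := by
    by_contra hlt
    exact hcon (hL.conf (conf_insert_of_small hL.form hL.mem_L (ht.nz e heS) (by omega)))
  obtain ⟨Ds, hDsm, hDs, hDc, hDi⟩ := exists_basis_mod (le_liftD (E := E) K (S1 S e σ) e)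
  have hcard : Ds.card ≤ ℓ := by
    have h1 := finrank_liftD_le (E := E) K (S1 S e σ) e
    omega
  have hdis := hL.disjoint hDsm
  obtain ⟨g', hg'⟩ := h.isq.lift hN3 hL heC hDs hDi
  have hX0 : QSmall E ℓ (S1 S e σ ∪ Ds) (fun i j => σ (q i j)) Ds :=
    ⟨subset_union_right, (rq_le_card hg' Ds).trans hcard⟩
  have hlam : lam (rs E K) (S1 S e σ ∪ Ds) Ds ≤ ℓ := (lam_le_card _ _ _).trans hcard
  have h2 : ∀ X1, Ds ⊆ X1 → QSmall E ℓ (S1 S e σ ∪ Ds) (fun i j => σ (q i j)) X1 →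
      2 ≤ lam (rs E K) (S1 S e σ ∪ Ds) X1 := by
    intro X1 hDX hX1
    refine hL.two_le ht hDs hdis hD2 hDX hX1.1 ⟨?_, ?_⟩
    · intro x hx
      rcases mem_insert.1 hx with rfl | hx
      · exact heS
      · exact mem_of_mem_erase (mem_filter.1 hx).1
    · refine le_trans (le_of_eq (rq_field (E := E) (q := q) (q' := fun i j => σ (q i j))
        (X' := X1) ?_).symm) hX1.2
      intro i j hij
      have hqS := h.isq.qS i j hij
      have hqe : q i j ≠ e := by
        intro h3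
        apply h.isq.q_not_mem hij
        rw [h3]
        exact subset_hat K _ (mem_coe.2 heC)
      constructor
      · intro h3
        exact mem_insert_of_mem (mem_filter.2 ⟨mem_erase.2 ⟨hqe, hqS⟩, h3⟩)
      · intro h3
        rcases mem_insert.1 h3 with h4 | h4
        · exact absurd h4 hqe
        · exact (mem_filter.1 h4).2
  obtain ⟨J, B, f, hJ, hB, hJD, hbc, hdim⟩ := hN1 N hN1' V (rs E K) (S1 S e σ ∪ Ds)
    ((C.erase e).image σ ∪ Ds) Ds g' (fun i j => σ (q i j)) hg' hX0 hlam h2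
  have hsub : ∀ X : Finset V, X ⊆ (S1 S e σ ∪ Ds) \ Ds → X ⊆ S1 S e σ := by
    intro X hX x hx
    have h3 := mem_sdiff.1 (hX hx)
    rcases mem_union.1 h3.1 with h4 | h4
    · exact h4
    · exact absurd h4 h3.2
  refine h.no (hL.hasN (lift_finish hz (by omega) (by omega) (by omega) (by omega) hL.form hL.mem_L
    (hsub J hJ) (hsub B hB) hbc ?_ ?_))
  · rw [← hDs]
    exact hJD
  · have h3 : hat (hat (rs E K) (J : Set V)) (Ds : Set V) =
        hat (rs E K) (J : Set V) ⊔ liftD E K (S1 S e σ) e := by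
      rw [hat_hat, hat_union, hDs]
    rw [← h3]
    exact hdim

end Pool.Agent.SFT
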