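import Pool.Agent.SFT.Qb
import Pool.Agent.SFT.Z1

/-!
# SFT-Qf: level two, the case without contracted elements (5.3)

`hat K C = K`. `N = n0' + n'` with `n0' := max n0 1`, `n' ≥ n0'`. `g' : Fin n0' ⊕ Fin n' → V`, `g' (inl i) = g (castAdd i)`,
`g' (inr l) = g (natAdd l)`; `B := ` the image of the pairs `(i, l)` under `q`. `IsBC K g' B` (`ind`: `gind` for the function on
`Fin N` which corresponds to `r`, `Fin.sum_univ_add`; `uniq`: `IsQ.inj`). Every `x ∈ S` is in `hat K B`: `span` and `IsBC.sum_mem`.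
`conf_of_bc`.
-/

namespace Pool.Agent.SFT

open Finset Module

variable {E F V : Type} [Field E] [Field F] [Algebra E F] [AddCommGroup V] [Module F V]
  [Module E V] [IsScalarTower E F V]
  [DecidableEq V] [FiniteDimensional E F] [FiniteDimensional F V] {K : Submodule F V}
  {S C : Finset V} {N : ℕ} {g : Fin N → V} {q : Fin N → Fin N → V}

theorem IsQ.conf_of_empty {m n0 : ℕ} (hz : ZN E F m n0) (hN : 2 * n0 + 2 ≤ N)
    (h : IsQ K S C g q) (no : ¬ HasN E m K S) (hC : C = ∅) : Conf E K (S : Set V) := by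
  obtain ⟨n', rfl⟩ : ∃ n', N = (n0 + 1) + n' := ⟨N - (n0 + 1), by omega⟩
  have hK : hat K (C : Set V) = K := by
    rw [hC, coe_empty, hat_empty]
  obtain ⟨e, -⟩ : ∃ e : Fin (n0 + 1) ⊕ Fin n' ≃ Fin (n0 + 1 + n'), e = finSumFinEquiv := ⟨_, rfl⟩
  have hne : ∀ i l, e (Sum.inl i) ≠ e (Sum.inr l) := fun i l h0 => Sum.inl_ne_inr (e.injective h0)
  obtain ⟨B, hB⟩ : ∃ B : Finset V, B = univ.image fun p : Fin (n0 + 1) × Fin n' => q (e (Sum.inl p.1)) (e (Sum.inr p.2)) :=
    ⟨_, rfl⟩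
  have hBm : ∀ b ∈ B, ∃ i l, b = q (e (Sum.inl i)) (e (Sum.inr l)) := by
    intro b hb
    rw [hB, mem_image] at hb
    obtain ⟨p, -, hp⟩ := hb
    exact ⟨p.1, p.2, hp.symm⟩
  have hmB : ∀ i l, q (e (Sum.inl i)) (e (Sum.inr l)) ∈ B := by
    intro i l
    rw [hB, mem_image]
    exact ⟨(i, l), mem_univ _, rfl⟩
  have hbc : IsBC K (fun v => g (e v)) B := by
    refine ⟨fun r hr hr2 => ?_, fun i l => ?_, fun b hb => ?_, fun b hb b' hb' c hc => ?_⟩
    · have h1 : ∑ i, r (e.symm i) = 0 := by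
        rw [e.symm.sum_comp r]
        exact hr
      have h2 : ∑ i, r (e.symm i) • g i = ∑ v, r v • g (e v) := by
        rw [← e.sum_comp]
        refine sum_congr rfl fun v _ => ?_
        rw [e.symm_apply_apply]
      have h3 := h.gind (fun i => r (e.symm i)) h1 (by rw [hK, h2]; exact hr2)
      funext v
      have h4 := congrFun h3 (e v)
      rw [e.symm_apply_apply] at h4
      exact h4
    · obtain ⟨c, hc, h1⟩ := h.qg _ _ (hne i l)
      rw [hK] at h1
      exact ⟨_, hmB i l, c, hc, h1⟩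
    · obtain ⟨i, l, rfl⟩ := hBm b hb
      obtain ⟨c, hc, h1⟩ := h.qg _ _ (hne i l)
      rw [hK] at h1
      exact ⟨i, l, c, hc, h1⟩
    · obtain ⟨i, l, rfl⟩ := hBm b hb
      obtain ⟨i', l', rfl⟩ := hBm b' hb'
      rcases h.inj (hne i l) (hne i' l') (by rw [hK]; exact hc) with ⟨h1, h2⟩ | ⟨h1, h2⟩
      · rw [h1, h2]
      · exact absurd h1 (hne i l')
  have hBS : B ⊆ S := by
    intro b hb
    obtain ⟨i, l, rfl⟩ := hBm b hb
    exact h.qS _ _ (hne i l)
  refine conf_of_bc hz (n := n0 + 1) (n' := n') (by omega) (by omega) (by omega) (by omega) hbc hBS no ?_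
  intro x hx
  obtain ⟨r, hr, hr2⟩ := h.span x hx
  rw [hK] at hr2
  rw [hbc.mem_hat (by omega) (by omega)]
  refine ⟨fun v => r (e v), ?_, ?_⟩
  · rw [e.sum_comp r]
    exact hr
  · have h2 : ∑ v, r (e v) • g (e v) = ∑ i, r i • g i := e.sum_comp (fun i => r i • g i)
    rw [h2]
    exact hr2

end Pool.Agent.SFT
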