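import Pool.Agent.SFT.Defs

/-!
# SFT-Zp: bundles and pieces (Lemma Z)

`p := ringChar F`, `p > 0` (`F` finite), `(p : F) = 0`. `n0 := (u + 1) + p * (u + 1 + m + 1) * Fintype.card Γ0`, where `Γ0` is
large enough for the dual of `U`: `Fin u → F` (the functional of a vertex on `U`, written in a basis of `U`
extended by zero: a map `J → (Fin u → F)`, `v ↦ c v`, such that `c v = c v'` implies `x v = x v'` for all `x ∈ U`).
Left side: the vertices `inl i` which are not `w _` are at least `n - (u + 1)`; some colour occurs at least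
`p * (u + 1 + m + 1)` times among them (`Finset.exists_le_card_fiber_of_mul_le_card_of_maps_to`); take
`M := p * (t + m + 1)` of them (`t ≤ u + 1`), enumerated by `a : Fin p × (Option (Fin t ⊕ Fin m)) → Fin n` injective (or any
equivalent indexing). The same on the right side: `a'`. Define `π v`: `some (inl i)` if `v = w i`; `q` if
`v = inl (a (_, q))` or `v = inr (a' (_, q))`; `none` otherwise. Every label has a vertex on both sides. The sum of `x v`
over the label `some (inr j)` is `p * x (inl a..) + p * x (inr a'..) = 0`; over the label `some (inl i)` it is this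
plus `x (w i)`.
-/

namespace Pool.Agent.SFT

open Finset Module

/-- many elements with the same colour, outside a small set -/
private theorem pick {X Γ J : Type} [Fintype X] [DecidableEq X] [Fintype Γ] [DecidableEq Γ] [Nonempty Γ]
    [Fintype J] (c : X → Γ) (W : Finset X) (N : ℕ) (h : W.card + Fintype.card Γ * N ≤ Fintype.card X)
    (hJ : Fintype.card J ≤ N) :
    ∃ a : J → X, Function.Injective a ∧ (∀ j, a j ∉ W) ∧ ∀ j j', c (a j) = c (a j') := by
  classical
  have h1 : (univ : Finset Γ).card * N ≤ Wᶜ.card := by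
    rw [Finset.card_compl, Finset.card_univ]
    omega
  obtain ⟨y, -, hy⟩ := Finset.exists_le_card_fiber_of_mul_le_card_of_maps_to (s := Wᶜ) (t := univ)
    (f := c) (fun a _ => Finset.mem_univ _) Finset.univ_nonempty h1
  obtain ⟨T, hT⟩ : ∃ T : Finset X, T = {x ∈ Wᶜ | c x = y} := ⟨_, rfl⟩
  rw [← hT] at hy
  have h2 : Fintype.card J ≤ Fintype.card T := by
    rw [Fintype.card_coe]
    exact hJ.trans hy
  obtain ⟨e⟩ := Function.Embedding.nonempty_of_card_le h2
  have hm : ∀ j, (e j : X) ∉ W ∧ c (e j) = y := by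
    intro j
    have h6 : ∀ z ∈ T, z ∈ Wᶜ ∧ c z = y := by
      rw [hT]
      exact fun z hz => Finset.mem_filter.1 hz
    obtain ⟨h4, h5⟩ := h6 _ (e j).2
    exact ⟨Finset.mem_compl.1 h4, h5⟩
  refine ⟨fun j => e j, fun j j' hj => e.injective (Subtype.ext hj), fun j => (hm j).1, fun j j' => ?_⟩
  rw [(hm j).2, (hm j').2]

/-- coordinates of the functionals of the points on a subspace of bounded dimension -/
private theorem colour {F X : Type} [Field F] [Fintype X] (U : Submodule F (X → F)) {u : ℕ}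
    (hU : finrank F U ≤ u) : ∃ c : X → (Fin u → F), ∀ v v', c v = c v' → ∀ x ∈ U, x v = x v' := by
  classical
  let b := Module.finBasis F U
  refine ⟨fun v i => if h : (i : ℕ) < finrank F U then (b ⟨i, h⟩ : X → F) v else 0, ?_⟩
  intro v v' hv x hx
  have h1 : ∀ i : Fin (finrank F U), (b i : X → F) v = (b i : X → F) v' := by
    intro i
    have h2 := congrFun hv ⟨i, lt_of_lt_of_le i.2 hU⟩
    simp only [i.2, dite_true] at h2
    exact h2
  have h3 : x = ∑ i, (b.repr ⟨x, hx⟩ i) • (b i : X → F) := by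
    have h4 := congrArg (Subtype.val : U → (X → F)) (b.sum_repr ⟨x, hx⟩)
    rw [Submodule.coe_sum] at h4
    exact h4.symm
  rw [h3, Finset.sum_apply, Finset.sum_apply]
  refine Finset.sum_congr rfl fun i _ => ?_
  rw [Pi.smul_apply, Pi.smul_apply, h1]

private theorem sum_zero {F J : Type} [Field F] [Fintype J] [DecidableEq J] {p : ℕ} (hp : (p : F) = 0)
    (f : J × Fin p → F) (h : ∀ z z', f z = f z') (q : J) : ∑ z, (if z.1 = q then f z else 0) = 0 := by
  rw [Fintype.sum_prod_type, Finset.sum_eq_single q]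
  · simp only [if_true]
    by_cases h0 : p = 0
    · subst h0
      simp
    · rw [Finset.sum_congr rfl fun r _ => h (q, r) (q, ⟨0, Nat.pos_of_ne_zero h0⟩), Finset.sum_const,
        Finset.card_univ, Fintype.card_fin, nsmul_eq_mul, hp, zero_mul]
  · intro b _ hb
    simp only [if_neg hb, Finset.sum_const_zero]
  · intro h1
    exact absurd (Finset.mem_univ q) h1

theorem exists_pieces (F : Type) [Field F] [Finite F] (u m : ℕ) :
    ∃ n0, ∀ n n', n0 ≤ n → n0 ≤ n' → ∀ U : Submodule F (Fin n ⊕ Fin n' → F),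
      finrank F U ≤ u → ∀ (t : ℕ) (w : Fin t → Fin n ⊕ Fin n'), t ≤ u + 1 →
      Function.Injective w →
      ∃ π : Fin n ⊕ Fin n' → Option (Fin t ⊕ Fin m),
        (∀ p, ∃ i, π (Sum.inl i) = p) ∧ (∀ p, ∃ l, π (Sum.inr l) = p) ∧
        (∀ i, ∀ x ∈ U, ∑ v with π v = some (Sum.inl i), x v = x (w i)) ∧
        ∀ j, ∀ x ∈ U, ∑ v with π v = some (Sum.inr j), x v = 0 := by
  classical
  have := Fintype.ofFinite F
  obtain ⟨p, hp⟩ : ∃ p, p = ringChar F := ⟨_, rfl⟩
  have hp0 : (p : F) = 0 := by
    rw [hp]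
    exact ringChar.Nat.cast_ringChar
  have hpos : 0 < p := by
    rw [hp]
    have := CharP.char_is_prime_or_zero F (ringChar F)
    rcases this with h | h
    · exact h.pos
    · exfalso
      exact CharP.char_ne_zero_of_finite F (ringChar F) h
  refine ⟨(u + 1) + Fintype.card (Fin u → F) * ((u + 1 + m + 1) * p), ?_⟩
  intro n n' hn hn' U hU t w ht hw
  obtain ⟨c, hc⟩ := colour U hU
  have hJ : Fintype.card (Option (Fin t ⊕ Fin m) × Fin p) ≤ (u + 1 + m + 1) * p := by
    rw [Fintype.card_prod, Fintype.card_option, Fintype.card_sum, Fintype.card_fin, Fintype.card_fin,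
      Fintype.card_fin]
    exact Nat.mul_le_mul_right p (by omega)
  have hWl : (univ.filter fun i : Fin n => ∃ k, w k = Sum.inl i).card ≤ u + 1 := by
    refine le_trans ?_ ht
    calc (univ.filter fun i : Fin n => ∃ k, w k = Sum.inl i).card ≤ (univ.image w).card := by
          refine Finset.card_le_card_of_injOn Sum.inl ?_ (Sum.inl_injective.injOn)
          intro i hi
          obtain ⟨k, hk⟩ := (Finset.mem_filter.1 hi).2
          exact Finset.mem_coe.2 (Finset.mem_image.2 ⟨k, Finset.mem_univ _, hk⟩)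
      _ ≤ t := by
          refine Finset.card_image_le.trans ?_
          rw [Finset.card_univ, Fintype.card_fin]
  have hWr : (univ.filter fun i : Fin n' => ∃ k, w k = Sum.inr i).card ≤ u + 1 := by
    refine le_trans ?_ ht
    calc (univ.filter fun i : Fin n' => ∃ k, w k = Sum.inr i).card ≤ (univ.image w).card := by
          refine Finset.card_le_card_of_injOn Sum.inr ?_ (Sum.inr_injective.injOn)
          intro i hi
          obtain ⟨k, hk⟩ := (Finset.mem_filter.1 hi).2
          exact Finset.mem_coe.2 (Finset.mem_image.2 ⟨k, Finset.mem_univ _, hk⟩)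
      _ ≤ t := by
          refine Finset.card_image_le.trans ?_
          rw [Finset.card_univ, Fintype.card_fin]
  obtain ⟨a, ha, haW, hac⟩ := pick (J := Option (Fin t ⊕ Fin m) × Fin p) (fun i : Fin n => c (Sum.inl i))
    (univ.filter fun i : Fin n => ∃ k, w k = Sum.inl i) ((u + 1 + m + 1) * p) (by
      rw [Fintype.card_fin]
      exact le_trans (Nat.add_le_add_right hWl _) hn) hJ
  obtain ⟨a', ha', haW', hac'⟩ := pick (J := Option (Fin t ⊕ Fin m) × Fin p)
    (fun i : Fin n' => c (Sum.inr i))
    (univ.filter fun i : Fin n' => ∃ k, w k = Sum.inr i) ((u + 1 + m + 1) * p) (by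
      rw [Fintype.card_fin]
      exact le_trans (Nat.add_le_add_right hWr _) hn') hJ
  have hwa : ∀ k z, w k ≠ Sum.inl (a z) := by
    intro k z h
    exact haW z (Finset.mem_filter.2 ⟨Finset.mem_univ _, k, h⟩)
  have hwa' : ∀ k z, w k ≠ Sum.inr (a' z) := by
    intro k z h
    exact haW' z (Finset.mem_filter.2 ⟨Finset.mem_univ _, k, h⟩)
  let e : Fin t ⊕ (Option (Fin t ⊕ Fin m) × Fin p ⊕ Option (Fin t ⊕ Fin m) × Fin p) → Fin n ⊕ Fin n' :=
    Sum.elim w (Sum.elim (fun z => Sum.inl (a z)) (fun z => Sum.inr (a' z)))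
  let lab : Fin t ⊕ (Option (Fin t ⊕ Fin m) × Fin p ⊕ Option (Fin t ⊕ Fin m) × Fin p) →
      Option (Fin t ⊕ Fin m) :=
    Sum.elim (fun k => some (Sum.inl k)) (Sum.elim (fun z => z.1) (fun z => z.1))
  have he : Function.Injective e := by
    rintro (k | z | z) (k' | z' | z') h
    · exact congrArg Sum.inl (hw h)
    · exact absurd h (hwa k z')
    · exact absurd h (hwa' k z')
    · exact absurd h.symm (hwa k' z)
    · exact congrArg (fun z => Sum.inr (Sum.inl z)) (ha (Sum.inl_injective h))
    · exact absurd h (by simp [e])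
    · exact absurd h.symm (hwa' k' z)
    · exact absurd h (by simp [e])
    · exact congrArg (fun z => Sum.inr (Sum.inr z)) (ha' (Sum.inr_injective h))
  obtain ⟨π, hπ⟩ : ∃ π : Fin n ⊕ Fin n' → Option (Fin t ⊕ Fin m),
      π = fun v => if h : ∃ κ, e κ = v then lab h.choose else none := ⟨_, rfl⟩
  have hπe : ∀ κ, π (e κ) = lab κ := by
    intro κ
    have h1 : ∃ κ', e κ' = e κ := ⟨κ, rfl⟩
    rw [hπ]
    simp only [dif_pos h1]
    rw [he h1.choose_spec]
  have hπn : ∀ v, (¬ ∃ κ, e κ = v) → π v = none := by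
    intro v h
    rw [hπ]
    simp only [dif_neg h]
  have hsum : ∀ q, q ≠ none → ∀ x ∈ U, ∑ v with π v = q, x v =
      ∑ k : Fin t, (if some (Sum.inl k) = q then x (w k) else 0) := by
    intro q hq x hx
    have h1 : (univ.filter fun v => π v = q) = (univ.filter fun κ => lab κ = q).image e := by
      ext v
      rw [Finset.mem_filter, Finset.mem_image]
      constructor
      · rintro ⟨-, h2⟩
        by_cases h3 : ∃ κ, e κ = v
        · obtain ⟨κ, rfl⟩ := h3
          rw [hπe] at h2
          exact ⟨κ, Finset.mem_filter.2 ⟨Finset.mem_univ _, h2⟩, rfl⟩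
        · rw [hπn v h3] at h2
          exact absurd h2.symm hq
      · rintro ⟨κ, h2, rfl⟩
        refine ⟨Finset.mem_univ _, ?_⟩
        rw [hπe]
        exact (Finset.mem_filter.1 h2).2
    rw [h1, Finset.sum_image (he.injOn), Finset.sum_filter, Fintype.sum_sum_type, Fintype.sum_sum_type]
    have h2 : (∑ z : Option (Fin t ⊕ Fin m) × Fin p, (if lab (Sum.inr (Sum.inl z)) = q then
        x (e (Sum.inr (Sum.inl z))) else 0)) = 0 :=
      sum_zero hp0 (fun z => x (Sum.inl (a z))) (fun z z' => hc _ _ (hac z z') x hx) q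
    have h3 : (∑ z : Option (Fin t ⊕ Fin m) × Fin p, (if lab (Sum.inr (Sum.inr z)) = q then
        x (e (Sum.inr (Sum.inr z))) else 0)) = 0 :=
      sum_zero hp0 (fun z => x (Sum.inr (a' z))) (fun z z' => hc _ _ (hac' z z') x hx) q
    rw [h2, h3, add_zero, add_zero]
    rfl
  refine ⟨π, fun q => ⟨a (q, ⟨0, hpos⟩), hπe (Sum.inr (Sum.inl (q, ⟨0, hpos⟩)))⟩,
    fun q => ⟨a' (q, ⟨0, hpos⟩), hπe (Sum.inr (Sum.inr (q, ⟨0, hpos⟩)))⟩, ?_, ?_⟩
  · intro i x hx
    rw [hsum _ (by simp) x hx, Finset.sum_eq_single i]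
    · rw [if_pos rfl]
    · intro k _ hk
      rw [if_neg]
      intro h
      exact hk (Sum.inl_injective (Option.some_injective _ h))
    · intro h
      exact absurd (Finset.mem_univ i) h
  · intro j x hx
    rw [hsum _ (by simp) x hx]
    refine Finset.sum_eq_zero fun k _ => ?_
    rw [if_neg]
    intro h
    exact Sum.inl_ne_inr (Option.some_injective _ h)

end Pool.Agent.SFT
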