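import Pool.Agent.SFT.BasA

/-!
# SFT-Zq: the minor obtained from the pieces (Lemma Z)

`m = m' + 2`, `m' ≥ 1`. `A := ` the edges `e_i - e'_l` (`i`, `l` in the same piece: `π (inl i) = π (inr l)`), a subset of
`bip F n n'`. Let `σ : (J → F) →ₗ (pieces → F)`, `σ x p = ∑ v with π v = p, x v`. It vanishes on `A` and
`hat U A ⊆ {x | σ x ∈ σ U}` (only this inclusion and the next fact are needed for independence).
Fact: if `π v = π v'` then `Pi.single v 1 - Pi.single v' 1 ∈ span A ≤ hat U A` (every piece has vertices on both sides: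
if `v`, `v'` are on different sides it is `±` an element of `A`, otherwise go through a vertex of the piece on the other
side). Let `τ p` be a vertex of the piece `p` on the left. Vertices of the minor: `P : Fin (m' + 2) → pieces`,
`P 0 = some (inl 1)`, `P 1 = none`, `P (j + 2) = some (inr j)` (`Fin.cons`); `f j := Pi.single (τ (P j)) 1`.
Independence: `∑ r j • f j ∈ hat U A` gives `σ (∑ r j • f j) = σ y`, `y ∈ U`. At `some (inl i)`, `i ≠ 1`, the left side is zero,
so `y (w i) = 0` for `i ≠ 1`; so `y = y (w 1) • z`, and at `i = 0`: `y (w 1) * z (w 0) = 0`, `z (w 0) ≠ 0` (it is not in `E`), so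
`y (w 1) = 0`, `y = 0`, so `r = 0` (`P` is injective).
Edges: for `j ≠ j'`: the edge `e_i - e'_l` with `i` in `P j`, `l` in `P j'` (both exist), `t = 1`, by the fact.
The element `x`: an edge from the piece `some (inl 0)` to `some (inr 0)`. `z ∈ U ≤ hat U A` is, modulo `span A`, the sum
of its piece sums times `Pi.single (τ p) 1` (by the fact):
`z (w 0) • [some (inl 0)] + [some (inl 1)] - (z (w 0) + 1) • [none]` (the piece sums are `z (w i)`, 0, and the total sum is
zero). So modulo `hat U A`, with `ζ = z (w 0)`: `[inl 0] = - ζ⁻¹ • f 0 + (1 + ζ⁻¹) • f 1` and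
`x = [inl 0] - f 2 = (-1) • f 2 + (-ζ⁻¹) • f 0 - (-1 - ζ⁻¹) • f 1`: `a = 2`, `b = 0`, `c = 1`, `s = -1`, `t = -ζ⁻¹`;
`t = u * s` would give `ζ⁻¹ = u`, `ζ = u⁻¹` in `E`.
-/

namespace Pool.Agent.SFT

open Finset Module

variable {E F : Type} [Field E] [Field F] [Algebra E F]

section zq

variable {J P : Type} [Fintype J] [DecidableEq J] [Fintype P] [DecidableEq P]

/-- piece sums -/
private def zqs (π : J → P) : (J → F) →ₗ[F] (P → F) where
  toFun x p := ∑ v with π v = p, x v
  map_add' x y := by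
    funext p
    exact sum_add_distrib
  map_smul' c x := by
    funext p
    show ∑ v with π v = p, c * x v = c * ∑ v with π v = p, x v
    rw [mul_sum]

omit [DecidableEq J] [Fintype P] in
private theorem zqs_ap (π : J → P) (x : J → F) (p : P) : zqs π x p = ∑ v with π v = p, x v := rfl

omit [Fintype P] in
private theorem zqs_single (π : J → P) (v : J) (c : F) :
    zqs π (Pi.single v c) = Pi.single (π v) c := by
  funext p
  rw [zqs_ap]
  by_cases h : π v = p
  · subst h
    rw [Pi.single_eq_same, sum_eq_single v]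
    · rw [Pi.single_eq_same]
    · intro u _ hu
      rw [Pi.single_eq_of_ne hu]
    · intro h
      exact absurd (mem_filter.2 ⟨mem_univ v, rfl⟩ : v ∈ univ.filter (fun u => π u = π v)) h
  · rw [Pi.single_eq_of_ne (fun h' => h h'.symm), sum_eq_zero]
    intro u hu
    have huv : u ≠ v := by
      rintro rfl
      exact h (mem_filter.1 hu).2
    rw [Pi.single_eq_of_ne huv]

omit [DecidableEq J] in
private theorem zqs_total (π : J → P) (x : J → F) : ∑ p, zqs π x p = ∑ v, x v :=
  sum_fiberwise univ π x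

private theorem zq_dec (x : J → F) : x = ∑ v, x v • (Pi.single v 1 : J → F) := by
  conv_lhs => rw [← univ_sum_single x]
  refine sum_congr rfl fun v _ => ?_
  funext u
  rw [Pi.smul_apply, Pi.single_apply, Pi.single_apply, smul_eq_mul]
  split_ifs
  · rw [mul_one]
  · rw [mul_zero]

private theorem zq_pieces (π : J → P) (τ : P → J) (H : Submodule F (J → F))
    (hH : ∀ v, (Pi.single v 1 : J → F) - Pi.single (τ (π v)) 1 ∈ H) (x : J → F) :
    x - ∑ p, zqs π x p • (Pi.single (τ p) 1 : J → F) ∈ H := by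
  have h1 : ∑ p, zqs π x p • (Pi.single (τ p) 1 : J → F) =
      ∑ v, x v • (Pi.single (τ (π v)) 1 : J → F) := by
    rw [← sum_fiberwise univ π (fun v => x v • (Pi.single (τ (π v)) 1 : J → F))]
    refine sum_congr rfl fun p _ => ?_
    rw [zqs_ap, sum_smul]
    refine sum_congr rfl fun v hv => ?_
    rw [(mem_filter.1 hv).2]
  have h2 : x - ∑ p, zqs π x p • (Pi.single (τ p) 1 : J → F) =
      ∑ v, x v • ((Pi.single v 1 : J → F) - Pi.single (τ (π v)) 1) := by
    rw [h1]
    conv_lhs => rw [zq_dec x]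
    rw [← sum_sub_distrib]
    refine sum_congr rfl fun v _ => ?_
    rw [smul_sub]
    congr 2
    conv_rhs => rw [zq_dec x]
  rw [h2]
  exact H.sum_mem fun v _ => H.smul_mem _ (hH v)

end zq

/-- the vertices of the minor -/
private def zqP (t m' : ℕ) : Fin (m' + 2) → Option (Fin (t + 2) ⊕ Fin m') :=
  Fin.cons (some (Sum.inl 1)) (Fin.cons none fun j => some (Sum.inr j))

private theorem zqP_inj (t m' : ℕ) : Function.Injective (zqP t m') := by
  intro i j
  refine Fin.cases ?_ (fun i => ?_) i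
  · refine Fin.cases (fun _ => rfl) (fun j => ?_) j
    refine Fin.cases (fun h => ?_) (fun j => ?_) j
    · exact absurd h (by simp [zqP])
    · intro h
      exact absurd h (by simp [zqP])
  · refine Fin.cases ?_ (fun i => ?_) i
    · refine Fin.cases (fun h => absurd h (by simp [zqP])) (fun j => ?_) j
      refine Fin.cases (fun _ => rfl) (fun j h => absurd h (by simp [zqP])) j
    · refine Fin.cases (fun h => absurd h (by simp [zqP])) (fun j => ?_) j
      refine Fin.cases (fun h => absurd h (by simp [zqP])) (fun j h => ?_) j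
      have h1 : i = j := by simpa [zqP] using h
      rw [h1]

private theorem zqP_ne (t m' : ℕ) (j : Fin (m' + 2)) (i : Fin (t + 2)) (hi : i ≠ 1) :
    zqP t m' j ≠ some (Sum.inl i) := by
  refine Fin.cases ?_ (fun j => ?_) j
  · intro h
    have h1 : (1 : Fin (t + 2)) = i := by simpa [zqP] using h
    exact hi h1.symm
  · refine Fin.cases ?_ (fun j => ?_) j
    · simp [zqP]
    · simp [zqP]

theorem hasN_of_pieces {m' n n' t : ℕ} (hm : 1 ≤ m') {U : Submodule F (Fin n ⊕ Fin n' → F)}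
    (hU : ∀ x ∈ U, ∑ v, x v = 0) {w : Fin (t + 2) → Fin n ⊕ Fin n'} {z : Fin n ⊕ Fin n' → F}
    (hz : z ∈ U) (hz1 : z (w 1) = 1) (hz0 : ∀ a : E, algebraMap E F a ≠ z (w 0))
    (hzi : ∀ i, i ≠ 0 → i ≠ 1 → z (w i) = 0)
    (hy : ∀ y ∈ U, (∀ i, i ≠ 0 → i ≠ 1 → y (w i) = 0) → y = y (w 1) • z)
    {π : Fin n ⊕ Fin n' → Option (Fin (t + 2) ⊕ Fin m')}
    (h1 : ∀ p, ∃ i, π (Sum.inl i) = p) (h2 : ∀ p, ∃ l, π (Sum.inr l) = p)
    (h3 : ∀ i, ∀ x ∈ U, ∑ v with π v = some (Sum.inl i), x v = x (w i))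
    (h4 : ∀ j, ∀ x ∈ U, ∑ v with π v = some (Sum.inr j), x v = 0) :
    HasN E (m' + 2) U (bip F n n') := by
  classical
  set ζ := z (w 0) with hζ
  have hζ0 : ζ ≠ 0 := by
    intro h
    exact hz0 0 (by rw [map_zero, h])
  set A : Finset (Fin n ⊕ Fin n' → F) :=
    (univ.filter (fun p : Fin n × Fin n' => π (Sum.inl p.1) = π (Sum.inr p.2))).image
      (fun p => (Pi.single (Sum.inl p.1) 1 - Pi.single (Sum.inr p.2) 1 : Fin n ⊕ Fin n' → F)) with hA
  have hAb : A ⊆ bip F n n' := by
    intro x hx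
    obtain ⟨p, -, rfl⟩ := mem_image.1 hx
    unfold bip
    exact mem_image.2 ⟨p, mem_univ _, rfl⟩
  set H : Submodule F (Fin n ⊕ Fin n' → F) := hat U (A : Set (Fin n ⊕ Fin n' → F)) with hH
  have hUH : U ≤ H := le_sup_left
  have hAH : ∀ x ∈ A, x ∈ H := fun x hx =>
    (le_sup_right : Submodule.span F (A : Set (Fin n ⊕ Fin n' → F)) ≤ H) (Submodule.subset_span hx)
  have hlr : ∀ i l, π (Sum.inl i) = π (Sum.inr l) →
      (Pi.single (Sum.inl i) 1 - Pi.single (Sum.inr l) 1 : Fin n ⊕ Fin n' → F) ∈ H := by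
    intro i l hil
    exact hAH _ (mem_image.2 ⟨(i, l), mem_filter.2 ⟨mem_univ _, hil⟩, rfl⟩)
  have hsame : ∀ v v', π v = π v' →
      (Pi.single v 1 - Pi.single v' 1 : Fin n ⊕ Fin n' → F) ∈ H := by
    intro v v' hv
    obtain ⟨l, hl⟩ := h2 (π v)
    obtain ⟨i, hi⟩ := h1 (π v)
    rcases v with i1 | l1
    · rcases v' with i2 | l2
      · have e : (Pi.single (Sum.inl i1) 1 - Pi.single (Sum.inl i2) 1 : Fin n ⊕ Fin n' → F) =
            (Pi.single (Sum.inl i1) 1 - Pi.single (Sum.inr l) 1) -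
              (Pi.single (Sum.inl i2) 1 - Pi.single (Sum.inr l) 1) := by abel
        rw [e]
        exact H.sub_mem (hlr _ _ hl.symm) (hlr _ _ (hv.symm.trans hl.symm))
      · exact hlr _ _ hv
    · rcases v' with i2 | l2
      · have e : (Pi.single (Sum.inr l1) 1 - Pi.single (Sum.inl i2) 1 : Fin n ⊕ Fin n' → F) =
            -(Pi.single (Sum.inl i2) 1 - Pi.single (Sum.inr l1) 1) := by abel
        rw [e]
        exact H.neg_mem (hlr _ _ hv.symm)
      · have e : (Pi.single (Sum.inr l1) 1 - Pi.single (Sum.inr l2) 1 : Fin n ⊕ Fin n' → F) =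
            (Pi.single (Sum.inl i) 1 - Pi.single (Sum.inr l2) 1) -
              (Pi.single (Sum.inl i) 1 - Pi.single (Sum.inr l1) 1) := by abel
        rw [e]
        exact H.sub_mem (hlr _ _ (hi.trans hv)) (hlr _ _ hi)
  have hker : ∀ x ∈ H, ∃ y ∈ U, zqs π x = zqs π y := by
    intro x hx
    obtain ⟨y, hyU, a, ha, rfl⟩ := Submodule.mem_sup.1 hx
    have h5 : Submodule.span F (A : Set (Fin n ⊕ Fin n' → F)) ≤ LinearMap.ker (zqs (F := F) π) := by
      rw [Submodule.span_le]
      intro b hb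
      obtain ⟨p, hp, rfl⟩ := mem_image.1 (mem_coe.1 hb)
      show _ ∈ LinearMap.ker (zqs (F := F) π)
      rw [LinearMap.mem_ker, map_sub, zqs_single, zqs_single, (mem_filter.1 hp).2, sub_self]
    refine ⟨y, hyU, ?_⟩
    rw [map_add, LinearMap.mem_ker.1 (h5 ha), add_zero]
  choose τ hτ using h1
  set f : Fin (m' + 2) → (Fin n ⊕ Fin n' → F) := fun j => Pi.single (Sum.inl (τ (zqP t m' j))) 1 with hf
  have hσf : ∀ j, zqs π (f j) = Pi.single (zqP t m' j) (1 : F) := by
    intro j
    rw [hf]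
    show zqs π (Pi.single (Sum.inl (τ (zqP t m' j))) 1) = _
    rw [zqs_single, hτ]
  have h2m : 2 < m' + 2 := by omega
  have hP0 : zqP t m' 0 = some (Sum.inl 1) := rfl
  have hP1 : zqP t m' 1 = none := rfl
  have hP2 : zqP t m' ⟨2, h2m⟩ = some (Sum.inr ⟨0, hm⟩) := rfl
  refine ⟨A, f, ⟨2, h2m⟩, 0, 1, hAb, ?_, ?_, ?_, ?_, ?_, ?_⟩
  · intro r _ hr
    obtain ⟨y, hyU, hyσ⟩ := hker _ hr
    have hg : ∀ p, zqs π y p = ∑ j, r j * (Pi.single (zqP t m' j) (1 : F) : _ → F) p := by
      intro p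
      rw [← hyσ, map_sum, Finset.sum_apply]
      refine sum_congr rfl fun j _ => ?_
      rw [map_smul, hσf, Pi.smul_apply, smul_eq_mul]
    have hg1 : ∀ i, i ≠ 1 → y (w i) = 0 := by
      intro i hi
      rw [← h3 i y hyU, ← zqs_ap, hg]
      refine sum_eq_zero fun j _ => ?_
      rw [Pi.single_eq_of_ne (zqP_ne t m' j i hi).symm, mul_zero]
    have hyz := hy y hyU fun i _ hi => hg1 i hi
    have hw0 : y (w 0) = y (w 1) * ζ := by
      conv_lhs => rw [hyz]
      rw [Pi.smul_apply, smul_eq_mul]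
    have h01 : (0 : Fin (t + 2)) ≠ 1 := by simp
    rw [hg1 0 h01] at hw0
    have hw1 : y (w 1) = 0 := by
      rcases mul_eq_zero.1 hw0.symm with h | h
      · exact h
      · exact absurd h hζ0
    rw [hw1, zero_smul] at hyz
    funext j
    have h5 := hg (zqP t m' j)
    rw [hyz, map_zero, Pi.zero_apply, sum_eq_single j] at h5
    · rw [Pi.single_eq_same, mul_one] at h5
      exact h5.symm
    · intro j' _ hj'
      rw [Pi.single_eq_of_ne (fun h => hj' (zqP_inj t m' h).symm), mul_zero]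
    · intro h
      exact absurd (mem_univ j) h
  · intro i j _
    obtain ⟨l, hl⟩ := h2 (zqP t m' j)
    refine ⟨Pi.single (Sum.inl (τ (zqP t m' i))) 1 - Pi.single (Sum.inr l) 1, ?_, 1, one_ne_zero, ?_⟩
    · unfold bip
      exact mem_image.2 ⟨(τ (zqP t m' i), l), mem_univ _, rfl⟩
    · have e : (Pi.single (Sum.inl (τ (zqP t m' i))) 1 - Pi.single (Sum.inr l) 1 : Fin n ⊕ Fin n' → F) -
          (1 : F) • (f i - f j) = Pi.single (Sum.inl (τ (zqP t m' j))) 1 - Pi.single (Sum.inr l) 1 := by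
        rw [one_smul, hf]
        show _ - _ - (Pi.single (Sum.inl (τ (zqP t m' i))) 1 - Pi.single (Sum.inl (τ (zqP t m' j))) 1) = _
        abel
      rw [e]
      exact hlr _ _ ((hτ _).trans hl.symm)
  · intro h
    have := congrArg Fin.val h
    simp at this
  · intro h
    have := congrArg Fin.val h
    simp at this
  · simp
  · obtain ⟨l, hl⟩ := h2 (some (Sum.inr ⟨0, hm⟩))
    set q0 : Option (Fin (t + 2) ⊕ Fin m') := some (Sum.inl 0) with hq0
    set q1 : Option (Fin (t + 2) ⊕ Fin m') := some (Sum.inl 1) with hq1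
    set q2 : Option (Fin (t + 2) ⊕ Fin m') := some (Sum.inr ⟨0, hm⟩) with hq2
    refine ⟨Pi.single (Sum.inl (τ q0)) 1 - Pi.single (Sum.inr l) 1, ?_, -1, -ζ⁻¹,
      neg_ne_zero.2 one_ne_zero, ?_, ?_⟩
    · unfold bip
      exact mem_image.2 ⟨(τ q0, l), mem_univ _, rfl⟩
    · intro u hu
      have h5 : ζ⁻¹ = algebraMap E F u := by
        rw [mul_neg, mul_one] at hu
        exact neg_injective hu
      apply hz0 u⁻¹
      rw [map_inv₀, ← h5, inv_inv]
    · -- z modulo the pieces
      have h5 : ∑ p, zqs π z p • (Pi.single (Sum.inl (τ p)) 1 : Fin n ⊕ Fin n' → F) ∈ H := by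
        have h6 := zq_pieces π (fun p => Sum.inl (τ p)) H
          (fun v => hsame v _ (hτ (π v)).symm) z
        have h7 := H.sub_mem (hUH hz) h6
        rwa [sub_sub_cancel] at h7
      have hs0 : zqs π z q0 = ζ := by
        rw [zqs_ap, hq0, h3 0 z hz]
      have hs1 : zqs π z q1 = 1 := by
        rw [zqs_ap, hq1, h3 1 z hz, hz1]
      have hsi : ∀ i : Fin t, zqs π z (some (Sum.inl i.succ.succ)) = 0 := by
        intro i
        rw [zqs_ap, h3 _ z hz]
        refine hzi _ (Fin.succ_ne_zero _) ?_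
        intro h
        have h6 : i.succ = 0 := Fin.succ_injective _ h
        exact Fin.succ_ne_zero _ h6
      have hsj : ∀ j : Fin m', zqs π z (some (Sum.inr j)) = 0 := by
        intro j
        rw [zqs_ap, h4 _ z hz]
      have hone : (Fin.succ 0 : Fin (t + 2)) = 1 := rfl
      have htot : zqs π z none + (ζ + 1) = 0 := by
        have h6 := zqs_total π z
        rw [hU z hz, Fintype.sum_option, Fintype.sum_sum_type, Fin.sum_univ_succ, Fin.sum_univ_succ,
          hone] at h6
        rw [sum_eq_zero (fun i _ => hsi i), sum_eq_zero (fun j _ => hsj j), hs0, hs1] at h6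
        rw [← h6]
        ring
      have h8 : ζ • (Pi.single (Sum.inl (τ q0)) 1 : Fin n ⊕ Fin n' → F) +
          Pi.single (Sum.inl (τ q1)) 1 - (ζ + 1) • Pi.single (Sum.inl (τ none)) 1 ∈ H := by
        rw [Fintype.sum_option, Fintype.sum_sum_type, Fin.sum_univ_succ, Fin.sum_univ_succ,
          hone] at h5
        have e1 : ∑ i : Fin t, zqs π z (some (Sum.inl i.succ.succ)) •
            (Pi.single (Sum.inl (τ (some (Sum.inl i.succ.succ)))) 1 : Fin n ⊕ Fin n' → F) = 0 :=
          sum_eq_zero fun i _ => by rw [hsi, zero_smul]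
        have e2 : ∑ j : Fin m', zqs π z (some (Sum.inr j)) •
            (Pi.single (Sum.inl (τ (some (Sum.inr j)))) 1 : Fin n ⊕ Fin n' → F) = 0 :=
          sum_eq_zero fun j _ => by rw [hsj, zero_smul]
        rw [e1, e2, hs0, hs1, eq_neg_of_add_eq_zero_left htot] at h5
        have e3 : ζ • (Pi.single (Sum.inl (τ q0)) 1 : Fin n ⊕ Fin n' → F) +
            Pi.single (Sum.inl (τ q1)) 1 - (ζ + 1) • Pi.single (Sum.inl (τ none)) 1 =
            -(ζ + 1) • (Pi.single (Sum.inl (τ none)) 1 : Fin n ⊕ Fin n' → F) +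
            (ζ • (Pi.single (Sum.inl (τ q0)) 1 : Fin n ⊕ Fin n' → F) +
              ((1 : F) • (Pi.single (Sum.inl (τ q1)) 1 : Fin n ⊕ Fin n' → F) + 0) + 0) := by
          rw [one_smul, neg_smul]
          abel
        rw [e3]
        exact h5
      have h9 := H.smul_mem ζ⁻¹ h8
      have h10 : (Pi.single (Sum.inl (τ q2)) 1 - Pi.single (Sum.inr l) 1 : Fin n ⊕ Fin n' → F) ∈ H :=
        hlr _ _ ((hτ _).trans hl.symm)
      have e : (Pi.single (Sum.inl (τ q0)) 1 - Pi.single (Sum.inr l) 1 : Fin n ⊕ Fin n' → F) -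
          ((-1 : F) • f ⟨2, h2m⟩ + (-ζ⁻¹) • f 0 - (-1 + -ζ⁻¹) • f 1) =
          ζ⁻¹ • (ζ • (Pi.single (Sum.inl (τ q0)) 1 : Fin n ⊕ Fin n' → F) +
            Pi.single (Sum.inl (τ q1)) 1 - (ζ + 1) • Pi.single (Sum.inl (τ none)) 1) +
          (Pi.single (Sum.inl (τ q2)) 1 - Pi.single (Sum.inr l) 1) := by
        have f0 : f 0 = Pi.single (Sum.inl (τ q1)) 1 := rfl
        have f1 : f 1 = Pi.single (Sum.inl (τ none)) 1 := rfl
        have f2 : f ⟨2, h2m⟩ = Pi.single (Sum.inl (τ q2)) 1 := rfl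
        rw [f0, f1, f2]
        funext v
        simp only [Pi.sub_apply, Pi.add_apply, Pi.smul_apply, smul_eq_mul]
        field_simp
        ring
      rw [e]
      exact H.add_mem h9 h10

end Pool.Agent.SFT
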