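import Pool.Agent.SFT.Zv
import Pool.Agent.SFT.Zp
import Pool.Agent.SFT.Zq

/-!
# SFT-Z: Lemma Z, assembly
-/

namespace Pool.Agent.SFT

open Finset Module

theorem lemmaZ (E F : Type) [Field E] [Field F] [Algebra E F] [Finite F] (m : ℕ) (hm : 3 ≤ m) :
    ∃ n0, ZN E F m n0 := by
  obtain ⟨n0, h0⟩ := exists_pieces F (finrank E F) (m - 2)
  refine ⟨n0, ?_⟩
  intro n n' hn hn' U hsum hU hfr hrat
  obtain ⟨t, w, z, ht, hw, hz, hz1, hz0, hzi, hy⟩ := exists_coord (E := E) U hU hrat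
  obtain ⟨π, h1, h2, h3, h4⟩ := h0 n n' hn hn' U hfr (t + 2) w (by omega) hw
  have h5 := hasN_of_pieces (E := E) (m' := m - 2) (by omega) hsum hz hz1 hz0 hzi hy h1 h2 h3 h4
  rwa [Nat.sub_add_cancel (by omega : 2 ≤ m)] at h5

end Pool.Agent.SFT
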