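import Pool.Agent.SFT.Lv2a
import Pool.Agent.SFT.Lv2c
import Pool.Agent.SFT.Lv2d
import Pool.Agent.SFT.Qf
import Pool.Agent.SFT.Ca
import Pool.Agent.SFT.Par
import Pool.Agent.SFT.Z

/-!
# SFT-Lv2: the level two theorem, assembly (Theorem 2)

Adapt `Pool.Agent.HC.Lv2`. `lemmaZ`: `n0`. `N0 := max` of `ℓ + 2`, `2 * n0 + 2` and the bounds of `exists_contract`,
`exists_uncontract`. Strong induction on `S.card`. Not simple: `IsQ.zero`, `IsQ.par`, `IsQ.erase`, `cl_erase_par` (`rq_mono`, `rq_insert`),
`conf_of_erase_par`. Simple: `Hyp2.minCex`, `MinCex.tight`; `C = ∅`: `IsQ.conf_of_empty`; `e ∈ C`: contract and uncontract.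
-/

namespace Pool.Agent.SFT

open Finset Module

theorem level_two (E F : Type) [Field E] [Field F] [Algebra E F] [FiniteDimensional E F]
    [Finite F] (m : ℕ) (hm : 3 ≤ m) (ℓ : ℕ) (hℓ : 2 ≤ ℓ) (hs : finrank E F ≤ ℓ) :
    ∃ N0 : ℕ, ∀ N, N0 ≤ N →
    ∀ (V : Type) [AddCommGroup V] [Module F V] [Module E V] [IsScalarTower E F V]
      [DecidableEq V] [FiniteDimensional F V] [FiniteDimensional E V]
      (K : Submodule F V) (S C : Finset V) (g : Fin N → V) (q : Fin N → Fin N → V),
      Hyp2 E m ℓ K S C g q → Conf E K (S : Set V) := by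
  obtain ⟨n0, hz⟩ := lemmaZ E F m hm
  obtain ⟨N1, h1⟩ := exists_contract E F hz ℓ hℓ
  obtain ⟨N2, h2⟩ := exists_uncontract E F hz ℓ (by omega) hs
  refine ⟨max (max (ℓ + 2) (2 * n0 + 2)) (max N1 N2), ?_⟩
  intro N hN V _ _ _ _ _ _ _
  have hNl : ℓ + 2 ≤ N := (le_max_left _ _).trans ((le_max_left _ _).trans hN)
  have hNn : 2 * n0 + 2 ≤ N := (le_max_right _ _).trans ((le_max_left _ _).trans hN)
  have hNN1 : N1 ≤ N := (le_max_left _ _).trans ((le_max_right _ _).trans hN)
  have hNN2 : N2 ≤ N := (le_max_right _ _).trans ((le_max_right _ _).trans hN)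
  have H : ∀ n : ℕ, ∀ (K : Submodule F V) (S C : Finset V) (g : Fin N → V)
      (q : Fin N → Fin N → V), S.card = n → Hyp2 E m ℓ K S C g q → Conf E K (S : Set V) := by
    intro n
    induction n using Nat.strong_induction_on with
    | _ n ih =>
      intro K S C g q hcard h
      by_contra ng
      have ih' : ∀ (L : Submodule F V) (S' C' : Finset V) (g' : Fin N → V)
          (q' : Fin N → Fin N → V), S'.card < S.card → Hyp2 E m ℓ L S' C' g' q' →
          Conf E L (S' : Set V) := by
        intro L S' C' g' q' hc h'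
        exact ih S'.card (hcard ▸ hc) L S' C' g' q' rfl h'
      by_cases hs : ∃ x ∈ S, x ∉ C ∧ (∀ i j, i ≠ j → q i j ≠ x) ∧
          (x ∈ K ∨ ∃ y ∈ S, y ≠ x ∧ ∃ c : F, c ≠ 0 ∧ x - c • y ∈ K)
      · obtain ⟨x, hxS, hxC, hxq, hp⟩ := hs
        have hG : Conf E K ((S.erase x : Finset V) : Set V) := by
          refine ih' K (S.erase x) C g q (Finset.card_erase_lt_of_mem hxS)
            ⟨h.isq.erase hxC hxq, ?_, ?_⟩
          · intro hO
            refine h.no (HasN.mono (A := ∅) (Finset.empty_subset _) (Finset.erase_subset _ _)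
              (S' := S.erase x) ?_)
            rw [Finset.coe_empty, hat_empty]
            exact hO
          · intro Y hY hl
            obtain ⟨Y', h3, h4, h5, h6⟩ := cl_erase_par (E := E) hxS hp hY.1
            apply h6
            refine h.gl Y' ⟨?_, ?_⟩ (by rw [h5]; exact hl)
            · exact h4.trans (Finset.insert_subset hxS (hY.1.trans (Finset.erase_subset _ _)))
            · refine (rq_mono h4).trans ?_
              rw [rq_insert Y hxq]
              exact hY.2
        exact ng (conf_of_erase_par hxS hp hG)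
      · have nz : ∀ x ∈ S, x ∉ K := by
          intro x hx hK
          exact hs ⟨x, hx, (h.isq.zero hK).1, (h.isq.zero hK).2, Or.inl hK⟩
        have npar : ∀ x ∈ S, ∀ y ∈ S, ∀ c : F, x - c • y ∈ K → x = y := by
          intro x hx y hy c hK
          by_contra hne
          have hc0 : c ≠ 0 := by
            rintro rfl
            rw [zero_smul, sub_zero] at hK
            exact nz x hx hK
          rcases h.isq.par hne hK with h3 | h3
          · exact hs ⟨x, hx, h3.1, h3.2, Or.inr ⟨y, hy, Ne.symm hne, c, hc0, hK⟩⟩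
          · refine hs ⟨y, hy, h3.1, h3.2, Or.inr ⟨x, hx, hne, c⁻¹, inv_ne_zero hc0, ?_⟩⟩
            have h1 : y - c⁻¹ • x = (-c⁻¹) • (x - c • y) := by
              rw [smul_sub, smul_smul, neg_mul, inv_mul_cancel₀ hc0, neg_smul, neg_smul,
                one_smul]
              abel
            rw [h1]
            exact K.smul_mem _ hK
        have hmc := h.minCex hNl ih' nz npar ng
        have ht := hmc.tight
        rcases C.eq_empty_or_nonempty with hC | ⟨e, he⟩
        · exact ng (h.isq.conf_of_empty hz hNn h.no hC)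
        · exact ng (h2 N hNN2 V K S C g q e h ht he (h1 N hNN1 V K S C g q e h ht he ih'))
  intro K S C g q h
  exact H S.card K S C g q rfl h

end Pool.Agent.SFT
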