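import Pool.Agent.SFT.TrA
import Pool.Agent.SFT.Cf2

/-!
# SFT-TrB: the transfer theorem and gluing back

`transfer`: as `D` has at most one element, `Y` is disjoint from `D` (then `Y ⊆ S \ X`, `h1`, `lam_a`, `gl`, `cl_a`) or contains
`D` (`h2`, `lam_b`, `gl`, `cl_b`).
`TD.glue_back`: `G := guts K S X`, `finrank G ≤ finrank K + 1`. `Conf E K ((S \ X) ∪ G)`: from `hg` by `Conf.of_par` (modulo
`hat K A`: `w ∈ G \ K` is parallel to an element of `D`, `WD`; `w ∈ K` is in `hat K A`) one has
`Conf E (hat K A) ((S \ X) ∪ G)`, then `Conf.down` with `M = hat K (S \ X)` (`G ≤ M`, `Az`). Then `Conf.glue` for `X` and `S \ X`.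
-/

namespace Pool.Agent.SFT

open Finset Module

variable {E F V : Type} [Field E] [Field F] [Algebra E F] [AddCommGroup V] [Module F V]
  [Module E V] [IsScalarTower E F V]
  [DecidableEq V] [FiniteDimensional E F] [FiniteDimensional F V] {K : Submodule F V}
  {S X A D : Finset V}

theorem transfer (h : TD K S X A D) (sm sm2 : Finset V → Prop)
    (gl : ∀ Y, sm Y → lam K S Y ≤ 1 → CL E K S Y) (s2 : ∀ Y, sm2 Y → Y ⊆ (S \ X) ∪ D)
    (h1 : ∀ Y, sm2 Y → Disjoint Y D → sm Y) (h2 : ∀ Y, sm2 Y → D ⊆ Y → sm ((Y \ D) ∪ X))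
    (Y : Finset V) (hY : sm2 Y) (hl : lam (hat K (A : Set V)) ((S \ X) ∪ D) Y ≤ 1) :
    CL E (hat K (A : Set V)) ((S \ X) ∪ D) Y := by
  by_cases hdis : Disjoint Y D
  · have hYX : Y ⊆ S \ X := by
      intro y hy
      rcases Finset.mem_union.1 (s2 Y hY hy) with h4 | h4
      · exact h4
      · exact absurd h4 (Finset.disjoint_left.1 hdis hy)
    refine h.cl_a hYX (gl Y (h1 Y hY hdis) ?_)
    rw [← h.lam_a hYX]
    exact hl
  · have hDY : D ⊆ Y := by
      obtain ⟨e, heY, heD⟩ := Finset.not_disjoint_iff.1 hdis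
      intro d hd
      rw [Finset.card_le_one.1 h.card d hd e heD]
      exact heY
    refine h.cl_b (s2 Y hY) hDY (gl _ (h2 Y hY hDY) ?_)
    rw [← h.lam_b (s2 Y hY) hDY]
    exact hl

theorem TD.glue_back (h : TD K S X A D) (hX : CL E K S X)
    (hg : Conf E (hat K (A : Set V)) (((S \ X) ∪ D : Finset V) : Set V)) :
    Conf E K (S : Set V) := by
  have h1 : Conf E (hat K (A : Set V))
      (((S \ X : Finset V) : Set V) ∪ (guts K S X : Set V)) := by
    refine hg.of_par ?_
    rintro x (hx | hx)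
    · refine Or.inr ⟨x, ?_, 1, one_ne_zero, by
        rw [one_smul, sub_self]
        exact Submodule.zero_mem _⟩
      exact Finset.mem_coe.2 (Finset.mem_union_left _ (Finset.mem_coe.1 hx))
    · by_cases hK : x ∈ K
      · exact Or.inl (le_hat K _ hK)
      · obtain ⟨d, hd, c, hc, hdx⟩ := h.WD x hx hK
        refine Or.inr ⟨d, Finset.mem_coe.2 (Finset.mem_union_right _ hd), c⁻¹,
          inv_ne_zero hc, ?_⟩
        have h2 : x - c⁻¹ • d = (-c⁻¹) • (d - c • x) := by
          rw [smul_sub, smul_smul, neg_mul, inv_mul_cancel₀ hc, neg_smul, neg_smul, one_smul]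
          abel
        rw [h2]
        exact Submodule.smul_mem _ _ hdx
  have h2 : Conf E K (((S \ X : Finset V) : Set V) ∪ (guts K S X : Set V)) := by
    refine Conf.down h1 (M := hat K ((S \ X : Finset V) : Set V)) ?_ (le_hat _ _) (le_hat _ _)
      (by rw [inf_comm]; exact h.Az)
    rintro x (hx | hx)
    · exact subset_hat _ _ hx
    · exact hx.2
  have h3 := Conf.glue (E := E) (K := K) (X := (X : Set V))
    (Z := ((S \ X : Finset V) : Set V)) h.finrank_guts hX h2
  rwa [← Finset.coe_union, Finset.union_sdiff_of_subset h.XS] at h3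

end Pool.Agent.SFT
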