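import Pool.Agent.SFT.Q2
import Pool.Agent.SFT.TrB
import Pool.Agent.SFT.Nm

/-!
# SFT-Lv2a: level two, the reduction property of a smallest counterexample (5.1, 5.2)

Adapt `Pool.Agent.HC.Lv2a`. `sm := QSmall F ℓ S q`. `exists_Q2`; no `HasN`: `HasN.mono`; `transfer` with
`sm2 := QSmall F ℓ ((S \ X) ∪ D) q2` (compare the generating sets of `rqs`). Then `ih`.
-/

namespace Pool.Agent.SFT

open Finset Module

variable {E F V : Type} [Field E] [Field F] [Algebra E F] [AddCommGroup V] [Module F V]
  [Module E V] [IsScalarTower E F V]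
  [DecidableEq V] [FiniteDimensional E F] [FiniteDimensional F V] {K : Submodule F V}
  {S C : Finset V} {m ℓ N : ℕ} {g : Fin N → V} {q : Fin N → Fin N → V}

omit [AddCommGroup V] [Module F V] [DecidableEq V] [FiniteDimensional F V] in
private theorem rqs_le_rqs {q q2 : Fin N → Fin N → V} {Y Y' : Finset V}
    (h : ∀ i j, i ≠ j → q i j ∈ Y → q2 i j ∈ Y') : rqs F q Y ≤ rqs F q2 Y' := by
  unfold rqs
  apply Submodule.span_mono
  rintro y ⟨i, j, hij, hq, rfl⟩
  exact ⟨i, j, hij, h i j hij hq, rfl⟩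

omit [AddCommGroup V] [Module F V] [DecidableEq V] [FiniteDimensional F V] in
private theorem rq_le_rq {q q2 : Fin N → Fin N → V} {Y Y' : Finset V}
    (h : ∀ i j, i ≠ j → q i j ∈ Y → q2 i j ∈ Y') : rq F q Y ≤ rq F q2 Y' :=
  Submodule.finrank_mono (rqs_le_rqs h)

theorem Hyp2.minCex (hN : ℓ + 2 ≤ N) (h : Hyp2 E m ℓ K S C g q)
    (ih : ∀ (L : Submodule F V) (S' C' : Finset V) (g' : Fin N → V) (q' : Fin N → Fin N → V),
      S'.card < S.card → Hyp2 E m ℓ L S' C' g' q' → Conf E L (S' : Set V))
    (nz : ∀ x ∈ S, x ∉ K) (npar : ∀ x ∈ S, ∀ y ∈ S, ∀ c : F, x - c • y ∈ K → x = y)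
    (ng : ¬ Conf E K (S : Set V)) : MinCex E K S (QSmall F ℓ S q) := by
  refine ⟨?_, ?_, h.gl, nz, npar, ng, ?_⟩
  · intro X Y hX hYX
    exact ⟨hYX.trans hX.1, (rq_le_rq fun i j _ hq => hYX hq).trans hX.2⟩
  · intro X hX
    exact hX.1
  · intro X A D hX ht hcard
    obtain ⟨C2, g2, q2, hQ2, hq1, hq2⟩ := exists_Q2 h.isq hN hX ht
    have hDS : D ⊆ S := ht.DX.trans ht.XS
    refine ih (hat K (A : Set V)) ((S \ X) ∪ D) C2 g2 q2 hcard ⟨hQ2, ?_, ?_⟩
    · intro hO
      exact h.no (hO.mono (ht.AX.trans ht.XS) (Finset.union_subset Finset.sdiff_subset hDS))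
    · refine transfer ht (QSmall F ℓ S q) (QSmall F ℓ ((S \ X) ∪ D) q2) h.gl ?_ ?_ ?_
      · intro Y hY
        exact hY.1
      · intro Y hY hdis
        have hYX : Y ⊆ S \ X := by
          intro y hy
          rcases Finset.mem_union.1 (hY.1 hy) with h4 | h4
          · exact h4
          · exact absurd h4 (Finset.disjoint_left.1 hdis hy)
        refine ⟨hYX.trans Finset.sdiff_subset, (rq_le_rq ?_).trans hY.2⟩
        intro i j hij hq
        rw [hq1 i j hij (hYX hq)]
        exact hq
      · intro Y hY hDY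
        refine ⟨?_, (rq_le_rq ?_).trans hY.2⟩
        · apply Finset.union_subset _ ht.XS
          intro y hy
          rw [Finset.mem_sdiff] at hy
          rcases Finset.mem_union.1 (hY.1 hy.1) with h4 | h4
          · exact (Finset.mem_sdiff.1 h4).1
          · exact absurd h4 hy.2
        · intro i j hij hq
          rcases Finset.mem_union.1 hq with h5 | h5
          · rw [Finset.mem_sdiff] at h5
            have h6 : q i j ∈ S \ X := by
              rcases Finset.mem_union.1 (hY.1 h5.1) with h4 | h4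
              · exact h4
              · exact absurd h4 h5.2
            rw [hq1 i j hij h6]
            exact h5.1
          · exact hDY (hq2 i j hij h5)

end Pool.Agent.SFT
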