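import Pool.Agent.Helper39.TC.Lin
import Pool.Agent.Helper39.TC.Rank

/-!
# SFT-MinA: the class of the minors of a represented matroid
-/

namespace Pool.Agent.SFT

open Finset Module
open Pool.Agent.Helper39.TC

variable {F : Type} [Field F]

lemma minor_minor {a b n : ℕ} (U : Submodule F (Fin n → F))
    (f : Fin b ↪ Fin n)
    (C : Set (Fin n)) (g : Fin a ↪ Fin b) (D : Set (Fin b)) :
    minor (minor U f C) g D = minor U (g.trans f) (C ∪ f '' D) := by
  ext w
  constructor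
  · rintro ⟨u, ⟨v, hv, h1, h2⟩, h3, h4⟩
    refine ⟨v, hv, ?_, fun j => ?_⟩
    · rintro _ (hc | ⟨d, hd, rfl⟩)
      · exact h1 _ hc
      · rw [← h2 d]
        exact h3 d hd
    · rw [h4 j, h2]
      rfl
  · rintro ⟨v, hv, h1, h2⟩
    exact ⟨fun j => v (f j), ⟨v, hv, fun c hc => h1 c (Or.inl hc), fun j => rfl⟩,
      fun d hd => h1 _ (Or.inr ⟨d, hd, rfl⟩), fun j => h2 j⟩

/-- the minors of `U` -/
def minorsOf {n : ℕ} (U : Submodule F (Fin n → F)) : MClass F :=
  fun n' W => ∃ (f : Fin n' ↪ Fin n) (C : Set (Fin n)), (∀ j, f j ∉ C) ∧ W = minor U f C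

lemma minorsOf_closed {n : ℕ} (U : Submodule F (Fin n → F)) :
    MinorClosed (minorsOf U) := by
  rintro n' W ⟨f, C, hfC, rfl⟩ m g D hgD
  refine ⟨g.trans f, C ∪ f '' D, fun j => ?_, minor_minor U f C g D⟩
  rintro (h | ⟨d, hd, he⟩)
  · exact hfC _ h
  · have : d = g j := f.injective he
    exact hgD j (this ▸ hd)

lemma self_minor {n : ℕ} (U : Submodule F (Fin n → F)) :
    minorsOf U n U := by
  refine ⟨Function.Embedding.refl _, ∅, fun j => by simp, ?_⟩
  ext w
  constructor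
  · intro hw
    exact ⟨w, hw, fun c hc => absurd hc (by simp), fun j => rfl⟩
  · rintro ⟨u, hu, -, h⟩
    have : w = u := funext h
    rwa [this]

theorem tutteConn_mono {n k l : ℕ} {U : Submodule F (Fin n → F)}
    (h : TutteConn k U) (hl : l ≤ k) : TutteConn l U :=
  fun ℓ hℓ X h1 h2 => h ℓ (lt_of_lt_of_le hℓ hl) X h1 h2

end Pool.Agent.SFT
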