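import Pool.Agent.SFT.Lv2
import Pool.Agent.SFT.CoA
import Pool.Agent.SFT.CoB
import Pool.Agent.SFT.CoE
import Pool.Agent.SFT.CoD
import Pool.Agent.SFT.Du
import Pool.Agent.SFT.MinA
import Pool.Agent.Helper39.TC.Clique
import Pool.Agent.Helper39.TC.Main
import Pool.Agent.Helper39.HCI.Dual

/-!
# SFT-Main: the theorem

Adapt `core` and `main` in `Pool.Agent.Helper39.HCI.Main`. `core`: `ℓ := max 2 (finrank K F)`, `level_two K F m hm ℓ`: `N0`;
`N ≥ max N0 (ℓ + 3)`: a clique minor `M(K_N)` of `W` gives (`exists_isQ`) the hypothesis of `level_two` for `V = W →ₗ[F] F`, `K := ⊥`,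
`S = univ.image (cf W)`: `no` by `exists_isN`, `gl` by `cl_of_conn`. `confinedTo_of_conf`. `main`: with `final F N` (the theorem
NoCliques) for the class `minorsOf U`: `U` or `dual U` has a minor `M(K_N)`; in the second case `dual U` is confined, and so is `U`
(`confinedTo_dual`, `dual_dual`). `HasStructureS`: `N = U` (`k` and `t = 2 * k`), and for `n < 2 * k` `small_structure`.
-/

namespace Pool.Agent.SFT

open Finset Module
open Pool.Agent.Helper39.TC

/-- one side: a clique minor and no `N_m(a)`-minor -/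
theorem core (F : Type) [Field F] [Finite F] (K : Subfield F) (m : ℕ) (hm : 3 ≤ m) :
    ∃ N0 : ℕ, ∀ N, N0 ≤ N → ∀ (n k : ℕ), 3 ≤ k → 2 * k ≤ n →
    ∀ W : Submodule F (Fin n → F), TutteConn k W →
    ∀ (m' : ℕ) (f : Fin m' ↪ Fin n) (C : Set (Fin n)), IsClique N (minor W f C) →
    (∀ (m' : ℕ) (f : Fin m' ↪ Fin n) (C : Set (Fin n)), (∀ j, f j ∉ C) →
      ¬ IsN K m (minor W f C)) → ConfinedTo K W := by
  classical
  have hfin : FiniteDimensional K F := inferInstance
  obtain ⟨N0, h0⟩ := level_two K F m hm (max 2 (finrank K F)) (le_max_left _ _)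
    (le_max_right _ _)
  refine ⟨max N0 (max 2 (finrank K F) + 3), fun N hN n k hk hn W hW m' f C hcl hno => ?_⟩
  have hN0 : N0 ≤ N := (le_max_left _ _).trans hN
  have hNl : max 2 (finrank K F) + 3 ≤ N := (le_max_right _ _).trans hN
  have hinj := cf_injective W hk hn hW
  obtain ⟨C', g, q, hq⟩ := exists_isQ (by omega) W f C hcl
  have hfd : FiniteDimensional K (W →ₗ[F] F) := inferInstance
  have hgr := h0 N hN0 (W →ₗ[F] F) ⊥ (Finset.univ.image (cf W)) C' g q
    { isq := hq
      no := by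
        intro h
        obtain ⟨m1, f1, C1, h1, h2⟩ := exists_isN K W h
        exact hno m1 f1 C1 h1 h2
      gl := fun X hX hl => cl_of_conn K W hinj hk hW (by omega) (by omega) hq X hX hl }
  apply confinedTo_of_conf
  have : ((Finset.univ.image (cf W) : Finset (W →ₗ[F] F)) : Set (W →ₗ[F] F)) =
      Set.range (cf W) := by
    rw [Finset.coe_image, Finset.coe_univ, Set.image_univ]
  rwa [this] at hgr

theorem main (F : Type) [Field F] [Finite F] (K : Subfield F) (hK : K ≠ ⊤) (m : ℕ)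
    (hm : 3 ≤ m) : ∃ k : ℕ, ∀ 𝓜 : MClass F, MinorClosed 𝓜 →
    (∀ (n : ℕ) (U : Submodule F (Fin n → F)), 𝓜 n U → ¬ IsN K m U) →
    (∀ (n : ℕ) (U : Submodule F (Fin n → F)), 𝓜 n U → ¬ IsN K m (dual U)) →
    (∀ (n : ℕ) (U : Submodule F (Fin n → F)), 𝓜 n U → TutteConn k U → 2 * k ≤ n →
      ConfinedTo K U) ∧ HasStructureS 𝓜 := by
  classical
  obtain ⟨N, hN⟩ := core F K m hm
  obtain ⟨k0, hk0⟩ := final F N
  have main : ∀ 𝓜 : MClass F, MinorClosed 𝓜 →
      (∀ (n : ℕ) (U : Submodule F (Fin n → F)), 𝓜 n U → ¬ IsN K m U) →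
      (∀ (n : ℕ) (U : Submodule F (Fin n → F)), 𝓜 n U → ¬ IsN K m (dual U)) →
      (∀ (n : ℕ) (U : Submodule F (Fin n → F)), 𝓜 n U → TutteConn (max k0 3) U →
        2 * (max k0 3) ≤ n → ConfinedTo K U) := by
    intro 𝓜 hcl h1 h2 n U hU hconn hn
    have hk4 : 3 ≤ max k0 3 := le_max_right _ _
    by_contra hcon
    have hno : ∀ (n' : ℕ) (W : Submodule F (Fin n' → F)), minorsOf U n' W →
        ¬ IsClique N W := by
      rintro n' W ⟨f, C, hfC, rfl⟩ hc
      exact hcon (hN N le_rfl n _ hk4 hn U hconn n' f C hc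
        (fun m' f' C' hf' => h1 _ _ (hcl n U hU m' f' C' hf')))
    have hno' : ∀ (n' : ℕ) (W : Submodule F (Fin n' → F)), minorsOf U n' W →
        ¬ IsClique N (dual W) := by
      rintro n' W ⟨f, C, hfC, rfl⟩ hc
      rw [dual_minor U f C hfC] at hc
      have h7 := hN N le_rfl n _ hk4 hn (dual U) (tutteConn_dual hconn) n' f _ hc
        (fun m' f' C' hf' hO => by
          have h3 : minor (dual U) f' C' = dual (minor U f' (coSet f' C')) := by
            have h4 := dual_minor (dual U) f' C' hf'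
            rw [dual_dual] at h4
            rw [← h4, dual_dual]
          rw [h3] at hO
          exact h2 _ _ (hcl n U hU m' f' _ (fun j hj => hj.1 ⟨j, rfl⟩)) hO)
      apply hcon
      have h8 := confinedTo_dual K h7
      rwa [dual_dual] at h8
    have h5 := (hk0 (minorsOf U) (minorsOf_closed U) hno hno').1 n U (self_minor U)
      (tutteConn_mono hconn (le_max_left _ _))
    have h6 : k0 ≤ max k0 3 := le_max_left _ _
    omega
  refine ⟨max k0 3, fun 𝓜 hcl h1 h2 => ⟨main 𝓜 hcl h1 h2, max k0 3, 2 * max k0 3,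
    fun n U hU hconn => ?_⟩⟩
  rcases le_or_gt (2 * max k0 3) n with hn | hn
  · obtain ⟨A, hA⟩ := exists_rowSpace U
    refine ⟨U, ⟨n, A, 0, hA, ?_, by rw [add_zero]; exact hA⟩, ?_⟩
    · simp
    · exact Or.inr (Or.inr ⟨K, hK, main 𝓜 hcl h1 h2 n U hU hconn hn⟩)
  · obtain ⟨N', h7, h8⟩ := small_structure U hn.le
    refine ⟨N', h7, ?_⟩
    rcases h8 with h8 | h8 | h8
    · exact Or.inl h8
    · exact Or.inr (Or.inl h8)
    · obtain ⟨K', hK', m', A, hA, hAK⟩ := h8
      refine Or.inr (Or.inr ⟨K', hK', fun _ => 1, m', A, fun _ => one_ne_zero, hAK, ?_⟩)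
      rw [← hA]
      congr 1
      ext i j
      simp

end Pool.Agent.SFT
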