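import Mathlib

/-!
# SFT-Pig: bipartite pigeonhole

`G := Fintype.card Γ`, `a := n * G`, `R := a + n * G ^ a` (`Fintype.ofFinite`). `A0 ⊆ A` with `a` elements, `R0 ⊆ A \ A0` with at least
`n * G ^ a` elements. Colour `l ∈ R0` by the vector `(τ i l)_(i ∈ A0)`: `n` elements of `R0` have the same vector `v`
(`Finset.exists_le_card_fiber_of_mul_le_card_of_maps_to`); `n` elements `i` of `A0` have the same `v i`. (`n = 0` is trivial; if `n > 0`
and `Γ` is empty then `R = n > 0`, `A` is nonempty and `τ` cannot exist.) Enumerate the two sets (`Finset.equivFin`).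
-/

namespace Pool.Agent.SFT

open Finset

theorem bip_pigeonhole (Γ : Type) [Finite Γ] (n : ℕ) : ∃ R : ℕ, ∀ (W : Type) [DecidableEq W]
    (A : Finset W) (τ : W → W → Γ), R ≤ A.card →
    ∃ ι ι' : Fin n → W, Function.Injective ι ∧ Function.Injective ι' ∧ (∀ i, ι i ∈ A) ∧
      (∀ i, ι' i ∈ A) ∧ (∀ i l, ι i ≠ ι' l) ∧
      ∀ i l i' l', τ (ι i) (ι' l) = τ (ι i') (ι' l') := by
  classical
  have hft : Fintype Γ := Fintype.ofFinite Γ
  refine ⟨n * Fintype.card Γ + n * Fintype.card Γ ^ (n * Fintype.card Γ), ?_⟩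
  intro W _ A τ hA
  rcases Nat.eq_zero_or_pos n with hn | hn
  · subst hn
    exact ⟨Fin.elim0, Fin.elim0, fun i => i.elim0, fun i => i.elim0, fun i => i.elim0, fun i => i.elim0,
      fun i => i.elim0, fun i => i.elim0⟩
  rcases isEmpty_or_nonempty Γ with hΓ | hΓ
  · have h1 : Fintype.card Γ = 0 := Fintype.card_eq_zero
    rw [h1, mul_zero, pow_zero, mul_one, zero_add] at hA
    obtain ⟨w, -⟩ : A.Nonempty := Finset.card_pos.1 (by omega)
    exact hΓ.elim (τ w w)
  obtain ⟨A0, hA0, hc0⟩ := Finset.exists_subset_card_eq (s := A) (n := n * Fintype.card Γ) (by omega)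
  have hR : Fintype.card Γ ^ (n * Fintype.card Γ) * n ≤ (A \ A0).card := by
    have h1 := Finset.card_sdiff_add_card_eq_card hA0
    rw [mul_comm]
    omega
  have hcard : Fintype.card (A0 → Γ) = Fintype.card Γ ^ (n * Fintype.card Γ) := by
    rw [Fintype.card_fun, Fintype.card_coe, hc0]
  obtain ⟨v, -, hv⟩ := Finset.exists_le_card_fiber_of_mul_le_card_of_maps_to (s := A \ A0)
    (t := (univ : Finset (A0 → Γ))) (f := fun l i => τ i l) (n := n) (fun _ _ => mem_univ _) univ_nonempty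
    (by rw [card_univ, hcard]; exact hR)
  obtain ⟨c, -, hc⟩ := Finset.exists_le_card_fiber_of_mul_le_card_of_maps_to (s := (univ : Finset A0))
    (t := (univ : Finset Γ)) (f := v) (n := n) (fun _ _ => mem_univ _) univ_nonempty
    (by rw [card_univ, card_univ, Fintype.card_coe, hc0, mul_comm])
  obtain ⟨ι'⟩ : Nonempty (Fin n ↪ {l // l ∈ (A \ A0).filter fun l => (fun i : A0 => τ i l) = v}) :=
    Function.Embedding.nonempty_of_card_le (by rw [Fintype.card_fin, Fintype.card_coe]; exact hv)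
  obtain ⟨ι⟩ : Nonempty (Fin n ↪ {i // i ∈ (univ : Finset A0).filter fun i => v i = c}) :=
    Function.Embedding.nonempty_of_card_le (by rw [Fintype.card_fin, Fintype.card_coe]; exact hc)
  have h1 : ∀ i, ((ι i).1 : W) ∈ A0 := fun i => (ι i).1.2
  have h2 : ∀ l, ((ι' l).1 : W) ∈ A \ A0 ∧ (fun i : A0 => τ i (ι' l).1) = v := fun l => Finset.mem_filter.1 (ι' l).2
  have h3 : ∀ i, v (ι i).1 = c := fun i => (Finset.mem_filter.1 (ι i).2).2
  have h4 : ∀ i l, τ ((ι i).1 : W) (ι' l).1 = c := by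
    intro i l
    exact (congrFun (h2 l).2 (ι i).1).trans (h3 i)
  refine ⟨fun i => ((ι i).1 : W), fun l => (ι' l).1, fun i j h => ι.injective (Subtype.ext (Subtype.ext h)),
    fun i j h => ι'.injective (Subtype.ext h), fun i => hA0 (h1 i), fun l => (Finset.mem_sdiff.1 (h2 l).1).1, ?_, ?_⟩
  · intro i l h
    have h5 := h1 i
    have h6 : ((ι i).1 : W) = (ι' l).1 := h
    rw [h6] at h5
    exact (Finset.mem_sdiff.1 (h2 l).1).2 h5
  · intro i l i' l'
    show τ ((ι i).1 : W) (ι' l).1 = τ ((ι i').1 : W) (ι' l').1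
    rw [h4, h4]

end Pool.Agent.SFT
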