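import Pool.Agent.SFT.Cf1

/-!
# SFT-TrA: the reduction `X → D`: guts, connectivity and confinement

Adapt `Pool.Agent.HC.Tr1` (same statements over the field with two elements; `hat_D`, `guts_a`, `lam_a`, `lam_b`); `DW` and
`WD` have a scalar here. `TD.cl_a`: `guts_a` and `Conf.up` with `M = hat K (S \ X)`, `K' = hat K A` (`Az`), then `Conf.of_par` for the
elements of `hat K A ⊔ guts K S Y` (`x = κ + w`, parallel to `w` modulo `hat K A`; if `x ∈ hat K A` take the left alternative).
`TD.cl_b`: `Conf.contract` with `A ⊆ (Y \ D) ∪ X`, then `Conf.of_par`; `TD.guts_b`.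
-/

namespace Pool.Agent.SFT

open Finset Module

section general

variable {k V : Type} [Field k] [AddCommGroup V] [Module k V] [DecidableEq V]
  [FiniteDimensional k V] {K : Submodule k V} {S X A D Y : Finset V}

theorem TD.hat_D (h : TD K S X A D) :
    hat (hat K (A : Set V)) (D : Set V) = hat K (A : Set V) ⊔ guts K S X := by
  apply le_antisymm
  · apply hat_le le_sup_left
    intro d hd
    obtain ⟨w, hw, -, hdw⟩ := h.DW d hd
    have e : d = (d - w) + w := (sub_add_cancel d w).symm
    rw [e]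
    exact Submodule.add_mem_sup hdw hw
  · apply sup_le (le_hat _ _)
    intro w hw
    by_cases hwK : w ∈ K
    · exact le_hat _ _ (le_hat _ _ hwK)
    · obtain ⟨d, hd, c, hc, hdw⟩ := h.WD w hw hwK
      have e : c • w = d - (d - c • w) := (sub_sub_cancel d _).symm
      have h1 : c • w ∈ hat (hat K (A : Set V)) (D : Set V) := by
        rw [e]
        exact Submodule.sub_mem _ (subset_hat _ _ hd) (le_hat _ _ hdw)
      exact (Submodule.smul_mem_iff _ hc).1 h1

theorem TD.disj (h : TD K S X A D) : Disjoint (S \ X) D := by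
  rw [Finset.disjoint_left]
  intro x hx hxD
  exact (Finset.mem_sdiff.1 hx).2 (h.DX hxD)

private theorem td_guts_le (K : Submodule k V) (S X : Finset V) :
    guts K S X ≤ hat K ((S \ X : Finset V) : Set V) := inf_le_right

private theorem td_guts_le' (K : Submodule k V) (S Y Z : Finset V) (hY : Y ⊆ Z) :
    guts K S Y ≤ hat K (Z : Set V) :=
  inf_le_left.trans (hat_mono le_rfl (by exact_mod_cast hY))

theorem TD.finrank_guts (h : TD K S X A D) : finrank k (guts K S X) ≤ finrank k K + 1 := by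
  by_cases h0 : guts K S X ≤ K
  · exact (Submodule.finrank_mono h0).trans (Nat.le_succ _)
  · obtain ⟨w, hw, hwK⟩ := SetLike.not_le_iff_exists.1 h0
    obtain ⟨d, hd, c, hc, hdw⟩ := h.WD w hw hwK
    have h1 : guts K S X ≤ hat K {w} := by
      intro v hv
      by_cases hvK : v ∈ K
      · exact le_hat _ _ hvK
      · obtain ⟨d', hd', c', hc', hdv⟩ := h.WD v hv hvK
        have hdd : d' = d := Finset.card_le_one.1 h.card d' hd' d hd
        rw [hdd] at hdv
        have h2 : c' • v - c • w ∈ K := by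
          rw [← h.Az]
          refine ⟨?_, ?_⟩
          · have h3 := Submodule.sub_mem _ hdw hdv
            have h4 : d - c • w - (d - c' • v) = c' • v - c • w := by abel
            rwa [h4] at h3
          · exact Submodule.sub_mem _ (Submodule.smul_mem _ _ hv.2)
              (Submodule.smul_mem _ _ hw.2)
        have h3 : c' • v ∈ hat K {w} := (mem_hat_singleton K w _).2 ⟨c, h2⟩
        exact (Submodule.smul_mem_iff _ hc').1 h3
    exact (Submodule.finrank_mono h1).trans_eq (finrank_hat_singleton K w hwK)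

theorem TD.guts_a (h : TD K S X A D) (hY : Y ⊆ S \ X) :
    guts (hat K (A : Set V)) ((S \ X) ∪ D) Y = hat K (A : Set V) ⊔ guts K S Y := by
  have h1 : guts K S Y = hat K (Y : Set V) ⊓
      (hat K (((S \ X) \ Y : Finset V) : Set V) ⊔ guts K S X) := by
    rw [guts_sub hY Finset.sdiff_subset, guts_compl h.XS]
  have hdis := h.disj
  have hsd : ((S \ X) \ Y) ⊆ ((S \ X) ∪ D) \ Y :=
    Finset.sdiff_subset_sdiff Finset.subset_union_left (Finset.Subset.refl _)
  have hDs : D ⊆ ((S \ X) ∪ D) \ Y := by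
    intro d hd
    rw [Finset.mem_sdiff]
    exact ⟨Finset.mem_union_right _ hd, fun hdY => Finset.disjoint_left.1 hdis (hY hdY) hd⟩
  have hsub : ((S \ X) ∪ D) \ Y ⊆ ((S \ X) \ Y) ∪ D := by
    intro d hd
    rw [Finset.mem_sdiff, Finset.mem_union] at hd
    rw [Finset.mem_union, Finset.mem_sdiff]
    rcases hd.1 with h2 | h2
    · exact Or.inl ⟨h2, hd.2⟩
    · exact Or.inr h2
  have hW : guts K S X ≤ hat (hat K (A : Set V)) (D : Set V) := by
    rw [h.hat_D]
    exact le_sup_right
  apply le_antisymm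
  · intro v hv
    have hv1 : v ∈ hat (hat K (A : Set V)) (Y : Set V) := hv.1
    have hv2 : v ∈ hat (hat K (A : Set V)) ((((S \ X) ∪ D) \ Y : Finset V) : Set V) := hv.2
    have hv3 : v ∈ hat K (A : Set V) ⊔ hat K (Y : Set V) := by
      refine hat_le le_sup_left ?_ hv1
      exact fun y hy => Submodule.mem_sup_right (subset_hat _ _ hy)
    have hv4 : v ∈ hat K (A : Set V) ⊔
        (hat K (((S \ X) \ Y : Finset V) : Set V) ⊔ guts K S X) := by
      have h2 : hat (hat K (A : Set V)) ((((S \ X) ∪ D) \ Y : Finset V) : Set V) ≤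
          hat (hat K (A : Set V)) ((((S \ X) \ Y : Finset V) : Set V) ∪ (D : Set V)) := by
        apply hat_mono le_rfl
        rw [← Finset.coe_union]
        exact_mod_cast hsub
      have h3 := h2 hv2
      rw [hat_union, h.hat_D] at h3
      refine SetLike.le_def.1 (sup_le ?_ ?_) h3
      · apply hat_le le_sup_left
        intro y hy
        exact Submodule.mem_sup_right (Submodule.mem_sup_left (subset_hat _ _ hy))
      · exact sup_le le_sup_left (le_sup_right.trans le_sup_right)
    obtain ⟨k, hk, y, hy, rfl⟩ := Submodule.mem_sup.1 hv3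
    obtain ⟨k', hk', z, hz, hkz⟩ := Submodule.mem_sup.1 hv4
    have hyZ : y ∈ hat K ((S \ X : Finset V) : Set V) :=
      hat_mono le_rfl (by exact_mod_cast hY) hy
    have hzZ : z ∈ hat K ((S \ X : Finset V) : Set V) := by
      refine SetLike.le_def.1 (sup_le ?_ ?_) hz
      · exact hat_mono le_rfl (by exact_mod_cast Finset.sdiff_subset)
      · exact td_guts_le K S X
    have hyz : y - z = k' - k := by
      rw [sub_eq_sub_iff_add_eq_add, add_comm y k, hkz]
    have hK : y - z ∈ K := by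
      rw [← h.Az]
      refine ⟨?_, Submodule.sub_mem _ hyZ hzZ⟩
      rw [hyz]
      exact Submodule.sub_mem _ hk' hk
    have hy2 : y ∈ hat K (((S \ X) \ Y : Finset V) : Set V) ⊔ guts K S X := by
      have e : y = (y - z) + z := by abel
      rw [e]
      exact Submodule.add_mem _ (Submodule.mem_sup_left (le_hat _ _ hK)) hz
    apply Submodule.add_mem_sup hk
    rw [h1]
    exact ⟨hy, hy2⟩
  · apply sup_le
    · exact le_inf (le_hat _ _) (le_hat _ _)
    · rw [h1]
      apply le_inf
      · exact inf_le_left.trans (hat_mono (le_hat _ _) le_rfl)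
      · refine inf_le_right.trans (sup_le ?_ ?_)
        · exact hat_mono (le_hat _ _) (by exact_mod_cast hsd)
        · exact hW.trans (hat_mono le_rfl (by exact_mod_cast hDs))

theorem TD.lam_a (h : TD K S X A D) (hY : Y ⊆ S \ X) :
    lam (hat K (A : Set V)) ((S \ X) ∪ D) Y = lam K S Y := by
  have h1 := lam_add (hat K (A : Set V)) ((S \ X) ∪ D) Y
  have h2 := lam_add K S Y
  rw [h.guts_a hY] at h1
  have h3 : finrank k ↥(hat K (A : Set V) ⊔ guts K S Y) + finrank k K =
      finrank k (hat K (A : Set V)) + finrank k (guts K S Y) :=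
    finrank_sup_of_inf_eq (A := hat K ((S \ X : Finset V) : Set V))
      (by rw [inf_comm]; exact h.Az) (le_guts K S Y) (td_guts_le' K S Y _ hY) (le_hat _ _)
  omega

private theorem td_sets (h : TD K S X A D) (hY : Y ⊆ (S \ X) ∪ D) (hD : D ⊆ Y) :
    ((S \ X) ∪ D) \ Y = (S \ X) \ Y ∧ S \ ((Y \ D) ∪ X) = (S \ X) \ Y ∧
      (Y \ D) ∪ X ⊆ S := by
  have hdis := Finset.disjoint_left.1 h.disj
  refine ⟨?_, ?_, ?_⟩
  · ext x
    simp only [Finset.mem_sdiff, Finset.mem_union]
    constructor
    · rintro ⟨h1 | h1, h2⟩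
      · exact ⟨h1, h2⟩
      · exact absurd (hD h1) h2
    · rintro ⟨h1, h2⟩
      exact ⟨Or.inl h1, h2⟩
  · ext x
    simp only [Finset.mem_sdiff, Finset.mem_union]
    constructor
    · rintro ⟨h1, h2⟩
      have hxX : x ∉ X := fun hx => h2 (Or.inr hx)
      refine ⟨⟨h1, hxX⟩, fun hxY => h2 (Or.inl ⟨hxY, ?_⟩)⟩
      exact fun hxD => hxX (h.DX hxD)
    · rintro ⟨⟨h1, h2⟩, h3⟩
      refine ⟨h1, ?_⟩
      rintro (h4 | h4)
      · exact h3 h4.1
      · exact h2 h4
  · intro x hx
    rcases Finset.mem_union.1 hx with h1 | h1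
    · rw [Finset.mem_sdiff] at h1
      rcases Finset.mem_union.1 (hY h1.1) with h2 | h2
      · exact (Finset.mem_sdiff.1 h2).1
      · exact absurd h2 h1.2
    · exact h.XS h1

theorem TD.guts_b (h : TD K S X A D) (hY : Y ⊆ (S \ X) ∪ D) (hD : D ⊆ Y) :
    guts (hat K (A : Set V)) ((S \ X) ∪ D) Y =
      hat K (A : Set V) ⊔ guts K S ((Y \ D) ∪ X) := by
  obtain ⟨h1, h2, h3⟩ := td_sets h hY hD
  rw [← guts_compl hY, h1, h.guts_a Finset.sdiff_subset, ← h2, guts_compl h3]

theorem TD.lam_b (h : TD K S X A D) (hY : Y ⊆ (S \ X) ∪ D) (hD : D ⊆ Y) :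
    lam (hat K (A : Set V)) ((S \ X) ∪ D) Y = lam K S ((Y \ D) ∪ X) := by
  obtain ⟨h1, h2, h3⟩ := td_sets h hY hD
  rw [← lam_compl hY, h1, h.lam_a Finset.sdiff_subset, ← h2, lam_compl h3]

end general

variable {E F V : Type} [Field E] [Field F] [Algebra E F] [AddCommGroup V] [Module F V]
  [Module E V] [IsScalarTower E F V]
  [DecidableEq V] [FiniteDimensional E F] [FiniteDimensional F V] {K : Submodule F V}
  {S X A D Y : Finset V}

theorem TD.cl_a (h : TD K S X A D) (hY : Y ⊆ S \ X) (hg : CL E K S Y) :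
    CL E (hat K (A : Set V)) ((S \ X) ∪ D) Y := by
  have hYZ : hat K (Y : Set V) ≤ hat K ((S \ X : Finset V) : Set V) :=
    hat_mono le_rfl (Finset.coe_subset.2 hY)
  have h1 : Conf E (hat K (A : Set V)) ((Y : Set V) ∪ (guts K S Y : Set V)) := by
    refine Conf.up hg (M := hat K ((S \ X : Finset V) : Set V)) ?_ (le_hat _ _) (le_hat _ _)
      (by rw [inf_comm]; exact h.Az)
    rintro x (hx | hx)
    · exact hYZ (subset_hat _ _ hx)
    · exact hYZ hx.1
  refine h1.of_par ?_
  rintro x (hx | hx)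
  · exact Or.inr ⟨x, Or.inl hx, 1, one_ne_zero, by
      rw [one_smul, sub_self]
      exact Submodule.zero_mem _⟩
  · have hx' : x ∈ guts (hat K (A : Set V)) ((S \ X) ∪ D) Y := hx
    rw [h.guts_a hY] at hx'
    obtain ⟨l, hl, w, hw, rfl⟩ := Submodule.mem_sup.1 hx'
    exact Or.inr ⟨w, Or.inr hw, 1, one_ne_zero, by
      rw [one_smul, add_sub_cancel_right]
      exact hl⟩

theorem TD.cl_b (h : TD K S X A D) (hY : Y ⊆ (S \ X) ∪ D) (hD : D ⊆ Y)
    (hg : CL E K S ((Y \ D) ∪ X)) : CL E (hat K (A : Set V)) ((S \ X) ∪ D) Y := by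
  have h0 : (A : Set V) ⊆ (((Y \ D) ∪ X : Finset V) : Set V) ∪
      (guts K S ((Y \ D) ∪ X) : Set V) := by
    intro x hx
    refine Or.inl (Finset.mem_coe.2 (Finset.mem_union_right _ (h.AX (Finset.mem_coe.1 hx))))
  have h1 := Conf.contract hg h0
  refine h1.of_par ?_
  rintro x (hx | hx)
  · refine Or.inr ⟨x, Or.inl ?_, 1, one_ne_zero, by
      rw [one_smul, sub_self]
      exact Submodule.zero_mem _⟩
    rw [Finset.mem_coe, Finset.mem_union, Finset.mem_sdiff]
    by_cases hxD : x ∈ D
    · exact Or.inr (h.DX hxD)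
    · exact Or.inl ⟨Finset.mem_coe.1 hx, hxD⟩
  · have hx' : x ∈ guts (hat K (A : Set V)) ((S \ X) ∪ D) Y := hx
    rw [h.guts_b hY hD] at hx'
    obtain ⟨l, hl, w, hw, rfl⟩ := Submodule.mem_sup.1 hx'
    exact Or.inr ⟨w, Or.inr hw, 1, one_ne_zero, by
      rw [one_smul, add_sub_cancel_right]
      exact hl⟩

end Pool.Agent.SFT
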