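import Pool.Agent.SFT.Qb
import Pool.Agent.SFT.TrA

/-!
# SFT-Q2: the clique minor after the reduction `X → D` (5.2)

Adapt `Pool.Agent.HC.Q2` (there over the field with two elements; here with coefficients and scalars; `D` has at most one
element). `Z := S \ X`, `L := hat K A`, `M := L ⊔ (hat K C ⊓ hat K Z)`. `C2 ⊆ Z ∪ D` independent modulo `L` with `hat L C2 = M`
(`exists_indep_subset` for `{x ∈ Z ∪ D | x ∈ M}`; `hat L` of it is `M`: `v ∈ hat K C ⊓ hat K Z` is `a + b`,
`a ∈ hat K (C ∩ X)`, `b ∈ hat K (C \ X)`; `a ∈ guts K S X`; if `a ∉ K` it is parallel modulo `L` to the element `d` of `D` (`WD`), and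
`d ∈ M`). `g2 i ∈ hat K Z` with `g2 i - (g i - g o) ∈ hat K C` (`span_compl`; `o` a fixed vertex, `g2 o := 0`).
`q2 i j := q i j` if it is not in `X`, and the element `d` of `D` otherwise: for `q i j ∈ X`: `q i j = c + z` (`c ∈ hat K C`, `z ∈ hat K Z`,
`span_compl`), `c = a + b`, `w := q i j - a = b + z ∈ guts K S X`, not in `K` (`q_not_mem`), so `d - t • w ∈ L` for the element `d` of
`D`, `t ≠ 0`; then `w - c' • (g i - g j) ∈ hat K C`, so `d - t * c' • (g2 i - g2 j) ∈ M` (`w`, `g2 i`, `g2 j ∈ hat K Z`).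
`gind`: `∑ r i • g2 i ∈ M`: `= l + m`, `l ∈ L ⊓ hat K Z = K` (`Az`), so `∑ r i • g2 i ∈ hat K C`, so `∑ r i • g i ∈ hat K C` (`∑ r i = 0`).
`span`: `x ∈ Z`: `span` of `h` and the difference is in `hat K Z`; `x ∈ D`: `DW`, `x - w ∈ L`, `w ∈ hat K Z ≤ hat K S` (combinations of
elements of `S` are combinations of the `g i`, coefficient sum zero, modulo `hat K C`).
-/

namespace Pool.Agent.SFT

open Finset Module

variable {k V : Type} [Field k] [AddCommGroup V] [Module k V] [DecidableEq V]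
  [FiniteDimensional k V] {K : Submodule k V}
  {S C X A D : Finset V} {N : ℕ} {g : Fin N → V} {q : Fin N → Fin N → V}

omit [FiniteDimensional k V] in
/-- splitting a vector of `hat K C` along `X` -/
private theorem q2_split (K : Submodule k V) (C X : Finset V) {v : V}
    (hv : v ∈ hat K (C : Set V)) : ∃ a ∈ hat K ((C ∩ X : Finset V) : Set V),
      ∃ b ∈ hat K ((C \ X : Finset V) : Set V), a + b = v := by
  have h1 : (C : Set V) = ((C ∩ X : Finset V) : Set V) ∪ ((C \ X : Finset V) : Set V) := by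
    rw [← Finset.coe_union, Finset.union_comm, Finset.sdiff_union_inter]
  rw [h1, hat_union] at hv
  exact Submodule.mem_sup.1 hv

private theorem q2_C (h : IsQ K S C g q) (ht : TD K S X A D) :
    ∃ C2 ⊆ (S \ X) ∪ D,
      (∀ r : V → k, ∑ x ∈ C2, r x • x ∈ hat K (A : Set V) → ∀ x ∈ C2, r x = 0) ∧
      hat (hat K (A : Set V)) (C2 : Set V) =
        hat K (A : Set V) ⊔ hat K (C : Set V) ⊓ hat K ((S \ X : Finset V) : Set V) := by
  classical
  set M := hat K (A : Set V) ⊔ hat K (C : Set V) ⊓ hat K ((S \ X : Finset V) : Set V) with hM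
  obtain ⟨C2, hC2, h2, h3⟩ :=
    exists_indep_subset (hat K (A : Set V)) (((S \ X) ∪ D).filter (fun x => x ∈ M))
  refine ⟨C2, hC2.trans (Finset.filter_subset _ _), h3, h2.trans ?_⟩
  apply le_antisymm
  · refine hat_le le_sup_left fun x hx => ?_
    exact (Finset.mem_filter.1 (Finset.mem_coe.1 hx)).2
  · refine sup_le (le_hat _ _) ?_
    rintro v ⟨hv1, hv2⟩
    obtain ⟨a, ha, b, hb, rfl⟩ := q2_split K C X hv1
    have hCZ : hat K ((C \ X : Finset V) : Set V) ≤ hat K (C : Set V) ⊓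
        hat K ((S \ X : Finset V) : Set V) := by
      refine le_inf (hat_mono le_rfl ?_) (hat_mono le_rfl ?_)
      · exact Finset.coe_subset.2 Finset.sdiff_subset
      · exact Finset.coe_subset.2 (Finset.sdiff_subset_sdiff h.CS (Finset.Subset.refl X))
    have hCX : hat K ((C ∩ X : Finset V) : Set V) ≤ hat K (C : Set V) ⊓ hat K (X : Set V) := by
      refine le_inf (hat_mono le_rfl ?_) (hat_mono le_rfl ?_)
      · exact Finset.coe_subset.2 Finset.inter_subset_left
      · exact Finset.coe_subset.2 Finset.inter_subset_right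
    have hb1 := hCZ hb
    have ha1 := hCX ha
    refine Submodule.add_mem _ ?_ ?_
    · have ha2 : a ∈ hat K ((S \ X : Finset V) : Set V) := by
        have h4 := Submodule.sub_mem _ hv2 hb1.2
        rwa [add_sub_cancel_right] at h4
      by_cases haK : a ∈ K
      · exact le_hat _ _ (le_hat _ _ haK)
      · obtain ⟨d, hd, c, hc, hda⟩ := ht.WD a ⟨ha1.2, ha2⟩ haK
        have hdM : d ∈ M := by
          have h5 : d = (d - c • a) + c • a := (sub_add_cancel d _).symm
          rw [h5]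
          exact Submodule.add_mem _ (Submodule.mem_sup_left hda)
            (Submodule.mem_sup_right (Submodule.smul_mem _ c ⟨ha1.1, ha2⟩))
        have h6 : a = c⁻¹ • (d - (d - c • a)) := by
          rw [sub_sub_cancel, smul_smul, inv_mul_cancel₀ hc, one_smul]
        rw [h6]
        refine Submodule.smul_mem _ _ (Submodule.sub_mem _ ?_ (le_hat _ _ hda))
        exact subset_hat _ _ (Finset.mem_coe.2 (Finset.mem_filter.2
          ⟨Finset.mem_union_right _ hd, hdM⟩))
    · have h4 : hat K ((C \ X : Finset V) : Set V) ≤ hat (hat K (A : Set V))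
          ((((S \ X) ∪ D).filter (fun x => x ∈ M) : Finset V) : Set V) := by
        refine hat_mono (le_hat _ _) (Finset.coe_subset.2 fun x hx => ?_)
        have hx2 := Finset.mem_sdiff.1 hx
        refine Finset.mem_filter.2 ⟨Finset.mem_union_left _
          (Finset.mem_sdiff.2 ⟨h.CS hx2.1, hx2.2⟩), ?_⟩
        exact Submodule.mem_sup_right (hCZ (subset_hat K _ (Finset.mem_coe.2 hx)))
      exact h4 hb

private theorem q2_w (h : IsQ K S C g q) {ℓ : ℕ} (hN : ℓ + 2 ≤ N) (hX : QSmall k ℓ S q X)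
    (ht : TD K S X A D) {i i' : Fin N} (hij : i ≠ i') (hq : q i i' ∈ X) :
    ∃ d, d ∈ D ∧ ∃ w ∈ hat K ((S \ X : Finset V) : Set V), ∃ t c : k, t ≠ 0 ∧ c ≠ 0 ∧
      d - t • w ∈ hat K (A : Set V) ∧ w - c • (g i - g i') ∈ hat K (C : Set V) := by
  have h1 : q i i' ∈ hat (hat K (C : Set V)) ((S \ X : Finset V) : Set V) :=
    span_compl h hN hX (subset_hat K _ (Finset.mem_coe.2 (h.qS i i' hij)))
  obtain ⟨c, hc, z, hz, hcz⟩ := Submodule.mem_sup.1 h1
  obtain ⟨a, ha, b, hb, hab⟩ := q2_split K C X hc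
  have hz' : z ∈ hat K ((S \ X : Finset V) : Set V) := Submodule.mem_sup_right hz
  have hb1 : b ∈ hat K ((S \ X : Finset V) : Set V) := by
    refine hat_mono le_rfl ?_ hb
    exact Finset.coe_subset.2 (Finset.sdiff_subset_sdiff h.CS (Finset.Subset.refl X))
  have ha1 : a ∈ hat K (X : Set V) :=
    hat_mono le_rfl (Finset.coe_subset.2 Finset.inter_subset_right) ha
  have ha2 : a ∈ hat K (C : Set V) :=
    hat_mono le_rfl (Finset.coe_subset.2 Finset.inter_subset_left) ha
  have hw : q i i' - a = b + z := by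
    rw [← hcz, ← hab]
    abel
  have hwZ : q i i' - a ∈ hat K ((S \ X : Finset V) : Set V) := by
    rw [hw]
    exact Submodule.add_mem _ hb1 hz'
  have hwX : q i i' - a ∈ hat K (X : Set V) :=
    Submodule.sub_mem _ (subset_hat K _ (Finset.mem_coe.2 hq)) ha1
  have hwK : q i i' - a ∉ K := by
    intro h5
    have h6 := Submodule.add_mem _ (le_hat K (C : Set V) h5) ha2
    rw [sub_add_cancel] at h6
    exact h.q_not_mem hij h6
  obtain ⟨d, hd, t, ht0, hdw⟩ := ht.WD (q i i' - a) ⟨hwX, hwZ⟩ hwK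
  obtain ⟨c0, hc0, hqc⟩ := h.qg i i' hij
  refine ⟨d, hd, q i i' - a, hwZ, t, c0, ht0, hc0, hdw, ?_⟩
  have h10 : q i i' - a - c0 • (g i - g i') = (q i i' - c0 • (g i - g i')) - a := by abel
  rw [h10]
  exact Submodule.sub_mem _ hqc ha2

/-- the vectors which are combinations of the `g i` modulo `hat K C` -/
private def q2N (K : Submodule k V) (C : Finset V) (g : Fin N → V) : Submodule k V where
  carrier := {w | ∃ r : Fin N → k, ∑ i, r i = 0 ∧ w - ∑ i, r i • g i ∈ hat K (C : Set V)}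
  add_mem' := by
    rintro v w ⟨r, h1, h2⟩ ⟨r', h1', h2'⟩
    refine ⟨r + r', ?_, ?_⟩
    · simp only [Pi.add_apply, Finset.sum_add_distrib, h1, h1', add_zero]
    · have h3 := Submodule.add_mem _ h2 h2'
      have h4 : v - ∑ i, r i • g i + (w - ∑ i, r' i • g i) =
          v + w - ∑ i, (r + r') i • g i := by
        simp only [Pi.add_apply, add_smul, Finset.sum_add_distrib]
        abel
      rwa [h4] at h3
  zero_mem' := ⟨0, by simp, by simp⟩
  smul_mem' := by
    rintro a w ⟨r, h1, h2⟩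
    refine ⟨fun i => a * r i, ?_, ?_⟩
    · rw [← Finset.mul_sum, h1, mul_zero]
    · have h3 := Submodule.smul_mem _ a h2
      have h4 : a • (w - ∑ i, r i • g i) = a • w - ∑ i, (a * r i) • g i := by
        rw [smul_sub, Finset.smul_sum]
        simp only [mul_smul]
      rwa [h4] at h3

omit [FiniteDimensional k V] in
private theorem q2_span (h : IsQ K S C g q) {w : V} (hw : w ∈ hat K (S : Set V)) :
    ∃ r : Fin N → k, ∑ i, r i = 0 ∧ w - ∑ i, r i • g i ∈ hat K (C : Set V) := by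
  have h1 : hat K (S : Set V) ≤ q2N K C g := by
    refine hat_le ?_ ?_
    · intro v hv
      exact ⟨0, by simp, by simpa using le_hat K (C : Set V) hv⟩
    · intro x hx
      exact h.span x (Finset.mem_coe.1 hx)
  exact h1 hw

private theorem q2_g (h : IsQ K S C g q) {ℓ : ℕ} (hN : ℓ + 2 ≤ N) (hX : QSmall k ℓ S q X) :
    ∃ (g2 : Fin N → V) (o : Fin N), (∀ i, g2 i ∈ hat K ((S \ X : Finset V) : Set V)) ∧
      ∀ i, g2 i - (g i - g o) ∈ hat K (C : Set V) := by
  let o : Fin N := ⟨0, by omega⟩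
  have h1 : ∀ i, ∃ y ∈ hat K ((S \ X : Finset V) : Set V),
      y - (g i - g o) ∈ hat K (C : Set V) := by
    intro i
    by_cases hio : i = o
    · refine ⟨0, Submodule.zero_mem _, ?_⟩
      rw [hio, sub_self, sub_zero]
      exact Submodule.zero_mem _
    · have h2 : q i o ∈ hat (hat K (C : Set V)) ((S \ X : Finset V) : Set V) :=
        span_compl h hN hX (subset_hat K _ (Finset.mem_coe.2 (h.qS i o hio)))
      obtain ⟨c, hc, z, hz, hcz⟩ := Submodule.mem_sup.1 h2
      obtain ⟨c0, hc0, hqc⟩ := h.qg i o hio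
      refine ⟨c0⁻¹ • z, Submodule.smul_mem _ _ (Submodule.mem_sup_right hz), ?_⟩
      have h3 : c0⁻¹ • z - (g i - g o) = c0⁻¹ • ((q i o - c0 • (g i - g o)) - c) := by
        have h4 : z = q i o - c := by rw [← hcz]; abel
        rw [smul_sub, smul_sub, smul_smul, inv_mul_cancel₀ hc0, one_smul, h4, smul_sub]
        abel
      rw [h3]
      exact Submodule.smul_mem _ _ (Submodule.sub_mem _ hqc hc)
  choose g2 h2 h3 using h1
  exact ⟨g2, o, h2, h3⟩

theorem exists_Q2 (h : IsQ K S C g q) {ℓ : ℕ} (hN : ℓ + 2 ≤ N) (hX : QSmall k ℓ S q X)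
    (ht : TD K S X A D) : ∃ (C2 : Finset V) (g2 : Fin N → V) (q2 : Fin N → Fin N → V),
      IsQ (hat K (A : Set V)) ((S \ X) ∪ D) C2 g2 q2 ∧
      (∀ i j, i ≠ j → q i j ∈ S \ X → q2 i j = q i j) ∧
      ∀ i j, i ≠ j → q i j ∈ X → q2 i j ∈ D := by
  classical
  obtain ⟨C2, hC2S, hC2i, hC2⟩ := q2_C h ht
  obtain ⟨g2, o, hg2Z, hg2⟩ := q2_g h hN hX
  have hg2r : ∀ r : Fin N → k, ∑ i, r i • g2 i ∈ hat K ((S \ X : Finset V) : Set V) :=
    fun r => Submodule.sum_mem _ fun i _ => Submodule.smul_mem _ _ (hg2Z i)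
  have hg2s : ∀ r : Fin N → k, ∑ i, r i = 0 →
      ∑ i, r i • g2 i - ∑ i, r i • g i ∈ hat K (C : Set V) := by
    intro r hr
    have h4 : ∑ i, r i • (g2 i - (g i - g o)) ∈ hat K (C : Set V) :=
      Submodule.sum_mem _ fun i _ => Submodule.smul_mem _ _ (hg2 i)
    have h5 : ∑ i, r i • (g2 i - (g i - g o)) =
        ∑ i, r i • g2 i - ∑ i, r i • g i + (∑ i, r i) • g o := by
      simp only [smul_sub, Finset.sum_sub_distrib, Finset.sum_smul]
      abel
    rwa [h5, hr, zero_smul, add_zero] at h4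
  have hg2p : ∀ i i' : Fin N, (g2 i - g2 i') - (g i - g i') ∈ hat K (C : Set V) := by
    intro i i'
    have h1 := Submodule.sub_mem _ (hg2 i) (hg2 i')
    have h2 : g2 i - (g i - g o) - (g2 i' - (g i' - g o)) = (g2 i - g2 i') - (g i - g i') := by
      abel
    rwa [h2] at h1
  have hg2c : ∀ (i i' : Fin N) (w : V) (c : k), w - c • (g i - g i') ∈ hat K (C : Set V) →
      w ∈ hat K ((S \ X : Finset V) : Set V) →
      w - c • (g2 i - g2 i') ∈ hat K (C : Set V) ⊓ hat K ((S \ X : Finset V) : Set V) := by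
    intro i i' w c hw hwZ
    refine ⟨?_, ?_⟩
    · have h1 := Submodule.sub_mem _ hw (Submodule.smul_mem _ c (hg2p i i'))
      have h2 : w - c • (g i - g i') - c • ((g2 i - g2 i') - (g i - g i')) =
          w - c • (g2 i - g2 i') := by
        rw [smul_sub c (g2 i - g2 i') (g i - g i')]
        abel
      rwa [h2] at h1
    · exact Submodule.sub_mem _ hwZ (Submodule.smul_mem _ _
        (Submodule.sub_mem _ (hg2Z i) (hg2Z i')))
  obtain ⟨dd, hdd⟩ : ∃ dd : V, ∀ d ∈ D, d = dd := by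
    rcases D.eq_empty_or_nonempty with h0 | ⟨d, hd⟩
    · exact ⟨0, fun d hd => by rw [h0] at hd; exact absurd hd (Finset.notMem_empty d)⟩
    · exact ⟨d, fun d' hd' => Finset.card_le_one.1 ht.card d' hd' d hd⟩
  let q2 : Fin N → Fin N → V := fun i i' => if q i i' ∈ X then dd else q i i'
  have hq2X : ∀ i i', q i i' ∈ X → q2 i i' = dd := fun i i' hq => if_pos hq
  have hq2Z : ∀ i i', q i i' ∉ X → q2 i i' = q i i' := fun i i' hq => if_neg hq
  have hddX : ∀ i i', i ≠ i' → q i i' ∈ X → dd ∈ D := by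
    intro i i' hij hq
    obtain ⟨d, hd, _⟩ := q2_w h hN hX ht hij hq
    rwa [← hdd d hd]
  refine ⟨C2, g2, q2, ⟨hC2S, hC2i, ?_, ?_, ?_, ?_, ?_⟩, ?_, ?_⟩
  · intro r hr hrm
    rw [hC2] at hrm
    obtain ⟨l, hl, m, hm, hlm⟩ := Submodule.mem_sup.1 hrm
    have hlK : l ∈ K := by
      rw [← ht.Az]
      refine ⟨hl, ?_⟩
      have h1 := Submodule.sub_mem _ (hg2r r) hm.2
      rw [← hlm, add_sub_cancel_right] at h1
      exact h1
    have h2 : ∑ i, r i • g2 i ∈ hat K (C : Set V) := by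
      rw [← hlm]
      exact Submodule.add_mem _ (le_hat K _ hlK) hm.1
    have h3 := Submodule.sub_mem _ h2 (hg2s r hr)
    rw [sub_sub_cancel] at h3
    exact h.gind r hr h3
  · intro i i' hij
    by_cases hq : q i i' ∈ X
    · rw [hq2X i i' hq]
      exact Finset.mem_union_right _ (hddX i i' hij hq)
    · rw [hq2Z i i' hq]
      exact Finset.mem_union_left _ (Finset.mem_sdiff.2 ⟨h.qS i i' hij, hq⟩)
  · intro i i'
    show (if q i i' ∈ X then dd else q i i') = (if q i' i ∈ X then dd else q i' i)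
    rw [h.qsymm i i']
  · intro i i' hij
    rw [hC2]
    by_cases hq : q i i' ∈ X
    · rw [hq2X i i' hq]
      obtain ⟨d, hd, w, hw, t, c, ht0, hc0, hdw, hwg⟩ := q2_w h hN hX ht hij hq
      rw [hdd d hd] at hdw
      refine ⟨t * c, mul_ne_zero ht0 hc0, ?_⟩
      have h3 : dd - (t * c) • (g2 i - g2 i') =
          (dd - t • w) + t • (w - c • (g2 i - g2 i')) := by
        rw [smul_sub t w, smul_smul]
        abel
      rw [h3]
      exact Submodule.add_mem_sup hdw (Submodule.smul_mem _ _ (hg2c i i' w c hwg hw))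
    · rw [hq2Z i i' hq]
      obtain ⟨c, hc0, hqc⟩ := h.qg i i' hij
      refine ⟨c, hc0, Submodule.mem_sup_right (hg2c i i' _ c hqc ?_)⟩
      exact subset_hat K _ (Finset.mem_coe.2 (Finset.mem_sdiff.2 ⟨h.qS i i' hij, hq⟩))
  · intro x hx
    rw [hC2]
    have hZS : hat K ((S \ X : Finset V) : Set V) ≤ hat K (S : Set V) :=
      hat_mono le_rfl (Finset.coe_subset.2 Finset.sdiff_subset)
    have key : ∀ w ∈ hat K ((S \ X : Finset V) : Set V), ∃ r : Fin N → k, ∑ i, r i = 0 ∧
        w - ∑ i, r i • g2 i ∈ hat K (C : Set V) ⊓ hat K ((S \ X : Finset V) : Set V) := by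
      intro w hw
      obtain ⟨r, hr, hr2⟩ := q2_span h (hZS hw)
      refine ⟨r, hr, ?_, Submodule.sub_mem _ hw (hg2r r)⟩
      have h1 := Submodule.sub_mem _ hr2 (hg2s r hr)
      have h2 : w - ∑ i, r i • g i - (∑ i, r i • g2 i - ∑ i, r i • g i) =
          w - ∑ i, r i • g2 i := by abel
      rwa [h2] at h1
    rcases Finset.mem_union.1 hx with hx | hx
    · obtain ⟨r, hr, hr2⟩ := key x (subset_hat K _ (Finset.mem_coe.2 hx))
      exact ⟨r, hr, Submodule.mem_sup_right hr2⟩
    · obtain ⟨w, hw, -, hdw⟩ := ht.DW x hx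
      obtain ⟨r, hr, hr2⟩ := key w (Submodule.mem_inf.1 hw).2
      refine ⟨r, hr, ?_⟩
      have h3 : x - ∑ i, r i • g2 i = (x - w) + (w - ∑ i, r i • g2 i) := by abel
      rw [h3]
      exact Submodule.add_mem_sup hdw hr2
  · intro i i' _ hq
    exact hq2Z i i' (Finset.mem_sdiff.1 hq).2
  · intro i i' hij hq
    rw [hq2X i i' hq]
    exact hddX i i' hij hq

end Pool.Agent.SFT
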