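import Pool.Agent.SFT.BasA

/-!
# SFT-Qa: ranks of sets of edges of a complete graph

Adapt the first part of `Pool.Agent.HC.Q1` (there `pr i j` over the field with two elements; here
`ev k i j = e_i - e_j`, `ev i j + ev j l = ev i l`, `ev j i = - ev i j`). `rqs_or`: the dichotomy `WW_or` there:
if not all `ev k i j` are in `rqs k q X`, say `ev i0 j0` is not, then every `ev k i j` is in `rqs k q (S \ X)`: call `i` good if
`ev i0 i ∈ rqs k q X`; for `i` good and `j` not good the pair `i j` is not in `X`, so in `S \ X`; use the good `i0` and the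
bad `j0`. `rq_full`, `rq_or`: the `ev k i j` span a space of dimension at least `N - 1`. `rq_star`: the `n` vectors
`ev k (ι i0) (ι' l)` are independent (`ι'` injective, `ι i0` not in its range). `rq_touch`: a basis of `rqs k q X` consists of
at most `ℓ` edges, `J` := their ends.
-/

namespace Pool.Agent.SFT

open Finset Module

variable {k V : Type} [Field k] {S X Y : Finset V} {N : ℕ} {q : Fin N → Fin N → V}

theorem ev_add (i j l : Fin N) : ev k i j + ev k j l = ev k i l := by
  unfold ev
  abel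

theorem ev_neg (i j : Fin N) : - ev k i j = ev k j i := by
  unfold ev
  abel

theorem ev_sum (i j : Fin N) : ∑ t, ev k i j t = 0 := by
  unfold ev
  simp only [Pi.sub_apply, sum_sub_distrib, sum_pi_single', mem_univ, if_true]
  exact sub_self _

theorem sum_of_mem_rqs {y : Fin N → k} (h : y ∈ rqs k q X) : ∑ i, y i = 0 := by
  unfold rqs at h
  induction h using Submodule.span_induction with
  | mem y hy =>
    obtain ⟨i, j, _, _, rfl⟩ := hy
    exact ev_sum i j
  | zero => simp
  | add y z _ _ h1 h2 =>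
    simp only [Pi.add_apply, sum_add_distrib]
    rw [h1, h2, add_zero]
  | smul a y _ h1 =>
    simp only [Pi.smul_apply, smul_eq_mul]
    rw [← mul_sum, h1, mul_zero]

theorem rqs_mono (h : X ⊆ Y) : rqs k q X ≤ rqs k q Y := by
  unfold rqs
  refine Submodule.span_mono ?_
  rintro y ⟨i, j, hij, h1, h2⟩
  exact ⟨i, j, hij, h h1, h2⟩

theorem rq_mono (h : X ⊆ Y) : rq k q X ≤ rq k q Y :=
  Submodule.finrank_mono (rqs_mono h)

theorem rq_le (X : Finset V) : rq k q X ≤ N := by
  unfold rq
  refine (Submodule.finrank_le _).trans ?_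
  simp

private theorem ev_self (i : Fin N) : ev k i i = 0 := by
  unfold ev
  exact sub_self _

theorem rq_star {n n' : ℕ} (hn : 0 < n) {ι : Fin n → Fin N} {ι' : Fin n' → Fin N}
    (hι' : Function.Injective ι') (hd : ∀ i l, ι i ≠ ι' l) (h : ∀ i l, q (ι i) (ι' l) ∈ X) :
    n' ≤ rq k q X := by
  have h1 : ∀ l, ev k (ι ⟨0, hn⟩) (ι' l) ∈ rqs k q X := fun l =>
    Submodule.subset_span ⟨_, _, hd _ _, h _ _, rfl⟩
  have h2 : LinearIndependent k (fun l : Fin n' =>
      (⟨ev k (ι ⟨0, hn⟩) (ι' l), h1 l⟩ : rqs k q X)) := by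
    refine LinearIndependent.of_comp (Submodule.subtype _) ?_
    rw [Fintype.linearIndependent_iff]
    intro c hc l
    have h3 := congrFun hc (ι' l)
    simp only [Function.comp_apply, Submodule.subtype_apply, Finset.sum_apply, Pi.smul_apply,
      smul_eq_mul, Pi.zero_apply] at h3
    have h4 : ∀ l', c l' * ev k (ι ⟨0, hn⟩) (ι' l') (ι' l) = if l' = l then - c l else 0 := by
      intro l'
      unfold ev
      rw [Pi.sub_apply, Pi.single_eq_of_ne (hd _ _).symm, zero_sub]
      split_ifs with h5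
      · rw [h5, Pi.single_eq_same, mul_neg, mul_one]
      · rw [Pi.single_eq_of_ne (fun h6 => h5 (hι' h6).symm), neg_zero, mul_zero]
    rw [Finset.sum_congr rfl fun l' _ => h4 l', Finset.sum_ite_eq' Finset.univ l,
      if_pos (Finset.mem_univ l)] at h3
    exact neg_eq_zero.1 h3
  have h3 := h2.fintype_card_le_finrank
  rw [Fintype.card_fin] at h3
  exact h3

variable [DecidableEq V]

theorem rq_union (X Y : Finset V) : rq k q (X ∪ Y) ≤ rq k q X + rq k q Y := by
  have h1 : rqs k q (X ∪ Y) ≤ rqs k q X ⊔ rqs k q Y := by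
    refine Submodule.span_le.2 ?_
    rintro y ⟨i, j, hij, h1, h2⟩
    rcases mem_union.1 h1 with h3 | h3
    · exact Submodule.mem_sup_left (Submodule.subset_span ⟨i, j, hij, h3, h2⟩)
    · exact Submodule.mem_sup_right (Submodule.subset_span ⟨i, j, hij, h3, h2⟩)
  exact (Submodule.finrank_mono h1).trans (Submodule.finrank_add_le_finrank_add_finrank _ _)

theorem rq_insert (X : Finset V) {x : V} (hx : ∀ i j, i ≠ j → q i j ≠ x) :
    rq k q (insert x X) = rq k q X := by
  refine le_antisymm ?_ (rq_mono (subset_insert x X))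
  unfold rq rqs
  refine Submodule.finrank_mono (Submodule.span_mono ?_)
  rintro y ⟨i, j, hij, h1, h2⟩
  rcases mem_insert.1 h1 with h3 | h3
  · exact absurd h3 (hx i j hij)
  · exact ⟨i, j, hij, h3, h2⟩

theorem rqs_or (hq : ∀ i j, i ≠ j → q i j ∈ S) (X : Finset V) :
    (∀ i j, ev k i j ∈ rqs k q X) ∨ ∀ i j, ev k i j ∈ rqs k q (S \ X) := by
  by_cases h1 : ∀ i j, ev k i j ∈ rqs k q X
  · exact Or.inl h1
  right
  push Not at h1
  obtain ⟨i0, j0, h2⟩ := h1
  have key : ∀ i j, ev k i0 i ∈ rqs k q X → ev k i0 j ∉ rqs k q X →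
      ev k i j ∈ rqs k q (S \ X) := by
    intro i j hi hj
    have hij : i ≠ j := by
      rintro rfl
      exact hj hi
    have hqX : q i j ∉ X := by
      intro h3
      apply hj
      rw [← ev_add i0 i j]
      exact Submodule.add_mem _ hi (Submodule.subset_span ⟨i, j, hij, h3, rfl⟩)
    exact Submodule.subset_span ⟨i, j, hij, mem_sdiff.2 ⟨hq i j hij, hqX⟩, rfl⟩
  have h00 : ev k i0 i0 ∈ rqs k q X := by
    rw [ev_self]
    exact Submodule.zero_mem _
  intro i j
  by_cases hi : ev k i0 i ∈ rqs k q X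
  · by_cases hj : ev k i0 j ∈ rqs k q X
    · rw [← ev_add i j0 j, ← ev_neg j j0]
      exact Submodule.add_mem _ (key i j0 hi h2) (Submodule.neg_mem _ (key j j0 hj h2))
    · exact key i j hi hj
  · by_cases hj : ev k i0 j ∈ rqs k q X
    · rw [← ev_neg j i]
      exact Submodule.neg_mem _ (key j i hj hi)
    · rw [← ev_add i i0 j, ← ev_neg i0 i]
      exact Submodule.add_mem _ (Submodule.neg_mem _ (key i0 i h00 hi)) (key i0 j h00 hj)

theorem rq_full (h : ∀ i j, ev k i j ∈ rqs k q X) : N ≤ rq k q X + 1 := by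
  rcases Nat.eq_zero_or_pos N with h0 | h0
  · omega
  have h1 : ∀ l : Fin N, (Pi.single l (1 : k) : Fin N → k) ∈
      rqs k q X ⊔ Submodule.span k {(Pi.single ⟨0, h0⟩ (1 : k) : Fin N → k)} := by
    intro l
    have h2 : (Pi.single l (1 : k) : Fin N → k) = ev k l ⟨0, h0⟩ + Pi.single ⟨0, h0⟩ 1 := by
      unfold ev
      abel
    rw [h2]
    exact Submodule.add_mem_sup (h _ _) (Submodule.mem_span_singleton_self _)
  have h2 : (⊤ : Submodule k (Fin N → k)) ≤
      rqs k q X ⊔ Submodule.span k {(Pi.single ⟨0, h0⟩ (1 : k) : Fin N → k)} := by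
    rw [← (Pi.basisFun k (Fin N)).span_eq, Submodule.span_le]
    rintro y ⟨l, rfl⟩
    rw [Pi.basisFun_apply]
    exact h1 l
  have h3 := Submodule.finrank_mono h2
  rw [finrank_top, Module.finrank_fin_fun] at h3
  have h4 := Submodule.finrank_add_le_finrank_add_finrank (rqs k q X)
    (Submodule.span k {(Pi.single ⟨0, h0⟩ (1 : k) : Fin N → k)})
  have h5 := finrank_span_singleton (K := k) (v := (Pi.single ⟨0, h0⟩ (1 : k) : Fin N → k)) (by
    intro h6
    have h7 := congrFun h6 ⟨0, h0⟩
    rw [Pi.single_eq_same] at h7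
    exact one_ne_zero h7)
  unfold rq
  omega

theorem rq_or (hq : ∀ i j, i ≠ j → q i j ∈ S) (X : Finset V) :
    N ≤ rq k q X + 1 ∨ N ≤ rq k q (S \ X) + 1 := by
  rcases rqs_or (k := k) hq X with h1 | h1
  · exact Or.inl (rq_full h1)
  · exact Or.inr (rq_full h1)

/-- the pairs of a small set touch at most `2 * ℓ` vertices -/
theorem rq_touch {ℓ : ℕ} (h : rq k q X ≤ ℓ) : ∃ J : Finset (Fin N), J.card ≤ 2 * ℓ ∧
    ∀ i j, i ≠ j → q i j ∈ X → i ∈ J ∧ j ∈ J := by
  classical
  rcases Nat.eq_zero_or_pos N with rfl | h0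
  · exact ⟨∅, by simp, fun i => i.elim0⟩
  have hne0 : Nonempty (Fin N) := ⟨⟨0, h0⟩⟩
  obtain ⟨b, hb1, hb2, hb3⟩ := exists_linearIndependent k
    {y : Fin N → k | ∃ i j, i ≠ j ∧ q i j ∈ X ∧ y = ev k i j}
  have hfin : b.Finite := hb3.setFinite
  have hcard : hfin.toFinset.card ≤ ℓ := by
    have hft := hfin.fintype
    have h1 := finrank_span_set_eq_card (R := k) (s := b) hb3
    rw [hb2] at h1
    have h2 : hfin.toFinset = b.toFinset := by
      ext y
      simp
    rw [h2, ← h1]
    exact h
  have hb4 : ∀ y ∈ b, ∃ i j, i ≠ j ∧ q i j ∈ X ∧ y = ev k i j := fun y hy => hb1 hy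
  choose! fi fj hne hmem heq using hb4
  refine ⟨hfin.toFinset.image fi ∪ hfin.toFinset.image fj, ?_, ?_⟩
  · refine (card_union_le _ _).trans ?_
    have h1 := card_image_le (s := hfin.toFinset) (f := fi)
    have h2 := card_image_le (s := hfin.toFinset) (f := fj)
    omega
  · intro i j hij hX
    set J := hfin.toFinset.image fi ∪ hfin.toFinset.image fj with hJ
    have h1 : ev k i j ∈ Submodule.span k b := by
      rw [hb2]
      exact Submodule.subset_span ⟨i, j, hij, hX, rfl⟩
    have h2 : ∀ y ∈ Submodule.span k b, ∀ t, t ∉ J → y t = 0 := by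
      intro y hy t ht
      induction hy using Submodule.span_induction with
      | mem y hy =>
        have h3 : fi y ≠ t := fun h4 => ht (hJ ▸ mem_union_left _ (mem_image.2
          ⟨y, hfin.mem_toFinset.2 hy, h4⟩))
        have h5 : fj y ≠ t := fun h4 => ht (hJ ▸ mem_union_right _ (mem_image.2
          ⟨y, hfin.mem_toFinset.2 hy, h4⟩))
        rw [heq y hy]
        unfold ev
        rw [Pi.sub_apply, Pi.single_eq_of_ne h3.symm, Pi.single_eq_of_ne h5.symm, sub_zero]
      | zero => rfl
      | add y z _ _ h3 h4 => rw [Pi.add_apply, h3, h4, add_zero]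
      | smul a y _ h3 => rw [Pi.smul_apply, h3, smul_zero]
    constructor
    · by_contra h3
      have h4 := h2 _ h1 i h3
      unfold ev at h4
      rw [Pi.sub_apply, Pi.single_eq_same, Pi.single_eq_of_ne hij, sub_zero] at h4
      exact one_ne_zero h4
    · by_contra h3
      have h4 := h2 _ h1 j h3
      unfold ev at h4
      rw [Pi.sub_apply, Pi.single_eq_same, Pi.single_eq_of_ne hij.symm, zero_sub] at h4
      exact one_ne_zero (neg_eq_zero.1 h4)

end Pool.Agent.SFT
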