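import Pool.Agent.SFT.Qb
import Pool.Agent.SFT.Qd

/-!
# SFT-Ro1: rooting, the minimal minor (4.2, first half)

Adapt `Pool.Agent.HC.Ro1` (there with 3 instead of `ℓ` and of 2). Induction on `S.card`. `Xm`: `X0 ⊆ Xm`, small, `lam ≤ ℓ`, of maximal
cardinality. If every `x ∈ S` is in `Xm` or some `q i j`: done. Otherwise `x ∈ S`, `x ∉ Xm`, not of the form `q i j`.
(1) `lam K S (insert x X1) ≤ 2` is impossible for small `X1 ⊇ X0`: submodularity (`lam_submod`) for `Xm`, `insert x X1`, whose
intersection is small, contains `X0` (it is `Xm ∩ X1`), so has `lam ≥ 2`: `lam (Xm ∪ insert x X1) ≤ lam Xm ≤ ℓ`; the union is small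
(`small_union`, `rq_insert`), larger than `Xm`. (2) `lam K S (insert x X0) ≤ lam K S X0` is impossible: the intersection of
`Xm` and `insert x X0` is `X0`: `lam (insert x Xm) ≤ lam Xm`.
`x ∈ C`: `x ∉ hat K X0` by (2) (`lam_insert_le`); contract `x` (`IsQ.contract`); `lam' X0 = lam X0`
(`lam_contract_of_not_mem`); for small `X1 ⊇ X0`: `lam' X1 ≤ 1` gives `x ∈ hat K X1`, `lam K S X1 = 2`, `lam (insert x X1) ≤ 2`, (1).
`F := insert x F'`; `hat K X0 ⊓ hat K F = K` as there (`inf_hat_singleton`).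
`x ∉ C`: delete `x` (`IsQ.erase`): `lam K (S.erase x) X0 ≤ lam K S X0`; `lam K (S.erase x) X1 ≤ 1` gives
`lam K S (insert x X1) ≤ 2` (`lam_insert_le_erase`), (1).
-/

namespace Pool.Agent.SFT

open Finset Module

variable {k V : Type} [Field k] [AddCommGroup V] [Module k V] [DecidableEq V]
  [FiniteDimensional k V] {K : Submodule k V}
  {S C X0 : Finset V} {N : ℕ} {g : Fin N → V} {q : Fin N → Fin N → V}

theorem rt_min {ℓ : ℕ} (h : IsQ K S C g q) (hN : 2 * ℓ + 2 ≤ N) (hX0 : QSmall k ℓ S q X0)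
    (hl : lam K S X0 ≤ ℓ) (hmin : ∀ X1, X0 ⊆ X1 → QSmall k ℓ S q X1 → 2 ≤ lam K S X1) :
    ∃ A S1 C1 Xm : Finset V, A ⊆ S \ X0 ∧ S1 ⊆ S ∧ X0 ⊆ S1 ∧
      hat K (X0 : Set V) ⊓ hat K (A : Set V) = K ∧ IsQ (hat K (A : Set V)) S1 C1 g q ∧
      (∀ X1, X0 ⊆ X1 → QSmall k ℓ S1 q X1 → 2 ≤ lam (hat K (A : Set V)) S1 X1) ∧
      X0 ⊆ Xm ∧ QSmall k ℓ S1 q Xm ∧ lam (hat K (A : Set V)) S1 Xm ≤ ℓ ∧
      ∀ x ∈ S1, x ∈ Xm ∨ ∃ i j, i ≠ j ∧ x = q i j := by
  classical
  induction hn : S.card using Nat.strong_induction_on generalizing K S C with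
  | _ n ih =>
  obtain ⟨Xm, hXm, hmax⟩ := Finset.exists_max_image
    (S.powerset.filter fun X => X0 ⊆ X ∧ QSmall k ℓ S q X ∧ lam K S X ≤ ℓ) Finset.card
    ⟨X0, Finset.mem_filter.2 ⟨Finset.mem_powerset.2 hX0.1, le_rfl, hX0, hl⟩⟩
  obtain ⟨_, hX0m, hsm, hlm⟩ := Finset.mem_filter.1 hXm
  have star : ∀ Y, QSmall k ℓ S q Y → lam K S (Xm ∪ Y) ≤ ℓ → Y ⊆ Xm := by
    intro Y h2 h7
    have h8 := small_union h hN hsm h2 h7
    have h9 := hmax (Xm ∪ Y) (Finset.mem_filter.2 ⟨Finset.mem_powerset.2 h8.1,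
      hX0m.trans Finset.subset_union_left, h8, h7⟩)
    have h10 : Xm = Xm ∪ Y := Finset.eq_of_subset_of_card_le Finset.subset_union_left h9
    rw [h10]
    exact Finset.subset_union_right
  by_cases hall : ∀ x ∈ S, x ∈ Xm ∨ ∃ i j, i ≠ j ∧ x = q i j
  · refine ⟨∅, S, C, Xm, Finset.empty_subset _, le_rfl, hX0.1, ?_, ?_, ?_, hX0m, hsm, ?_, hall⟩
    · rw [Finset.coe_empty, hat_empty]
      exact inf_eq_right.2 (le_hat _ _)
    · rw [Finset.coe_empty, hat_empty]
      exact h
    · rw [Finset.coe_empty, hat_empty]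
      exact hmin
    · rw [Finset.coe_empty, hat_empty]
      exact hlm
  · push Not at hall
    obtain ⟨x, hxS, hxm, hxq⟩ := hall
    have hxq' : ∀ i j, i ≠ j → q i j ≠ x := fun i j hij e => hxq i j hij e.symm
    have hins : ∀ X1, QSmall k ℓ S q X1 → QSmall k ℓ S q (insert x X1) := by
      intro X1 h1
      refine ⟨Finset.insert_subset hxS h1.1, ?_⟩
      rw [rq_insert X1 hxq']
      exact h1.2
    have hx0 : x ∉ X0 := fun hx => hxm (hX0m hx)
    have hno : ∀ X1, X0 ⊆ X1 → QSmall k ℓ S q X1 → ¬ lam K S (insert x X1) ≤ 2 := by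
      intro X1 h1 h2 h3
      have h4 : QSmall k ℓ S q (Xm ∩ insert x X1) :=
        ⟨Finset.inter_subset_left.trans hsm.1, (rq_mono Finset.inter_subset_left).trans hsm.2⟩
      have h5 := hmin _ (Finset.subset_inter hX0m (h1.trans (Finset.subset_insert _ _))) h4
      have h6 := lam_submod (K := K) hsm.1 (hins X1 h2).1
      exact hxm (star _ (hins X1 h2) (by omega) (Finset.mem_insert_self _ _))
    have hno2 : ¬ lam K S (insert x X0) ≤ lam K S X0 := by
      intro h3
      have h4 : Xm ∩ insert x X0 = X0 := by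
        ext y
        rw [Finset.mem_inter, Finset.mem_insert]
        constructor
        · rintro ⟨h5, rfl | h6⟩
          · exact absurd h5 hxm
          · exact h6
        · intro h5
          exact ⟨hX0m h5, Or.inr h5⟩
      have h6 := lam_submod (K := K) hsm.1 (hins X0 hX0).1
      rw [h4] at h6
      exact hxm (star _ (hins X0 hX0) (by omega) (Finset.mem_insert_self _ _))
    have hX0e : X0 ⊆ S.erase x := Finset.subset_erase.2 ⟨hX0.1, hx0⟩
    have hcard : (S.erase x).card < n := by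
      rw [← hn]
      exact Finset.card_erase_lt_of_mem hxS
    have hQe : QSmall k ℓ (S.erase x) q X0 := ⟨hX0e, hX0.2⟩
    have hup : ∀ X1, QSmall k ℓ (S.erase x) q X1 → QSmall k ℓ S q X1 := fun X1 h1 =>
      ⟨h1.1.trans (Finset.erase_subset _ _), h1.2⟩
    by_cases hxC : x ∈ C
    · have hx1 : x ∉ hat K (X0 : Set V) := fun hx => hno2 (lam_insert_le hX0.1 hxS hx)
      have hxK : x ∉ K := fun hx => hx1 (le_hat _ _ hx)
      obtain ⟨A, S1, C1, Xm', a1, a2, a3, a4, a5, a6, a7, a8, a9, a10⟩ :=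
        ih _ hcard (h.contract hxC) hQe
          (by rw [lam_contract_of_not_mem hxS hxK hX0e hx1]; exact hl)
          (by
            intro X1 h1 h2
            have h3 := hmin X1 h1 (hup X1 h2)
            by_cases h4 : x ∈ hat K (X1 : Set V)
            · by_contra h5
              have h6 := lam_contract_of_mem hxS hxK h2.1 h4
              have h7 := lam_insert_le (hup X1 h2).1 hxS h4
              exact hno X1 h1 (hup X1 h2) (by omega)
            · rw [lam_contract_of_not_mem hxS hxK h2.1 h4]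
              exact h3) rfl
      have e : hat (hat K {x}) (A : Set V) = hat K ((insert x A : Finset V) : Set V) := by
        rw [hat_hat, Finset.coe_insert, Set.insert_eq]
      rw [e] at a4 a5 a6 a9
      refine ⟨insert x A, S1, C1, Xm', ?_, a2.trans (Finset.erase_subset _ _), a3, ?_, a5, a6, a7,
        a8, a9, a10⟩
      · intro y hy
        rcases Finset.mem_insert.1 hy with rfl | hy
        · exact Finset.mem_sdiff.2 ⟨hxS, hx0⟩
        · have := Finset.mem_sdiff.1 (a1 hy)
          exact Finset.mem_sdiff.2 ⟨Finset.mem_of_mem_erase this.1, this.2⟩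
      · apply le_antisymm
        · rintro v ⟨hv1, hv2⟩
          have hv3 : v ∈ hat K {x} := by
            rw [← a4]
            exact ⟨hat_mono (le_hat _ _) le_rfl hv1, hv2⟩
          have h1 := inf_hat_singleton (le_hat K (X0 : Set V)) hx1
          rw [← h1]
          exact ⟨hv1, hv3⟩
        · exact le_inf (le_hat _ _) (le_hat _ _)
    · obtain ⟨A, S1, C1, Xm', a1, a2, a3, a4, a5, a6, a7, a8, a9, a10⟩ :=
        ih _ hcard (h.erase hxC hxq') hQe
          (by
            refine le_trans ?_ hl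
            unfold lam guts
            refine Nat.sub_le_sub_right (Submodule.finrank_mono (inf_le_inf le_rfl ?_)) _
            exact hat_mono le_rfl (Finset.coe_subset.2
              (Finset.sdiff_subset_sdiff (Finset.erase_subset x S) le_rfl)))
          (by
            intro X1 h1 h2
            by_contra h3
            have h4 := lam_insert_le_erase (K := K) hxS h2.1
            exact hno X1 h1 (hup X1 h2) (by omega)) rfl
      refine ⟨A, S1, C1, Xm', a1.trans (Finset.sdiff_subset_sdiff (Finset.erase_subset x S) le_rfl),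
        a2.trans (Finset.erase_subset _ _), a3, a4, a5, a6, a7, a8, a9, a10⟩

end Pool.Agent.SFT
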