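import Pool.Agent.SFT.Qb
import Pool.Agent.SFT.Pig

/-!
# SFT-Ro2: rooting, a bipartite clique by pigeonhole (4.2, second half)

Compare `Pool.Agent.HC.Ro2`. `C ⊆ Xm` (`q_not_mem`). `J`: `rq_touch`, at most `2 * ℓ` vertices; `i ∉ J` gives `q i l ∈ Z := S \ Xm` for all
`l ≠ i`. Fix `o ∉ J`; `A := univ \ J \ {o}`. Choose for `i ≠ l` the scalar `c i l` of `qg` and put `q' i l := (c i l)⁻¹ • q i l`, so
`q' i l - (g i - g l) ∈ hat K C`. `b i := q' o i`. `τ i l := q' i l + b i - b l ∈ hat K C ⊓ hat K Z ≤ guts K S Xm` (`i ≠ l` in `A`). Colour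
by coordinates of `τ i l` modulo `K` in `guts K S Xm` (`ro2_coord` there: a linear map `γ : V → (Fin ℓ → k)` with
`γ v = 0 → v ∈ K` for `v ∈ guts`; `finrank guts ≤ finrank K + ℓ`): `Γ := Fin ℓ → k` is finite. `bip_pigeonhole`: `ι`, `ι'`, and with
`τ0 := τ (ι 0) (ι' 0)` (`n = 0`: trivial, take `B = ∅`) all `τ (ι i) (ι' l) - τ0 ∈ K`: `q' (ι i) (ι' l) = b (ι' l) - b (ι i) + τ0` modulo `K`.
Vertex vectors: `h (inl i) := - b (ι i)`, `h (inr l) := - (b (ι' l) + τ0)`: `q' _ _ - (h (inl i) - h (inr l)) ∈ K`. `ind`: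
`b i = g o - g i` and `τ0 = 0` modulo `hat K C`, so `∑ r v • h v` is modulo `hat K C` the combination
`∑ r (inl i) • g (ι i) + ∑ r (inr l) • g (ι' l)` minus `(∑ r) • g o = 0`; all `ι i`, `ι' l` are different: `gind`.
`B := ` the image of `q (ι i) (ι' l)`. `uniq`: `IsQ.inj` (different pairs).
-/

namespace Pool.Agent.SFT

open Finset Module

/-- coordinates modulo `K` on a subspace -/
private theorem ro2_coord {k V : Type} [Field k] [AddCommGroup V] [Module k V]
    [FiniteDimensional k V]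
    {K W : Submodule k V} (hKW : K ≤ W) {n : ℕ} (h : finrank k W ≤ finrank k K + n) :
    ∃ g : V →ₗ[k] (Fin n → k), ∀ v ∈ W, g v = 0 → v ∈ K := by
  classical
  set W' : Submodule k (V ⧸ K) := W.map K.mkQ with hW
  have hd : finrank k W' ≤ n := by
    have h1 : finrank k W' + finrank k K = finrank k W := by
      have h2 := LinearMap.finrank_range_add_finrank_ker (K.mkQ.domRestrict W)
      have h3 : LinearMap.range (K.mkQ.domRestrict W) = W' := by
        rw [hW]
        ext y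
        constructor
        · rintro ⟨x, rfl⟩
          exact ⟨x.1, x.2, rfl⟩
        · rintro ⟨x, hx, rfl⟩
          exact ⟨⟨x, hx⟩, rfl⟩
      have h4 : finrank k (LinearMap.ker (K.mkQ.domRestrict W)) = finrank k K := by
        refine LinearEquiv.finrank_eq ?_
        refine
          { toFun := fun x => ⟨x.1.1, ?_⟩
            invFun := fun x => ⟨⟨x.1, hKW x.2⟩, ?_⟩
            map_add' := fun x y => rfl
            map_smul' := fun c x => rfl
            left_inv := fun x => rfl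
            right_inv := fun x => rfl }
        · have h5 := x.2
          rw [LinearMap.mem_ker] at h5
          have h6 : K.mkQ x.1.1 = 0 := h5
          rwa [Submodule.mkQ_apply, Submodule.Quotient.mk_eq_zero] at h6
        · rw [LinearMap.mem_ker]
          show K.mkQ x.1 = 0
          rw [Submodule.mkQ_apply, Submodule.Quotient.mk_eq_zero]
          exact x.2
      rw [h3, h4] at h2
      exact h2
    omega
  let b := Module.finBasis k W'
  let j : W' →ₗ[k] (Fin n → k) :=
    (Function.ExtendByZero.linearMap k (Fin.castLE hd)).comp b.equivFun.toLinearMap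
  have hj : Function.Injective j := by
    intro x y hxy
    apply b.equivFun.injective
    funext i
    have h1 := congrFun hxy (Fin.castLE hd i)
    have h2 : ∀ z : W', j z (Fin.castLE hd i) = b.equivFun z i := fun z =>
      (Fin.castLE_injective hd).extend_apply (b.equivFun z) 0 i
    rw [h2, h2] at h1
    exact h1
  obtain ⟨J, hJ⟩ := LinearMap.exists_extend j
  refine ⟨J.comp K.mkQ, ?_⟩
  intro v hv h0
  have hvW : K.mkQ v ∈ W' := ⟨v, hv, rfl⟩
  have h1 : j ⟨K.mkQ v, hvW⟩ = J (K.mkQ v) := by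
    rw [← hJ]
    rfl
  rw [LinearMap.comp_apply] at h0
  rw [h0] at h1
  have h2 : (⟨K.mkQ v, hvW⟩ : W') = 0 := hj (by rw [h1, map_zero])
  have h3 : K.mkQ v = 0 := congrArg Subtype.val h2
  rwa [Submodule.mkQ_apply, Submodule.Quotient.mk_eq_zero] at h3


private theorem ro2_ind {k V : Type} [Field k] [AddCommGroup V] [Module k V] {L : Submodule k V}
    {N : ℕ} {g : Fin N → V}
    (hg : ∀ r : Fin N → k, ∑ i, r i = 0 → ∑ i, r i • g i ∈ L → r = 0) {W : Type} [Fintype W]
    {μ : W → Fin N} (hμ : Function.Injective μ) (r : W → k) (hr : ∑ v, r v = 0)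
    (h : ∑ v, r v • g (μ v) ∈ L) : r = 0 := by
  classical
  set y : Fin N → k := fun j => ∑ v, if μ v = j then r v else 0 with hy
  have h1 : ∑ j, y j = 0 := by
    rw [hy, sum_comm]
    simp only [sum_ite_eq, mem_univ, if_true]
    exact hr
  have h2 : ∑ j, y j • g j = ∑ v, r v • g (μ v) := by
    simp only [hy, sum_smul, ite_smul, zero_smul]
    rw [sum_comm]
    simp only [sum_ite_eq, mem_univ, if_true]
  have h3 := hg y h1 (by rw [h2]; exact h)
  funext w
  have h4 := congrFun h3 (μ w)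
  have h5 : y (μ w) = r w := by
    simp only [hy]
    rw [sum_eq_single w]
    · rw [if_pos rfl]
    · intro v _ hv
      rw [if_neg (fun h => hv (hμ h))]
    · intro h
      exact absurd (mem_univ w) h
  rw [← h5, h4]
  rfl

theorem rt_clique (k : Type) [Field k] [Finite k] (ℓ n : ℕ) : ∃ N0 : ℕ, ∀ N, N0 ≤ N →
    ∀ (V : Type) [AddCommGroup V] [Module k V] [DecidableEq V] [FiniteDimensional k V]
      (K : Submodule k V) (S C Xm : Finset V) (g : Fin N → V) (q : Fin N → Fin N → V),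
      IsQ K S C g q → QSmall k ℓ S q Xm → lam K S Xm ≤ ℓ →
      (∀ x ∈ S, x ∈ Xm ∨ ∃ i j, i ≠ j ∧ x = q i j) →
      ∃ (h : Fin n ⊕ Fin n → V) (B : Finset V) (ι ι' : Fin n → Fin N), IsBC K h B ∧
        B ⊆ S \ Xm ∧ Function.Injective ι' ∧ (∀ i l, ι i ≠ ι' l) ∧
        ∀ i l, q (ι i) (ι' l) ∈ B := by
  classical
  rcases Nat.eq_zero_or_pos n with hn | hn
  · subst hn
    refine ⟨0, ?_⟩
    intro N hN V _ _ _ _ K S C Xm g q hq hX hl hcov
    refine ⟨fun _ => 0, ∅, fun i => i.elim0, fun i => i.elim0, ⟨?_, fun i => i.elim0, ?_, ?_⟩,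
      empty_subset _, fun i => i.elim0, fun i => i.elim0, fun i => i.elim0⟩
    · intro r _ _
      funext v
      rcases v with v | v <;> exact v.elim0
    · intro b hb
      exact absurd hb (notMem_empty b)
    · intro b hb
      exact absurd hb (notMem_empty b)
  obtain ⟨R, hR⟩ := bip_pigeonhole (Fin ℓ → k) n
  refine ⟨R + 2 * ℓ + 1, ?_⟩
  intro N hN V _ _ _ _ K S C Xm g q hq hX hl hcov
  obtain ⟨J, hJ6, hJ⟩ := rq_touch hX.2
  have hA : N ≤ (univ \ J : Finset (Fin N)).card + 2 * ℓ := by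
    rw [card_sdiff_of_subset (subset_univ J), card_univ, Fintype.card_fin]
    omega
  obtain ⟨o, hoA⟩ : (univ \ J : Finset (Fin N)).Nonempty := by
    rw [← card_pos]
    omega
  have hoJ : o ∉ J := (mem_sdiff.1 hoA).2
  set A : Finset (Fin N) := (univ \ J).erase o with hAdef
  have hAc : R ≤ A.card := by
    rw [hAdef, card_erase_of_mem hoA]
    omega
  have hAJ : ∀ i ∈ A, i ∉ J := fun i hi => (mem_sdiff.1 (mem_of_mem_erase hi)).2
  have hAo : ∀ i ∈ A, i ≠ o := fun i hi => ne_of_mem_erase hi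
  have hCX : (C : Set V) ⊆ (Xm : Set V) := by
    intro x hx
    rcases hcov x (hq.CS hx) with h1 | ⟨i, j, hij, rfl⟩
    · exact h1
    · exact absurd (subset_hat K _ hx) (hq.q_not_mem hij)
  have hCXh : hat K (C : Set V) ≤ hat K (Xm : Set V) := hat_mono le_rfl hCX
  have hout : ∀ i j, i ≠ j → i ∉ J → q i j ∈ S \ Xm := by
    intro i j hij hi
    rw [mem_sdiff]
    exact ⟨hq.qS i j hij, fun h => hi (hJ i j hij h).1⟩
  have hcex : ∀ i j, ∃ c : k, c ≠ 0 ∧ (i ≠ j → q i j - c • (g i - g j) ∈ hat K (C : Set V)) := by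
    intro i j
    by_cases hij : i = j
    · exact ⟨1, one_ne_zero, fun h => absurd hij h⟩
    · obtain ⟨c, hc, h⟩ := hq.qg i j hij
      exact ⟨c, hc, fun _ => h⟩
  choose c hc0 hc using hcex
  set q' : Fin N → Fin N → V := fun i j => (c i j)⁻¹ • q i j with hq'
  have hq'C : ∀ i j, i ≠ j → q' i j - (g i - g j) ∈ hat K (C : Set V) := by
    intro i j hij
    have h1 := Submodule.smul_mem _ (c i j)⁻¹ (hc i j hij)
    rwa [smul_sub, smul_smul, inv_mul_cancel₀ (hc0 i j), one_smul] at h1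
  have hqq' : ∀ i j, q i j = c i j • q' i j := by
    intro i j
    simp only [hq']
    rw [smul_smul, mul_inv_cancel₀ (hc0 i j), one_smul]
  have hq'Z : ∀ i j, i ≠ j → i ∉ J → q' i j ∈ hat K ((S \ Xm : Finset V) : Set V) :=
    fun i j hij hi => Submodule.smul_mem _ _ (subset_hat K _ (mem_coe.2 (hout i j hij hi)))
  set τ : Fin N → Fin N → V := fun i l => q' i l + q' o i - q' o l with hτ
  have hτC : ∀ i l, i ≠ o → l ≠ o → i ≠ l → τ i l ∈ hat K (C : Set V) := by
    intro i l hi hl' hil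
    have h1 := Submodule.sub_mem _ (Submodule.add_mem _ (hq'C i l hil) (hq'C o i hi.symm))
      (hq'C o l hl'.symm)
    convert h1 using 1
    simp only [hτ]
    abel
  have hτW : ∀ i ∈ A, ∀ l ∈ A, i ≠ l → τ i l ∈ guts K S Xm := by
    intro i hi l hl' hil
    refine ⟨hCXh (hτC i l (hAo i hi) (hAo l hl') hil), ?_⟩
    exact Submodule.sub_mem _ (Submodule.add_mem _ (hq'Z i l hil (hAJ i hi))
      (hq'Z o i (hAo i hi).symm hoJ)) (hq'Z o l (hAo l hl').symm hoJ)
  obtain ⟨γ, hγ⟩ := ro2_coord (K := K) (W := guts K S Xm) (n := ℓ) (le_guts K S Xm) (by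
    rw [← lam_add]
    omega)
  obtain ⟨ι, ι', hι, hι', hιA, hι'A, hne, hmono⟩ := hR (Fin N) A (fun i l => γ (τ i l)) hAc
  set z : Fin n := ⟨0, hn⟩ with hz
  set τ0 : V := τ (ι z) (ι' z) with hτ0
  have hτ0C : τ0 ∈ hat K (C : Set V) := hτC _ _ (hAo _ (hιA _)) (hAo _ (hι'A _)) (hne _ _)
  have hK : ∀ i l, τ (ι i) (ι' l) - τ0 ∈ K := by
    intro i l
    apply hγ
    · exact Submodule.sub_mem _ (hτW _ (hιA i) _ (hι'A l) (hne i l))
        (hτW _ (hιA z) _ (hι'A z) (hne z z))
    · rw [map_sub]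
      have := hmono i l z z
      rw [this, sub_self]
  set h : Fin n ⊕ Fin n → V := Sum.elim (fun i => - q' o (ι i)) (fun l => - (q' o (ι' l) + τ0))
    with hh
  set B : Finset V := univ.image (fun p : Fin n × Fin n => q (ι p.1) (ι' p.2)) with hB
  have hBm : ∀ i l, q (ι i) (ι' l) ∈ B := fun i l =>
    mem_image.2 ⟨(i, l), mem_univ _, rfl⟩
  have hpar : ∀ i l, q (ι i) (ι' l) - c (ι i) (ι' l) • (h (Sum.inl i) - h (Sum.inr l)) ∈ K := by
    intro i l
    have h1 := Submodule.smul_mem _ (c (ι i) (ι' l)) (hK i l)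
    rw [hqq' (ι i) (ι' l), ← smul_sub]
    convert h1 using 2
    simp only [hh, hτ, Sum.elim_inl, Sum.elim_inr]
    abel
  refine ⟨h, B, ι, ι', ⟨?_, ?_, ?_, ?_⟩, ?_, hι', hne, hBm⟩
  · intro r hr hrK
    set μ : Fin n ⊕ Fin n → Fin N := Sum.elim ι ι' with hμ
    have hμi : Function.Injective μ := by
      rintro (a | a) (b | b) hab
      · exact congrArg Sum.inl (hι hab)
      · exact absurd hab (hne a b)
      · exact absurd hab.symm (hne b a)
      · exact congrArg Sum.inr (hι' hab)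
    refine ro2_ind (L := hat K (C : Set V)) hq.gind hμi r hr ?_
    have hd : ∀ v, g (μ v) - g o - h v ∈ hat K (C : Set V) := by
      rintro (a | a)
      · have h1 := hq'C o (ι a) (hAo _ (hιA a)).symm
        convert h1 using 1
        simp only [hμ, hh, Sum.elim_inl]
        abel
      · have h1 := Submodule.add_mem _ (hq'C o (ι' a) (hAo _ (hι'A a)).symm) hτ0C
        convert h1 using 1
        simp only [hμ, hh, Sum.elim_inr]
        abel
    have h1 : ∑ v, r v • g (μ v) = ∑ v, r v • (g (μ v) - g o - h v) + ∑ v, r v • h v := by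
      simp only [smul_sub, sum_sub_distrib]
      rw [← sum_smul, hr, zero_smul]
      abel
    rw [h1]
    exact Submodule.add_mem _ (Submodule.sum_mem _ fun v _ => Submodule.smul_mem _ _ (hd v))
      (le_hat K _ hrK)
  · intro i l
    exact ⟨_, hBm i l, _, hc0 _ _, hpar i l⟩
  · intro b hb
    obtain ⟨⟨i, l⟩, _, rfl⟩ := mem_image.1 hb
    exact ⟨i, l, _, hc0 _ _, hpar i l⟩
  · intro b hb b' hb' s hs
    obtain ⟨⟨i, l⟩, _, rfl⟩ := mem_image.1 hb
    obtain ⟨⟨i', l'⟩, _, rfl⟩ := mem_image.1 hb'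
    rcases hq.inj (hne i l) (hne i' l') (le_hat K _ hs) with ⟨h1, h2⟩ | ⟨h1, h2⟩
    · show q (ι i) (ι' l) = q (ι i') (ι' l')
      rw [h1, h2]
    · exact absurd h1 (hne i l')
  · intro b hb
    obtain ⟨⟨i, l⟩, _, rfl⟩ := mem_image.1 hb
    exact hout _ _ (hne i l) (hAJ _ (hιA i))

end Pool.Agent.SFT
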