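import Pool.Agent.SFT.Ro1
import Pool.Agent.SFT.Ro2
import Pool.Agent.SFT.Link
import Pool.Agent.SFT.BcM

/-!
# SFT-Ro3: rooting, assembly (4.2)

Adapt `Pool.Agent.HC.Ro3`. `N0 := max (2 * ℓ + 2) (rt_clique k ℓ n)`. `rt_min`, `rt_clique`, `linking K1 (hat K1 B) (S1 \ B) X0 2`: for
`X0 ⊆ Y ⊆ S1 \ B` the space in the hypothesis is `guts K1 S1 Y`; if `lam K1 S1 Y ≤ 1 ≤ ℓ` then `Y` is small or `S1 \ Y` is small
(`small_or`); `S1 \ Y` contains `B`, of rank at least `n > ℓ` (`rq_star`); so `Y` is small, against the minimality property.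
`IsBC.mono` for the larger contraction.
-/

namespace Pool.Agent.SFT

open Finset Module

theorem rooting (k : Type) [Field k] [Finite k] (ℓ n : ℕ) (hℓ : 1 ≤ ℓ) (hn : ℓ < n) :
    ∃ N0 : ℕ, ∀ N, N0 ≤ N →
    ∀ (V : Type) [AddCommGroup V] [Module k V] [DecidableEq V] [FiniteDimensional k V]
      (K : Submodule k V) (S C X0 : Finset V) (g : Fin N → V) (q : Fin N → Fin N → V),
      IsQ K S C g q → QSmall k ℓ S q X0 → lam K S X0 ≤ ℓ →
      (∀ X1, X0 ⊆ X1 → QSmall k ℓ S q X1 → 2 ≤ lam K S X1) →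
      ∃ (A B : Finset V) (h : Fin n ⊕ Fin n → V), A ⊆ S \ X0 ∧ B ⊆ S \ X0 ∧
        hat K (X0 : Set V) ⊓ hat K (A : Set V) = K ∧ IsBC (hat K (A : Set V)) h B ∧
        finrank k (hat K (A : Set V)) + 2 ≤
          finrank k ↥(hat (hat K (A : Set V)) (X0 : Set V) ⊓
            hat (hat K (A : Set V)) (B : Set V)) := by
  obtain ⟨Nc, hNc⟩ := rt_clique k ℓ n
  refine ⟨max (2 * ℓ + 2) Nc, ?_⟩
  intro N hN V _ _ _ _ K S C X0 g q h hX0 hl hmin
  have hN11 : 2 * ℓ + 2 ≤ N := (le_max_left _ _).trans hN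
  have hNNc : Nc ≤ N := (le_max_right _ _).trans hN
  have hn0 : 0 < n := by omega
  obtain ⟨A, S1, C1, Xm, hA, hS1, hX0S1, hAK, hQ1, hmin1, hXm0, hXms, hXml, hcov⟩ :=
    rt_min h hN11 hX0 hl hmin
  obtain ⟨f, B, ι, ι', hcl, hB, hι', hd, hqB⟩ :=
    hNc N hNNc V (hat K (A : Set V)) S1 C1 Xm g q hQ1 hXms hXml hcov
  have hBS1 : B ⊆ S1 := hB.trans sdiff_subset
  have hBXm : ∀ x ∈ B, x ∉ Xm := fun x hx => (mem_sdiff.1 (hB hx)).2
  have hX0B : X0 ⊆ S1 \ B := fun x hx =>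
    mem_sdiff.2 ⟨hX0S1 hx, fun hxB => hBXm x hxB (hXm0 hx)⟩
  obtain ⟨A2, hA2, h1, h2, h3⟩ := linking (hat K (A : Set V))
    (hat (hat K (A : Set V)) (B : Set V)) (le_hat _ _) (S1 \ B) X0 hX0B 2 (by
      intro Y hY0 hYS
      have hYS1 : Y ⊆ S1 := hYS.trans sdiff_subset
      have hYB : ∀ x ∈ B, x ∉ Y := fun x hx hxY => (mem_sdiff.1 (hYS hxY)).2 hx
      have e1 : hat (hat K (A : Set V)) (((S1 \ B) \ Y : Finset V) : Set V) ⊔
          hat (hat K (A : Set V)) (B : Set V) =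
          hat (hat K (A : Set V)) ((S1 \ Y : Finset V) : Set V) := by
        rw [← hat_union, ← coe_union]
        congr 2
        ext x
        simp only [mem_union, mem_sdiff]
        constructor
        · rintro (⟨⟨ha, hb⟩, hc⟩ | ha)
          · exact ⟨ha, hc⟩
          · exact ⟨hBS1 ha, hYB x ha⟩
        · rintro ⟨ha, hb⟩
          by_cases hx : x ∈ B
          · exact Or.inr hx
          · exact Or.inl ⟨⟨ha, hx⟩, hb⟩
      rw [e1]
      have h4 := lam_add (hat K (A : Set V)) S1 Y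
      unfold guts at h4
      by_contra hcon
      have hlam : lam (hat K (A : Set V)) S1 Y ≤ 1 := by omega
      rcases small_or hQ1 hYS1 (hlam.trans hℓ) with hsm | hsm
      · have := hmin1 Y hY0 hsm
        omega
      · have hst := rq_star (k := k) (q := q) (X := S1 \ Y) hn0 hι' hd
          (fun i l => mem_sdiff.2 ⟨hBS1 (hqB i l), hYB _ (hqB i l)⟩)
        have := hsm.2
        omega)
  have eF : hat K ((A ∪ A2 : Finset V) : Set V) = hat (hat K (A : Set V)) (A2 : Set V) := by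
    rw [hat_hat, coe_union]
  refine ⟨A ∪ A2, B, f, ?_, ?_, ?_, ?_, ?_⟩
  · refine union_subset hA (hA2.trans ?_)
    intro x hx
    rw [mem_sdiff, mem_sdiff] at hx
    exact mem_sdiff.2 ⟨hS1 hx.1.1, hx.2⟩
  · intro x hx
    exact mem_sdiff.2 ⟨hS1 (hBS1 hx), fun hx0 => hBXm x hx (hXm0 hx0)⟩
  · rw [eF]
    apply le_antisymm
    · intro v hv
      have hv1 : v ∈ hat K (A : Set V) := by
        rw [← h1]
        exact ⟨hat_mono (le_hat _ _) subset_rfl hv.1, hv.2⟩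
      rw [← hAK]
      exact ⟨hv.1, hv1⟩
    · exact le_inf (le_hat _ _) ((le_hat K (A : Set V)).trans (le_hat _ _))
  · rw [eF]
    exact hcl.mono hn0 hn0 (le_hat _ _) h2
  · rw [eF]
    have e2 : hat (hat (hat K (A : Set V)) (A2 : Set V)) (X0 : Set V) =
        hat (hat K (A : Set V)) ((A2 ∪ X0 : Finset V) : Set V) := by
      rw [hat_hat (hat K (A : Set V)), coe_union]
    have e3 : hat (hat (hat K (A : Set V)) (A2 : Set V)) (B : Set V) =
        hat (hat K (A : Set V)) (A2 : Set V) ⊔ hat (hat K (A : Set V)) (B : Set V) := by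
      rw [hat_hat (hat K (A : Set V)), hat_union]
    rw [e2, e3]
    exact h3

end Pool.Agent.SFT
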