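import Pool.Agent.SFT.Defs

/-! # SFT-Zv: the special coordinates (Lemma Z) -/

namespace Pool.Agent.SFT

open Finset Module

variable {E F : Type} [Field E] [Field F] [Algebra E F]

/-- finitely many coordinates which determine the elements of `U` -/
private theorem zv_coords {J : Type} [Fintype J] (U : Submodule F (J → F)) :
    ∃ vs : Fin (finrank F U) → J, (∀ y ∈ U, (∀ i, y (vs i) = 0) → y = 0) := by
  classical
  set c : J → Dual F U := fun v => (LinearMap.proj v : (J → F) →ₗ[F] F).comp U.subtype with hc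
  have hcv : ∀ v (y : U), c v y = y.1 v := fun _ _ => rfl
  obtain ⟨b, hb1, hb2, hb3⟩ := exists_linearIndependent F (Set.range c)
  have hfin : b.Finite := (Set.finite_range c).subset hb1
  have : Fintype b := hfin.fintype
  -- the span is everything
  have hker : ∀ y : U, (∀ f ∈ b, f y = 0) → y = 0 := by
    intro y hy
    have h1 : ∀ f ∈ Submodule.span F b, f y = 0 := by
      intro f hf
      induction hf using Submodule.span_induction with
      | mem f hf => exact hy f hf
      | zero => rfl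
      | add f g _ _ h1 h2 => rw [LinearMap.add_apply, h1, h2, add_zero]
      | smul a f _ h1 => rw [LinearMap.smul_apply, h1, smul_zero]
    apply Subtype.ext
    funext v
    have h2 : c v ∈ Submodule.span F b := by
      rw [hb2]
      exact Submodule.subset_span ⟨v, rfl⟩
    exact h1 _ h2
  have hcard : Fintype.card b ≤ finrank F U := by
    have h1 := hb3.fintype_card_le_finrank
    rwa [Subspace.dual_finrank_eq] at h1
  -- enough coordinates: pad
  choose g hg using fun f : b => hb1 f.2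
  by_cases hn : Nonempty (Fin (finrank F U)) ∧ Nonempty J
  · obtain ⟨⟨i0⟩, ⟨j0⟩⟩ := hn
    let e := Fintype.equivFin b
    refine ⟨fun i => if h : (i : ℕ) < Fintype.card b then g (e.symm ⟨i, h⟩) else j0, ?_⟩
    intro y hy h0
    have h1 := hker ⟨y, hy⟩ (by
      intro f hf
      have h2 := h0 ⟨(e ⟨f, hf⟩ : ℕ), lt_of_lt_of_le (e ⟨f, hf⟩).2 hcard⟩
      have h3 : ((e ⟨f, hf⟩ : Fin _) : ℕ) < Fintype.card b := (e ⟨f, hf⟩).2
      simp only [h3, dif_pos, Fin.eta, Equiv.symm_apply_apply] at h2
      have h4 : f = c (g ⟨f, hf⟩) := (hg ⟨f, hf⟩).symm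
      rw [h4, hcv]
      exact h2)
    exact congrArg Subtype.val h1
  · rw [not_and_or] at hn
    rcases hn with hn | hn
    · have h0 : finrank F U = 0 := by
        by_contra h1
        exact hn ⟨⟨0, Nat.pos_of_ne_zero h1⟩⟩
      have h2 : U = ⊥ := Submodule.finrank_eq_zero.1 h0
      refine ⟨fun i => absurd ⟨i⟩ hn, fun y hy _ => ?_⟩
      rwa [h2, Submodule.mem_bot] at hy
    · have h2 : ∀ y : J → F, y = 0 := fun y => funext fun j => absurd ⟨j⟩ hn
      have h0 : finrank F U = 0 := by
        have : Subsingleton U := ⟨fun a b => Subtype.ext ((h2 _).trans (h2 _).symm)⟩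
        exact finrank_zero_of_subsingleton
      have : IsEmpty (Fin (finrank F U)) := by
        rw [h0]
        infer_instance
      exact ⟨fun i => isEmptyElim i, fun y _ _ => h2 y⟩

theorem exists_coord {J : Type} [Fintype J] (U : Submodule F (J → F)) (hU : U ≠ ⊥)
    (hr : ∀ x ∈ U, (∀ v, ∃ a : E, algebraMap E F a = x v) → x = 0) :
    ∃ (t : ℕ) (w : Fin (t + 2) → J) (z : J → F), t + 1 = finrank F U ∧ Function.Injective w ∧
      z ∈ U ∧ z (w 1) = 1 ∧ (∀ a : E, algebraMap E F a ≠ z (w 0)) ∧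
      (∀ i, i ≠ 0 → i ≠ 1 → z (w i) = 0) ∧
      ∀ y ∈ U, (∀ i, i ≠ 0 → i ≠ 1 → y (w i) = 0) → y = y (w 1) • z := by
  classical
  have hpos : 0 < finrank F U := by
    rw [Nat.pos_iff_ne_zero]
    intro h
    exact hU (Submodule.finrank_eq_zero.1 h)
  obtain ⟨t, ht⟩ : ∃ t, finrank F U = t + 1 := ⟨finrank F U - 1, by omega⟩
  obtain ⟨vs, hvs⟩ : ∃ vs : Fin (t + 1) → J, ∀ y ∈ U, (∀ i, y (vs i) = 0) → y = 0 := by
    rw [← ht]
    exact zv_coords U
  -- the coordinate map
  let Φ : U →ₗ[F] (Fin (t + 1) → F) :=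
    { toFun := fun y i => y.1 (vs i)
      map_add' := fun _ _ => rfl
      map_smul' := fun _ _ => rfl }
  have hinj : Function.Injective Φ := by
    rw [← LinearMap.ker_eq_bot, LinearMap.ker_eq_bot']
    intro y hy
    exact Subtype.ext (hvs y.1 y.2 fun i => congrFun hy i)
  have hsurj : Function.Surjective Φ := by
    refine (LinearMap.injective_iff_surjective_of_finrank_eq_finrank ?_).1 hinj
    rw [ht, finrank_fintype_fun_eq_card, Fintype.card_fin]
  obtain ⟨z, hz⟩ := hsurj (Pi.single 0 1)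
  have hz' : ∀ i, z.1 (vs i) = (Pi.single 0 1 : Fin (t + 1) → F) i := fun i => congrFun hz i
  have hz0 : z.1 ≠ 0 := by
    intro h
    have h1 := hz' 0
    rw [h, Pi.single_eq_same] at h1
    exact zero_ne_one h1
  have hv : ∃ v, ∀ a : E, algebraMap E F a ≠ z.1 v := by
    by_contra hcon
    push Not at hcon
    exact hz0 (hr z.1 z.2 hcon)
  obtain ⟨v, hv⟩ := hv
  have hvi : Function.Injective vs := by
    intro i j hij
    obtain ⟨y, hy⟩ := hsurj (Pi.single i 1)
    have h1 : y.1 (vs i) = 1 := by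
      have := congrFun hy i
      rw [Pi.single_eq_same] at this
      exact this
    have h2 : y.1 (vs j) = (Pi.single i 1 : Fin (t + 1) → F) j := congrFun hy j
    by_contra hne
    rw [← hij, h1, Pi.single_eq_of_ne (Ne.symm hne)] at h2
    exact one_ne_zero h2
  have hvn : ∀ i, v ≠ vs i := by
    rintro i rfl
    by_cases hi : i = 0
    · apply hv 1
      rw [map_one, hz', hi, Pi.single_eq_same]
    · apply hv 0
      rw [map_zero, hz', Pi.single_eq_of_ne hi]
  have hsucc : ∀ i : Fin (t + 2), i ≠ 0 → ∃ j : Fin (t + 1), i = j.succ := fun i hi =>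
    ⟨i.pred hi, (Fin.succ_pred i hi).symm⟩
  have h1w : (Fin.cons v vs : Fin (t + 2) → J) 1 = vs 0 := by
    rw [← Fin.succ_zero_eq_one]
    exact Fin.cons_succ _ _ _
  refine ⟨t, Fin.cons v vs, z.1, ht.symm, ?_, z.2, ?_, ?_, ?_, ?_⟩
  · rw [Fin.cons_injective_iff]
    refine ⟨?_, hvi⟩
    rintro ⟨i, hi⟩
    exact hvn i hi.symm
  · rw [h1w, hz', Pi.single_eq_same]
  · intro a
    rw [Fin.cons_zero]
    exact hv a
  · intro i hi0 hi1
    obtain ⟨j, rfl⟩ := hsucc i hi0
    rw [Fin.cons_succ, hz', Pi.single_eq_of_ne]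
    rintro rfl
    exact hi1 (Fin.succ_zero_eq_one)
  · intro y hy h0
    rw [h1w]
    have h1 : y - y (vs 0) • z.1 = 0 := by
      apply hvs _ (U.sub_mem hy (U.smul_mem _ z.2))
      intro i
      rw [Pi.sub_apply, Pi.smul_apply, hz', smul_eq_mul]
      by_cases hi : i = 0
      · rw [hi, Pi.single_eq_same, mul_one, sub_self]
      · have h2 := h0 i.succ (Fin.succ_ne_zero i) (by
          intro h3
          rw [← Fin.succ_zero_eq_one] at h3
          exact hi (Fin.succ_injective _ h3))
        rw [Fin.cons_succ] at h2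
        rw [h2, Pi.single_eq_of_ne hi, mul_zero, sub_zero]
    exact sub_eq_zero.1 h1

end Pool.Agent.SFT
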